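import Mathlib

set_option autoImplicit false
open Polynomial Set Filter Topology MeasureTheory Metric

namespace AS.J4094

theorem poisson_form (A : ℝ → ℝ) {ε : ℝ} (hε : 0 < ε) (x : ℝ) :
    ∫ t : ℝ, A t * (ε / ((t - x) ^ 2 + ε ^ 2)) = ∫ u : ℝ, A (x + ε * u) * (1 + u ^ 2)⁻¹ := by
  have e1 : ∫ t : ℝ, A t * (ε / ((t - x) ^ 2 + ε ^ 2)) =
      ∫ t : ℝ, A (x + t) * (ε / (t ^ 2 + ε ^ 2)) := by
    rw [← integral_sub_right_eq_self (fun t : ℝ => A (x + t) * (ε / (t ^ 2 + ε ^ 2))) x]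
    congr 1
    funext t
    congr 2
    ring
  rw [e1]
  have e2 := Measure.integral_comp_mul_left
    (fun t : ℝ => A (x + t) * (ε / (t ^ 2 + ε ^ 2))) ε
  have e3 : ∫ t : ℝ, A (x + t) * (ε / (t ^ 2 + ε ^ 2)) =
      ε * ∫ u : ℝ, A (x + ε * u) * (ε / ((ε * u) ^ 2 + ε ^ 2)) := by
    rw [e2, smul_eq_mul, ← mul_assoc, abs_of_pos (inv_pos.2 hε), mul_inv_cancel₀ hε.ne', one_mul]
  rw [e3, ← integral_const_mul]
  congr 1
  funext u
  have h1 : (ε * u) ^ 2 + ε ^ 2 ≠ 0 := by positivity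
  have h2 : 1 + u ^ 2 ≠ 0 := by positivity
  field_simp
  ring

theorem den_norm_ge {ε : ℝ} (hε : 0 < ε) (x t : ℝ) :
    ε ≤ ‖(((x : ℂ) + ε * Complex.I) - t)‖ ∧ ε ≤ ‖(((x : ℂ) - ε * Complex.I) - t)‖ := by
  constructor
  · have h := Complex.abs_im_le_norm (((x : ℂ) + ε * Complex.I) - t)
    have e : (((x : ℂ) + ε * Complex.I) - t).im = ε := by simp
    rw [e, abs_of_pos hε] at h
    exact h
  · have h := Complex.abs_im_le_norm (((x : ℂ) - ε * Complex.I) - t)
    have e : (((x : ℂ) - ε * Complex.I) - t).im = -ε := by simp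
    rw [e, abs_neg, abs_of_pos hε] at h
    exact h

theorem cauchy_integrable (A : ℝ → ℝ) (hA : Integrable A) {ε : ℝ} (hε : 0 < ε) (w : ℂ)
    (hw : ∀ t : ℝ, ε ≤ ‖w - t‖) : Integrable (fun t : ℝ => (A t : ℂ) / (w - t)) := by
  have h1 : Integrable (fun t : ℝ => (A t : ℂ)) := hA.ofReal
  have h2 : Continuous (fun t : ℝ => (w - t)⁻¹) := by
    apply Continuous.inv₀
    · fun_prop
    · intro t h
      have := hw t
      rw [h, norm_zero] at this
      linarith
  have h3 : Integrable (fun t : ℝ => (w - t)⁻¹ * (A t : ℂ)) := by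
    apply h1.bdd_mul h2.aestronglyMeasurable (c := ε⁻¹)
    refine ae_of_all _ ?_
    intro t
    rw [norm_inv]
    exact inv_anti₀ hε (hw t)
  refine h3.congr (ae_of_all _ ?_)
  intro t
  simp only
  rw [mul_comm, div_eq_mul_inv]

theorem diff_form (A : ℝ → ℝ) (hA : Integrable A) {ε : ℝ} (hε : 0 < ε) (x : ℝ) :
    (∫ t, (A t : ℂ) / (((x : ℂ) + ε * Complex.I) - t))
        - ∫ t, (A t : ℂ) / (((x : ℂ) - ε * Complex.I) - t) =
      (-2 * Complex.I) * ((∫ u : ℝ, A (x + ε * u) * (1 + u ^ 2)⁻¹ : ℝ) : ℂ) := by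
  rw [← integral_sub (cauchy_integrable A hA hε _ (fun t => (den_norm_ge hε x t).1))
    (cauchy_integrable A hA hε _ (fun t => (den_norm_ge hε x t).2)), ← poisson_form A hε x,
    ← integral_complex_ofReal, ← integral_const_mul]
  congr 1
  funext t
  have h1 : (((x : ℂ) + ε * Complex.I) - t) ≠ 0 := by
    intro h
    have := (den_norm_ge hε x t).1
    rw [h, norm_zero] at this
    linarith
  have h2 : (((x : ℂ) - ε * Complex.I) - t) ≠ 0 := by
    intro h
    have := (den_norm_ge hε x t).2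
    rw [h, norm_zero] at this
    linarith
  have h3 : (((t : ℂ) - x) ^ 2 + (ε : ℂ) ^ 2) = (((x : ℂ) + ε * Complex.I) - t) * (((x : ℂ) - ε * Complex.I) - t) := by
    have hI : Complex.I ^ 2 = -1 := Complex.I_sq
    linear_combination ((ε : ℂ) ^ 2) * hI
  push_cast
  rw [h3]
  have h4 : (A t : ℂ) / (((x : ℂ) + ε * Complex.I) - t) - (A t : ℂ) / (((x : ℂ) - ε * Complex.I) - t) =
      (A t : ℂ) * ((((x : ℂ) - ε * Complex.I) - t) - (((x : ℂ) + ε * Complex.I) - t)) /
        ((((x : ℂ) + ε * Complex.I) - t) * (((x : ℂ) - ε * Complex.I) - t)) := by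
    field_simp
  rw [h4]
  ring

/-- TARGET 1: jump of a Cauchy transform -/
theorem jump (A : ℝ → ℝ) (hA : Integrable A) (M : ℝ) (hM : ∀ t, |A t| ≤ M) (x : ℝ)
    (hx : ContinuousAt A x) :
    Tendsto (fun ε : ℝ => (∫ t, (A t : ℂ) / (((x : ℂ) + ε * Complex.I) - t))
        - ∫ t, (A t : ℂ) / (((x : ℂ) - ε * Complex.I) - t)) (𝓝[>] 0)
      (𝓝 (-2 * Real.pi * Complex.I * A x)) := by
  have hlim : Tendsto (fun ε : ℝ => ∫ u : ℝ, A (x + ε * u) * (1 + u ^ 2)⁻¹) (𝓝[>] 0)
      (𝓝 (∫ u : ℝ, A x * (1 + u ^ 2)⁻¹)) := by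
    apply tendsto_integral_filter_of_dominated_convergence (fun u => M * (1 + u ^ 2)⁻¹)
    · filter_upwards [self_mem_nhdsWithin] with ε hε
      have hε' : (0 : ℝ) < ε := hε
      have h1 : Integrable (fun u : ℝ => A (x + ε * u)) :=
        (hA.comp_add_left x).comp_mul_left' hε'.ne'
      apply h1.aestronglyMeasurable.mul
      apply Continuous.aestronglyMeasurable
      apply Continuous.inv₀
      · fun_prop
      · intro u
        positivity
    · filter_upwards with ε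
      refine ae_of_all _ ?_
      intro u
      rw [norm_mul, Real.norm_eq_abs, norm_inv, Real.norm_eq_abs, abs_of_pos (show (0:ℝ) < 1 + u ^ 2 by positivity)]
      exact mul_le_mul_of_nonneg_right (hM _) (by positivity)
    · exact integrable_inv_one_add_sq.const_mul M
    · refine ae_of_all _ ?_
      intro u
      apply Tendsto.mul_const
      have h1 : Tendsto (fun ε : ℝ => x + ε * u) (𝓝[>] 0) (𝓝 x) := by
        have : Tendsto (fun ε : ℝ => x + ε * u) (𝓝 0) (𝓝 (x + 0 * u)) := by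
          apply Continuous.tendsto
          fun_prop
        rw [zero_mul, add_zero] at this
        exact this.mono_left nhdsWithin_le_nhds
      exact hx.tendsto.comp h1
  rw [integral_const_mul, integral_univ_inv_one_add_sq] at hlim
  have h2 : Tendsto (fun ε : ℝ => (-2 * Complex.I) * ((∫ u : ℝ, A (x + ε * u) * (1 + u ^ 2)⁻¹ : ℝ) : ℂ))
      (𝓝[>] 0) (𝓝 ((-2 * Complex.I) * ((A x * Real.pi : ℝ) : ℂ))) :=
    ((Complex.continuous_ofReal.tendsto _).comp hlim).const_mul _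
  have e : (-2 * Complex.I) * ((A x * Real.pi : ℝ) : ℂ) = -2 * Real.pi * Complex.I * A x := by
    push_cast
    ring
  rw [e] at h2
  refine h2.congr' ?_
  filter_upwards [self_mem_nhdsWithin] with ε hε
  exact (diff_form A hA hε x).symm

end AS.J4094

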