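import Mathlib

set_option autoImplicit false
open Polynomial Set Filter Topology MeasureTheory Metric

namespace AS

/-- solution of f' = a f + p on V -/
def Sol (a p : ℂ → ℂ) (V : Set ℂ) (f : ℂ → ℂ) : Prop :=
  ∀ z ∈ V, HasDerivAt f (a z * f z + p z) z

/-- nowhere vanishing solution of b' = a b on V -/
def Hom (a : ℂ → ℂ) (V : Set ℂ) (b : ℂ → ℂ) : Prop :=
  ∀ z ∈ V, HasDerivAt b (a z * b z) z ∧ b z ≠ 0

/-- the coset `v + 𝒪 b`, `𝒪` the ring of algebraic integers -/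
def coset (v b : ℂ) : Set ℂ := {w | ∃ x : ℂ, IsIntegral ℤ x ∧ w = v + x * b}

/-- local form of a flat coset field -/
def FlatAt (a p : ℂ → ℂ) (C : ℂ → Set ℂ) (z₀ : ℂ) : Prop :=
  ∃ ε > 0, ∃ f b : ℂ → ℂ, Sol a p (ball z₀ ε) f ∧ Hom a (ball z₀ ε) b ∧
    ∀ z ∈ ball z₀ ε, C z = coset (f z) (b z)

/-- flat coset field -/
def Flat (a p : ℂ → ℂ) (C : ℂ → Set ℂ) (V : Set ℂ) : Prop := ∀ z ∈ V, FlatAt a p C z

/-- no single valued solution in the coset field near `τ` -/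
def Odd (a p : ℂ → ℂ) (C : ℂ → Set ℂ) (τ : ℂ) : Prop :=
  ∀ r > 0, ∀ f : ℂ → ℂ, Sol a p (ball τ r \ {τ}) f → ∃ z ∈ ball τ r \ {τ}, f z ∉ C z

/-- the odd set -/
def Oset (Z : Set ℂ) (a p F : ℂ → ℂ) : Set ℂ :=
  {τ | τ ∈ Z ∧ ∃ C : ℂ → Set ℂ, Flat a p C Zᶜ ∧ (∀ᶠ z in Bornology.cobounded ℂ, F z ∈ C z) ∧
    Odd a p C τ}

/-- derivative in the coefficient variable -/
noncomputable def dS {A : Type*} [CommRing A] (R : A[X][X]) : A[X][X] :=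
  R.sum fun n r => monomial n (derivative r)

/-- the Cauchy transform of the projections -/
noncomputable def FF (μ : Measure (ℝ × ℝ)) (w : ℂ × ℂ) : ℂ :=
  ∫ y : ℝ × ℝ, (w.2 - ((y.1 : ℂ) + w.1 * (y.2 : ℂ)))⁻¹ ∂μ

end AS
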