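import Mathlib
import Pool.Agent.Helper272.Ell.Defs

set_option autoImplicit false
open Polynomial Set Filter Topology MeasureTheory Metric

namespace AS.J3795

/-- TARGET 1: existence for the linear ODE on convex open sets -/
theorem hom_exists {V : Set ℂ} (hVo : IsOpen V) (hVc : Convex ℝ V) {a : ℂ → ℂ}
    (ha : DifferentiableOn ℂ a V) {z₀ : ℂ} (hz₀ : z₀ ∈ V) (v : ℂ) (hv : v ≠ 0) :
    ∃ b, Hom a V b ∧ b z₀ = v := by
  obtain ⟨A, hA⟩ := hVc.exists_forall_hasDerivWithinAt ha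
  refine ⟨fun z => v * Complex.exp (A z - A z₀), fun z hz => ⟨?_, ?_⟩, ?_⟩
  · have h1 : HasDerivAt A (a z) z := (hA z hz).hasDerivAt (hVo.mem_nhds hz)
    have h2 := ((h1.sub_const (A z₀)).cexp).const_mul v
    exact h2.congr_deriv (by ring)
  · exact mul_ne_zero hv (Complex.exp_ne_zero _)
  · simp

/-- TARGET 2 -/
theorem sol_exists {V : Set ℂ} (hVo : IsOpen V) (hVc : Convex ℝ V) {a p : ℂ → ℂ}
    (ha : DifferentiableOn ℂ a V) (hp : DifferentiableOn ℂ p V) {z₀ : ℂ} (hz₀ : z₀ ∈ V) (v : ℂ) :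
    ∃ f, Sol a p V f ∧ f z₀ = v := by
  obtain ⟨b, hb, hb0⟩ := hom_exists hVo hVc ha hz₀ 1 one_ne_zero
  have hbd : DifferentiableOn ℂ b V := fun z hz =>
    (hb z hz).1.differentiableAt.differentiableWithinAt
  obtain ⟨P, hP⟩ := hVc.exists_forall_hasDerivWithinAt
    (hp.div hbd (fun z hz => (hb z hz).2))
  refine ⟨fun z => b z * (v + P z - P z₀), fun z hz => ?_, ?_⟩
  · have h1 : HasDerivAt P (p z / b z) z := (hP z hz).hasDerivAt (hVo.mem_nhds hz)
    have h2 := (hb z hz).1.mul ((h1.const_add v).sub_const (P z₀))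
    have hbz := (hb z hz).2
    refine h2.congr_deriv ?_
    simp only [Pi.mul_apply]
    field_simp
  · simp [hb0]

/-- TARGET 4 -/
theorem hom_ratio {V : Set ℂ} (hVo : IsOpen V) (hVp : IsPreconnected V) {a b c : ℂ → ℂ}
    (hb : Hom a V b) (hc : ∀ z ∈ V, HasDerivAt c (a z * c z) z) :
    ∃ k : ℂ, ∀ z ∈ V, c z = k * b z := by
  have hd : ∀ z ∈ V, HasDerivAt (fun z => c z / b z) 0 z := by
    intro z hz
    have h := (hc z hz).div (hb z hz).1 (hb z hz).2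
    exact h.congr_deriv (by ring)
  obtain ⟨k, hk⟩ := hVo.exists_is_const_of_deriv_eq_zero hVp
    (f := fun z => c z / b z) (fun z hz => (hd z hz).differentiableAt.differentiableWithinAt)
    (fun z hz => (hd z hz).deriv)
  refine ⟨k, fun z hz => ?_⟩
  have h1 := hk z hz
  have hbz := (hb z hz).2
  rw [← h1]
  field_simp

/-- TARGET 3 -/
theorem sol_diff {V : Set ℂ} (hVo : IsOpen V) (hVp : IsPreconnected V) {a p f g b : ℂ → ℂ}
    (hf : Sol a p V f) (hg : Sol a p V g) (hb : Hom a V b) :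
    ∃ k : ℂ, ∀ z ∈ V, f z = g z + k * b z := by
  obtain ⟨k, hk⟩ := hom_ratio (c := fun z => f z - g z) hVo hVp hb (by
    intro z hz
    have h := (hf z hz).sub (hg z hz)
    exact h.congr_deriv (by ring))
  refine ⟨k, fun z hz => ?_⟩
  have := hk z hz
  linear_combination this

/-- local constancy on a preconnected open set -/
theorem clopen {V : Set ℂ} (hVp : IsPreconnected V) (P : ℂ → Prop)
    (hloc : ∀ z ∈ V, ∃ ε > 0, ball z ε ⊆ V ∧ ∀ x ∈ ball z ε, ∀ y ∈ ball z ε, P x → P y)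
    {z₀ : ℂ} (hz₀ : z₀ ∈ V) (h : P z₀) : ∀ z ∈ V, P z := by
  have hsub : V ⊆ {z | z ∈ V ∧ P z} := by
    apply hVp.subset_of_closure_inter_subset
    · rw [Metric.isOpen_iff]
      rintro z ⟨hz, hPz⟩
      obtain ⟨ε, hε, hball, hP⟩ := hloc z hz
      exact ⟨ε, hε, fun y hy => ⟨hball hy, hP z (mem_ball_self hε) y hy hPz⟩⟩
    · exact ⟨z₀, hz₀, hz₀, h⟩
    · rintro z ⟨hz, hzV⟩
      obtain ⟨ε, hε, hball, hP⟩ := hloc z hzV
      obtain ⟨x, hx, hxz⟩ := Metric.mem_closure_iff.1 hz ε hε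
      refine ⟨hzV, hP x ?_ z (mem_ball_self hε) hx.2⟩
      rw [mem_ball, dist_comm]; exact hxz
  exact fun z hz => (hsub hz).2

/-- TARGET 5: uniqueness -/
theorem sol_unique {V : Set ℂ} (hVo : IsOpen V) (hVp : IsPreconnected V) {a p f g : ℂ → ℂ}
    (ha : DifferentiableOn ℂ a V) (hf : Sol a p V f) (hg : Sol a p V g) {z₀ : ℂ} (hz₀ : z₀ ∈ V)
    (h : f z₀ = g z₀) : ∀ z ∈ V, f z = g z := by
  apply clopen hVp (fun z => f z = g z) _ hz₀ h
  intro z hz
  obtain ⟨ε, hε, hball⟩ := Metric.isOpen_iff.1 hVo z hz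
  refine ⟨ε, hε, hball, ?_⟩
  obtain ⟨b, hb, _⟩ := hom_exists isOpen_ball (convex_ball z ε) (ha.mono hball)
    (mem_ball_self hε) 1 one_ne_zero
  obtain ⟨k, hk⟩ := sol_diff isOpen_ball (convex_ball z ε).isPreconnected
    (fun w hw => hf w (hball hw)) (fun w hw => hg w (hball hw)) hb
  intro x hx y hy hxy
  have h1 := hk x hx
  rw [hxy] at h1
  have h2 : k * b x = 0 := by linear_combination -h1
  have hk0 : k = 0 := (mul_eq_zero.1 h2).resolve_right (hb x hx).2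
  have h3 := hk y hy
  rw [hk0] at h3
  simpa using h3

theorem coset_eq_iff {v b l k : ℂ} (hb : b ≠ 0) :
    coset v b = coset (v + l * b) (k * b) ↔
      {x : ℂ | IsIntegral ℤ x} = {w : ℂ | ∃ y : ℂ, IsIntegral ℤ y ∧ w = l + y * k} := by
  have hinj : Function.Injective (fun x : ℂ => v + x * b) := by
    intro x y hxy
    simp only [add_right_inj] at hxy
    exact mul_right_cancel₀ hb hxy
  have e1 : coset v b = (fun x : ℂ => v + x * b) '' {x : ℂ | IsIntegral ℤ x} := by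
    ext w
    constructor
    · rintro ⟨x, hx, rfl⟩; exact ⟨x, hx, rfl⟩
    · rintro ⟨x, hx, rfl⟩; exact ⟨x, hx, rfl⟩
  have e2 : coset (v + l * b) (k * b) =
      (fun x : ℂ => v + x * b) '' {w : ℂ | ∃ y : ℂ, IsIntegral ℤ y ∧ w = l + y * k} := by
    ext w
    constructor
    · rintro ⟨x, hx, rfl⟩; exact ⟨l + x * k, ⟨x, hx, rfl⟩, by ring⟩
    · rintro ⟨_, ⟨x, hx, rfl⟩, rfl⟩; exact ⟨x, hx, by ring⟩
  rw [e1, e2]
  exact (Set.image_injective.2 hinj).eq_iff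

/-- TARGET 6: rigidity of flat coset fields -/
theorem flat_eq {a p : ℂ → ℂ} {V : Set ℂ} (hVo : IsOpen V) (hVp : IsPreconnected V)
    {C D : ℂ → Set ℂ} (hC : Flat a p C V) (hD : Flat a p D V) {z₀ : ℂ} (hz₀ : z₀ ∈ V)
    (h : C z₀ = D z₀) : ∀ z ∈ V, C z = D z := by
  apply clopen hVp (fun z => C z = D z) _ hz₀ h
  intro z hz
  obtain ⟨ε₀, hε₀, hball⟩ := Metric.isOpen_iff.1 hVo z hz
  obtain ⟨ε₁, hε₁, f, b, hf, hb, hCe⟩ := hC z hz
  obtain ⟨ε₂, hε₂, g, c, hg, hc, hDe⟩ := hD z hz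
  set ε := min ε₀ (min ε₁ ε₂) with hε
  have hεp : 0 < ε := lt_min hε₀ (lt_min hε₁ hε₂)
  have s0 : ball z ε ⊆ ball z ε₀ := ball_subset_ball (min_le_left _ _)
  have s1 : ball z ε ⊆ ball z ε₁ := ball_subset_ball ((min_le_right _ _).trans (min_le_left _ _))
  have s2 : ball z ε ⊆ ball z ε₂ := ball_subset_ball ((min_le_right _ _).trans (min_le_right _ _))
  refine ⟨ε, hεp, s0.trans hball, ?_⟩
  have hb' : Hom a (ball z ε) b := fun w hw => hb w (s1 hw)
  obtain ⟨l, hl⟩ := sol_diff isOpen_ball (convex_ball z ε).isPreconnected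
    (fun w hw => hg w (s2 hw)) (fun w hw => hf w (s1 hw)) hb'
  obtain ⟨k, hk⟩ := hom_ratio isOpen_ball (convex_ball z ε).isPreconnected hb'
    (fun w hw => (hc w (s2 hw)).1)
  have key : ∀ x ∈ ball z ε, (C x = D x ↔ {x : ℂ | IsIntegral ℤ x} =
      {w : ℂ | ∃ y : ℂ, IsIntegral ℤ y ∧ w = l + y * k}) := by
    intro x hx
    rw [hCe x (s1 hx), hDe x (s2 hx), hl x hx, hk x hx]
    exact coset_eq_iff (hb' x hx).2
  intro x hx y hy hxy
  exact (key y hy).2 ((key x hx).1 hxy)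

/-- TARGET 7 -/
theorem mem_flat {a p : ℂ → ℂ} {V : Set ℂ} (hVo : IsOpen V) (hVp : IsPreconnected V)
    {C : ℂ → Set ℂ} (hC : Flat a p C V) {f : ℂ → ℂ} (hf : Sol a p V f) {z₀ : ℂ} (hz₀ : z₀ ∈ V)
    (h : f z₀ ∈ C z₀) : ∀ z ∈ V, f z ∈ C z := by
  apply clopen hVp (fun z => f z ∈ C z) _ hz₀ h
  intro z hz
  obtain ⟨ε₀, hε₀, hball⟩ := Metric.isOpen_iff.1 hVo z hz
  obtain ⟨ε₁, hε₁, g, b, hg, hb, hCe⟩ := hC z hz
  set ε := min ε₀ ε₁ with hε
  have hεp : 0 < ε := lt_min hε₀ hε₁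
  have s0 : ball z ε ⊆ ball z ε₀ := ball_subset_ball (min_le_left _ _)
  have s1 : ball z ε ⊆ ball z ε₁ := ball_subset_ball (min_le_right _ _)
  refine ⟨ε, hεp, s0.trans hball, ?_⟩
  have hb' : Hom a (ball z ε) b := fun w hw => hb w (s1 hw)
  obtain ⟨l, hl⟩ := sol_diff isOpen_ball (convex_ball z ε).isPreconnected
    (fun w hw => hf w (hball (s0 hw))) (fun w hw => hg w (s1 hw)) hb'
  have key : ∀ x ∈ ball z ε, (f x ∈ C x ↔ IsIntegral ℤ l) := by
    intro x hx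
    rw [hCe x (s1 hx), hl x hx]
    constructor
    · rintro ⟨y, hy, hxy⟩
      have h1 : l * b x = y * b x := by linear_combination hxy
      rw [mul_right_cancel₀ (hb' x hx).2 h1]; exact hy
    · intro hl'
      exact ⟨l, hl', rfl⟩
  intro x hx y hy hxy
  exact (key y hy).2 ((key x hx).1 hxy)

end AS.J3795

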