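import Mathlib
import Pool.Agent.Helper272.Ell.Defs
import Pool.Agent.Helper272.Ell.J3795

set_option autoImplicit false
open Polynomial Set Filter Topology MeasureTheory Metric

namespace AS.J4002

open AS.J3795 (mem_flat)

/-! the following lemma is proved elsewhere, you may use it -/

/-- TARGET 1 -/
theorem ext_preconn (r : ℝ) : IsPreconnected {z : ℂ | r < ‖z‖} := by
  rcases lt_or_ge r 0 with hr | hr
  · have : {z : ℂ | r < ‖z‖} = univ := by
      ext z
      simp only [mem_setOf_eq, mem_univ, iff_true]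
      exact lt_of_lt_of_le hr (norm_nonneg z)
    rw [this]
    exact isPreconnected_univ
  · have hrank : 1 < Module.rank ℝ ℂ := by
      rw [Complex.rank_real_complex]
      exact Cardinal.one_lt_two
    have h1 : IsPreconnected ((Ioi r) ×ˢ (sphere (0 : ℂ) 1)) :=
      isPreconnected_Ioi.prod (isPreconnected_sphere hrank 0 1)
    have h2 : {z : ℂ | r < ‖z‖} = (fun q : ℝ × ℂ => (q.1 : ℂ) * q.2) '' ((Ioi r) ×ˢ (sphere (0 : ℂ) 1)) := by
      ext z
      simp only [mem_setOf_eq, mem_image, mem_prod, mem_Ioi, mem_sphere_iff_norm, sub_zero]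
      constructor
      · intro hz
        have hz0 : ‖z‖ ≠ 0 := by linarith
        refine ⟨(‖z‖, z / ‖z‖), ⟨hz, ?_⟩, ?_⟩
        · simp only [norm_div, Complex.norm_real, norm_norm]
          exact div_self hz0
        · have : (‖z‖ : ℂ) ≠ 0 := by exact_mod_cast hz0
          simp only
          field_simp
      · rintro ⟨⟨ρ, u⟩, ⟨hρ, hu⟩, rfl⟩
        simp only at hρ hu ⊢
        rw [norm_mul, hu, mul_one, Complex.norm_real, Real.norm_eq_abs]
        exact lt_of_lt_of_le hρ (le_abs_self ρ)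
    rw [h2]
    apply h1.image
    fun_prop

lemma punctured_ball_preconn (z₀ : ℂ) {r : ℝ} (hr : 0 < r) :
    IsPreconnected (ball z₀ r \ {z₀}) := by
  have hrank : 1 < Module.rank ℝ ℂ := by
    rw [Complex.rank_real_complex]
    exact Cardinal.one_lt_two
  have h1 : IsPreconnected ((Ioo 0 r) ×ˢ (sphere (0 : ℂ) 1)) :=
    isPreconnected_Ioo.prod (isPreconnected_sphere hrank 0 1)
  have h2 : ball z₀ r \ {z₀} =
      (fun q : ℝ × ℂ => z₀ + (q.1 : ℂ) * q.2) '' ((Ioo 0 r) ×ˢ (sphere (0 : ℂ) 1)) := by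
    ext z
    simp only [mem_diff, mem_singleton_iff, mem_image, mem_prod, mem_Ioo, mem_sphere_iff_norm,
      sub_zero, mem_ball_iff_norm]
    constructor
    · rintro ⟨hz, hne⟩
      have hz0 : ‖z - z₀‖ ≠ 0 := by
        rw [norm_ne_zero_iff]; exact sub_ne_zero.2 hne
      refine ⟨(‖z - z₀‖, (z - z₀) / ‖z - z₀‖), ⟨⟨(norm_nonneg _).lt_of_ne' hz0, hz⟩, ?_⟩, ?_⟩
      · simp only [norm_div, Complex.norm_real, norm_norm]
        exact div_self hz0
      · have : (‖z - z₀‖ : ℂ) ≠ 0 := by exact_mod_cast hz0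
        simp only
        field_simp
        ring
    · rintro ⟨⟨ρ, u⟩, ⟨⟨hρ0, hρ⟩, hu⟩, rfl⟩
      simp only at hρ0 hρ hu ⊢
      have hn : ‖z₀ + (ρ : ℂ) * u - z₀‖ = ρ := by
        rw [add_sub_cancel_left, norm_mul, hu, mul_one, Complex.norm_real, Real.norm_eq_abs,
          abs_of_pos hρ0]
      refine ⟨by rw [hn]; exact hρ, ?_⟩
      intro h
      rw [h, sub_self, norm_zero] at hn
      linarith
  rw [h2]
  apply h1.image
  fun_prop

/-- TARGET 2 -/
theorem compl_real_preconn (T : Set ℝ) (hT : IsCompact T) :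
    IsPreconnected {z : ℂ | ∀ t ∈ T, z ≠ (t : ℂ)} := by
  set V : Set ℂ := {z : ℂ | ∀ t ∈ T, z ≠ (t : ℂ)} with hV
  obtain ⟨M, hM⟩ := hT.isBounded.exists_norm_le
  set U : Set ℂ := {z | 0 < z.im} with hU
  set D : Set ℂ := {z | z.im < 0} with hD
  set E : Set ℂ := {z | M < ‖z‖} with hE
  have hUV : U ⊆ V := by
    intro z hz t _ h
    rw [hU, mem_setOf_eq, h, Complex.ofReal_im] at hz
    exact lt_irrefl _ hz
  have hDV : D ⊆ V := by
    intro z hz t _ h
    rw [hD, mem_setOf_eq, h, Complex.ofReal_im] at hz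
    exact lt_irrefl _ hz
  have hEV : E ⊆ V := by
    intro z hz t ht h
    rw [hE, mem_setOf_eq, h, Complex.norm_real] at hz
    exact absurd (hM t ht) (not_le.2 hz)
  have hUp : IsPreconnected U := (convex_halfSpace_im_gt 0).isPreconnected
  have hDp : IsPreconnected D := (convex_halfSpace_im_lt 0).isPreconnected
  have hEp : IsPreconnected E := ext_preconn M
  have hUE : (U ∩ E).Nonempty := by
    refine ⟨((|M| + 1 : ℝ) : ℂ) * Complex.I, ?_, ?_⟩
    · show 0 < (((|M| + 1 : ℝ) : ℂ) * Complex.I).im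
      simp
      positivity
    · show M < ‖((|M| + 1 : ℝ) : ℂ) * Complex.I‖
      rw [norm_mul, Complex.norm_I, mul_one, Complex.norm_real, Real.norm_eq_abs,
        abs_of_pos (by positivity)]
      linarith [le_abs_self M]
  have hDE : (E ∩ D).Nonempty := by
    refine ⟨-(((|M| + 1 : ℝ) : ℂ) * Complex.I), ?_, ?_⟩
    · show M < ‖-(((|M| + 1 : ℝ) : ℂ) * Complex.I)‖
      rw [norm_neg, norm_mul, Complex.norm_I, mul_one, Complex.norm_real, Real.norm_eq_abs,
        abs_of_pos (by positivity)]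
      linarith [le_abs_self M]
    · show (-(((|M| + 1 : ℝ) : ℂ) * Complex.I)).im < 0
      have h0 : 0 < |M| + 1 := by positivity
      simp
      linarith
  have h1 : IsPreconnected (U ∪ E) := IsPreconnected.union' hUE hUp hEp
  have h2 : IsPreconnected ((U ∪ E) ∪ D) := by
    apply IsPreconnected.union' _ h1 hDp
    obtain ⟨z, hz⟩ := hDE
    exact ⟨z, Or.inr hz.1, hz.2⟩
  have hIU : Complex.I ∈ U := by
    show 0 < Complex.I.im
    simp
  apply isPreconnected_of_forall Complex.I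
  intro z hz
  by_cases hz1 : z ∈ (U ∪ E) ∪ D
  · refine ⟨(U ∪ E) ∪ D, ?_, Or.inl (Or.inl hIU), hz1, h2⟩
    exact union_subset (union_subset hUV hEV) hDV
  · -- z is real and outside T
    have hzim : z.im = 0 := by
      by_contra hne
      rcases lt_or_gt_of_ne hne with h | h
      · exact hz1 (Or.inr h)
      · exact hz1 (Or.inl (Or.inl h))
    have hzre : z.re ∉ T := by
      intro h
      apply hz z.re h
      apply Complex.ext
      · simp
      · simp [hzim]
    obtain ⟨ε, hε, hball⟩ := Metric.isOpen_iff.1 hT.isClosed.isOpen_compl z.re hzre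
    have hBV : ball z ε ⊆ V := by
      intro w hw t ht hwt
      refine hball (?_ : t ∈ ball z.re ε) ht
      rw [mem_ball, Real.dist_eq]
      rw [mem_ball, Complex.dist_eq] at hw
      calc |t - z.re| = |(w - z).re| := by rw [hwt]; simp
        _ ≤ ‖w - z‖ := Complex.abs_re_le_norm _
        _ < ε := hw
    have hBU : (ball z ε ∩ U).Nonempty := by
      refine ⟨z + ((ε / 2 : ℝ) : ℂ) * Complex.I, ?_, ?_⟩
      · rw [mem_ball, Complex.dist_eq, add_sub_cancel_left, norm_mul, Complex.norm_I, mul_one,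
          Complex.norm_real, Real.norm_eq_abs, abs_of_pos (by positivity)]
        linarith
      · show 0 < (z + ((ε / 2 : ℝ) : ℂ) * Complex.I).im
        simp [hzim]
        exact hε
    refine ⟨((U ∪ E) ∪ D) ∪ ball z ε, ?_, Or.inl (Or.inl (Or.inl hIU)),
      Or.inr (mem_ball_self hε), ?_⟩
    · exact union_subset (union_subset (union_subset hUV hEV) hDV) hBV
    · apply IsPreconnected.union' _ h2 isPreconnected_ball
      obtain ⟨w, hw1, hw2⟩ := hBU
      exact ⟨w, Or.inl (Or.inl hw2), hw1⟩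

lemma diff_point_aux {V : Set ℂ} (hVo : IsOpen V) (hVp : IsPreconnected V) {z₀ : ℂ} {r : ℝ}
    (hr : 0 < r) (hB : ball z₀ r ⊆ V) {u v : Set ℂ} (hu : IsOpen u) (hv : IsOpen v)
    (hcov : V \ {z₀} ⊆ u ∪ v) (hBu : ball z₀ r \ {z₀} ⊆ u) (hvn : ((V \ {z₀}) ∩ v).Nonempty) :
    ((V \ {z₀}) ∩ (u ∩ v)).Nonempty := by
  have hV' : IsOpen (V \ {z₀}) := hVo.sdiff isClosed_singleton
  have h := hVp ((u ∩ (V \ {z₀})) ∪ ball z₀ r) (v ∩ (V \ {z₀}))
    ((hu.inter hV').union isOpen_ball) (hv.inter hV') (by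
      intro x hx
      by_cases hxz : x = z₀
      · left; right; rw [hxz]; exact mem_ball_self hr
      · have hx' : x ∈ V \ {z₀} := ⟨hx, hxz⟩
        rcases hcov hx' with h | h
        · left; left; exact ⟨h, hx'⟩
        · right; exact ⟨h, hx'⟩)
    ⟨z₀, hB (mem_ball_self hr), Or.inr (mem_ball_self hr)⟩
    (by
      obtain ⟨x, hx, hxv⟩ := hvn
      exact ⟨x, hx.1, hxv, hx⟩)
  obtain ⟨x, hxV, hxu, hxv, hx'⟩ := h
  refine ⟨x, hx', ?_, hxv⟩
  rcases hxu with h | h
  · exact h.1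
  · exact hBu ⟨h, hx'.2⟩

lemma diff_point {V : Set ℂ} (hVo : IsOpen V) (hVp : IsPreconnected V) (z₀ : ℂ) :
    IsPreconnected (V \ {z₀}) := by
  by_cases hz : z₀ ∈ V
  · obtain ⟨r, hr, hB⟩ := Metric.isOpen_iff.1 hVo z₀ hz
    have hBp := punctured_ball_preconn z₀ hr
    have hBsub : ball z₀ r \ {z₀} ⊆ V \ {z₀} := diff_subset_diff_left hB
    intro u v hu hv hcov hun hvn
    by_contra hcon
    rw [not_nonempty_iff_eq_empty] at hcon
    have hdis : ∀ x ∈ V \ {z₀}, x ∈ u → x ∉ v := by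
      intro x hx hxu hxv
      have : x ∈ (V \ {z₀}) ∩ (u ∩ v) := ⟨hx, hxu, hxv⟩
      rw [hcon] at this
      exact this
    by_cases h1 : ball z₀ r \ {z₀} ⊆ u
    · have := diff_point_aux hVo hVp hr hB hu hv hcov h1 hvn
      rw [hcon] at this
      exact not_nonempty_empty this
    · have h2 : ball z₀ r \ {z₀} ⊆ v := by
        by_contra h2
        rw [not_subset] at h1 h2
        obtain ⟨x, hx, hxu⟩ := h1
        obtain ⟨y, hy, hyv⟩ := h2
        have hxv : x ∈ v := (hcov (hBsub hx)).resolve_left hxu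
        have hyu : y ∈ u := (hcov (hBsub hy)).resolve_right hyv
        obtain ⟨w, hw, hwu, hwv⟩ := hBp u v hu hv (hBsub.trans hcov) ⟨y, hy, hyu⟩ ⟨x, hx, hxv⟩
        exact hdis w (hBsub hw) hwu hwv
      have := diff_point_aux hVo hVp hr hB hv hu (by rwa [union_comm]) h2 hun
      rw [inter_comm v u, hcon] at this
      exact not_nonempty_empty this
  · rwa [diff_singleton_eq_self hz]

/-- TARGET 3: an open preconnected subset of the plane minus a finite set is preconnected -/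
theorem diff_finite {V : Set ℂ} (hVo : IsOpen V) (hVp : IsPreconnected V) {Z : Set ℂ}
    (hZ : Z.Finite) : IsPreconnected (V \ Z) := by
  induction Z, hZ using Set.Finite.induction_on with
  | empty => simpa using hVp
  | @insert a s ha hs ih =>
    have h1 : V \ insert a s = (V \ s) \ {a} := by
      ext x
      simp only [mem_diff, mem_insert_iff, mem_singleton_iff]
      tauto
    rw [h1]
    exact diff_point (hVo.sdiff hs.isClosed) ih a

/-- TARGET 4: a solution which is single valued on V and lies somewhere in the coset field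
shows that no point of V is odd -/
theorem not_odd {V : Set ℂ} (hVo : IsOpen V) (hVp : IsPreconnected V) {Z : Set ℂ}
    (hZ : Z.Finite) {a p F : ℂ → ℂ} {C : ℂ → Set ℂ} (hF : Sol a p (V \ Z) F)
    (hC : Flat a p C Zᶜ) {z₁ : ℂ} (hz₁ : z₁ ∈ V \ Z) (h : F z₁ ∈ C z₁) {τ : ℂ} (hτ : τ ∈ V) :
    ¬ Odd a p C τ := by
  intro hodd
  have h1 : ∀ z ∈ V \ Z, F z ∈ C z :=
    mem_flat (hVo.sdiff hZ.isClosed) (diff_finite hVo hVp hZ) (fun z hz => hC z hz.2) hF hz₁ h
  obtain ⟨r₁, hr₁, hB₁⟩ := Metric.isOpen_iff.1 hVo τ hτ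
  have hZ' : IsOpen (Z \ {τ})ᶜ := (hZ.subset diff_subset).isClosed.isOpen_compl
  obtain ⟨r₂, hr₂, hB₂⟩ := Metric.isOpen_iff.1 hZ' τ (by simp)
  have hsub : ball τ (min r₁ r₂) \ {τ} ⊆ V \ Z := by
    rintro z ⟨hz, hzτ⟩
    refine ⟨hB₁ (ball_subset_ball (min_le_left _ _) hz), ?_⟩
    intro hzZ
    exact hB₂ (ball_subset_ball (min_le_right _ _) hz) ⟨hzZ, hzτ⟩
  obtain ⟨z, hz, hzC⟩ := hodd (min r₁ r₂) (lt_min hr₁ hr₂) F (fun z hz => hF z (hsub hz))
  exact hzC (h1 z (hsub hz))

end AS.J4002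

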