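import Mathlib

set_option autoImplicit false
open Polynomial Set Metric

namespace AS.J3644

/-- homogenised form -/
noncomputable def T17_pH (g : ℕ) (G : ℂ[X][X]) (α β z : ℂ) : ℂ :=
  ∑ k ∈ Finset.range (g + 1), (∑ j ∈ Finset.range (k + 1),
    (G.coeff (g - k)).coeff j * α ^ (k - j) * β ^ j) * z ^ (g - k)

theorem T17_hom (g : ℕ) (G : ℂ[X][X]) (t α β z : ℂ) :
    T17_pH g G (t * α) (t * β) (t * z) = t ^ g * T17_pH g G α β z := by
  unfold T17_pH
  rw [Finset.mul_sum]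
  apply Finset.sum_congr rfl
  intro k hk
  have hk' : k ≤ g := Nat.lt_succ_iff.mp (Finset.mem_range.mp hk)
  have e2 : ∑ j ∈ Finset.range (k + 1), (G.coeff (g - k)).coeff j * (t * α) ^ (k - j) * (t * β) ^ j =
      t ^ k * ∑ j ∈ Finset.range (k + 1), (G.coeff (g - k)).coeff j * α ^ (k - j) * β ^ j := by
    rw [Finset.mul_sum]
    apply Finset.sum_congr rfl
    intro j hj
    have hj' : j ≤ k := Nat.lt_succ_iff.mp (Finset.mem_range.mp hj)
    have h1 : t ^ (k - j) * t ^ j = t ^ k := by rw [← pow_add, Nat.sub_add_cancel hj']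
    rw [mul_pow, mul_pow, ← h1]
    ring
  have h2 : t ^ k * t ^ (g - k) = t ^ g := by rw [← pow_add, Nat.add_sub_cancel' hk']
  rw [e2, mul_pow, ← h2]
  ring

theorem T17_evalEval {g : ℕ} {G : ℂ[X][X]} (hGd : G.natDegree = g) (s z : ℂ) :
    G.evalEval s z = ∑ i ∈ Finset.range (g + 1), (G.coeff i).eval s * z ^ i := by
  show eval s (eval (C z) G) = _
  have h0 : eval (C z) G = ∑ i ∈ Finset.range (G.natDegree + 1), G.coeff i * (C z) ^ i :=
    eval_eq_sum_range (C z)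
  rw [h0, hGd, eval_finsetSum]
  apply Finset.sum_congr rfl
  intro i _
  rw [eval_mul, eval_pow, eval_C]

theorem T17_one {g : ℕ} {G : ℂ[X][X]} (hGd : G.natDegree = g)
    (hGc : ∀ k ≤ g, (G.coeff (g - k)).natDegree ≤ k) (s z : ℂ) :
    T17_pH g G 1 s z = G.evalEval s z := by
  rw [T17_evalEval hGd, ← Finset.sum_flip]
  unfold T17_pH
  apply Finset.sum_congr rfl
  intro k hk
  have hk' : k ≤ g := Nat.lt_succ_iff.mp (Finset.mem_range.mp hk)
  congr 1
  rw [eval_eq_sum_range' (Nat.lt_succ_of_le (hGc k hk'))]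
  apply Finset.sum_congr rfl
  intro j _
  rw [one_pow, mul_one]

theorem T17_factor {g : ℕ} {G : ℂ[X][X]} (hGm : G.Monic) (hGd : G.natDegree = g) (s : ℂ) :
    ∃ ρ : Fin g → ℂ, (∀ z, G.evalEval s z = ∏ i, (z - ρ i)) ∧
      (G.map (evalRingHom s)).roots = Finset.univ.val.map ρ := by
  set P := G.map (evalRingHom s) with hP
  have hPm : P.Monic := hGm.map _
  have hPd : P.natDegree = g := by rw [hP, hGm.natDegree_map, hGd]
  have hcard : P.roots.card = P.natDegree := splits_iff_card_roots.mp (IsAlgClosed.splits P)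
  have hprod := prod_multiset_X_sub_C_of_monic_of_roots_card_eq hPm hcard
  obtain ⟨ρ, hρ⟩ : ∃ ρ : Fin g → ℂ, Finset.univ.val.map ρ = P.roots := by
    have hlen : P.roots.toList.length = g := by
      rw [Multiset.length_toList, hcard, hPd]
    refine ⟨fun i => P.roots.toList.get (i.cast hlen.symm), ?_⟩
    rw [Fin.univ_val_map]
    conv_rhs => rw [← Multiset.coe_toList P.roots]
    congr 1
    generalize P.roots.toList = L at hlen
    subst hlen
    simp
  refine ⟨ρ, ?_, hρ.symm⟩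
  intro z
  have h1 : G.evalEval s z = P.eval z := by
    rw [hP]; exact (Polynomial.map_evalRingHom_eval s z G).symm
  rw [h1, ← hprod, ← hρ, eval_multiset_prod, Multiset.map_map, Multiset.map_map]
  simp only [Function.comp_def, eval_sub, eval_X, eval_C]
  rfl

theorem T17_uniq {g : ℕ} (ρ ρ' : Fin g → ℂ) (h : ∀ z : ℂ, ∏ i, (z - ρ i) = ∏ i, (z - ρ' i)) :
    Finset.univ.val.map ρ = Finset.univ.val.map ρ' := by
  have key : ∀ ρ : Fin g → ℂ, (∏ i, (X - C (ρ i)) : ℂ[X]).roots = Finset.univ.val.map ρ := by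
    intro ρ
    have : (∏ i, (X - C (ρ i)) : ℂ[X]) = ((Finset.univ.val.map ρ).map (fun a => X - C a)).prod := by
      rw [Multiset.map_map]; rfl
    rw [this, roots_multiset_prod_X_sub_C]
  rw [← key ρ, ← key ρ']
  congr 1
  apply Polynomial.funext
  intro z
  rw [eval_prod, eval_prod]
  simpa using h z

theorem T17_cnt {g : ℕ} (t t' : Fin g → ℝ)
    (h : ∀ z : ℂ, ∏ i, (z - (t i : ℂ)) = ∏ i, (z - (t' i : ℂ))) (Q : ℝ → Prop) [DecidablePred Q] :
    (Finset.univ.filter (fun i => Q (t i))).card = (Finset.univ.filter (fun i => Q (t' i))).card := by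
  have h1 := T17_uniq (fun i => (t i : ℂ)) (fun i => (t' i : ℂ)) h
  have h2 := congrArg (Multiset.map Complex.re) h1
  rw [Multiset.map_map, Multiset.map_map] at h2
  have h3 : Finset.univ.val.map t = Finset.univ.val.map t' := by
    simpa [Function.comp_def] using h2
  have h4 := congrArg (Multiset.countP Q) h3
  rw [Multiset.countP_map, Multiset.countP_map] at h4
  exact h4

theorem T17_mem {g : ℕ} (t : Fin g → ℂ) (z : ℂ) (h : ∏ i, (z - t i) = 0) : ∃ i, t i = z := by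
  obtain ⟨i, _, hi⟩ := Finset.prod_eq_zero_iff.mp h
  exact ⟨i, (sub_eq_zero.mp hi).symm⟩

theorem T17_geo {Y : Set (ℝ × ℝ)} {y0 : ℝ × ℝ} {ε : ℝ}
    (hball : closedBall y0 ε ⊆ Y) (s lam : ℝ) (hlam : |lam| ≤ ε * (1 + |s|)) :
    (y0.1 + s * y0.2) + lam ∈ (fun y : ℝ × ℝ => y.1 + s * y.2) '' Y := by
  have hpos : 0 < 1 + |s| := by positivity
  obtain ⟨σ, hσ1, hσ2⟩ : ∃ σ : ℝ, |σ| = 1 ∧ s * σ = |s| := by
    rcases le_total 0 s with h | h
    · exact ⟨1, by simp, by rw [abs_of_nonneg h]; ring⟩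
    · exact ⟨-1, by simp, by rw [abs_of_nonpos h]; ring⟩
  set μ := lam / (1 + |s|) with hμ
  have hμε : |μ| ≤ ε := by
    rw [hμ, abs_div, abs_of_pos hpos, div_le_iff₀ hpos]; exact hlam
  have hμ2 : μ * (1 + |s|) = lam := by rw [hμ]; field_simp
  refine ⟨(y0.1 + μ, y0.2 + σ * μ), hball ?_, ?_⟩
  · rw [mem_closedBall, Prod.dist_eq]
    simp only [Real.dist_eq, add_sub_cancel_left]
    rw [abs_mul, hσ1, one_mul, max_self]
    exact hμε
  · show y0.1 + μ + s * (y0.2 + σ * μ) = _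
    have : y0.1 + μ + s * (y0.2 + σ * μ) = y0.1 + s * y0.2 + (μ + (s * σ) * μ) := by ring
    rw [this, hσ2, ← hμ2]; ring

theorem T17_fr {Y : Set (ℝ × ℝ)} {y0 : ℝ × ℝ} {ε : ℝ}
    (hball : closedBall y0 ε ⊆ Y) (s t : ℝ)
    (ht : t ∈ frontier ((fun y : ℝ × ℝ => y.1 + s * y.2) '' Y)) :
    ε * (1 + |s|) ≤ |t - (y0.1 + s * y0.2)| := by
  by_contra hlt
  push Not at hlt
  have hsub : Ioo (y0.1 + s * y0.2 - ε * (1 + |s|)) (y0.1 + s * y0.2 + ε * (1 + |s|)) ⊆
      (fun y : ℝ × ℝ => y.1 + s * y.2) '' Y := by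
    intro x hx
    have := T17_geo hball s (x - (y0.1 + s * y0.2)) (by
      rw [abs_le]; constructor <;> linarith [hx.1, hx.2])
    rwa [add_sub_cancel] at this
  have hint := interior_maximal hsub isOpen_Ioo
  rw [abs_lt] at hlt
  exact ht.2 (hint ⟨by linarith [hlt.1], by linarith [hlt.2]⟩)

theorem T17_clos {Y : Set (ℝ × ℝ)} {M : ℝ} (hM : ∀ y ∈ Y, |y.1| ≤ M ∧ |y.2| ≤ M) (s t : ℝ)
    (ht : t ∈ closure ((fun y : ℝ × ℝ => y.1 + s * y.2) '' Y)) : |t| ≤ M * (1 + |s|) := by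
  have hsub : (fun y : ℝ × ℝ => y.1 + s * y.2) '' Y ⊆ Icc (-(M * (1 + |s|))) (M * (1 + |s|)) := by
    rintro _ ⟨y, hy, rfl⟩
    obtain ⟨h1, h2⟩ := hM y hy
    have h3 : |y.1 + s * y.2| ≤ M * (1 + |s|) := by
      calc |y.1 + s * y.2| ≤ |y.1| + |s * y.2| := abs_add_le _ _
        _ = |y.1| + |s| * |y.2| := by rw [abs_mul]
        _ ≤ M + |s| * M := add_le_add h1 (mul_le_mul_of_nonneg_left h2 (abs_nonneg _))
        _ = M * (1 + |s|) := by ring
    exact abs_le.mp h3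
  exact abs_le.mpr ((closure_minimal hsub isClosed_Icc) ht)

/-- the set of directions in which the homogenised form has real roots split by `J` -/
def T17_S (g : ℕ) (G : ℂ[X][X]) (y0 : ℝ × ℝ) (ε R : ℝ) (J : Finset (Fin g)) : Set ℝ :=
  {θ | ∃ r : Fin g → ℝ, (∀ i, |r i| ≤ R) ∧
    (∀ z : ℂ, T17_pH g G ((Real.cos θ : ℝ) : ℂ) ((Real.sin θ : ℝ) : ℂ) z = ∏ i, (z - (r i : ℂ))) ∧
    (∀ i ∈ J, r i ≤ Real.cos θ * y0.1 + Real.sin θ * y0.2 - ε) ∧
    (∀ i, i ∉ J → Real.cos θ * y0.1 + Real.sin θ * y0.2 + ε ≤ r i)}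

theorem T17_S_closed (g : ℕ) (G : ℂ[X][X]) (y0 : ℝ × ℝ) (ε R : ℝ) (J : Finset (Fin g)) :
    IsClosed (T17_S g G y0 ε R J) := by
  set K : Set (Fin g → ℝ) := Set.pi univ (fun _ => Icc (-R) R) with hK
  have hKc : IsCompact K := isCompact_univ_pi (fun _ => isCompact_Icc)
  have : CompactSpace K := isCompact_iff_compactSpace.mp hKc
  have hpHc : ∀ z : ℂ, Continuous (fun p : K × ℝ =>
      T17_pH g G ((Real.cos p.2 : ℝ) : ℂ) ((Real.sin p.2 : ℝ) : ℂ) z) := by
    intro z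
    unfold T17_pH
    fun_prop
  let Cs : Set (K × ℝ) := {p |
    (∀ z : ℂ, T17_pH g G ((Real.cos p.2 : ℝ) : ℂ) ((Real.sin p.2 : ℝ) : ℂ) z
      = ∏ i, (z - (p.1.1 i : ℂ))) ∧
    (∀ i ∈ J, p.1.1 i ≤ Real.cos p.2 * y0.1 + Real.sin p.2 * y0.2 - ε) ∧
    (∀ i, i ∉ J → Real.cos p.2 * y0.1 + Real.sin p.2 * y0.2 + ε ≤ p.1.1 i)}
  have hcoord : ∀ i, Continuous (fun p : K × ℝ => p.1.1 i) := by
    intro i
    exact (continuous_apply i).comp (continuous_subtype_val.comp continuous_fst)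
  have hCs : IsClosed Cs := by
    refine IsClosed.and ?_ (IsClosed.and ?_ ?_)
    · simp only [Set.ofPred_forall]
      refine isClosed_iInter fun z => ?_
      refine isClosed_eq (hpHc z) ?_
      refine continuous_finsetProd _ fun i _ => ?_
      exact continuous_const.sub (Complex.continuous_ofReal.comp (hcoord i))
    · simp only [Set.ofPred_forall]
      refine isClosed_iInter fun i => isClosed_iInter fun _ => ?_
      exact isClosed_le (hcoord i) (by fun_prop)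
    · simp only [Set.ofPred_forall]
      refine isClosed_iInter fun i => isClosed_iInter fun _ => ?_
      exact isClosed_le (by fun_prop) (hcoord i)
  have himg : T17_S g G y0 ε R J = Prod.snd '' Cs := by
    ext θ
    constructor
    · rintro ⟨r, hr, h1, h2, h3⟩
      refine ⟨(⟨r, ?_⟩, θ), ⟨h1, h2, h3⟩, rfl⟩
      intro i _
      exact abs_le.mp (hr i)
    · rintro ⟨⟨⟨r, hr⟩, θ'⟩, ⟨h1, h2, h3⟩, rfl⟩
      exact ⟨r, fun i => abs_le.mpr (hr i (mem_univ i)), h1, h2, h3⟩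
  rw [himg]
  exact isClosedMap_snd_of_compactSpace _ hCs

theorem T17_arctan {Y : Set (ℝ × ℝ)} {g : ℕ} {G : ℂ[X][X]} (hGm : G.Monic) (hGd : G.natDegree = g)
    (hGc : ∀ k ≤ g, (G.coeff (g - k)).natDegree ≤ k)
    {M : ℝ} (hM : ∀ y ∈ Y, |y.1| ≤ M ∧ |y.2| ≤ M)
    {y0 : ℝ × ℝ} {ε : ℝ} (hε : 0 < ε) (hball : closedBall y0 ε ⊆ Y) (s : ℝ)
    (hroots : ∀ z : ℂ, G.evalEval (s : ℂ) z = 0 →
      ∃ t ∈ frontier ((fun y : ℝ × ℝ => y.1 + s * y.2) '' Y), z = (t : ℂ)) :
    ∃ J : Finset (Fin g), Real.arctan s ∈ T17_S g G y0 ε (2 * M) J := by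
  obtain ⟨ρ, hρ, -⟩ := T17_factor hGm hGd (s : ℂ)
  have h1 : ∀ i, ∃ t ∈ frontier ((fun y : ℝ × ℝ => y.1 + s * y.2) '' Y), ρ i = (t : ℂ) := by
    intro i
    apply hroots
    rw [hρ]
    exact Finset.prod_eq_zero (Finset.mem_univ i) (sub_self _)
  choose t ht htρ using h1
  have hcos : 0 < Real.cos (Real.arctan s) := Real.cos_arctan_pos s
  have hsin : Real.sin (Real.arctan s) = Real.cos (Real.arctan s) * s := by
    have h := Real.tan_arctan s
    rw [Real.tan_eq_sin_div_cos, div_eq_iff hcos.ne'] at h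
    rw [h, mul_comm]
  set θ := Real.arctan s with hθ
  have hM0 : 0 ≤ M := by
    have hy0 : y0 ∈ Y := hball (mem_closedBall_self hε.le)
    exact le_trans (abs_nonneg _) (hM y0 hy0).1
  have hsum1 : 1 ≤ Real.cos θ * (1 + |s|) := by
    have h2 : Real.cos θ * (1 + |s|) = |Real.cos θ| + |Real.sin θ| := by
      rw [hsin, abs_mul, abs_of_pos hcos]; ring
    rw [h2]
    have h3 := Real.sin_sq_add_cos_sq θ
    have h4 := Real.abs_sin_le_one θ
    have h5 := Real.abs_cos_le_one θ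
    nlinarith [abs_nonneg (Real.sin θ), abs_nonneg (Real.cos θ), sq_abs (Real.sin θ), sq_abs (Real.cos θ)]
  have hsum2 : Real.cos θ * (1 + |s|) ≤ 2 := by
    have h2 : Real.cos θ * (1 + |s|) = |Real.cos θ| + |Real.sin θ| := by
      rw [hsin, abs_mul, abs_of_pos hcos]; ring
    rw [h2]
    linarith [Real.abs_sin_le_one θ, Real.abs_cos_le_one θ]
  have hcc : Real.cos θ * y0.1 + Real.sin θ * y0.2 = Real.cos θ * (y0.1 + s * y0.2) := by
    rw [hsin]; ring
  refine ⟨Finset.univ.filter (fun i => t i ≤ y0.1 + s * y0.2), fun i => Real.cos θ * t i, ?_, ?_, ?_, ?_⟩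
  · intro i
    have h2 := T17_clos hM s (t i) (ht i).1
    rw [abs_mul, abs_of_pos hcos]
    calc Real.cos θ * |t i| ≤ Real.cos θ * (M * (1 + |s|)) := mul_le_mul_of_nonneg_left h2 hcos.le
      _ = M * (Real.cos θ * (1 + |s|)) := by ring
      _ ≤ M * 2 := mul_le_mul_of_nonneg_left hsum2 hM0
      _ = 2 * M := by ring
  · intro z
    have hc0 : ((Real.cos θ : ℝ) : ℂ) ≠ 0 := by exact_mod_cast hcos.ne'
    have h2 := T17_hom g G ((Real.cos θ : ℝ) : ℂ) 1 (s : ℂ) (z / ((Real.cos θ : ℝ) : ℂ))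
    rw [mul_one, mul_div_cancel₀ _ hc0, T17_one hGd hGc, hρ] at h2
    rw [hsin, Complex.ofReal_mul, h2]
    have h3 : (((Real.cos θ : ℝ) : ℂ)) ^ g = ∏ _i : Fin g, ((Real.cos θ : ℝ) : ℂ) := by
      rw [Finset.prod_const, Finset.card_univ, Fintype.card_fin]
    rw [h3, ← Finset.prod_mul_distrib]
    apply Finset.prod_congr rfl
    intro i _
    rw [mul_sub, mul_div_cancel₀ _ hc0, htρ i, Complex.ofReal_mul]
  · intro i hi
    rw [Finset.mem_filter] at hi
    have h2 := T17_fr hball s (t i) (ht i)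
    rw [abs_of_nonpos (show t i - (y0.1 + s * y0.2) ≤ 0 by linarith [hi.2])] at h2
    rw [hcc]
    have h3 := mul_le_mul_of_nonneg_left h2 hcos.le
    have h4 : ε ≤ Real.cos θ * (ε * (1 + |s|)) := by nlinarith
    show Real.cos θ * t i ≤ _
    linarith
  · intro i hi
    rw [Finset.mem_filter, not_and] at hi
    have hi' := hi (Finset.mem_univ i)
    have h2 := T17_fr hball s (t i) (ht i)
    rw [abs_of_nonneg (show 0 ≤ t i - (y0.1 + s * y0.2) by linarith)] at h2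
    rw [hcc]
    have h3 := mul_le_mul_of_nonneg_left h2 hcos.le
    have h4 : ε ≤ Real.cos θ * (ε * (1 + |s|)) := by nlinarith
    show _ ≤ Real.cos θ * t i
    linarith

theorem T17_cover {Y : Set (ℝ × ℝ)} {g : ℕ} {G : ℂ[X][X]} (hGm : G.Monic) (hGd : G.natDegree = g)
    (hGc : ∀ k ≤ g, (G.coeff (g - k)).natDegree ≤ k)
    {M : ℝ} (hM : ∀ y ∈ Y, |y.1| ≤ M ∧ |y.2| ≤ M)
    {y0 : ℝ × ℝ} {ε : ℝ} (hε : 0 < ε) (hball : closedBall y0 ε ⊆ Y) {D : Set ℝ} (hD : Dense D)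
    (hroots : ∀ s ∈ D, ∀ z : ℂ, G.evalEval (s : ℂ) z = 0 →
      ∃ t ∈ frontier ((fun y : ℝ × ℝ => y.1 + s * y.2) '' Y), z = (t : ℂ)) :
    Icc (-(Real.pi / 2)) (Real.pi / 2) ⊆ ⋃ J : Finset (Fin g), T17_S g G y0 ε (2 * M) J := by
  have hcl : IsClosed (⋃ J : Finset (Fin g), T17_S g G y0 ε (2 * M) J) :=
    isClosed_iUnion_of_finite fun J => T17_S_closed g G y0 ε (2 * M) J
  have h1 : Real.arctan '' D ⊆ ⋃ J : Finset (Fin g), T17_S g G y0 ε (2 * M) J := by
    rintro _ ⟨s, hs, rfl⟩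
    obtain ⟨J, hJ⟩ := T17_arctan hGm hGd hGc hM hε hball s (hroots s hs)
    exact mem_iUnion.mpr ⟨J, hJ⟩
  have h2 : Ioo (-(Real.pi / 2)) (Real.pi / 2) ⊆ closure (Real.arctan '' D) := by
    rw [← Real.range_arctan, ← image_univ, ← hD.closure_eq]
    exact image_closure_subset_closure_image Real.continuous_arctan
  have h3 : Icc (-(Real.pi / 2)) (Real.pi / 2) = closure (Ioo (-(Real.pi / 2)) (Real.pi / 2)) := by
    rw [closure_Ioo]
    have := Real.pi_pos
    linarith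
  rw [h3]
  refine (closure_mono h2).trans ?_
  rw [closure_closure]
  exact closure_minimal h1 hcl

theorem T17_same {g : ℕ} {G : ℂ[X][X]} {y0 : ℝ × ℝ} {ε R : ℝ} (hε : 0 < ε) {J J' : Finset (Fin g)}
    {θ : ℝ} (h : θ ∈ T17_S g G y0 ε R J) (h' : θ ∈ T17_S g G y0 ε R J') : J.card = J'.card := by
  obtain ⟨r, -, h1, h2, h3⟩ := h
  obtain ⟨r', -, h1', h2', h3'⟩ := h'
  set c := Real.cos θ * y0.1 + Real.sin θ * y0.2 with hc
  have e1 : J = Finset.univ.filter (fun i => r i < c) := by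
    ext i
    rw [Finset.mem_filter]
    constructor
    · intro hi; exact ⟨Finset.mem_univ i, by linarith [h2 i hi]⟩
    · rintro ⟨-, hi⟩; by_contra hn; linarith [h3 i hn]
  have e2 : J' = Finset.univ.filter (fun i => r' i < c) := by
    ext i
    rw [Finset.mem_filter]
    constructor
    · intro hi; exact ⟨Finset.mem_univ i, by linarith [h2' i hi]⟩
    · rintro ⟨-, hi⟩; by_contra hn; linarith [h3' i hn]
  rw [e1, e2]
  exact T17_cnt r r' (fun z => by rw [← h1 z, ← h1' z]) (fun x => x < c)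

theorem T17_M {Y : Set (ℝ × ℝ)} {g : ℕ} {G : ℂ[X][X]} (hGm : G.Monic) (hGd : G.natDegree = g)
    (hGc : ∀ k ≤ g, (G.coeff (g - k)).natDegree ≤ k)
    {M : ℝ} (hM : ∀ y ∈ Y, |y.1| ≤ M ∧ |y.2| ≤ M)
    {y0 : ℝ × ℝ} {ε : ℝ} (hε : 0 < ε) (hball : closedBall y0 ε ⊆ Y) {D : Set ℝ} (hD : Dense D)
    (hroots : ∀ s ∈ D, ∀ z : ℂ, G.evalEval (s : ℂ) z = 0 →
      ∃ t ∈ frontier ((fun y : ℝ × ℝ => y.1 + s * y.2) '' Y), z = (t : ℂ)) (s : ℝ) :
    ∃ ρ : Fin g → ℝ, (∀ z : ℂ, G.evalEval (s : ℂ) z = ∏ i, (z - (ρ i : ℂ))) ∧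
      2 * (Finset.univ.filter (fun i => ρ i < y0.1 + s * y0.2)).card = g ∧
      2 * (Finset.univ.filter (fun i => y0.1 + s * y0.2 < ρ i)).card = g := by
  have hcover := T17_cover hGm hGd hGc hM hε hball hD hroots
  have hpi := Real.pi_pos
  -- the left end point
  have hleft : -(Real.pi / 2) ∈ Icc (-(Real.pi / 2)) (Real.pi / 2) := ⟨le_rfl, by linarith⟩
  have hright : (Real.pi / 2) ∈ Icc (-(Real.pi / 2)) (Real.pi / 2) := ⟨by linarith, le_rfl⟩
  obtain ⟨J, hJ⟩ := mem_iUnion.mp (hcover hleft)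
  -- constancy
  have hconst : ∀ θ ∈ Icc (-(Real.pi / 2)) (Real.pi / 2), ∀ J' : Finset (Fin g),
      θ ∈ T17_S g G y0 ε (2 * M) J' → J'.card = J.card := by
    intro θ hθ J' hJ'
    by_contra hne
    set T1 : Set ℝ := ⋃ K : {K : Finset (Fin g) // K.card = J.card}, T17_S g G y0 ε (2 * M) K.1 with hT1
    set T2 : Set ℝ := ⋃ K : {K : Finset (Fin g) // K.card ≠ J.card}, T17_S g G y0 ε (2 * M) K.1 with hT2
    have c1 : IsClosed T1 := isClosed_iUnion_of_finite fun K => T17_S_closed g G y0 ε (2 * M) K.1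
    have c2 : IsClosed T2 := isClosed_iUnion_of_finite fun K => T17_S_closed g G y0 ε (2 * M) K.1
    have hsub : Icc (-(Real.pi / 2)) (Real.pi / 2) ⊆ T1 ∪ T2 := by
      intro x hx
      obtain ⟨K, hK⟩ := mem_iUnion.mp (hcover hx)
      by_cases hc : K.card = J.card
      · exact Or.inl (mem_iUnion.mpr ⟨⟨K, hc⟩, hK⟩)
      · exact Or.inr (mem_iUnion.mpr ⟨⟨K, hc⟩, hK⟩)
    have hpre := isPreconnected_closed_iff.mp
      (isPreconnected_Icc (a := -(Real.pi / 2)) (b := Real.pi / 2)) T1 T2 c1 c2 hsub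
      ⟨_, hleft, mem_iUnion.mpr ⟨⟨J, rfl⟩, hJ⟩⟩ ⟨θ, hθ, mem_iUnion.mpr ⟨⟨J', hne⟩, hJ'⟩⟩
    obtain ⟨x, -, hx1, hx2⟩ := hpre
    obtain ⟨K1, hK1⟩ := mem_iUnion.mp hx1
    obtain ⟨K2, hK2⟩ := mem_iUnion.mp hx2
    exact K2.2 ((T17_same hε hK2 hK1).trans K1.2)
  -- reflect
  have hrefl : Real.pi / 2 ∈ T17_S g G y0 ε (2 * M) Jᶜ := by
    obtain ⟨r, h0, h1, h2, h3⟩ := hJ
    refine ⟨fun i => - r i, fun i => by rw [abs_neg]; exact h0 i, ?_, ?_, ?_⟩
    · intro z
      have e := T17_hom g G (-1) ((Real.cos (-(Real.pi / 2)) : ℝ) : ℂ)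
        ((Real.sin (-(Real.pi / 2)) : ℝ) : ℂ) (-z)
      rw [h1] at e
      have e1 : (-1 : ℂ) * ((Real.cos (-(Real.pi / 2)) : ℝ) : ℂ) = ((Real.cos (Real.pi / 2) : ℝ) : ℂ) := by
        rw [Real.cos_neg, Real.cos_pi_div_two]; simp
      have e2 : (-1 : ℂ) * ((Real.sin (-(Real.pi / 2)) : ℝ) : ℂ) = ((Real.sin (Real.pi / 2) : ℝ) : ℂ) := by
        rw [Real.sin_neg, Real.sin_pi_div_two]; simp
      rw [e1, e2] at e
      have e3 : (-1 : ℂ) * -z = z := by ring
      rw [e3] at e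
      rw [e]
      have h4 : ((-1 : ℂ)) ^ g = ∏ _i : Fin g, (-1 : ℂ) := by
        rw [Finset.prod_const, Finset.card_univ, Fintype.card_fin]
      rw [h4, ← Finset.prod_mul_distrib]
      apply Finset.prod_congr rfl
      intro i _
      push_cast
      ring
    · intro i hi
      have := h3 i (Finset.mem_compl.mp hi)
      rw [Real.cos_neg, Real.cos_pi_div_two, Real.sin_neg, Real.sin_pi_div_two] at this
      rw [Real.cos_pi_div_two, Real.sin_pi_div_two]
      linarith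
    · intro i hi
      have hi' : i ∈ J := by
        by_contra hn
        exact hi (Finset.mem_compl.mpr hn)
      have := h2 i hi'
      rw [Real.cos_neg, Real.cos_pi_div_two, Real.sin_neg, Real.sin_pi_div_two] at this
      rw [Real.cos_pi_div_two, Real.sin_pi_div_two]
      linarith
  have hJc := hconst _ hright _ hrefl
  rw [Finset.card_compl, Fintype.card_fin] at hJc
  have hJle : J.card ≤ g := by
    have := Finset.card_le_univ J
    rwa [Fintype.card_fin] at this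
  -- now the angle of s
  have hcos : 0 < Real.cos (Real.arctan s) := Real.cos_arctan_pos s
  have hsin : Real.sin (Real.arctan s) = Real.cos (Real.arctan s) * s := by
    have h := Real.tan_arctan s
    rw [Real.tan_eq_sin_div_cos, div_eq_iff hcos.ne'] at h
    rw [h, mul_comm]
  have hmem : Real.arctan s ∈ Icc (-(Real.pi / 2)) (Real.pi / 2) :=
    ⟨(Real.neg_pi_div_two_lt_arctan s).le, (Real.arctan_lt_pi_div_two s).le⟩
  obtain ⟨K, hK⟩ := mem_iUnion.mp (hcover hmem)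
  have hKc := hconst _ hmem K hK
  obtain ⟨r, -, h1, h2, h3⟩ := hK
  set θ := Real.arctan s with hθ
  have hcc : Real.cos θ * y0.1 + Real.sin θ * y0.2 = Real.cos θ * (y0.1 + s * y0.2) := by
    rw [hsin]; ring
  have hc0 : ((Real.cos θ : ℝ) : ℂ) ≠ 0 := by exact_mod_cast hcos.ne'
  have hlow : ∀ i ∈ K, r i / Real.cos θ < y0.1 + s * y0.2 := by
    intro i hi
    have := h2 i hi
    rw [hcc] at this
    rw [div_lt_iff₀ hcos]
    linarith
  have hhigh : ∀ i, i ∉ K → y0.1 + s * y0.2 < r i / Real.cos θ := by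
    intro i hi
    have := h3 i hi
    rw [hcc] at this
    rw [lt_div_iff₀ hcos]
    linarith
  refine ⟨fun i => r i / Real.cos θ, ?_, ?_, ?_⟩
  · intro z
    have e := T17_hom g G ((Real.cos θ : ℝ) : ℂ) 1 (s : ℂ) z
    rw [mul_one, T17_one hGd hGc] at e
    have e2 : ((Real.cos θ : ℝ) : ℂ) * (s : ℂ) = ((Real.sin θ : ℝ) : ℂ) := by
      rw [hsin]; push_cast; ring
    rw [e2, h1] at e
    have hpow : (((Real.cos θ : ℝ) : ℂ)) ^ g ≠ 0 := pow_ne_zero _ hc0
    have e3 : ∏ i, (((Real.cos θ : ℝ) : ℂ) * z - (r i : ℂ)) =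
        (((Real.cos θ : ℝ) : ℂ)) ^ g * ∏ i, (z - ((r i / Real.cos θ : ℝ) : ℂ)) := by
      have h3 : (((Real.cos θ : ℝ) : ℂ)) ^ g = ∏ _i : Fin g, ((Real.cos θ : ℝ) : ℂ) := by
        rw [Finset.prod_const, Finset.card_univ, Fintype.card_fin]
      rw [h3, ← Finset.prod_mul_distrib]
      apply Finset.prod_congr rfl
      intro i _
      rw [mul_sub, Complex.ofReal_div, mul_div_cancel₀ _ hc0]
    rw [e3] at e
    exact (mul_left_cancel₀ hpow e).symm
  · have : (Finset.univ.filter (fun i => r i / Real.cos θ < y0.1 + s * y0.2)) = K := by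
      ext i
      rw [Finset.mem_filter]
      constructor
      · rintro ⟨-, hi⟩; by_contra hn; linarith [hhigh i hn]
      · intro hi; exact ⟨Finset.mem_univ i, hlow i hi⟩
    rw [this]; omega
  · have : (Finset.univ.filter (fun i => y0.1 + s * y0.2 < r i / Real.cos θ)) = Kᶜ := by
      ext i
      rw [Finset.mem_filter, Finset.mem_compl]
      constructor
      · rintro ⟨-, hi⟩ hn; linarith [hlow i hn]
      · intro hi; exact ⟨Finset.mem_univ i, hhigh i hi⟩
    rw [this, Finset.card_compl, Fintype.card_fin]; omega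

theorem T17_lip {Y : Set (ℝ × ℝ)} (hYne : Y.Nonempty) {M : ℝ} (hM : ∀ y ∈ Y, |y.1| ≤ M ∧ |y.2| ≤ M) :
    Continuous (fun s : ℝ => sSup ((fun y : ℝ × ℝ => y.1 + s * y.2) '' Y)) ∧
    Continuous (fun s : ℝ => sInf ((fun y : ℝ × ℝ => y.1 + s * y.2) '' Y)) := by
  have hbd : ∀ s : ℝ, ∀ x ∈ (fun y : ℝ × ℝ => y.1 + s * y.2) '' Y, |x| ≤ M * (1 + |s|) :=
    fun s x hx => T17_clos hM s x (subset_closure hx)
  have hba : ∀ s : ℝ, BddAbove ((fun y : ℝ × ℝ => y.1 + s * y.2) '' Y) :=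
    fun s => ⟨_, fun x hx => (abs_le.mp (hbd s x hx)).2⟩
  have hbb : ∀ s : ℝ, BddBelow ((fun y : ℝ × ℝ => y.1 + s * y.2) '' Y) :=
    fun s => ⟨_, fun x hx => (abs_le.mp (hbd s x hx)).1⟩
  have hM0 : 0 ≤ M := by
    obtain ⟨y, hy⟩ := hYne
    exact le_trans (abs_nonneg _) (hM y hy).1
  have hdiff : ∀ s s' : ℝ, ∀ y ∈ Y, |(s - s') * y.2| ≤ M * dist s s' := by
    intro s s' y hy
    rw [abs_mul, mul_comm, Real.dist_eq]
    exact mul_le_mul_of_nonneg_right (hM y hy).2 (abs_nonneg _)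
  constructor
  · have h : LipschitzWith (Real.toNNReal M)
        (fun s : ℝ => sSup ((fun y : ℝ × ℝ => y.1 + s * y.2) '' Y)) := by
      apply LipschitzWith.of_le_add_mul'
      intro s s'
      apply csSup_le (hYne.image _)
      rintro _ ⟨y, hy, rfl⟩
      have h1 : y.1 + s' * y.2 ≤ sSup ((fun y : ℝ × ℝ => y.1 + s' * y.2) '' Y) :=
        le_csSup (hba s') ⟨y, hy, rfl⟩
      have h2 := (abs_le.mp (hdiff s s' y hy)).2
      show y.1 + s * y.2 ≤ _
      have : y.1 + s * y.2 = y.1 + s' * y.2 + (s - s') * y.2 := by ring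
      rw [this]
      linarith
    exact h.continuous
  · have h : LipschitzWith (Real.toNNReal M)
        (fun s : ℝ => sInf ((fun y : ℝ × ℝ => y.1 + s * y.2) '' Y)) := by
      apply LipschitzWith.of_le_add_mul'
      intro s s'
      have : sInf ((fun y : ℝ × ℝ => y.1 + s * y.2) '' Y) - M * dist s s' ≤
          sInf ((fun y : ℝ × ℝ => y.1 + s' * y.2) '' Y) := by
        apply le_csInf (hYne.image _)
        rintro _ ⟨y, hy, rfl⟩
        have h1 : sInf ((fun y : ℝ × ℝ => y.1 + s * y.2) '' Y) ≤ y.1 + s * y.2 :=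
          csInf_le (hbb s) ⟨y, hy, rfl⟩
        have h2 := (abs_le.mp (hdiff s s' y hy)).2
        show _ ≤ y.1 + s' * y.2
        have : y.1 + s' * y.2 = y.1 + s * y.2 - (s - s') * y.2 := by ring
        rw [this]
        linarith
      linarith
    exact h.continuous

theorem endgame (Y : Set (ℝ × ℝ)) (hYo : IsOpen Y) (hYne : Y.Nonempty)
    (hYb : Bornology.IsBounded Y) (g : ℕ) (G : ℂ[X][X]) (hGm : G.Monic) (hGd : G.natDegree = g)
    (hGc : ∀ k ≤ g, (G.coeff (g - k)).natDegree ≤ k) (D : Set ℝ) (hD : Dense D)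
    (hroots : ∀ s ∈ D, ∀ z : ℂ, G.evalEval (s : ℂ) z = 0 →
      ∃ t ∈ frontier ((fun y : ℝ × ℝ => y.1 + s * y.2) '' Y), z = (t : ℂ))
    (s₀ : ℝ) (hs₀ : s₀ ∈ D) (hfin : (frontier ((fun y : ℝ × ℝ => y.1 + s₀ * y.2) '' Y)).Finite)
    (hnd : (G.map (evalRingHom (s₀ : ℂ))).roots.Nodup)
    (htop : G.evalEval (s₀ : ℂ) ((sSup ((fun y : ℝ × ℝ => y.1 + s₀ * y.2) '' Y) : ℝ) : ℂ) = 0) :
    ∃ a b c d e : ℝ, ∀ s : ℝ,
      sSup ((fun y : ℝ × ℝ => y.1 + s * y.2) '' Y) + sInf ((fun y : ℝ × ℝ => y.1 + s * y.2) '' Y)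
        = a + b * s ∧
      sSup ((fun y : ℝ × ℝ => y.1 + s * y.2) '' Y) * sInf ((fun y : ℝ × ℝ => y.1 + s * y.2) '' Y)
        = c + d * s + e * s ^ 2 := by
  -- a common bound
  obtain ⟨M, hM⟩ : ∃ M : ℝ, ∀ y ∈ Y, |y.1| ≤ M ∧ |y.2| ≤ M := by
    obtain ⟨M, hM⟩ := hYb.exists_norm_le
    refine ⟨M, fun y hy => ?_⟩
    have := hM y hy
    exact ⟨le_trans (norm_fst_le y) this, le_trans (norm_snd_le y) this⟩
  have hball : ∀ y ∈ Y, ∃ ε > 0, closedBall y ε ⊆ Y := fun y hy =>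
    Metric.nhds_basis_closedBall.mem_iff.mp (hYo.mem_nhds hy)
  have hbd : ∀ s : ℝ, ∀ x ∈ closure ((fun y : ℝ × ℝ => y.1 + s * y.2) '' Y), |x| ≤ M * (1 + |s|) :=
    fun s x hx => T17_clos hM s x hx
  have hba : ∀ s : ℝ, BddAbove ((fun y : ℝ × ℝ => y.1 + s * y.2) '' Y) :=
    fun s => ⟨_, fun x hx => (abs_le.mp (hbd s x (subset_closure hx))).2⟩
  have hbb : ∀ s : ℝ, BddBelow ((fun y : ℝ × ℝ => y.1 + s * y.2) '' Y) :=
    fun s => ⟨_, fun x hx => (abs_le.mp (hbd s x (subset_closure hx))).1⟩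
  -- upper and lower bounds for closures
  have hcsup : ∀ s : ℝ, ∀ x ∈ closure ((fun y : ℝ × ℝ => y.1 + s * y.2) '' Y),
      x ≤ sSup ((fun y : ℝ × ℝ => y.1 + s * y.2) '' Y) := by
    intro s x hx
    exact closure_minimal (fun x hx => le_csSup (hba s) hx) isClosed_Iic hx
  have hcinf : ∀ s : ℝ, ∀ x ∈ closure ((fun y : ℝ × ℝ => y.1 + s * y.2) '' Y),
      sInf ((fun y : ℝ × ℝ => y.1 + s * y.2) '' Y) ≤ x := by
    intro s x hx
    exact closure_minimal (fun x hx => csInf_le (hbb s) hx) isClosed_Ici hx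
  have hMM : ∀ (s : ℝ) (y : ℝ × ℝ), y ∈ Y → ∃ ρ : Fin g → ℝ,
      (∀ z : ℂ, G.evalEval (s : ℂ) z = ∏ i, (z - (ρ i : ℂ))) ∧
      2 * (Finset.univ.filter (fun i => ρ i < y.1 + s * y.2)).card = g ∧
      2 * (Finset.univ.filter (fun i => y.1 + s * y.2 < ρ i)).card = g := by
    intro s y hy
    obtain ⟨ε, hε, hb⟩ := hball y hy
    exact T17_M hGm hGd hGc hM hε hb hD hroots s
  -- step 3 : g = 2
  have hg2 : g = 2 := by
    set top := sSup ((fun y : ℝ × ℝ => y.1 + s₀ * y.2) '' Y) with htopdef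
    set F := frontier ((fun y : ℝ × ℝ => y.1 + s₀ * y.2) '' Y) with hF
    have hFle : ∀ f ∈ F, f ≤ top := fun f hf => hcsup s₀ f (frontier_subset_closure hf)
    obtain ⟨b, hbmem, hbmax⟩ := Set.exists_max_image (insert (top - 1) (F \ {top})) id
      ((hfin.subset Set.sdiff_subset).insert _) ⟨_, mem_insert _ _⟩
    have hbtop : b < top := by
      rcases hbmem with h | h
      · rw [h]; linarith
      · exact lt_of_le_of_ne (hFle b h.1) h.2
    obtain ⟨_, ⟨y0, hy0, rfl⟩, hby0⟩ := exists_lt_of_lt_csSup (hYne.image _) (htopdef ▸ hbtop)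
    obtain ⟨ρ, hρ, hc1, hc2⟩ := hMM s₀ y0 hy0
    obtain ⟨ρ', hρ', hroots'⟩ := T17_factor hGm hGd (s₀ : ℂ)
    have huniq := T17_uniq ρ' (fun i => (ρ i : ℂ)) (fun z => by rw [← hρ z, ← hρ' z])
    rw [← hroots'] at huniq
    have hinj : Function.Injective ρ := by
      rw [huniq] at hnd
      have := Multiset.nodup_map_iff_inj_on Finset.univ.nodup |>.mp hnd
      intro i j hij
      exact this i (Finset.mem_univ_val i) j (Finset.mem_univ_val j) (by rw [hij])
    have hmemF : ∀ i, ρ i ∈ F := by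
      intro i
      obtain ⟨t, ht, hte⟩ := hroots s₀ hs₀ (ρ i : ℂ) (by
        rw [hρ]; exact Finset.prod_eq_zero (Finset.mem_univ i) (sub_self _))
      have : ρ i = t := by exact_mod_cast hte
      rw [this]; exact ht
    have hle1 : (Finset.univ.filter (fun i => y0.1 + s₀ * y0.2 < ρ i)).card ≤ 1 := by
      rw [Finset.card_le_one]
      have key : ∀ i ∈ (Finset.univ.filter (fun i => y0.1 + s₀ * y0.2 < ρ i)), ρ i = top := by
        intro i hi
        by_contra hne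
        have h1 : ρ i ≤ b := hbmax (ρ i) (Or.inr ⟨hmemF i, hne⟩)
        have h2 := (Finset.mem_filter.mp hi).2
        have h3 : b < y0.1 + s₀ * y0.2 := hby0
        linarith
      intro i hi j hj
      exact hinj ((key i hi).trans (key j hj).symm)
    have hpos : 0 < g := by
      obtain ⟨i, -⟩ := T17_mem (fun i => (ρ i : ℂ)) _ ((hρ _).symm.trans htop)
      exact i.pos
    omega
  subst hg2
  -- step 4
  obtain ⟨y1, hy1⟩ := hYne
  have hcoef : ∀ s z : ℂ, G.evalEval s z = (G.coeff 0).eval s + (G.coeff 1).eval s * z + z ^ 2 := by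
    intro s z
    rw [T17_evalEval hGd, Finset.sum_range_succ, Finset.sum_range_succ, Finset.sum_range_one]
    have h2 : G.coeff 2 = 1 := by
      have := hGm.coeff_natDegree
      rwa [hGd] at this
    rw [h2, eval_one]; ring
  have hd1 : (G.coeff 1).natDegree ≤ 1 := hGc 1 (by norm_num)
  have hd0 : (G.coeff 0).natDegree ≤ 2 := hGc 2 (by norm_num)
  have hev1 : ∀ s : ℂ, (G.coeff 1).eval s = (G.coeff 1).coeff 0 + (G.coeff 1).coeff 1 * s := by
    intro s
    rw [eval_eq_sum_range' (Nat.lt_succ_of_le hd1)]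
    simp [Finset.sum_range_succ]
  have hev0 : ∀ s : ℂ, (G.coeff 0).eval s =
      (G.coeff 0).coeff 0 + (G.coeff 0).coeff 1 * s + (G.coeff 0).coeff 2 * s ^ 2 := by
    intro s
    rw [eval_eq_sum_range' (Nat.lt_succ_of_le hd0)]
    simp [Finset.sum_range_succ]
  have hkey : ∀ s ∈ D,
      ((sSup ((fun y : ℝ × ℝ => y.1 + s * y.2) '' Y) + sInf ((fun y : ℝ × ℝ => y.1 + s * y.2) '' Y) : ℝ) : ℂ)
        = - (G.coeff 1).eval (s : ℂ) ∧
      ((sSup ((fun y : ℝ × ℝ => y.1 + s * y.2) '' Y) * sInf ((fun y : ℝ × ℝ => y.1 + s * y.2) '' Y) : ℝ) : ℂ)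
        = (G.coeff 0).eval (s : ℂ) := by
    intro s hs
    obtain ⟨ρ, hρ, hc1, hc2⟩ := hMM s y1 hy1
    obtain ⟨lo, hi, hlh, hprod⟩ : ∃ lo hi : ℝ, lo ≤ hi ∧
        ∀ z : ℂ, G.evalEval (s : ℂ) z = (z - lo) * (z - hi) := by
      rcases le_total (ρ 0) (ρ 1) with h | h
      · exact ⟨ρ 0, ρ 1, h, fun z => by rw [hρ, Fin.prod_univ_two]⟩
      · exact ⟨ρ 1, ρ 0, h, fun z => by rw [hρ, Fin.prod_univ_two, mul_comm]⟩
    have hbetween : ∀ y ∈ Y, lo < y.1 + s * y.2 ∧ y.1 + s * y.2 < hi := by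
      intro y hy
      obtain ⟨r, hr, hr1, hr2⟩ := hMM s y hy
      have heq : ∀ z : ℂ, ∏ i, (z - (r i : ℂ)) = ∏ i, (z - ((![lo, hi] i : ℝ) : ℂ)) := by
        intro z
        rw [← hr z, hprod z, Fin.prod_univ_two]; simp
      have e1 := T17_cnt r ![lo, hi] heq (fun x => x < y.1 + s * y.2)
      have e2 := T17_cnt r ![lo, hi] heq (fun x => y.1 + s * y.2 < x)
      rw [e1] at hr1
      rw [e2] at hr2
      constructor
      · by_contra hn
        push Not at hn
        have : (Finset.univ.filter (fun i : Fin 2 => ![lo, hi] i < y.1 + s * y.2)) = ∅ := by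
          rw [Finset.filter_eq_empty_iff]
          intro i _
          fin_cases i
          · simpa using hn
          · simpa using hn.trans hlh
        rw [this] at hr1
        simp at hr1
      · by_contra hn
        push Not at hn
        have : (Finset.univ.filter (fun i : Fin 2 => y.1 + s * y.2 < ![lo, hi] i)) = ∅ := by
          rw [Finset.filter_eq_empty_iff]
          intro i _
          fin_cases i
          · simpa using hlh.trans hn
          · simpa using hn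
        rw [this] at hr2
        simp at hr2
    have hlomem : lo ∈ closure ((fun y : ℝ × ℝ => y.1 + s * y.2) '' Y) := by
      obtain ⟨t, ht, hte⟩ := hroots s hs (lo : ℂ) (by rw [hprod]; ring)
      have : lo = t := by exact_mod_cast hte
      rw [this]; exact frontier_subset_closure ht
    have hhimem : hi ∈ closure ((fun y : ℝ × ℝ => y.1 + s * y.2) '' Y) := by
      obtain ⟨t, ht, hte⟩ := hroots s hs (hi : ℂ) (by rw [hprod]; ring)
      have : hi = t := by exact_mod_cast hte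
      rw [this]; exact frontier_subset_closure ht
    have hne : ((fun y : ℝ × ℝ => y.1 + s * y.2) '' Y).Nonempty := ⟨_, y1, hy1, rfl⟩
    have hsup : sSup ((fun y : ℝ × ℝ => y.1 + s * y.2) '' Y) = hi := by
      apply le_antisymm
      · apply csSup_le hne
        rintro _ ⟨y, hy, rfl⟩
        exact (hbetween y hy).2.le
      · exact hcsup s hi hhimem
    have hinf : sInf ((fun y : ℝ × ℝ => y.1 + s * y.2) '' Y) = lo := by
      apply le_antisymm
      · exact hcinf s lo hlomem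
      · apply le_csInf hne
        rintro _ ⟨y, hy, rfl⟩
        exact (hbetween y hy).1.le
    rw [hsup, hinf]
    have z0 := hprod 0
    have z1 := hprod 1
    rw [hcoef] at z0 z1
    have w0 : (G.coeff 0).eval (s : ℂ) = lo * hi := by linear_combination z0
    have w1 : (G.coeff 1).eval (s : ℂ) = -(lo + hi) := by linear_combination z1 - z0
    push_cast
    rw [w0, w1]
    constructor <;> ring
  obtain ⟨hcontS, hcontI⟩ := T17_lip ⟨y1, hy1⟩ hM
  refine ⟨-((G.coeff 1).coeff 0).re, -((G.coeff 1).coeff 1).re, ((G.coeff 0).coeff 0).re,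
    ((G.coeff 0).coeff 1).re, ((G.coeff 0).coeff 2).re, ?_⟩
  have hfun1 : (fun s : ℝ => sSup ((fun y : ℝ × ℝ => y.1 + s * y.2) '' Y) +
      sInf ((fun y : ℝ × ℝ => y.1 + s * y.2) '' Y)) =
      (fun s : ℝ => -((G.coeff 1).coeff 0).re + -((G.coeff 1).coeff 1).re * s) := by
    apply Continuous.ext_on hD (hcontS.add hcontI) (by fun_prop)
    intro s hs
    have h := congrArg Complex.re (hkey s hs).1
    rw [hev1, Complex.ofReal_re] at h
    simp only [Complex.neg_re, Complex.add_re, Complex.mul_re, Complex.ofReal_re,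
      Complex.ofReal_im, mul_zero, sub_zero] at h
    refine h.trans ?_
    ring
  have hfun2 : (fun s : ℝ => sSup ((fun y : ℝ × ℝ => y.1 + s * y.2) '' Y) *
      sInf ((fun y : ℝ × ℝ => y.1 + s * y.2) '' Y)) =
      (fun s : ℝ => ((G.coeff 0).coeff 0).re + ((G.coeff 0).coeff 1).re * s +
        ((G.coeff 0).coeff 2).re * s ^ 2) := by
    apply Continuous.ext_on hD (hcontS.mul hcontI) (by fun_prop)
    intro s hs
    have h := congrArg Complex.re (hkey s hs).2
    rw [hev0, Complex.ofReal_re] at h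
    have e : ((s : ℂ)) ^ 2 = ((s ^ 2 : ℝ) : ℂ) := by push_cast; ring
    rw [e] at h
    simp only [Complex.add_re, Complex.mul_re, Complex.ofReal_re,
      Complex.ofReal_im, mul_zero, sub_zero] at h
    exact h
  intro s
  exact ⟨congrFun hfun1 s, congrFun hfun2 s⟩

end AS.J3644
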