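import Mathlib

set_option autoImplicit false
open Set Metric MeasureTheory
open scoped ContDiff RealInnerProductSpace ENNReal

namespace AS.J3730

theorem mp_slice {n : ℕ} (ξ : EuclideanSpace ℝ (Fin n)) (hξ : ‖ξ‖ = 1) :
    MeasurePreserving (fun p : ℝ × (ℝ ∙ ξ)ᗮ => p.1 • ξ + (p.2 : EuclideanSpace ℝ (Fin n)))
      ((volume : Measure ℝ).prod volume) volume := by
  have h1 : MeasurePreserving (LinearIsometryEquiv.toSpanUnitSingleton (𝕜 := ℝ) ξ hξ)
      (volume : Measure ℝ) (volume : Measure (ℝ ∙ ξ)) :=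
    LinearIsometryEquiv.measurePreserving _
  have h2 := h1.prod (MeasurePreserving.id (volume : Measure (ℝ ∙ ξ)ᗮ))
  have h3 := WithLp.volume_preserving_toLp (ℝ ∙ ξ) (ℝ ∙ ξ)ᗮ
  have h4 := (ℝ ∙ ξ).orthogonalDecomposition.symm.measurePreserving
  have h5 := h4.comp (h3.comp h2)
  have h6 : (fun p : ℝ × (ℝ ∙ ξ)ᗮ => p.1 • ξ + (p.2 : EuclideanSpace ℝ (Fin n))) =
      (ℝ ∙ ξ).orthogonalDecomposition.symm ∘ (WithLp.toLp 2) ∘
        (Prod.map (LinearIsometryEquiv.toSpanUnitSingleton (𝕜 := ℝ) ξ hξ) id) := by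
    funext p
    simp [Submodule.orthogonalDecomposition_symm_apply]
  rw [h6]
  exact h5

/-- TARGET 1: Fubini along a unit direction -/
theorem lintegral_slice {n : ℕ} (ξ : EuclideanSpace ℝ (Fin n)) (hξ : ‖ξ‖ = 1)
    (f : EuclideanSpace ℝ (Fin n) → ℝ≥0∞) (hf : Measurable f) :
    ∫⁻ x, f x = ∫⁻ t : ℝ, ∫⁻ y : (ℝ ∙ ξ)ᗮ, f (t • ξ + (y : EuclideanSpace ℝ (Fin n))) := by
  have h := mp_slice ξ hξ
  rw [← h.lintegral_comp hf, lintegral_prod]
  exact (hf.comp h.measurable).aemeasurable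

/-- TARGET 2 -/
theorem setIntegral_slice {n : ℕ} (ξ : EuclideanSpace ℝ (Fin n)) (hξ : ‖ξ‖ = 1)
    (K : Set (EuclideanSpace ℝ (Fin n))) (hKm : MeasurableSet K) (hKb : Bornology.IsBounded K)
    (φ : ℝ → ℝ) (hφ : Continuous φ) :
    ∫ x in K, φ ⟪x, ξ⟫ =
      ∫ t : ℝ, φ t * (volume {y : (ℝ ∙ ξ)ᗮ | t • ξ + (y : EuclideanSpace ℝ (Fin n)) ∈ K}).toReal ∧
    Integrable (fun t : ℝ =>
      (volume {y : (ℝ ∙ ξ)ᗮ | t • ξ + (y : EuclideanSpace ℝ (Fin n)) ∈ K}).toReal) := by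
  have h := mp_slice ξ hξ
  have key : ∀ ψ : ℝ → ℝ, Continuous ψ →
      Integrable (fun p : ℝ × (ℝ ∙ ξ)ᗮ => K.indicator (fun x => ψ ⟪x, ξ⟫)
        (p.1 • ξ + (p.2 : EuclideanSpace ℝ (Fin n)))) ((volume : Measure ℝ).prod volume) := by
    intro ψ hψ
    have hcont : Continuous fun x : EuclideanSpace ℝ (Fin n) => ψ ⟪x, ξ⟫ := by fun_prop
    have hint : Integrable (K.indicator (fun x => ψ ⟪x, ξ⟫)) := by
      rw [integrable_indicator_iff hKm]
      obtain ⟨R, hR⟩ := hKb.subset_closedBall 0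
      exact (hcont.continuousOn.integrableOn_compact (isCompact_closedBall 0 R)).mono_set hR
    exact (h.integrable_comp hint.aestronglyMeasurable).2 hint
  have inner_eq : ∀ ψ : ℝ → ℝ, ∀ t : ℝ,
      ∫ y : (ℝ ∙ ξ)ᗮ, K.indicator (fun x => ψ ⟪x, ξ⟫) (t • ξ + (y : EuclideanSpace ℝ (Fin n))) =
      ψ t * (volume {y : (ℝ ∙ ξ)ᗮ | t • ξ + (y : EuclideanSpace ℝ (Fin n)) ∈ K}).toReal := by
    intro ψ t
    have hmeas : MeasurableSet {y : (ℝ ∙ ξ)ᗮ | t • ξ + (y : EuclideanSpace ℝ (Fin n)) ∈ K} :=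
      hKm.preimage (by fun_prop)
    have e : (fun y : (ℝ ∙ ξ)ᗮ => K.indicator (fun x => ψ ⟪x, ξ⟫)
        (t • ξ + (y : EuclideanSpace ℝ (Fin n)))) =
        {y : (ℝ ∙ ξ)ᗮ | t • ξ + (y : EuclideanSpace ℝ (Fin n)) ∈ K}.indicator (fun _ => ψ t) := by
      funext y
      have hin : ⟪t • ξ + (y : EuclideanSpace ℝ (Fin n)), ξ⟫ = t := by
        have h0 : ⟪(y : EuclideanSpace ℝ (Fin n)), ξ⟫ = 0 :=
          (Submodule.mem_orthogonal' _ _).1 y.2 ξ (Submodule.mem_span_singleton_self ξ)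
        rw [inner_add_left, real_inner_smul_left, real_inner_self_eq_norm_sq, hξ, h0]
        ring
      by_cases hy : t • ξ + (y : EuclideanSpace ℝ (Fin n)) ∈ K
      · rw [Set.indicator_of_mem hy, Set.indicator_of_mem
          (show y ∈ {y : (ℝ ∙ ξ)ᗮ | t • ξ + (y : EuclideanSpace ℝ (Fin n)) ∈ K} from hy), hin]
      · rw [Set.indicator_of_notMem hy, Set.indicator_of_notMem
          (show y ∉ {y : (ℝ ∙ ξ)ᗮ | t • ξ + (y : EuclideanSpace ℝ (Fin n)) ∈ K} from hy)]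
    rw [e, integral_indicator_const _ hmeas, smul_eq_mul, mul_comm]
    rfl
  constructor
  · rw [← integral_indicator hKm]
    have h1 : ∫ x, K.indicator (fun x => φ ⟪x, ξ⟫) x =
        ∫ p : ℝ × (ℝ ∙ ξ)ᗮ, K.indicator (fun x => φ ⟪x, ξ⟫)
          (p.1 • ξ + (p.2 : EuclideanSpace ℝ (Fin n))) ∂((volume : Measure ℝ).prod volume) := by
      rw [← h.map_eq, integral_map h.measurable.aemeasurable]
      have hcont : Continuous fun x : EuclideanSpace ℝ (Fin n) => φ ⟪x, ξ⟫ := by fun_prop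
      exact (hcont.measurable.indicator hKm).aestronglyMeasurable
    rw [h1, integral_prod _ (key φ hφ)]
    exact integral_congr_ae (Filter.Eventually.of_forall fun t => inner_eq φ t)
  · have h2 := (key (fun _ => 1) continuous_const).integral_prod_left
    refine h2.congr (Filter.Eventually.of_forall fun t => ?_)
    have := inner_eq (fun _ => 1) t
    rw [one_mul] at this
    exact this

end AS.J3730
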