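import Mathlib
import Pool.Agent.Helper272.Ell.J3730

set_option autoImplicit false
open Set Metric MeasureTheory Polynomial
open scoped ContDiff RealInnerProductSpace ENNReal

namespace AS.J4209

open AS.J3730 (setIntegral_slice lintegral_slice)

theorem J4209_root (a : ℝ) (ha : a ≠ 0) (m : ℕ) (Pu : ℝ[X]) (τ : ℝ) :
    (C (a ^ m) * Pu.comp (C a * X)).rootMultiplicity (a⁻¹ * τ) = Pu.rootMultiplicity τ := by
  by_cases h0 : Pu = 0
  · subst h0; simp
  obtain ⟨q, hq, hnd⟩ := Pu.exists_eq_pow_rootMultiplicity_mul_and_not_dvd h0 τ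
  set k := Pu.rootMultiplicity τ with hk
  have hq0 : q.eval τ ≠ 0 := by
    intro h
    exact hnd (dvd_iff_isRoot.mpr h)
  set Q : ℝ[X] := C (a ^ m) * (C a) ^ k * q.comp (C a * X) with hQ
  have hQe : Q.eval (a⁻¹ * τ) ≠ 0 := by
    rw [hQ, eval_mul, eval_mul, eval_C, eval_pow, eval_C, eval_comp, eval_mul, eval_C, eval_X,
      mul_inv_cancel_left₀ ha]
    exact mul_ne_zero (mul_ne_zero (pow_ne_zero _ ha) (pow_ne_zero _ ha)) hq0
  have hQ0 : Q ≠ 0 := by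
    intro h; apply hQe; rw [h, eval_zero]
  have e : C (a ^ m) * Pu.comp (C a * X) = Q * (X - C (a⁻¹ * τ)) ^ k := by
    have e1 : (C a * X - C τ : ℝ[X]) = C a * (X - C (a⁻¹ * τ)) := by
      rw [mul_sub, ← C_mul, mul_inv_cancel_left₀ ha]
    conv_lhs => rw [hq]
    rw [mul_comp, pow_comp, sub_comp, X_comp, C_comp, e1, mul_pow, hQ]
    ring
  rw [e, rootMultiplicity_mul_X_sub_C_pow hQ0, rootMultiplicity_eq_zero hQe, zero_add]

section geo
variable {n : ℕ} (u : EuclideanSpace ℝ (Fin n))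

theorem J4209_inner (hu : ‖u‖ = 1) (t : ℝ) (y : (ℝ ∙ u)ᗮ) :
    ⟪t • u + (y : EuclideanSpace ℝ (Fin n)), u⟫ = t := by
  rw [inner_add_left, real_inner_smul_left, real_inner_self_eq_norm_sq, hu]
  have : ⟪(y : EuclideanSpace ℝ (Fin n)), u⟫ = 0 := by
    rw [real_inner_comm]
    exact Submodule.mem_orthogonal_singleton_iff_inner_right.mp y.2
  rw [this]; ring

theorem J4209_decomp (hu : ‖u‖ = 1) (x : EuclideanSpace ℝ (Fin n)) :
    ∃ y : (ℝ ∙ u)ᗮ, ⟪x, u⟫ • u + (y : EuclideanSpace ℝ (Fin n)) = x := by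
  refine ⟨⟨x - ⟪x, u⟫ • u, ?_⟩, by simp⟩
  rw [Submodule.mem_orthogonal_singleton_iff_inner_right, inner_sub_right, real_inner_smul_right,
    real_inner_self_eq_norm_sq, hu, real_inner_comm]
  ring

theorem J4209_cont (t : ℝ) : Continuous (fun y : (ℝ ∙ u)ᗮ => t • u + (y : EuclideanSpace ℝ (Fin n))) :=
  continuous_const.add continuous_subtype_val

theorem J4209_contp : Continuous (fun p : ℝ × (ℝ ∙ u)ᗮ =>
    p.1 • u + (p.2 : EuclideanSpace ℝ (Fin n))) :=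
  (continuous_fst.smul continuous_const).add (continuous_subtype_val.comp continuous_snd)

theorem J4209_sub (hu : ‖u‖ = 1) {K : Set (EuclideanSpace ℝ (Fin n))} {B : ℝ}
    (hB : ∀ x ∈ K, ‖x‖ ≤ B) (t : ℝ) :
    {y : (ℝ ∙ u)ᗮ | t • u + (y : EuclideanSpace ℝ (Fin n)) ∈ K} ⊆ closedBall 0 (B + |t|) := by
  intro y hy
  rw [mem_closedBall_zero_iff]
  have h1 := hB _ hy
  have h2 : ‖(y : EuclideanSpace ℝ (Fin n))‖ ≤
      ‖t • u + (y : EuclideanSpace ℝ (Fin n))‖ + ‖t • u‖ := by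
    have := norm_sub_le (t • u + (y : EuclideanSpace ℝ (Fin n))) (t • u)
    rwa [add_sub_cancel_left] at this
  rw [norm_smul, hu, mul_one, Real.norm_eq_abs] at h2
  show ‖(y : EuclideanSpace ℝ (Fin n))‖ ≤ _
  linarith

theorem J4209_fin (hu : ‖u‖ = 1) {K : Set (EuclideanSpace ℝ (Fin n))} {B : ℝ}
    (hB : ∀ x ∈ K, ‖x‖ ≤ B) (t : ℝ) :
    volume {y : (ℝ ∙ u)ᗮ | t • u + (y : EuclideanSpace ℝ (Fin n)) ∈ K} < (⊤ : ℝ≥0∞) :=
  lt_of_le_of_lt (measure_mono (J4209_sub u hu hB t)) measure_closedBall_lt_top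

theorem J4209_pos (hu : ‖u‖ = 1) {K : Set (EuclideanSpace ℝ (Fin n))}
    (x : EuclideanSpace ℝ (Fin n)) (hx : x ∈ interior K) :
    0 < volume {y : (ℝ ∙ u)ᗮ | ⟪x, u⟫ • u + (y : EuclideanSpace ℝ (Fin n)) ∈ K} := by
  obtain ⟨y, hy⟩ := J4209_decomp u hu x
  have hopen : IsOpen {y : (ℝ ∙ u)ᗮ | ⟪x, u⟫ • u + (y : EuclideanSpace ℝ (Fin n)) ∈ interior K} :=
    isOpen_interior.preimage (J4209_cont u _)
  have hpos := hopen.measure_pos volume ⟨y, by show _ ∈ interior K; rw [hy]; exact hx⟩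
  have hsub : {y : (ℝ ∙ u)ᗮ | ⟪x, u⟫ • u + (y : EuclideanSpace ℝ (Fin n)) ∈ interior K} ⊆
      {y : (ℝ ∙ u)ᗮ | ⟪x, u⟫ • u + (y : EuclideanSpace ℝ (Fin n)) ∈ K} := by
    intro z hz
    have hz' : ⟪x, u⟫ • u + (z : EuclideanSpace ℝ (Fin n)) ∈ interior K := hz
    exact (interior_subset : interior K ⊆ K) hz'
  exact lt_of_lt_of_le hpos (measure_mono hsub)

/-- slices of a null set -/
theorem J4209_null (hu : ‖u‖ = 1) {F : Set (EuclideanSpace ℝ (Fin n))} (hF : MeasurableSet F)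
    (h0 : volume F = 0) :
    ∀ᵐ t : ℝ, volume {y : (ℝ ∙ u)ᗮ | t • u + (y : EuclideanSpace ℝ (Fin n)) ∈ F} = 0 := by
  have hm : Measurable (F.indicator (1 : EuclideanSpace ℝ (Fin n) → ℝ≥0∞)) :=
    measurable_one.indicator hF
  have h1 := lintegral_slice u hu _ hm
  rw [lintegral_indicator_one hF, h0] at h1
  have hjoint : Measurable (fun p : ℝ × (ℝ ∙ u)ᗮ =>
      F.indicator (1 : EuclideanSpace ℝ (Fin n) → ℝ≥0∞)
        (p.1 • u + (p.2 : EuclideanSpace ℝ (Fin n)))) :=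
    hm.comp (J4209_contp u).measurable
  have hm2 : Measurable (fun t : ℝ => ∫⁻ y : (ℝ ∙ u)ᗮ,
      F.indicator (1 : EuclideanSpace ℝ (Fin n) → ℝ≥0∞)
        (t • u + (y : EuclideanSpace ℝ (Fin n)))) := hjoint.lintegral_prod_right'
  have h2 := (lintegral_eq_zero_iff hm2).mp h1.symm
  filter_upwards [h2] with t ht
  have hmt : MeasurableSet {y : (ℝ ∙ u)ᗮ | t • u + (y : EuclideanSpace ℝ (Fin n)) ∈ F} :=
    (J4209_cont u t).measurable hF
  rw [← lintegral_indicator_one hmt]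
  exact ht

/-- upper semicontinuity at a null slice -/
theorem J4209_usc (hu : ‖u‖ = 1) {K : Set (EuclideanSpace ℝ (Fin n))} (hK : IsCompact K) (t : ℝ)
    (h0 : volume {y : (ℝ ∙ u)ᗮ | t • u + (y : EuclideanSpace ℝ (Fin n)) ∈ K} = 0) :
    Filter.Tendsto (fun s : ℝ => volume {y : (ℝ ∙ u)ᗮ | s • u + (y : EuclideanSpace ℝ (Fin n)) ∈ K})
      (nhds t) (nhds 0) := by
  obtain ⟨B, hB⟩ := hK.isBounded.exists_norm_le
  have hKm := hK.isClosed.measurableSet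
  have hms : ∀ s : ℝ, MeasurableSet {y : (ℝ ∙ u)ᗮ | s • u + (y : EuclideanSpace ℝ (Fin n)) ∈ K} :=
    fun s => (J4209_cont u s).measurable hKm
  have he : ∀ s : ℝ, volume {y : (ℝ ∙ u)ᗮ | s • u + (y : EuclideanSpace ℝ (Fin n)) ∈ K} =
      ∫⁻ y : (ℝ ∙ u)ᗮ, ({y : (ℝ ∙ u)ᗮ | s • u + (y : EuclideanSpace ℝ (Fin n)) ∈ K}.indicator
        (1 : (ℝ ∙ u)ᗮ → ℝ≥0∞)) y := fun s => (lintegral_indicator_one (hms s)).symm
  have hlim : Filter.Tendsto (fun s : ℝ => ∫⁻ y : (ℝ ∙ u)ᗮ,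
      ({y : (ℝ ∙ u)ᗮ | s • u + (y : EuclideanSpace ℝ (Fin n)) ∈ K}.indicator
        (1 : (ℝ ∙ u)ᗮ → ℝ≥0∞)) y) (nhds t) (nhds (∫⁻ _ : (ℝ ∙ u)ᗮ, 0)) := by
    refine tendsto_lintegral_filter_of_dominated_convergence
      ((closedBall (0 : (ℝ ∙ u)ᗮ) (B + (|t| + 1))).indicator 1) ?_ ?_ ?_ ?_
    · exact Filter.Eventually.of_forall fun s => measurable_one.indicator (hms s)
    · have hev : ∀ᶠ s in nhds t, |s| < |t| + 1 := by
        have : Continuous (fun s : ℝ => |s|) := continuous_abs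
        exact this.continuousAt.eventually_lt_const (by linarith)
      filter_upwards [hev] with s hs
      refine Filter.Eventually.of_forall fun y => ?_
      apply indicator_le_indicator_of_subset _ (fun _ => zero_le)
      exact (J4209_sub u hu hB s).trans (closedBall_subset_closedBall (by linarith))
    · rw [lintegral_indicator_one measurableSet_closedBall]
      exact measure_closedBall_lt_top.ne
    · have hae : ∀ᵐ y : (ℝ ∙ u)ᗮ, ¬ (t • u + (y : EuclideanSpace ℝ (Fin n)) ∈ K) := by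
        rw [ae_iff]
        simpa using h0
      filter_upwards [hae] with y hy
      have hopen : IsOpen {s : ℝ | s • u + (y : EuclideanSpace ℝ (Fin n)) ∈ Kᶜ} :=
        hK.isClosed.isOpen_compl.preimage
          ((continuous_id.smul continuous_const).add continuous_const)
      have hev : ∀ᶠ s in nhds t, s • u + (y : EuclideanSpace ℝ (Fin n)) ∈ Kᶜ :=
        hopen.mem_nhds hy
      refine tendsto_const_nhds.congr' ?_
      filter_upwards [hev] with s hs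
      rw [indicator_of_notMem]
      exact hs
  rw [lintegral_zero] at hlim
  refine hlim.congr fun s => ?_
  exact (he s).symm

end geo

/-- TARGET 3: density of the projection of a body in an arbitrary (not normalized) direction -/
theorem slice_poly {n : ℕ} (hn : 2 ≤ n) (K : Set (EuclideanSpace ℝ (Fin n))) (hK : IsCompact K)
    (hfr : volume (frontier K) = 0) (m : ℕ) (hm : 0 < m)
    (ξ : EuclideanSpace ℝ (Fin n)) (hξ : ξ ≠ 0) (u : EuclideanSpace ℝ (Fin n))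
    (hu : u = (‖ξ‖⁻¹ : ℝ) • ξ) (Pu : ℝ[X])
    (hPu : ∀ t : ℝ, (∃ x ∈ interior K, ⟪x, u⟫ = t) →
      (volume {y : (ℝ ∙ u)ᗮ | t • u + (y : EuclideanSpace ℝ (Fin n)) ∈ K}).toReal ^ m
        = Pu.eval t)
    (P : ℝ[X]) (hP : P = C ((‖ξ‖⁻¹) ^ m) * Pu.comp (C ‖ξ‖⁻¹ * X))
    (U : Set ℝ) (hU : U = (fun x : EuclideanSpace ℝ (Fin n) => ⟪x, ξ⟫) '' interior K) :
    (∀ t ∈ U, 0 < P.eval t) ∧
    (∀ φ : ℝ → ℝ, Continuous φ →
      ∫ x in K, φ ⟪x, ξ⟫ = ∫ t in U, φ t * (P.eval t) ^ (1 / (m : ℝ))) ∧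
    (∀ τ : ℝ, P.rootMultiplicity (‖ξ‖ * τ) = Pu.rootMultiplicity τ) ∧
    (∀ τ ∈ frontier U, volume {y : (ℝ ∙ u)ᗮ | (‖ξ‖⁻¹ * τ) • u + (y : EuclideanSpace ℝ (Fin n)) ∈ K}
      = 0 → P.eval τ = 0) := by
  have hξn : 0 < ‖ξ‖ := norm_pos_iff.mpr hξ
  have hξu : ξ = ‖ξ‖ • u := by
    rw [hu, smul_smul, mul_inv_cancel₀ hξn.ne', one_smul]
  have hun : ‖u‖ = 1 := by
    rw [hu, norm_smul, norm_inv, norm_norm, inv_mul_cancel₀ hξn.ne']
  have hin : ∀ x : EuclideanSpace ℝ (Fin n), ⟪x, ξ⟫ = ‖ξ‖ * ⟪x, u⟫ := by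
    intro x
    conv_lhs => rw [hξu]
    rw [real_inner_smul_right]
  obtain ⟨B, hB⟩ := hK.isBounded.exists_norm_le
  set A : ℝ → ℝ := fun t =>
    (volume {y : (ℝ ∙ u)ᗮ | t • u + (y : EuclideanSpace ℝ (Fin n)) ∈ K}).toReal with hA
  have hA0 : ∀ t, 0 ≤ A t := fun t => ENNReal.toReal_nonneg
  have hPe : ∀ r, P.eval r = (‖ξ‖⁻¹) ^ m * Pu.eval (‖ξ‖⁻¹ * r) := by
    intro r
    rw [hP, eval_mul, eval_C, eval_comp, eval_mul, eval_C, eval_X]
  have hPU : ∀ r ∈ U, P.eval r = (‖ξ‖⁻¹ * A (‖ξ‖⁻¹ * r)) ^ m := by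
    intro r hr
    rw [hU] at hr
    obtain ⟨x, hx, rfl⟩ := hr
    have h1 : ‖ξ‖⁻¹ * ⟪x, ξ⟫ = ⟪x, u⟫ := by rw [hin, inv_mul_cancel_left₀ hξn.ne']
    show P.eval ⟪x, ξ⟫ = (‖ξ‖⁻¹ * A (‖ξ‖⁻¹ * ⟪x, ξ⟫)) ^ m
    rw [hPe, h1, ← hPu _ ⟨x, hx, rfl⟩, mul_pow]
  have hApos : ∀ r ∈ U, 0 < A (‖ξ‖⁻¹ * r) := by
    intro r hr
    rw [hU] at hr
    obtain ⟨x, hx, rfl⟩ := hr
    have h1 : ‖ξ‖⁻¹ * ⟪x, ξ⟫ = ⟪x, u⟫ := by rw [hin, inv_mul_cancel_left₀ hξn.ne']
    show 0 < A (‖ξ‖⁻¹ * ⟪x, ξ⟫)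
    rw [h1]
    exact ENNReal.toReal_pos (J4209_pos u hun x hx).ne' (J4209_fin u hun hB _).ne
  have hUopen : IsOpen U := by
    have hne : (innerSL ℝ ξ : EuclideanSpace ℝ (Fin n) →L[ℝ] ℝ) ≠ 0 := by
      intro h
      have h1 := congrArg (fun f => f ξ) h
      simp only [innerSL_apply_apply, zero_apply] at h1
      exact hξ (inner_self_eq_zero.mp h1)
    have := (innerSL ℝ ξ : EuclideanSpace ℝ (Fin n) →L[ℝ] ℝ).isOpenMap_of_ne_zero hne _
      (isOpen_interior (s := K))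
    rw [hU]
    convert this using 2
    rw [innerSL_apply_apply, real_inner_comm]
  refine ⟨?_, ?_, ?_, ?_⟩
  · intro t ht
    rw [hPU t ht]
    have := hApos t ht
    positivity
  · intro φ hφ
    have h1 := (setIntegral_slice u hun K hK.isClosed.measurableSet hK.isBounded
      (fun s => φ (‖ξ‖ * s)) (hφ.comp (continuous_const.mul continuous_id))).1
    have h2 : ∫ x in K, φ ⟪x, ξ⟫ = ∫ x in K, φ (‖ξ‖ * ⟪x, u⟫) := by
      congr 1; funext x; rw [hin]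
    rw [h2, h1]
    have hnull := J4209_null u hun isClosed_frontier.measurableSet hfr
    set G : ℝ → ℝ := U.indicator (fun r => φ r * A (‖ξ‖⁻¹ * r)) with hG
    have h3 : ∫ t : ℝ, φ (‖ξ‖ * t) *
        (volume {y : (ℝ ∙ u)ᗮ | t • u + (y : EuclideanSpace ℝ (Fin n)) ∈ K}).toReal =
        ∫ t : ℝ, G (‖ξ‖ * t) := by
      apply integral_congr_ae
      filter_upwards [hnull] with t ht
      by_cases hmem : ‖ξ‖ * t ∈ U
      · rw [hG, indicator_of_mem hmem, inv_mul_cancel_left₀ hξn.ne']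
      · rw [hG, indicator_of_notMem hmem]
        have hsub : {y : (ℝ ∙ u)ᗮ | t • u + (y : EuclideanSpace ℝ (Fin n)) ∈ K} ⊆
            {y : (ℝ ∙ u)ᗮ | t • u + (y : EuclideanSpace ℝ (Fin n)) ∈ frontier K} := by
          intro y hy
          refine ⟨subset_closure hy, fun hint => hmem ?_⟩
          rw [hU]
          refine ⟨_, hint, ?_⟩
          show ⟪t • u + (y : EuclideanSpace ℝ (Fin n)), ξ⟫ = _
          rw [hin, J4209_inner u hun]
        rw [measure_mono_null hsub ht]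
        simp
    rw [h3, Measure.integral_comp_mul_left, abs_of_pos (inv_pos.mpr hξn), smul_eq_mul,
      ← integral_const_mul, ← integral_indicator hUopen.measurableSet]
    congr 1
    funext r
    by_cases hmem : r ∈ U
    · rw [hG, indicator_of_mem hmem, indicator_of_mem hmem, hPU r hmem, one_div,
        Real.pow_rpow_inv_natCast (mul_nonneg (inv_nonneg.mpr hξn.le) (hA0 _)) hm.ne']
      ring
    · rw [hG, indicator_of_notMem hmem, indicator_of_notMem hmem, mul_zero]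
  · intro τ
    have := J4209_root (‖ξ‖⁻¹) (inv_ne_zero hξn.ne') m Pu τ
    rw [inv_inv] at this
    rw [hP]
    exact this
  · intro τ hτ h0
    have husc := J4209_usc u hun hK (‖ξ‖⁻¹ * τ) h0
    have h1 : Filter.Tendsto A (nhds (‖ξ‖⁻¹ * τ)) (nhds 0) := by
      have := (ENNReal.tendsto_toReal ENNReal.zero_ne_top).comp husc
      rw [ENNReal.toReal_zero] at this
      exact this
    have h2 : Filter.Tendsto (fun r : ℝ => (‖ξ‖⁻¹ * A (‖ξ‖⁻¹ * r)) ^ m) (nhds τ) (nhds 0) := by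
      have hc : Filter.Tendsto (fun r : ℝ => ‖ξ‖⁻¹ * r) (nhds τ) (nhds (‖ξ‖⁻¹ * τ)) :=
        (continuous_const.mul continuous_id).continuousAt
      have h3 := ((h1.comp hc).const_mul (‖ξ‖⁻¹)).pow m
      rw [mul_zero, zero_pow hm.ne'] at h3
      exact h3
    have hcl : τ ∈ closure U := frontier_subset_closure hτ
    have hne : (nhdsWithin τ U).NeBot := mem_closure_iff_nhdsWithin_neBot.mp hcl
    have h4 : Filter.Tendsto (fun r : ℝ => P.eval r) (nhdsWithin τ U) (nhds 0) := by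
      refine (h2.mono_left nhdsWithin_le_nhds).congr' ?_
      filter_upwards [self_mem_nhdsWithin] with r hr
      exact (hPU r hr).symm
    have h5 : Filter.Tendsto (fun r : ℝ => P.eval r) (nhdsWithin τ U) (nhds (P.eval τ)) :=
      (P.continuous.continuousAt).mono_left nhdsWithin_le_nhds
    exact tendsto_nhds_unique h5 h4

end AS.J4209

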