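import Mathlib

set_option autoImplicit false
open Set Metric MeasureTheory
open scoped ContDiff RealInnerProductSpace

namespace AS.J3727

theorem ell_grad_aux {n : ℕ} (φ : EuclideanSpace ℝ (Fin n) →L[ℝ] ℝ) (hφ : φ ≠ 0) :
    ∃ ν : EuclideanSpace ℝ (Fin n), ‖ν‖ = 1 ∧ 0 < ‖φ‖ ∧ ∀ w, φ w = ‖φ‖ * ⟪ν, w⟫ := by
  have h0 : 0 < ‖φ‖ := norm_pos_iff.2 hφ
  set v := (InnerProductSpace.toDual ℝ (EuclideanSpace ℝ (Fin n))).symm φ with hv
  have hvn : ‖v‖ = ‖φ‖ := by
    rw [hv, LinearIsometryEquiv.norm_map]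
  refine ⟨‖φ‖⁻¹ • v, ?_, h0, ?_⟩
  · rw [norm_smul, norm_inv, norm_norm, hvn, inv_mul_cancel₀ h0.ne']
  · intro w
    rw [real_inner_smul_left, ← mul_assoc, mul_inv_cancel₀ h0.ne', one_mul, hv,
      InnerProductSpace.toDual_symm_apply]

theorem ell_side_aux {n : ℕ} (K : Set (EuclideanSpace ℝ (Fin n))) (hK : IsClosed K)
    (x ν : EuclideanSpace ℝ (Fin n)) (hν : ‖ν‖ = 1) (a r : ℝ) (ha : 0 < a) (hr : 0 < r)
    (f : EuclideanSpace ℝ (Fin n) → ℝ) (hfx : f x = 0)
    (hb : ∀ y ∈ ball x r, ∀ z ∈ ball x r, |f y - f z - a * ⟪ν, y - z⟫| ≤ a / 2 * ‖y - z‖)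
    (hfr : ∀ y ∈ ball x r, (y ∈ frontier K → f y = 0))
    (y : EuclideanSpace ℝ (Fin n)) (hy : y ∈ ball x (r / 8)) (hfy : f y < 0) :
    y ∈ K ↔ x - (r / 2) • ν ∈ K := by
  have hKK : ∀ T : Set (EuclideanSpace ℝ (Fin n)), IsPreconnected T → T ⊆ ball x r →
      (∀ z ∈ T, f z < 0) → ∀ p ∈ T, ∀ q ∈ T, p ∈ K → q ∈ K := by
    intro T hT hTb hTf p hp q hq hpK
    have hcov : T ⊆ interior K ∪ Kᶜ := by
      intro z hz
      by_cases hzK : z ∈ K
      · left
        by_contra hni
        have : z ∈ frontier K := by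
          rw [hK.frontier_eq]
          exact ⟨hzK, hni⟩
        have h1 := hfr z (hTb hz) this
        have h2 := hTf z hz
        linarith
      · right; exact hzK
    have hdisj : Disjoint (interior K) Kᶜ := by
      rw [Set.disjoint_compl_right_iff_subset]
      exact interior_subset
    rcases hT.subset_or_subset isOpen_interior hK.isOpen_compl hdisj hcov with h | h
    · exact interior_subset (h hq)
    · exact absurd hpK (h hp)
  have hνν : ⟪ν, ν⟫ = (1 : ℝ) := by
    rw [real_inner_self_eq_norm_sq, hν]; norm_num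
  have hyx : ‖y - x‖ < r / 8 := by
    rwa [mem_ball, dist_eq_norm] at hy
  -- the segment
  have hseg : (y ∈ K ↔ y - (r / 2) • ν ∈ K) := by
    have hconn : IsPreconnected (segment ℝ y (y - (r / 2) • ν)) :=
      (convex_segment _ _).isPreconnected
    have hform : ∀ z ∈ segment ℝ y (y - (r / 2) • ν), ∃ t : ℝ, 0 ≤ t ∧ t ≤ r / 2 ∧ z = y - t • ν := by
      intro z hz
      rw [segment_eq_image'] at hz
      obtain ⟨θ, ⟨h0, h1⟩, rfl⟩ := hz
      refine ⟨θ * (r / 2), by positivity, by nlinarith, ?_⟩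
      simp only [sub_sub_cancel_left, smul_neg, smul_smul]
      abel
    have hsub : segment ℝ y (y - (r / 2) • ν) ⊆ ball x r := by
      intro z hz
      obtain ⟨t, h0, h1, rfl⟩ := hform z hz
      rw [mem_ball, dist_eq_norm]
      calc ‖y - t • ν - x‖ = ‖(y - x) - t • ν‖ := by congr 1; abel
        _ ≤ ‖y - x‖ + ‖t • ν‖ := norm_sub_le _ _
        _ = ‖y - x‖ + t := by rw [norm_smul, hν, mul_one, Real.norm_of_nonneg h0]
        _ < r := by linarith
    have hneg : ∀ z ∈ segment ℝ y (y - (r / 2) • ν), f z < 0 := by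
      intro z hz
      have hzb := hsub hz
      obtain ⟨t, h0, h1, rfl⟩ := hform z hz
      have hyb : y ∈ ball x r := by
        rw [mem_ball, dist_eq_norm]; linarith
      have := hb y hyb _ hzb
      rw [show y - (y - t • ν) = t • ν by abel, real_inner_smul_right, hνν, norm_smul, hν, mul_one,
        Real.norm_of_nonneg h0, mul_one] at this
      have h3 := (abs_le.1 this).1
      nlinarith
    exact ⟨hKK _ hconn hsub hneg _ (left_mem_segment ℝ _ _) _ (right_mem_segment ℝ _ _),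
      hKK _ hconn hsub hneg _ (right_mem_segment ℝ _ _) _ (left_mem_segment ℝ _ _)⟩
  -- the ball
  have hball : (y - (r / 2) • ν ∈ K ↔ x - (r / 2) • ν ∈ K) := by
    have hconn : IsPreconnected (ball (x - (r / 2) • ν) (r / 8)) :=
      (convex_ball _ _).isPreconnected
    have hform : ∀ z ∈ ball (x - (r / 2) • ν) (r / 8), ‖z - (x - (r / 2) • ν)‖ < r / 8 := by
      intro z hz
      rwa [mem_ball, dist_eq_norm] at hz
    have hnorm : ∀ z ∈ ball (x - (r / 2) • ν) (r / 8), ‖z - x‖ ≤ 5 * r / 8 := by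
      intro z hz
      have h1 := hform z hz
      calc ‖z - x‖ = ‖(z - (x - (r / 2) • ν)) - (r / 2) • ν‖ := by congr 1; abel
        _ ≤ ‖z - (x - (r / 2) • ν)‖ + ‖(r / 2) • ν‖ := norm_sub_le _ _
        _ = ‖z - (x - (r / 2) • ν)‖ + r / 2 := by
          rw [norm_smul, hν, mul_one, Real.norm_of_nonneg (by positivity)]
        _ ≤ 5 * r / 8 := by linarith
    have hsub : ball (x - (r / 2) • ν) (r / 8) ⊆ ball x r := by
      intro z hz
      have := hnorm z hz
      rw [mem_ball, dist_eq_norm]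
      linarith
    have hneg : ∀ z ∈ ball (x - (r / 2) • ν) (r / 8), f z < 0 := by
      intro z hz
      have hzb := hsub hz
      have hxb : x ∈ ball x r := mem_ball_self hr
      have := hb z hzb x hxb
      have h3 := (abs_le.1 this).2
      have h4 := hnorm z hz
      have h5 : ⟪ν, z - x⟫ ≤ r / 8 - r / 2 := by
        have h6 : z - x = (z - (x - (r / 2) • ν)) - (r / 2) • ν := by abel
        rw [h6, inner_sub_right, real_inner_smul_right, hνν]
        have h7 := real_inner_le_norm ν (z - (x - (r / 2) • ν))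
        rw [hν, one_mul] at h7
        have h8 := hform z hz
        linarith
      rw [hfx] at h3
      have h9 : a * ⟪ν, z - x⟫ ≤ a * (r / 8 - r / 2) := mul_le_mul_of_nonneg_left h5 ha.le
      have h10 : a / 2 * ‖z - x‖ ≤ a / 2 * (5 * r / 8) :=
        mul_le_mul_of_nonneg_left h4 (by positivity)
      have h11 : 0 < a * r := by positivity
      nlinarith
    have hm1 : y - (r / 2) • ν ∈ ball (x - (r / 2) • ν) (r / 8) := by
      rw [mem_ball, dist_eq_norm, show y - (r / 2) • ν - (x - (r / 2) • ν) = y - x by abel]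
      exact hyx
    have hm2 : x - (r / 2) • ν ∈ ball (x - (r / 2) • ν) (r / 8) := mem_ball_self (by positivity)
    exact ⟨hKK _ hconn hsub hneg _ hm1 _ hm2, hKK _ hconn hsub hneg _ hm2 _ hm1⟩
  exact hseg.trans hball

/-- TARGET 1 (local structure of a body with smooth boundary) -/
theorem local_structure {n : ℕ} (K : Set (EuclideanSpace ℝ (Fin n))) (hK : IsClosed K)
    (hreg : closure (interior K) = K) (x : EuclideanSpace ℝ (Fin n)) (hx : x ∈ frontier K)
    (U : Set (EuclideanSpace ℝ (Fin n))) (hU : IsOpen U) (hxU : x ∈ U)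
    (f : EuclideanSpace ℝ (Fin n) → ℝ) (hf : ContDiffOn ℝ ∞ f U) (hdf : fderiv ℝ f x ≠ 0)
    (hfr : frontier K ∩ U = {y ∈ U | f y = 0}) :
    ∃ g : EuclideanSpace ℝ (Fin n) → ℝ, ∃ δ > 0, ContDiffOn ℝ 2 g (ball x δ) ∧
      fderiv ℝ g x ≠ 0 ∧ g x = 0 ∧ ∀ y ∈ ball x δ,
        (y ∈ K ↔ g y ≤ 0) ∧ (y ∈ interior K ↔ g y < 0) ∧ (y ∈ frontier K ↔ g y = 0) := by
  obtain ⟨ν, hν, ha, hφ⟩ := ell_grad_aux (fderiv ℝ f x) hdf
  set a : ℝ := ‖fderiv ℝ f x‖ with hadef
  have hfrU : ∀ y ∈ U, (y ∈ frontier K ↔ f y = 0) := by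
    intro y hy
    have h1 : y ∈ frontier K ∩ U ↔ y ∈ {y ∈ U | f y = 0} := by rw [hfr]
    constructor
    · intro h
      exact (h1.1 ⟨h, hy⟩).2
    · intro h
      exact (h1.2 ⟨hy, h⟩).1
  have hfx : f x = 0 := (hfrU x hxU).1 hx
  have hat : ContDiffAt ℝ ∞ f x := hf.contDiffAt (hU.mem_nhds hxU)
  have hstrict : HasStrictFDerivAt f (fderiv ℝ f x) x := hat.hasStrictFDerivAt (by simp)
  have hev : ∀ᶠ p : EuclideanSpace ℝ (Fin n) × EuclideanSpace ℝ (Fin n) in nhds (x, x),
      ‖f p.1 - f p.2 - (fderiv ℝ f x) (p.1 - p.2)‖ ≤ a / 2 * ‖p.1 - p.2‖ :=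
    (hasStrictFDerivAt_iff_isLittleO.1 hstrict).bound (by positivity)
  obtain ⟨r₁, hr₁, hb₁⟩ := Metric.eventually_nhds_iff_ball.1 hev
  obtain ⟨r₂, hr₂, hb₂⟩ := Metric.isOpen_iff.1 hU x hxU
  set r : ℝ := min r₁ r₂ with hrdef
  have hr : 0 < r := lt_min hr₁ hr₂
  have hrU : ball x r ⊆ U := (ball_subset_ball (min_le_right _ _)).trans hb₂
  have hb : ∀ y ∈ ball x r, ∀ z ∈ ball x r, |f y - f z - a * ⟪ν, y - z⟫| ≤ a / 2 * ‖y - z‖ := by
    intro y hy z hz
    have h1 : (y, z) ∈ ball (x, x) r₁ := by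
      rw [← ball_prod_same]
      exact ⟨ball_subset_ball (min_le_left _ _) hy, ball_subset_ball (min_le_left _ _) hz⟩
    have := hb₁ (y, z) h1
    simp only [Real.norm_eq_abs] at this
    rw [hφ] at this
    exact this
  have hb' : ∀ y ∈ ball x r, ∀ z ∈ ball x r,
      |(-f y) - (-f z) - a * ⟪-ν, y - z⟫| ≤ a / 2 * ‖y - z‖ := by
    intro y hy z hz
    have := hb y hy z hz
    rw [inner_neg_left]
    rw [show -f y - -f z - a * -⟪ν, y - z⟫ = -(f y - f z - a * ⟪ν, y - z⟫) by ring, abs_neg]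
    exact this
  have hfr1 : ∀ y ∈ ball x r, (y ∈ frontier K → f y = 0) := fun y hy h => (hfrU y (hrU hy)).1 h
  have hfr2 : ∀ y ∈ ball x r, (y ∈ frontier K → -f y = 0) := fun y hy h => by
    rw [hfr1 y hy h, neg_zero]
  have hsub : ball x (r / 8) ⊆ ball x r := ball_subset_ball (by linarith)
  have hside1 := ell_side_aux K hK x ν hν a r ha hr f hfx hb hfr1
  have hside2 := ell_side_aux K hK x (-ν) (by rw [norm_neg]; exact hν) a r ha hr (fun y => -f y)
    (by simp only [hfx, neg_zero]) hb' hfr2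
  have hfK : ∀ y ∈ ball x (r / 8), f y = 0 → y ∈ K := by
    intro y hy h
    have := (hfrU y (hrU (hsub hy))).2 h
    exact hK.frontier_subset this
  have hint : ∀ y : EuclideanSpace ℝ (Fin n), y ∈ interior K ↔ (y ∈ K ∧ y ∉ frontier K) := by
    intro y
    rw [hK.frontier_eq]
    constructor
    · intro h
      exact ⟨interior_subset h, fun h2 => h2.2 h⟩
    · rintro ⟨h1, h2⟩
      by_contra h3
      exact h2 ⟨h1, h3⟩
  have hdiff : ContDiffOn ℝ 2 f (ball x (r / 8)) := by
    refine (hf.mono (hsub.trans hrU)).of_le ?_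
    norm_cast
  by_cases hp : x - (r / 2) • ν ∈ K
  · by_cases hq : x - (r / 2) • (-ν) ∈ K
    · -- both sides in K: x interior
      exfalso
      have : ball x (r / 8) ⊆ K := by
        intro y hy
        rcases lt_trichotomy (f y) 0 with h | h | h
        · exact (hside1 y hy h).2 hp
        · exact hfK y hy h
        · exact (hside2 y hy (by simpa using h)).2 hq
      have h2 : x ∈ interior K := by
        rw [mem_interior]
        exact ⟨_, this, isOpen_ball, mem_ball_self (by positivity)⟩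
      rw [hK.frontier_eq] at hx
      exact hx.2 h2
    · have hK1 : ∀ y ∈ ball x (r / 8), (y ∈ K ↔ f y ≤ 0) := by
        intro y hy
        rcases lt_trichotomy (f y) 0 with h | h | h
        · exact ⟨fun _ => h.le, fun _ => (hside1 y hy h).2 hp⟩
        · exact ⟨fun _ => h.le, fun _ => hfK y hy h⟩
        · constructor
          · intro hyK
            exact absurd ((hside2 y hy (by simpa using h)).1 hyK) hq
          · intro h2
            linarith
      refine ⟨f, r / 8, by positivity, hdiff, hdf, hfx, fun y hy => ⟨hK1 y hy, ?_, ?_⟩⟩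
      · rw [hint, hK1 y hy, hfrU y (hrU (hsub hy))]
        exact ⟨fun h => lt_of_le_of_ne h.1 h.2, fun h => ⟨h.le, h.ne⟩⟩
      · exact hfrU y (hrU (hsub hy))
  · by_cases hq : x - (r / 2) • (-ν) ∈ K
    · have hK1 : ∀ y ∈ ball x (r / 8), (y ∈ K ↔ -f y ≤ 0) := by
        intro y hy
        rcases lt_trichotomy (f y) 0 with h | h | h
        · constructor
          · intro hyK
            exact absurd ((hside1 y hy h).1 hyK) hp
          · intro h2
            linarith
        · exact ⟨fun _ => by linarith, fun _ => hfK y hy h⟩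
        · exact ⟨fun _ => by linarith, fun _ => (hside2 y hy (by simpa using h)).2 hq⟩
      refine ⟨fun y => -f y, r / 8, by positivity, hdiff.neg, ?_, by simp only [hfx, neg_zero],
        fun y hy => ⟨hK1 y hy, ?_, ?_⟩⟩
      · have : fderiv ℝ (fun y => -f y) x = -fderiv ℝ f x := by
          rw [fderiv_fun_neg]
        rw [this]
        exact neg_ne_zero.2 hdf
      · rw [hint, hK1 y hy, hfrU y (hrU (hsub hy))]
        exact ⟨fun h => lt_of_le_of_ne h.1 (fun h2 => h.2 (by linarith)), fun h =>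
          ⟨h.le, fun h2 => by simp [h2] at h⟩⟩
      · rw [hfrU y (hrU (hsub hy))]
        exact ⟨fun h => by simp [h], fun h => by simpa using h⟩
    · -- neither: interior is empty near x
      exfalso
      have hxK : x ∈ closure (interior K) := by
        rw [hreg]
        exact hK.frontier_subset hx
      obtain ⟨y, hyint, hyb⟩ := Metric.mem_closure_iff.1 hxK (r / 8) (by positivity)
      have hy : y ∈ ball x (r / 8) := by
        rw [mem_ball, dist_comm]; exact hyb
      have hyK := interior_subset hyint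
      rcases lt_trichotomy (f y) 0 with h | h | h
      · exact hp ((hside1 y hy h).1 hyK)
      · exact ((hint y).1 hyint).2 ((hfrU y (hrU (hsub hy))).2 h)
      · exact hq ((hside2 y hy (by simpa using h)).1 hyK)

/-- TARGET 2 (interior touching ball) -/
theorem interior_ball {n : ℕ} (K : Set (EuclideanSpace ℝ (Fin n)))
    (x : EuclideanSpace ℝ (Fin n)) (g : EuclideanSpace ℝ (Fin n) → ℝ) (δ : ℝ) (hδ : 0 < δ)
    (hg : ContDiffOn ℝ 2 g (ball x δ)) (hdg : fderiv ℝ g x ≠ 0) (hgx : g x = 0)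
    (hin : ∀ y ∈ ball x δ, (y ∈ interior K ↔ g y < 0)) :
    ∃ c : EuclideanSpace ℝ (Fin n), ∃ ρ > 0, dist x c = ρ ∧ ball c ρ ⊆ interior K := by
  obtain ⟨ν, hν, ha, hφ⟩ := ell_grad_aux (fderiv ℝ g x) hdg
  set a : ℝ := ‖fderiv ℝ g x‖ with hadef
  have hat : ContDiffAt ℝ 2 g x := hg.contDiffAt (ball_mem_nhds x hδ)
  have hfd : ContDiffAt ℝ 1 (fderiv ℝ g) x := hat.fderiv_right (by norm_num)
  obtain ⟨C, T, hT, hlip⟩ := hfd.exists_lipschitzOnWith
  obtain ⟨r₁, hr₁, hrT⟩ := Metric.mem_nhds_iff.1 hT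
  set r : ℝ := min r₁ δ with hrdef
  have hr : 0 < r := lt_min hr₁ hδ
  have hquad : ∀ y ∈ ball x r, g y ≤ a * ⟪ν, y - x⟫ + C * ‖y - x‖ ^ 2 := by
    intro y hy
    have hyx : ‖y - x‖ < r := by rwa [mem_ball, dist_eq_norm] at hy
    have hcb : closedBall x ‖y - x‖ ⊆ ball x r := by
      intro z hz
      rw [mem_closedBall] at hz
      rw [mem_ball]
      linarith
    have := Convex.norm_image_sub_le_of_norm_fderiv_le' (𝕜 := ℝ) (f := g) (φ := fderiv ℝ g x)
      (C := C * ‖y - x‖) (s := closedBall x ‖y - x‖) (x := x) (y := y)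
      (fun z hz => by
        have hz' : z ∈ ball x δ := ball_subset_ball (min_le_right _ _) (hcb hz)
        exact (hg.contDiffAt (isOpen_ball.mem_nhds hz')).differentiableAt (by norm_num))
      (fun z hz => by
        have hz' : z ∈ T := hrT (ball_subset_ball (min_le_left _ _) (hcb hz))
        have hx' : x ∈ T := hrT (mem_ball_self hr₁)
        have := hlip.dist_le_mul z hz' x hx'
        rw [dist_eq_norm] at this
        refine this.trans ?_
        apply mul_le_mul_of_nonneg_left _ (NNReal.coe_nonneg C)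
        exact mem_closedBall.1 hz)
      (convex_closedBall _ _) (mem_closedBall_self (norm_nonneg _))
      (by rw [mem_closedBall, dist_eq_norm])
    rw [hφ, hgx, Real.norm_eq_abs] at this
    have h2 := (abs_le.1 this).2
    nlinarith
  set ρ : ℝ := min (r / 2) (a / (2 * (C + 1))) with hρdef
  have hC0 : (0 : ℝ) ≤ C := C.coe_nonneg
  have hρ : 0 < ρ := lt_min (by positivity) (by positivity)
  have hρ1 : 2 * ρ ≤ r := by
    have := min_le_left (r / 2) (a / (2 * ((C : ℝ) + 1)))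
    rw [← hρdef] at this
    linarith
  have hρ2 : 2 * ρ * C ≤ a := by
    have := min_le_right (r / 2) (a / (2 * ((C : ℝ) + 1)))
    rw [← hρdef, le_div_iff₀ (by positivity)] at this
    nlinarith
  have hνν : ⟪ν, ν⟫ = (1 : ℝ) := by
    rw [real_inner_self_eq_norm_sq, hν]; norm_num
  refine ⟨x - ρ • ν, ρ, hρ, ?_, ?_⟩
  · rw [dist_eq_norm, sub_sub_cancel, norm_smul, hν, mul_one, Real.norm_of_nonneg hρ.le]
  · intro y hy
    have h1 : ‖y - (x - ρ • ν)‖ < ρ := by rwa [mem_ball, dist_eq_norm] at hy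
    have h2 : y - (x - ρ • ν) = (y - x) + ρ • ν := by abel
    have h3 : ‖y - (x - ρ • ν)‖ ^ 2 = ‖y - x‖ ^ 2 + 2 * (ρ * ⟪ν, y - x⟫) + ρ ^ 2 := by
      rw [h2, norm_add_sq_real, real_inner_smul_right, real_inner_comm, norm_smul, hν, mul_one,
        Real.norm_of_nonneg hρ.le]
    have h4 : ‖y - (x - ρ • ν)‖ ^ 2 < ρ ^ 2 := by
      apply sq_lt_sq' _ h1
      linarith [norm_nonneg (y - (x - ρ • ν))]
    have h5 : ‖y - x‖ < 2 * ρ := by
      calc ‖y - x‖ = ‖(y - (x - ρ • ν)) - ρ • ν‖ := by congr 1; abel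
        _ ≤ ‖y - (x - ρ • ν)‖ + ‖ρ • ν‖ := norm_sub_le _ _
        _ = ‖y - (x - ρ • ν)‖ + ρ := by rw [norm_smul, hν, mul_one, Real.norm_of_nonneg hρ.le]
        _ < 2 * ρ := by linarith
    have hyr : y ∈ ball x r := by
      rw [mem_ball, dist_eq_norm]; linarith
    have hyδ : y ∈ ball x δ := ball_subset_ball (min_le_right _ _) hyr
    rw [hin y hyδ]
    have h6 := hquad y hyr
    have h7 : ‖y - x‖ ^ 2 + 2 * (ρ * ⟪ν, y - x⟫) < 0 := by linarith
    have h8 : 2 * ρ * (a * ⟪ν, y - x⟫ + C * ‖y - x‖ ^ 2) < 0 := by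
      have h9 : a * (‖y - x‖ ^ 2 + 2 * (ρ * ⟪ν, y - x⟫)) < 0 := mul_neg_of_pos_of_neg ha h7
      have h10 : 2 * ρ * C * ‖y - x‖ ^ 2 ≤ a * ‖y - x‖ ^ 2 :=
        mul_le_mul_of_nonneg_right hρ2 (by positivity)
      nlinarith
    have h11 : a * ⟪ν, y - x⟫ + C * ‖y - x‖ ^ 2 < 0 := by
      by_contra hcon
      push Not at hcon
      have : 0 ≤ 2 * ρ * (a * ⟪ν, y - x⟫ + C * ‖y - x‖ ^ 2) := by positivity
      linarith
    linarith

end AS.J3727
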