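import Mathlib

set_option autoImplicit false
open Set Metric MeasureTheory
open scoped ContDiff RealInnerProductSpace

namespace AS.J3728

namespace T21

open Filter Topology

theorem ev_lt_of_deriv_neg {φ : ℝ → ℝ} {d : ℝ} (h : HasDerivAt φ d 0) (hd : d < 0) :
    ∀ᶠ t in 𝓝[>] (0:ℝ), φ t < φ 0 := by
  have h1 := (hasDerivAt_iff_tendsto_slope.mp h)
  have h2 : ∀ᶠ t in 𝓝[≠] (0:ℝ), slope φ 0 t < 0 := h1.eventually (gt_mem_nhds hd)
  have h3 : ∀ᶠ t in 𝓝[>] (0:ℝ), slope φ 0 t < 0 :=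
    h2.filter_mono (nhdsWithin_mono _ (fun t ht => ne_of_gt ht))
  filter_upwards [h3, self_mem_nhdsWithin] with t ht ht0
  rw [slope_def_field, sub_zero] at ht
  have h4 : (0:ℝ) < t := ht0
  by_contra hcon
  push Not at hcon
  have : 0 ≤ (φ t - φ 0) / t := div_nonneg (by linarith) h4.le
  linarith

theorem ev_norm_sub_lt {X F : Type*} [TopologicalSpace X] [NormedAddCommGroup F] {H : X → F}
    {x₀ : X} (h : ContinuousAt H x₀) {ε : ℝ} (hε : 0 < ε) : ∀ᶠ y in 𝓝 x₀, ‖H y - H x₀‖ < ε := by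
  have h1 : ContinuousAt (fun y => ‖H y - H x₀‖) x₀ := (h.sub continuousAt_const).norm
  refine h1.eventually_lt continuousAt_const ?_
  rw [sub_self, norm_zero]; exact hε

theorem second_nonneg {ψ ψ' : ℝ → ℝ} {d : ℝ} (h1 : ∀ᶠ t in 𝓝 (0:ℝ), HasDerivAt ψ (ψ' t) t)
    (h2 : HasDerivAt ψ' d 0) (h3 : ∀ᶠ t in 𝓝 (0:ℝ), ψ 0 ≤ ψ t) : 0 ≤ d := by
  by_contra hd
  push Not at hd
  have h0 : ψ' 0 = 0 := by
    have hmin : IsLocalMin ψ 0 := h3
    exact hmin.hasDerivAt_eq_zero h1.self_of_nhds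
  have h4 := ev_lt_of_deriv_neg h2 hd
  rw [h0] at h4
  obtain ⟨ε1, hε1, h5⟩ := Metric.eventually_nhds_iff.mp (h1.and h3)
  have h6 : ∃ ε2 > 0, ∀ t, 0 < t → t < ε2 → ψ' t < 0 := by
    rw [eventually_nhdsWithin_iff] at h4
    obtain ⟨ε2, hε2, h7⟩ := Metric.eventually_nhds_iff.mp h4
    refine ⟨ε2, hε2, fun t ht0 ht1 => h7 ?_ ht0⟩
    rw [Real.dist_eq, sub_zero, abs_of_pos ht0]; exact ht1
  obtain ⟨ε2, hε2, h7⟩ := h6
  set t := min ε1 ε2 / 2 with ht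
  have hm : 0 < min ε1 ε2 := lt_min hε1 hε2
  have ht0 : 0 < t := by positivity
  have ht1 : t < ε1 := by have := min_le_left ε1 ε2; linarith
  have ht2 : t < ε2 := by have := min_le_right ε1 ε2; linarith
  have hder : ∀ x, 0 ≤ x → x ≤ t → HasDerivAt ψ (ψ' x) x := by
    intro x hx0 hx1
    exact (h5 (by rw [Real.dist_eq, sub_zero, abs_of_nonneg hx0]; linarith)).1
  obtain ⟨c, hc, hc2⟩ := exists_hasDerivAt_eq_slope ψ ψ' ht0
    (fun x hx => (hder x hx.1 hx.2).continuousAt.continuousWithinAt)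
    (fun x hx => hder x hx.1.le hx.2.le)
  have h8 := h7 c hc.1 (hc.2.trans ht2)
  have h9 : ψ 0 ≤ ψ t := (h5 (by rw [Real.dist_eq, sub_zero, abs_of_pos ht0]; exact ht1)).2
  rw [hc2, sub_zero] at h8
  have : 0 ≤ (ψ t - ψ 0) / t := div_nonneg (by linarith) ht0.le
  linarith

variable {E : Type*} [NormedAddCommGroup E] [InnerProductSpace ℝ E]

theorem cone_of_max {K : Set E} {g : E → ℝ} {A : E →L[ℝ] ℝ} {z ξ : E} (hA : HasFDerivAt g A z)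
    (hgz : g z ≤ 0) (hnear : ∀ᶠ y in 𝓝 z, g y ≤ 0 → y ∈ K)
    (hmax : ∀ x ∈ K, ⟪x, ξ⟫ ≤ ⟪z, ξ⟫) (u : E) (hu : A u < 0) : ⟪u, ξ⟫ ≤ 0 := by
  have h0 : HasDerivAt (fun t : ℝ => z + t • u) u 0 := by
    simpa using ((hasDerivAt_id (0:ℝ)).smul_const u).const_add z
  have hline : HasDerivAt (fun t : ℝ => g (z + t • u)) (A u) 0 := by
    have h2 : HasFDerivAt g A (z + (0:ℝ) • u) := by simpa using hA
    exact h2.comp_hasDerivAt 0 h0
  have h1 := ev_lt_of_deriv_neg hline hu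
  have h2 : ∀ᶠ t in 𝓝[>] (0:ℝ), g (z + t • u) ≤ 0 → z + t • u ∈ K := by
    have h3 : Tendsto (fun t : ℝ => z + t • u) (𝓝[>] 0) (𝓝 z) := by
      have := h0.continuousAt.tendsto
      simp only [zero_smul, add_zero] at this
      exact this.mono_left nhdsWithin_le_nhds
    exact h3.eventually hnear
  obtain ⟨t, ht1, ht2, ht3⟩ := (h1.and (h2.and self_mem_nhdsWithin)).exists
  simp only [zero_smul, add_zero] at ht1
  have h4 := hmax _ (ht2 (by linarith))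
  rw [inner_add_left, real_inner_smul_left] at h4
  have h5 : (0:ℝ) < t := ht3
  have h6 : t * ⟪u, ξ⟫ ≤ 0 := by linarith
  by_contra hcon
  push Not at hcon
  have := mul_pos h5 hcon
  linarith

theorem interior_false {K : Set E} {g : E → ℝ} {z ξ : E} (hξ : ξ ≠ 0) (hA : ContinuousAt g z)
    (hnear : ∀ᶠ y in 𝓝 z, g y ≤ 0 → y ∈ K)
    (hmax : ∀ x ∈ K, ⟪x, ξ⟫ ≤ ⟪z, ξ⟫) : 0 ≤ g z := by
  by_contra hcon
  push Not at hcon
  have h1 : ∀ᶠ y in 𝓝 z, g y < 0 := hA.eventually (gt_mem_nhds hcon)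
  have h2 : ∀ᶠ y in 𝓝 z, y ∈ K := by
    filter_upwards [h1, hnear] with y hy1 hy2 using hy2 hy1.le
  have h3 : Tendsto (fun t : ℝ => z + t • ξ) (𝓝[>] 0) (𝓝 z) := by
    have h0 : Continuous (fun t : ℝ => z + t • ξ) := by fun_prop
    have := h0.tendsto 0
    simp only [zero_smul, add_zero] at this
    exact this.mono_left nhdsWithin_le_nhds
  obtain ⟨t, ht1, ht2⟩ := ((h3.eventually h2).and self_mem_nhdsWithin).exists
  have h4 := hmax _ ht1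
  rw [inner_add_left, real_inner_smul_left] at h4
  have h5 : (0:ℝ) < t := ht2
  have h6 : 0 < ⟪ξ, ξ⟫ := real_inner_self_pos.mpr hξ
  have := mul_pos h5 h6
  linarith

theorem functional_of_cone {A : E →L[ℝ] ℝ} {ξ : E} (hξ : ‖ξ‖ = 1)
    (h : ∀ u, A u < 0 → ⟪u, ξ⟫ ≤ 0) : 0 ≤ A ξ ∧ ∀ w, A w = A ξ * ⟪w, ξ⟫ := by
  have hself : ⟪ξ, ξ⟫ = 1 := by rw [real_inner_self_eq_norm_sq, hξ]; norm_num
  have h1 : 0 ≤ A ξ := by
    by_contra hcon
    push Not at hcon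
    have := h ξ hcon
    rw [hself] at this; linarith
  have hperp : ∀ u, ⟪u, ξ⟫ = 0 → 0 ≤ A u := by
    intro u hu
    by_contra hcon
    push Not at hcon
    -- s = -A u / (2 (A ξ + 1))
    set s := -A u / (2 * (A ξ + 1)) with hs
    have hspos : 0 < s := by
      apply div_pos (by linarith) (by linarith)
    have h2 : A (u + s • ξ) < 0 := by
      rw [map_add, map_smul, smul_eq_mul]
      have h3 : s * (A ξ + 1) = -A u / 2 := by
        rw [hs]; field_simp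
      nlinarith
    have h3 := h _ h2
    rw [inner_add_left, real_inner_smul_left, hu, hself] at h3
    linarith
  refine ⟨h1, fun w => ?_⟩
  have h2 : ⟪w - ⟪w, ξ⟫ • ξ, ξ⟫ = 0 := by
    rw [inner_sub_left, real_inner_smul_left, hself]; ring
  have h3 := hperp _ h2
  have h4 : ⟪-(w - ⟪w, ξ⟫ • ξ), ξ⟫ = 0 := by rw [inner_neg_left, h2]; ring
  have h5 := hperp _ h4
  rw [map_neg] at h5
  have h6 : A (w - ⟪w, ξ⟫ • ξ) = 0 := by linarith
  rw [map_sub, map_smul, smul_eq_mul] at h6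
  linarith

theorem taylor_lower {g : E → ℝ} {D : E → E →L[ℝ] ℝ} {H : E → E →L[ℝ] E →L[ℝ] ℝ} {S : Set E}
    (hS : Convex ℝ S) (hD : ∀ y ∈ S, HasFDerivAt g (D y) y) (hH : ∀ y ∈ S, HasFDerivAt D (H y) y)
    {z x : E} (hz : z ∈ S) (hx : x ∈ S) {m : ℝ} (hm : ∀ y ∈ S, m ≤ H y (x - z) (x - z)) :
    g z + D z (x - z) + m / 2 ≤ g x := by
  set w := x - z with hw
  have hseg : ∀ t : ℝ, 0 ≤ t → t ≤ 1 → z + t • w ∈ S := by
    intro t h0 h1
    have := hS hz hx (sub_nonneg.mpr h1) h0 (by ring)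
    convert this using 1
    rw [hw]; module
  have hline : ∀ t : ℝ, HasDerivAt (fun t : ℝ => z + t • w) w t := by
    intro t
    simpa using ((hasDerivAt_id t).smul_const w).const_add z
  have h1 : ∀ t : ℝ, 0 ≤ t → t ≤ 1 → HasDerivAt (fun t : ℝ => g (z + t • w)) (D (z + t • w) w) t := by
    intro t h0 h1
    exact (hD _ (hseg t h0 h1)).comp_hasDerivAt t (hline t)
  have h2 : ∀ t : ℝ, 0 ≤ t → t ≤ 1 →
      HasDerivAt (fun t : ℝ => D (z + t • w) w) (H (z + t • w) w w) t := by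
    intro t h0 h1
    have h3 : HasDerivAt (fun t : ℝ => D (z + t • w)) (H (z + t • w) w) t :=
      (hH _ (hseg t h0 h1)).comp_hasDerivAt t (hline t)
    have h4 := h3.clm_apply (hasDerivAt_const t w)
    simpa using h4
  set F : ℝ → ℝ := fun t => g (z + t • w) - t * D z w - t ^ 2 / 2 * m with hF
  set F' : ℝ → ℝ := fun t => D (z + t • w) w - D z w - t * m with hF'
  have hFd : ∀ t : ℝ, 0 ≤ t → t ≤ 1 → HasDerivAt F (F' t) t := by
    intro t h0 h1'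
    have e1 := h1 t h0 h1'
    have e2 : HasDerivAt (fun t : ℝ => t * D z w) (D z w) t := by
      simpa using (hasDerivAt_id t).mul_const (D z w)
    have e3 : HasDerivAt (fun t : ℝ => t ^ 2 / 2 * m) (t * m) t := by
      have := (((hasDerivAt_id' t).pow 2).div_const 2).mul_const m
      refine this.congr_deriv ?_
      ring
    exact (e1.sub e2).sub e3
  have hF'd : ∀ t : ℝ, 0 ≤ t → t ≤ 1 → HasDerivAt F' (H (z + t • w) w w - m) t := by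
    intro t h0 h1'
    have e1 := h2 t h0 h1'
    have e3 : HasDerivAt (fun t : ℝ => t * m) m t := by
      simpa using (hasDerivAt_id t).mul_const m
    have := (e1.sub (hasDerivAt_const t (D z w))).sub e3
    refine this.congr_deriv ?_
    ring
  obtain ⟨c, hc, hc2⟩ := exists_hasDerivAt_eq_slope F F' one_pos
    (fun t ht => (hFd t ht.1 ht.2).continuousAt.continuousWithinAt)
    (fun t ht => hFd t ht.1.le ht.2.le)
  obtain ⟨c', hc', hc2'⟩ := exists_hasDerivAt_eq_slope F' (fun t => H (z + t • w) w w - m) hc.1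
    (fun t ht => (hF'd t ht.1 (ht.2.trans hc.2.le)).continuousAt.continuousWithinAt)
    (fun t ht => hF'd t ht.1.le (ht.2.le.trans hc.2.le))
  have h3 : 0 ≤ H (z + c' • w) w w - m := by
    have := hm _ (hseg c' hc'.1.le (hc'.2.le.trans hc.2.le))
    linarith
  have hF'0 : F' 0 = 0 := by simp [hF']
  rw [hc2', hF'0, sub_zero, sub_zero] at h3
  have h4 : 0 ≤ F' c := by
    by_contra hcon
    push Not at hcon
    have := div_neg_of_neg_of_pos hcon hc.1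
    linarith
  rw [hc2] at h4
  have hF0 : F 0 = g z := by simp [hF]
  have hF1 : F 1 = g x - D z w - m / 2 := by
    simp only [hF, one_smul, one_mul, one_pow]
    rw [hw]; simp; ring
  rw [hF0, hF1] at h4
  linarith

/-- second order condition along great circles of the ball touching at `x₀` -/
theorem second_order {K : Set E} {g : E → ℝ} {D : E → E →L[ℝ] ℝ} {H : E → E →L[ℝ] E →L[ℝ] ℝ}
    {x₀ : E} {δ : ℝ} (hδ : 0 < δ) (hne : x₀ ≠ 0) (hfar : ∀ x ∈ K, ‖x‖ ≤ ‖x₀‖)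
    (hD : ∀ y ∈ ball x₀ δ, HasFDerivAt g (D y) y) (hH : HasFDerivAt D (H x₀) x₀)
    (hgx : g x₀ = 0) (hin : ∀ y ∈ ball x₀ δ, (y ∈ K ↔ g y ≤ 0))
    {v : E} (hv : ⟪v, x₀⟫ = 0) (hvn : ‖v‖ = ‖x₀‖) : D x₀ x₀ ≤ H x₀ v v := by
  set γ : ℝ → E := fun t => Real.cos t • x₀ + Real.sin t • v with hγ
  set γ' : ℝ → E := fun t => -Real.sin t • x₀ + Real.cos t • v with hγ'
  have hγ0 : γ 0 = x₀ := by simp [hγ]
  have hγ'0 : γ' 0 = v := by simp [hγ']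
  have hγd : ∀ t, HasDerivAt γ (γ' t) t := fun t =>
    ((Real.hasDerivAt_cos t).smul_const x₀).add ((Real.hasDerivAt_sin t).smul_const v)
  have hγ'd : HasDerivAt γ' (-x₀) 0 := by
    have := ((Real.hasDerivAt_sin 0).neg.smul_const x₀).add ((Real.hasDerivAt_cos 0).smul_const v)
    refine this.congr_deriv ?_
    simp
  have hγc : ContinuousAt γ 0 := (hγd 0).continuousAt
  have hball : ∀ᶠ t in 𝓝 (0:ℝ), γ t ∈ ball x₀ δ := by
    apply hγc.eventually_mem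
    rw [hγ0]; exact ball_mem_nhds _ hδ
  have hnorm : ∀ t, ‖γ t‖ = ‖x₀‖ := by
    intro t
    have h1 : ‖γ t‖ ^ 2 = ‖x₀‖ ^ 2 := by
      simp only [hγ]
      rw [norm_add_sq_real, real_inner_smul_left, real_inner_smul_right, real_inner_comm, hv,
        norm_smul, norm_smul, hvn]
      simp only [Real.norm_eq_abs, mul_pow, sq_abs]
      have := Real.sin_sq_add_cos_sq t
      nlinarith
    exact (pow_left_inj₀ (norm_nonneg _) (norm_nonneg _) two_ne_zero).mp h1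
  have hpos : ∀ᶠ t in 𝓝 (0:ℝ), 0 ≤ g (γ t) := by
    filter_upwards [hball] with t ht
    have hne' : γ t ≠ 0 := by
      rw [← norm_pos_iff, hnorm]; exact norm_pos_iff.mpr hne
    refine interior_false (K := K) hne' (hD _ ht).continuousAt ?_ ?_
    · filter_upwards [isOpen_ball.mem_nhds ht] with y hy hgy
      exact (hin y hy).mpr hgy
    · intro x hx
      calc ⟪x, γ t⟫ ≤ ‖x‖ * ‖γ t‖ := real_inner_le_norm _ _
        _ ≤ ‖γ t‖ * ‖γ t‖ := by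
          gcongr; rw [hnorm]; exact hfar x hx
        _ = ⟪γ t, γ t⟫ := by rw [real_inner_self_eq_norm_mul_norm]
  have h1 : ∀ᶠ t in 𝓝 (0:ℝ), HasDerivAt (fun t => g (γ t)) (D (γ t) (γ' t)) t := by
    filter_upwards [hball] with t ht
    exact (hD _ ht).comp_hasDerivAt t (hγd t)
  have h2 : HasDerivAt (fun t => D (γ t) (γ' t)) (H x₀ v v + D x₀ (-x₀)) 0 := by
    have h3 : HasDerivAt (fun t : ℝ => D (γ t)) (H x₀ v) 0 := by
      have h4 : HasFDerivAt D (H x₀) (γ 0) := by rw [hγ0]; exact hH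
      have := h4.comp_hasDerivAt 0 (hγd 0)
      rw [hγ'0] at this
      exact this
    have h5 := h3.clm_apply hγ'd
    rw [hγ0, hγ'0] at h5
    exact h5
  have h3 : ∀ᶠ t in 𝓝 (0:ℝ), (fun t => g (γ t)) 0 ≤ (fun t => g (γ t)) t := by
    filter_upwards [hpos] with t ht
    simp only [hγ0, hgx]
    exact ht
  have := second_nonneg h1 h2 h3
  rw [map_neg] at this
  linarith

end T21

/-- TARGET: strong support near the farthest point -/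
theorem strong_support {n : ℕ} (K : Set (EuclideanSpace ℝ (Fin n))) (hK : IsCompact K)
    (x₀ : EuclideanSpace ℝ (Fin n)) (hx₀ : x₀ ∈ K) (hne : x₀ ≠ 0) (hfar : ∀ x ∈ K, ‖x‖ ≤ ‖x₀‖)
    (g : EuclideanSpace ℝ (Fin n) → ℝ) (δ : ℝ) (hδ : 0 < δ)
    (hg : ContDiffOn ℝ 2 g (ball x₀ δ)) (hdg : fderiv ℝ g x₀ ≠ 0) (hgx : g x₀ = 0)
    (hin : ∀ y ∈ ball x₀ δ, (y ∈ K ↔ g y ≤ 0)) :
    ∃ η > 0, ∃ κ > 0, ∀ ξ : EuclideanSpace ℝ (Fin n), ‖ξ‖ = 1 →
      ‖ξ - (‖x₀‖⁻¹ : ℝ) • x₀‖ < η →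
      ∃ z ∈ K, ∀ x ∈ K, ⟪x, ξ⟫ ≤ ⟪z, ξ⟫ - κ * ‖x - z‖ ^ 2 := by
  open Filter Topology in
  set D := fderiv ℝ g with hDdef
  set H := fderiv ℝ D with hHdef
  have hg1 : ContDiffOn ℝ 1 D (ball x₀ δ) :=
    hg.fderiv_of_isOpen isOpen_ball (by norm_num)
  have hD : ∀ y ∈ ball x₀ δ, HasFDerivAt g (D y) y := fun y hy =>
    ((hg.contDiffAt (isOpen_ball.mem_nhds hy)).differentiableAt (by norm_num)).hasFDerivAt
  have hH : ∀ y ∈ ball x₀ δ, HasFDerivAt D (H y) y := fun y hy =>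
    ((hg1.contDiffAt (isOpen_ball.mem_nhds hy)).differentiableAt (by norm_num)).hasFDerivAt
  have hx₀b : x₀ ∈ ball x₀ δ := mem_ball_self hδ
  have hHc : ContinuousAt H x₀ :=
    (hg1.continuousOn_fderiv_of_isOpen isOpen_ball (by norm_num)).continuousAt
      (isOpen_ball.mem_nhds hx₀b)
  have hDc : ContinuousAt D x₀ := (hH x₀ hx₀b).continuousAt
  set r := ‖x₀‖ with hr
  have hr0 : 0 < r := norm_pos_iff.mpr hne
  set ξ₀ := (r⁻¹ : ℝ) • x₀ with hξ₀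
  have hξ₀n : ‖ξ₀‖ = 1 := by
    rw [hξ₀, norm_smul, norm_inv, Real.norm_eq_abs, abs_of_pos hr0, ← hr]; field_simp
  have hx₀ξ : x₀ = r • ξ₀ := by rw [hξ₀, smul_smul, mul_inv_cancel₀ hr0.ne', one_smul]
  have hinner0 : ⟪x₀, ξ₀⟫ = r := by
    rw [hξ₀, real_inner_smul_right, real_inner_self_eq_norm_sq, ← hr]; field_simp
  -- first order at x₀
  have hnear : ∀ z ∈ ball x₀ δ, ∀ᶠ y in nhds z, g y ≤ 0 → y ∈ K := by
    intro z hz
    filter_upwards [isOpen_ball.mem_nhds hz] with y hy hgy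
    exact (hin y hy).mpr hgy
  have hmax0 : ∀ x ∈ K, ⟪x, ξ₀⟫ ≤ ⟪x₀, ξ₀⟫ := by
    intro x hx
    rw [hinner0]
    calc ⟪x, ξ₀⟫ ≤ ‖x‖ * ‖ξ₀‖ := real_inner_le_norm _ _
      _ ≤ r := by rw [hξ₀n, mul_one]; exact hfar x hx
  obtain ⟨hμ0, hA0⟩ := T21.functional_of_cone hξ₀n
    (fun u hu => T21.cone_of_max (hD x₀ hx₀b) hgx.le (hnear x₀ hx₀b) hmax0 u hu)
  set μ := D x₀ ξ₀ with hμ
  have hμpos : 0 < μ := by
    rcases hμ0.lt_or_eq with h | h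
    · exact h
    · exfalso
      apply hdg
      ext1 w
      · have := hA0 w
        rw [← h, zero_mul] at this
        simpa using this
  -- second order at x₀
  have hsec : ∀ v, ⟪v, ξ₀⟫ = 0 → μ / r * ‖v‖ ^ 2 ≤ H x₀ v v := by
    intro v hv
    by_cases hv0 : v = 0
    · simp [hv0]
    have hvpos : 0 < ‖v‖ := norm_pos_iff.mpr hv0
    have hv' : ⟪(r / ‖v‖) • v, x₀⟫ = 0 := by
      rw [real_inner_smul_left, hx₀ξ, real_inner_smul_right, hv]; ring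
    have hvn : ‖(r / ‖v‖) • v‖ = ‖x₀‖ := by
      rw [norm_smul, Real.norm_eq_abs, abs_of_pos (by positivity), ← hr]; field_simp
    have h1 := T21.second_order hδ hne hfar hD (hH x₀ hx₀b) hgx hin hv' hvn
    have h2 : D x₀ x₀ = μ * r := by
      rw [hA0 x₀, hinner0]
    have h3 : H x₀ ((r / ‖v‖) • v) ((r / ‖v‖) • v) = (r / ‖v‖) ^ 2 * H x₀ v v := by
      simp only [map_smul, _root_.smul_apply, smul_eq_mul]; ring
    rw [h2, h3] at h1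
    have h4 : μ * r * (‖v‖ / r) ^ 2 ≤ (r / ‖v‖) ^ 2 * H x₀ v v * (‖v‖ / r) ^ 2 := by
      gcongr
    have h5 : μ * r * (‖v‖ / r) ^ 2 = μ / r * ‖v‖ ^ 2 := by field_simp
    have h6 : (r / ‖v‖) ^ 2 * H x₀ v v * (‖v‖ / r) ^ 2 = H x₀ v v := by field_simp
    rw [h5, h6] at h4
    exact h4
  set C := 3 * ‖H x₀‖ + μ / r with hC
  have hCpos : 0 < C := by positivity
  have hquad : ∀ w, μ / r * ‖w‖ ^ 2 - C * (|⟪w, ξ₀⟫| * ‖w‖) ≤ H x₀ w w := by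
    intro w
    set a := ⟪w, ξ₀⟫ with ha
    set v := w - a • ξ₀ with hv
    have hself : ⟪ξ₀, ξ₀⟫ = 1 := by rw [real_inner_self_eq_norm_sq, hξ₀n]; norm_num
    have hv0 : ⟪v, ξ₀⟫ = 0 := by
      rw [hv, inner_sub_left, real_inner_smul_left, hself, ← ha]; ring
    have hw : w = v + a • ξ₀ := by rw [hv]; abel
    have h1 := hsec v hv0
    have hnorm : ‖w‖ ^ 2 = ‖v‖ ^ 2 + a ^ 2 := by
      rw [hw, norm_add_sq_real, real_inner_smul_right, hv0, norm_smul, hξ₀n]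
      simp
    have haw : |a| ≤ ‖w‖ := by
      rw [ha]
      calc |⟪w, ξ₀⟫| ≤ ‖w‖ * ‖ξ₀‖ := abs_real_inner_le_norm _ _
        _ = ‖w‖ := by rw [hξ₀n, mul_one]
    have hvw : ‖v‖ ≤ ‖w‖ := by
      have : ‖v‖ ^ 2 ≤ ‖w‖ ^ 2 := by rw [hnorm]; nlinarith [sq_nonneg a]
      exact le_of_sq_le_sq this (norm_nonneg _) 
    have hexp : H x₀ w w = H x₀ v v + a * H x₀ v ξ₀ + a * H x₀ ξ₀ v + a ^ 2 * H x₀ ξ₀ ξ₀ := by
      rw [hw]
      simp only [map_add, map_smul, _root_.add_apply, _root_.smul_apply,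
        smul_eq_mul]
      ring
    have hop : ∀ p q, |H x₀ p q| ≤ ‖H x₀‖ * ‖p‖ * ‖q‖ := by
      intro p q
      have := (H x₀).le_opNorm₂ p q
      simpa using this
    have b1 : |a * H x₀ v ξ₀| ≤ ‖H x₀‖ * (|a| * ‖w‖) := by
      rw [abs_mul]
      calc |a| * |H x₀ v ξ₀| ≤ |a| * (‖H x₀‖ * ‖v‖ * ‖ξ₀‖) := by gcongr; exact hop _ _
        _ = ‖H x₀‖ * (|a| * ‖v‖) := by rw [hξ₀n]; ring
        _ ≤ ‖H x₀‖ * (|a| * ‖w‖) := by gcongr
    have b2 : |a * H x₀ ξ₀ v| ≤ ‖H x₀‖ * (|a| * ‖w‖) := by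
      rw [abs_mul]
      calc |a| * |H x₀ ξ₀ v| ≤ |a| * (‖H x₀‖ * ‖ξ₀‖ * ‖v‖) := by gcongr; exact hop _ _
        _ = ‖H x₀‖ * (|a| * ‖v‖) := by rw [hξ₀n]; ring
        _ ≤ ‖H x₀‖ * (|a| * ‖w‖) := by gcongr
    have b3 : |a ^ 2 * H x₀ ξ₀ ξ₀| ≤ ‖H x₀‖ * (|a| * ‖w‖) := by
      rw [abs_mul, abs_pow]
      calc |a| ^ 2 * |H x₀ ξ₀ ξ₀| ≤ |a| ^ 2 * (‖H x₀‖ * ‖ξ₀‖ * ‖ξ₀‖) := by gcongr; exact hop _ _
        _ = ‖H x₀‖ * (|a| * |a|) := by rw [hξ₀n]; ring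
        _ ≤ ‖H x₀‖ * (|a| * ‖w‖) := by gcongr
    have b4 : a ^ 2 ≤ |a| * ‖w‖ := by
      rw [← sq_abs, sq]; gcongr
    have b5 : μ / r * a ^ 2 ≤ μ / r * (|a| * ‖w‖) := by gcongr
    have b1' := (abs_le.mp b1).1
    have b2' := (abs_le.mp b2).1
    have b3' := (abs_le.mp b3).1
    rw [hexp, hnorm, hC]
    nlinarith
  -- choose δ1
  have hHe : ∀ᶠ y in nhds x₀, ‖H y - H x₀‖ < μ / (2 * r) := by
    have hpos : 0 < μ / (2 * r) := by positivity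
    have h1 := T21.ev_norm_sub_lt (H := H) hHc hpos
    exact h1
  have hDe : ∀ᶠ y in nhds x₀, ‖D y - D x₀‖ < 1 :=
    T21.ev_norm_sub_lt hDc one_pos
  obtain ⟨δ₂, hδ₂, hδ₂'⟩ := Metric.eventually_nhds_iff.mp (hHe.and hDe)
  set δ₁ := min δ δ₂ with hδ₁
  have hδ₁0 : 0 < δ₁ := lt_min hδ hδ₂
  have hsub : ball x₀ δ₁ ⊆ ball x₀ δ := ball_subset_ball (min_le_left _ _)
  have hHy : ∀ y ∈ ball x₀ δ₁, ‖H y - H x₀‖ < μ / (2 * r) := fun y hy =>
    (hδ₂' (lt_of_lt_of_le (mem_ball.mp hy) (min_le_right _ _))).1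
  have hDy : ∀ y ∈ ball x₀ δ₁, ‖D y - D x₀‖ < 1 := fun y hy =>
    (hδ₂' (lt_of_lt_of_le (mem_ball.mp hy) (min_le_right _ _))).2
  set C₁ := ‖D x₀‖ + 1 with hC₁
  have hC₁pos : 0 < C₁ := by positivity
  set C₂ := C₁ + C * r with hC₂
  have hC₂pos : 0 < C₂ := by positivity
  set η := min (min (δ₁ / (2 * r)) (δ₁ ^ 2 / (8 * r ^ 2))) (μ / (4 * r) / C) with hη
  set κ := min (μ / (8 * r) / C₂) (δ₁ ^ 2 / (16 * r ^ 3)) with hκ
  have hη0 : 0 < η := by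
    refine lt_min (lt_min ?_ ?_) ?_ <;> positivity
  have hκ0 : 0 < κ := by
    refine lt_min ?_ ?_ <;> positivity
  have hη1 : η ≤ δ₁ / (2 * r) := (min_le_left _ _).trans (min_le_left _ _)
  have hη2 : η ≤ δ₁ ^ 2 / (8 * r ^ 2) := (min_le_left _ _).trans (min_le_right _ _)
  have hη3 : η ≤ μ / (4 * r) / C := min_le_right _ _
  have hκ1 : κ ≤ μ / (8 * r) / C₂ := min_le_left _ _
  have hκ2 : κ ≤ δ₁ ^ 2 / (16 * r ^ 3) := min_le_right _ _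
  refine ⟨η, hη0, κ, hκ0, ?_⟩
  intro ξ hξ hξη
  obtain ⟨z, hzK, hzmax'⟩ := hK.exists_isMaxOn ⟨x₀, hx₀⟩
    (f := fun x => ⟪x, ξ⟫) (Continuous.continuousOn (by fun_prop))
  have hzmax : ∀ x ∈ K, ⟪x, ξ⟫ ≤ ⟪z, ξ⟫ := fun x hx => hzmax' hx
  refine ⟨z, hzK, ?_⟩
  -- distance estimate
  have hdist : ∀ x ∈ K, ‖x - x₀‖ ^ 2 ≤ 2 * r * (r - ⟪x, ξ₀⟫) := by
    intro x hx
    rw [norm_sub_sq_real, hx₀ξ, real_inner_smul_right, norm_smul, hξ₀n, Real.norm_eq_abs,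
      abs_of_pos hr0]
    have h1 : ‖x‖ ^ 2 ≤ r ^ 2 := by
      have := hfar x hx
      gcongr
    nlinarith
  have hzx₀ : ‖z - x₀‖ ≤ 2 * r * ‖ξ - ξ₀‖ := by
    have h1 := hdist z hzK
    have h2 : r - ⟪z, ξ₀⟫ ≤ ‖z - x₀‖ * ‖ξ - ξ₀‖ := by
      have e1 : r - ⟪z, ξ₀⟫ = (⟪x₀, ξ⟫ - ⟪z, ξ⟫) + ⟪z - x₀, ξ - ξ₀⟫ := by
        rw [← hinner0, inner_sub_left, inner_sub_right, inner_sub_right]; ring
      have e2 := hzmax x₀ hx₀
      have e3 := real_inner_le_norm (z - x₀) (ξ - ξ₀)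
      linarith
    by_cases hz0 : ‖z - x₀‖ = 0
    · rw [hz0]; positivity
    · have hz1 : 0 < ‖z - x₀‖ := lt_of_le_of_ne (norm_nonneg _) (Ne.symm hz0)
      have h3 : ‖z - x₀‖ * ‖z - x₀‖ ≤ ‖z - x₀‖ * (2 * r * ‖ξ - ξ₀‖) := by
        nlinarith
      exact le_of_mul_le_mul_left h3 hz1
  have hzb : z ∈ ball x₀ δ₁ := by
    rw [mem_ball_iff_norm]
    calc ‖z - x₀‖ ≤ 2 * r * ‖ξ - ξ₀‖ := hzx₀
      _ < 2 * r * η := by gcongr
      _ ≤ 2 * r * (δ₁ / (2 * r)) := by gcongr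
      _ = δ₁ := by field_simp
  have hzb' := hsub hzb
  have hξne : ξ ≠ 0 := by
    rw [← norm_pos_iff, hξ]; norm_num
  have hgz : g z = 0 := by
    apply le_antisymm ((hin z hzb').mp hzK)
    exact T21.interior_false hξne (hD z hzb').continuousAt (hnear z hzb') hzmax
  obtain ⟨hlam0, hAz⟩ := T21.functional_of_cone hξ
    (fun u hu => T21.cone_of_max (hD z hzb') hgz.le (hnear z hzb') hzmax u hu)
  set lam := D z ξ with hlam
  have hlamC : lam ≤ C₁ := by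
    have h1 : |D z ξ| ≤ ‖D z‖ * ‖ξ‖ := (D z).le_opNorm ξ
    have h2 : ‖D z‖ ≤ ‖D z - D x₀‖ + ‖D x₀‖ := by
      have := norm_add_le (D z - D x₀) (D x₀)
      simpa using this
    have h3 := hDy z hzb
    rw [hξ, mul_one] at h1
    have := le_abs_self (D z ξ)
    rw [hC₁]; linarith
  intro x hx
  set w := x - z with hw
  set s := ⟪w, ξ⟫ with hs
  have hs0 : s ≤ 0 := by
    rw [hs, hw, inner_sub_left]; linarith [hzmax x hx]
  have hw2 : ‖w‖ ≤ 2 * r := by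
    calc ‖x - z‖ ≤ ‖x‖ + ‖z‖ := norm_sub_le _ _
      _ ≤ r + r := add_le_add (hfar x hx) (hfar z hzK)
      _ = 2 * r := by ring
  suffices hsuff : s ≤ -(κ * ‖w‖ ^ 2) by
    have : ⟪x, ξ⟫ = ⟪z, ξ⟫ + s := by rw [hs, hw, inner_sub_left]; ring
    rw [this]; linarith
  by_cases hxb : x ∈ ball x₀ δ₁
  · -- near points
    have haw : |⟪w, ξ₀⟫| ≤ -s + η * ‖w‖ := by
      have e1 : ⟪w, ξ₀⟫ = s - ⟪w, ξ - ξ₀⟫ := by rw [inner_sub_right, ← hs]; ring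
      have e2 : |⟪w, ξ - ξ₀⟫| ≤ η * ‖w‖ := by
        calc |⟪w, ξ - ξ₀⟫| ≤ ‖w‖ * ‖ξ - ξ₀‖ := abs_real_inner_le_norm _ _
          _ ≤ ‖w‖ * η := by gcongr
          _ = η * ‖w‖ := by ring
      rw [e1]
      calc |s - ⟪w, ξ - ξ₀⟫| ≤ |s| + |⟪w, ξ - ξ₀⟫| := abs_sub _ _
        _ ≤ -s + η * ‖w‖ := by rw [abs_of_nonpos hs0]; linarith
    have hm : ∀ y ∈ ball x₀ δ₁, μ / (4 * r) * ‖w‖ ^ 2 + C * s * ‖w‖ ≤ H y (x - z) (x - z) := by
      intro y hy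
      have h1 := hquad w
      have h2 : |(H y - H x₀) w w| ≤ μ / (2 * r) * ‖w‖ ^ 2 := by
        have h3 := (H y - H x₀).le_opNorm₂ w w
        rw [Real.norm_eq_abs] at h3
        calc _ ≤ ‖H y - H x₀‖ * ‖w‖ * ‖w‖ := h3
          _ ≤ μ / (2 * r) * ‖w‖ * ‖w‖ := by gcongr; exact (hHy y hy).le
          _ = _ := by ring
      have h3 := (abs_le.mp h2).1
      simp only [_root_.sub_apply] at h3
      have h4 : C * (|⟪w, ξ₀⟫| * ‖w‖) ≤ C * ((-s + η * ‖w‖) * ‖w‖) := by gcongr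
      have h5 : C * η ≤ μ / (4 * r) := by
        calc C * η ≤ C * (μ / (4 * r) / C) := by gcongr
          _ = μ / (4 * r) := by field_simp
      have h6 : C * η * ‖w‖ ^ 2 ≤ μ / (4 * r) * ‖w‖ ^ 2 := by gcongr
      have e1 : μ / r = 4 * (μ / (4 * r)) := by field_simp
      have e2 : μ / (2 * r) = 2 * (μ / (4 * r)) := by field_simp; ring
      rw [e1] at h1
      rw [e2] at h3
      nlinarith
    have htay := T21.taylor_lower (convex_ball x₀ δ₁) (fun y hy => hD y (hsub hy))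
      (fun y hy => hH y (hsub hy)) hzb hxb hm
    have hgx' : g x ≤ 0 := (hin x (hsub hxb)).mp hx
    rw [hgz, hAz (x - z), ← hw, ← hs] at htay
    have h1 : (lam + C * ‖w‖ / 2) * s ≤ -(μ / (8 * r) * ‖w‖ ^ 2) := by
      have e1 : μ / (8 * r) = μ / (4 * r) / 2 := by field_simp; ring
      rw [e1]; nlinarith
    have h2 : lam + C * ‖w‖ / 2 ≤ C₂ := by
      have : C * ‖w‖ ≤ C * (2 * r) := by gcongr
      rw [hC₂]; linarith
    have h3 : C₂ * s ≤ -(μ / (8 * r) * ‖w‖ ^ 2) := by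
      have : C₂ * s ≤ (lam + C * ‖w‖ / 2) * s := mul_le_mul_of_nonpos_right h2 hs0
      linarith
    have h4 : κ * ‖w‖ ^ 2 ≤ μ / (8 * r) / C₂ * ‖w‖ ^ 2 := by gcongr
    have h5 : s ≤ -(μ / (8 * r) / C₂ * ‖w‖ ^ 2) := by
      have e1 : C₂ * -(μ / (8 * r) / C₂ * ‖w‖ ^ 2) = -(μ / (8 * r) * ‖w‖ ^ 2) := by
        field_simp
      rw [← e1] at h3
      exact le_of_mul_le_mul_left h3 hC₂pos
    linarith
  · -- far points
    have hfarx : δ₁ ≤ ‖x - x₀‖ := by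
      rw [mem_ball_iff_norm, not_lt] at hxb; exact hxb
    have h1 := hdist x hx
    have h2 : δ₁ ^ 2 ≤ ‖x - x₀‖ ^ 2 := by gcongr
    have h3 : ⟪x, ξ₀⟫ ≤ r - δ₁ ^ 2 / (2 * r) := by
      rw [le_sub_iff_add_le, ← le_sub_iff_add_le', div_le_iff₀ (by positivity)]
      linarith
    have h4 : ⟪x, ξ⟫ ≤ ⟪x, ξ₀⟫ + r * η := by
      have e1 : ⟪x, ξ⟫ = ⟪x, ξ₀⟫ + ⟪x, ξ - ξ₀⟫ := by rw [inner_sub_right]; ring
      have e2 := real_inner_le_norm x (ξ - ξ₀)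
      have e3 : ‖x‖ * ‖ξ - ξ₀‖ ≤ r * η := by
        have := hfar x hx
        gcongr
      linarith
    have h5 : r - r * η ≤ ⟪z, ξ⟫ := by
      have e0 := hzmax x₀ hx₀
      have e1 : ⟪x₀, ξ⟫ = r + ⟪x₀, ξ - ξ₀⟫ := by rw [inner_sub_right, hinner0]; ring
      have e2 := (abs_le.mp (abs_real_inner_le_norm x₀ (ξ - ξ₀))).1
      have e3 : ‖x₀‖ * ‖ξ - ξ₀‖ ≤ r * η := by
        rw [← hr]; gcongr
      linarith
    have h6 : s ≤ -(δ₁ ^ 2 / (4 * r)) := by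
      have e1 : s = ⟪x, ξ⟫ - ⟪z, ξ⟫ := by rw [hs, hw, inner_sub_left]
      have e2 : r * η ≤ r * (δ₁ ^ 2 / (8 * r ^ 2)) := by gcongr
      have e3 : r * (δ₁ ^ 2 / (8 * r ^ 2)) = δ₁ ^ 2 / (8 * r) := by field_simp
      have e4 : δ₁ ^ 2 / (2 * r) = 4 * (δ₁ ^ 2 / (8 * r)) := by field_simp; ring
      have e5 : δ₁ ^ 2 / (4 * r) = 2 * (δ₁ ^ 2 / (8 * r)) := by field_simp; ring
      rw [e3] at e2
      rw [e4] at h3
      rw [e5, e1]
      linarith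
    have h7 : κ * ‖w‖ ^ 2 ≤ δ₁ ^ 2 / (4 * r) := by
      calc κ * ‖w‖ ^ 2 ≤ δ₁ ^ 2 / (16 * r ^ 3) * (2 * r) ^ 2 := by gcongr
        _ = δ₁ ^ 2 / (4 * r) := by field_simp; ring
    linarith

end AS.J3728
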