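import Mathlib

set_option autoImplicit false
open Polynomial Set Filter Topology Metric

namespace AS.J4139

section aux

variable {V : Type*} [NormedAddCommGroup V] [NormedSpace ℝ V]

/-- polarisation -/
def bet (v : V → ℝ) (x y : V) : ℝ := v (x + y) - v x - v y

/-- good points -/
def Good' (u v : V → ℝ) (x : V) : Prop := ∀ (y : V) (s : ℝ), u (x + s • y) = u x + s * u y ∧
  v (x + s • y) = v x + s * bet v x y + s ^ 2 * v y

theorem step0 (u v : V → ℝ) (huh : ∀ (r : ℝ) x, u (r • x) = r * u x)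
    (hvh : ∀ (r : ℝ) x, v (r • x) = r ^ 2 * v x) (x₀ : V) (η : ℝ)
    (h : ∀ ξ₀ ∈ ball x₀ η, ∀ ξ₁ : V, LinearIndependent ℝ ![ξ₀, ξ₁] →
      ∃ a b c d e : ℝ, ∀ s : ℝ, u (ξ₀ + s • ξ₁) = a + b * s ∧
        v (ξ₀ + s • ξ₁) = c + d * s + e * s ^ 2) :
    ∀ ξ₀ ∈ ball x₀ η, ∀ ξ₁ : V, ∃ a b c d e : ℝ, ∀ s : ℝ, u (ξ₀ + s • ξ₁) = a + b * s ∧
        v (ξ₀ + s • ξ₁) = c + d * s + e * s ^ 2 := by
  intro ξ₀ h0 ξ₁
  by_cases hli : LinearIndependent ℝ ![ξ₀, ξ₁]
  · exact h ξ₀ h0 ξ₁ hli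
  · rw [LinearIndependent.pair_iff] at hli
    push Not at hli
    obtain ⟨s, t, hst, hne⟩ := hli
    by_cases ht : t = 0
    · have hs : s ≠ 0 := fun hs => hne hs ht
      rw [ht, zero_smul, add_zero, smul_eq_zero] at hst
      have hx : ξ₀ = 0 := hst.resolve_left hs
      refine ⟨0, u ξ₁, 0, 0, v ξ₁, fun r => ?_⟩
      rw [hx, zero_add, huh, hvh]
      constructor <;> ring
    · have hx : ξ₁ = (-(s / t)) • ξ₀ := by
        have h1 : t • ξ₁ = -(s • ξ₀) := eq_neg_of_add_eq_zero_right hst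
        calc ξ₁ = t⁻¹ • (t • ξ₁) := by rw [smul_smul, inv_mul_cancel₀ ht, one_smul]
          _ = (-(s / t)) • ξ₀ := by
              rw [h1, smul_neg, smul_smul, neg_smul]
              congr 2
              ring
      obtain ⟨c, hc⟩ : ∃ c, c = -(s / t) := ⟨_, rfl⟩
      rw [← hc] at hx
      refine ⟨u ξ₀, c * u ξ₀, v ξ₀, 2 * c * v ξ₀, c ^ 2 * v ξ₀, fun r => ?_⟩
      have e : ξ₀ + r • ξ₁ = (1 + r * c) • ξ₀ := by
        rw [hx, smul_smul, add_smul, one_smul]
      rw [e, huh, hvh]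
      constructor <;> ring

theorem step1 (u v : V → ℝ) (hu : Continuous u) (hv : Continuous v)
    (huh : ∀ (r : ℝ) x, u (r • x) = r * u x)
    (hvh : ∀ (r : ℝ) x, v (r • x) = r ^ 2 * v x) (x₀ : V) (η : ℝ)
    (h : ∀ ξ₀ ∈ ball x₀ η, ∀ ξ₁ : V, ∃ a b c d e : ℝ, ∀ s : ℝ, u (ξ₀ + s • ξ₁) = a + b * s ∧
        v (ξ₀ + s • ξ₁) = c + d * s + e * s ^ 2) :
    ∀ x ∈ ball x₀ η, Good' u v x := by
  intro x hx y
  obtain ⟨a, b, c, d, e, habc⟩ := h x hx y
  have ha : a = u x := by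
    have := (habc 0).1
    simp at this
    exact this.symm
  have hc : c = v x := by
    have := (habc 0).2
    simp at this
    exact this.symm
  -- limits
  have key : ∀ r : ℝ, r ≠ 0 → u (r • x + y) = a * r + b ∧ v (r • x + y) = c * r ^ 2 + d * r + e := by
    intro r hr
    have e1 : r • x + y = r • (x + r⁻¹ • y) := by
      rw [smul_add, smul_smul, mul_inv_cancel₀ hr, one_smul]
    rw [e1, huh, hvh, (habc r⁻¹).1, (habc r⁻¹).2]
    constructor
    · field_simp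
    · field_simp
  have hlim : Tendsto (fun r : ℝ => r • x + y) (𝓝[≠] 0) (𝓝 y) := by
    have : Tendsto (fun r : ℝ => r • x + y) (𝓝 0) (𝓝 ((0 : ℝ) • x + y)) := by
      apply Continuous.tendsto
      fun_prop
    rw [zero_smul, zero_add] at this
    exact this.mono_left nhdsWithin_le_nhds
  have hb : b = u y := by
    have h1 : Tendsto (fun r : ℝ => u (r • x + y)) (𝓝[≠] 0) (𝓝 (u y)) := (hu.tendsto y).comp hlim
    have h2 : Tendsto (fun r : ℝ => a * r + b) (𝓝[≠] 0) (𝓝 (a * 0 + b)) := by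
      have : Tendsto (fun r : ℝ => a * r + b) (𝓝 0) (𝓝 (a * 0 + b)) := by
        apply Continuous.tendsto
        fun_prop
      exact this.mono_left nhdsWithin_le_nhds
    have h3 : Tendsto (fun r : ℝ => u (r • x + y)) (𝓝[≠] 0) (𝓝 (a * 0 + b)) := by
      refine h2.congr' ?_
      filter_upwards [self_mem_nhdsWithin] with r hr
      exact (key r hr).1.symm
    have := tendsto_nhds_unique h3 h1
    rw [mul_zero, zero_add] at this
    exact this
  have he : e = v y := by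
    have h1 : Tendsto (fun r : ℝ => v (r • x + y)) (𝓝[≠] 0) (𝓝 (v y)) := (hv.tendsto y).comp hlim
    have h2 : Tendsto (fun r : ℝ => c * r ^ 2 + d * r + e) (𝓝[≠] 0) (𝓝 (c * 0 ^ 2 + d * 0 + e)) := by
      have : Tendsto (fun r : ℝ => c * r ^ 2 + d * r + e) (𝓝 0) (𝓝 (c * 0 ^ 2 + d * 0 + e)) := by
        apply Continuous.tendsto
        fun_prop
      exact this.mono_left nhdsWithin_le_nhds
    have h3 : Tendsto (fun r : ℝ => v (r • x + y)) (𝓝[≠] 0) (𝓝 (c * 0 ^ 2 + d * 0 + e)) := by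
      refine h2.congr' ?_
      filter_upwards [self_mem_nhdsWithin] with r hr
      exact (key r hr).2.symm
    have := tendsto_nhds_unique h3 h1
    rw [mul_zero, zero_pow two_ne_zero, mul_zero, zero_add, zero_add] at this
    exact this
  have hd : d = bet v x y := by
    have := (habc 1).2
    rw [one_smul] at this
    unfold bet
    rw [this, hc, he]
    ring
  intro s
  rw [(habc s).1, (habc s).2, ha, hb, hc, hd, he]
  constructor <;> ring

theorem good_smul (u v : V → ℝ) (huh : ∀ (r : ℝ) x, u (r • x) = r * u x)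
    (hvh : ∀ (r : ℝ) x, v (r • x) = r ^ 2 * v x) {x : V} (hx : Good' u v x) {N : ℝ} (hN : N ≠ 0) :
    (∀ y, bet v (N • x) y = N * bet v x y) ∧ Good' u v (N • x) := by
  have e : ∀ (y : V) (s : ℝ), N • x + s • y = N • (x + (s / N) • y) := by
    intro y s
    rw [smul_add, smul_smul]
    congr 2
    field_simp
  have h1 : ∀ y, bet v (N • x) y = N * bet v x y := by
    intro y
    have e1 := e y 1
    rw [one_smul] at e1
    have e2 : bet v (N • x) y = v (N • x + y) - v (N • x) - v y := rfl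
    rw [e2, e1, hvh, hvh, (hx y (1 / N)).2]
    field_simp
    ring
  refine ⟨h1, ?_⟩
  intro y s
  rw [e y s, huh, hvh, huh, hvh, h1, (hx y (s / N)).1, (hx y (s / N)).2]
  constructor
  · field_simp
  · field_simp

theorem good_large (u v : V → ℝ) (huh : ∀ (r : ℝ) x, u (r • x) = r * u x)
    (hvh : ∀ (r : ℝ) x, v (r • x) = r ^ 2 * v x) {x₀ : V} {η : ℝ}
    (hg : ∀ x ∈ ball x₀ η, Good' u v x) {x : V} (hx : x ∈ ball x₀ η) (y : V) :
    ∃ N₀ : ℝ, 0 < N₀ ∧ ∀ N, N₀ ≤ N → x + N⁻¹ • y ∈ ball x₀ η ∧ Good' u v (N • x + y) := by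
  obtain ⟨δ, hδ, hball⟩ := Metric.isOpen_iff.1 isOpen_ball x hx
  refine ⟨(‖y‖ + 1) / δ, by positivity, ?_⟩
  intro N hN
  have hN0 : 0 < N := lt_of_lt_of_le (by positivity) hN
  have hmem : x + N⁻¹ • y ∈ ball x₀ η := by
    apply hball
    rw [Metric.mem_ball, dist_eq_norm, add_sub_cancel_left, norm_smul, norm_inv, Real.norm_eq_abs,
      abs_of_pos hN0]
    rw [div_le_iff₀ hδ] at hN
    rw [inv_mul_lt_iff₀ hN0]
    linarith
  refine ⟨hmem, ?_⟩
  have e : N • x + y = N • (x + N⁻¹ • y) := by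
    rw [smul_add, smul_smul, mul_inv_cancel₀ hN0.ne', one_smul]
  rw [e]
  exact (good_smul u v huh hvh (hg _ hmem) hN0.ne').2

theorem good_bet_smul (u v : V → ℝ) (hvh : ∀ (r : ℝ) x, v (r • x) = r ^ 2 * v x) {x : V}
    (hx : Good' u v x) (z : V) (s : ℝ) : bet v x (s • z) = s * bet v x z := by
  have e : bet v x (s • z) = v (x + s • z) - v x - v (s • z) := rfl
  rw [e, (hx z s).2, hvh]
  ring

theorem bet_shift (u v : V → ℝ) (huh : ∀ (r : ℝ) x, u (r • x) = r * u x)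
    (hvh : ∀ (r : ℝ) x, v (r • x) = r ^ 2 * v x) {x : V}
    (hx : Good' u v x) (y z : V) {N : ℝ} (hN : N ≠ 0) :
    bet v (N • x + y) z = N * (bet v x (y + z) - bet v x y) + bet v y z := by
  have h1 := (good_smul u v huh hvh hx hN).1
  have e1 : v (N • x + y) = v (N • x) + N * bet v x y + v y := by
    rw [← h1 y]
    unfold bet
    ring
  have e2 : v (N • x + (y + z)) = v (N • x) + N * bet v x (y + z) + v (y + z) := by
    rw [← h1 (y + z)]
    unfold bet
    ring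
  have e3 : bet v (N • x + y) z = v (N • x + y + z) - v (N • x + y) - v z := rfl
  have e4 : bet v y z = v (y + z) - v y - v z := rfl
  rw [e3, add_assoc, e2, e1, e4]
  ring

theorem two_pts {p q p' q' N₀ : ℝ} (h : ∀ N, N₀ ≤ N → N * p + q = N * p' + q') : p = p' ∧ q = q' := by
  have h1 := h N₀ le_rfl
  have h2 := h (N₀ + 1) (by linarith)
  have h3 : p = p' := by linarith
  subst h3
  exact ⟨rfl, by linarith⟩

theorem bet_props (u v : V → ℝ) (huh : ∀ (r : ℝ) x, u (r • x) = r * u x)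
    (hvh : ∀ (r : ℝ) x, v (r • x) = r ^ 2 * v x) {x₀ : V} {η : ℝ}
    (hg : ∀ x ∈ ball x₀ η, Good' u v x) {x : V} (hx : x ∈ ball x₀ η) (y z : V) (s : ℝ) :
    bet v y (s • z) = s * bet v y z ∧
      bet v x (y + s • z) - bet v x y = s * (bet v x (y + z) - bet v x y) := by
  obtain ⟨N₀, hN₀, hN⟩ := good_large u v huh hvh hg hx y
  have h1 : ∀ N, N₀ ≤ N → N * (bet v x (y + s • z) - bet v x y) + bet v y (s • z) =
      N * (s * (bet v x (y + z) - bet v x y)) + s * bet v y z := by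
    intro N hNN
    have hN0 : N ≠ 0 := (lt_of_lt_of_le hN₀ hNN).ne'
    have h2 := good_bet_smul u v hvh (hN N hNN).2 z s
    rw [bet_shift u v huh hvh (hg x hx) y (s • z) hN0,
      bet_shift u v huh hvh (hg x hx) y z hN0] at h2
    rw [h2]
    ring
  obtain ⟨h2, h3⟩ := two_pts h1
  exact ⟨h3, h2⟩

theorem bet_add_ball (u v : V → ℝ) (huh : ∀ (r : ℝ) x, u (r • x) = r * u x)
    (hvh : ∀ (r : ℝ) x, v (r • x) = r ^ 2 * v x) {x₀ : V} {η : ℝ}
    (hg : ∀ x ∈ ball x₀ η, Good' u v x) {x : V} (hx : x ∈ ball x₀ η) (p q : V) :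
    bet v x (p + q) = bet v x p + bet v x q := by
  have h1 := (bet_props u v huh hvh hg hx ((1 / 2 : ℝ) • (p + q)) ((1 / 2 : ℝ) • (p - q)) (-1)).2
  have h2 := (bet_props u v huh hvh hg hx x (p + q) (1 / 2)).1
  have e1 : (1 / 2 : ℝ) • (p + q) + (-1 : ℝ) • ((1 / 2 : ℝ) • (p - q)) = q := by
    module
  have e2 : (1 / 2 : ℝ) • (p + q) + ((1 / 2 : ℝ) • (p - q)) = p := by
    module
  rw [e1, e2] at h1
  rw [h2] at h1
  linarith

theorem bet_add (u v : V → ℝ) (huh : ∀ (r : ℝ) x, u (r • x) = r * u x)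
    (hvh : ∀ (r : ℝ) x, v (r • x) = r ^ 2 * v x) {x₀ : V} {η : ℝ} (hη : 0 < η)
    (hg : ∀ x ∈ ball x₀ η, Good' u v x) (y p q : V) :
    bet v y (p + q) = bet v y p + bet v y q := by
  have hx : x₀ ∈ ball x₀ η := mem_ball_self hη
  obtain ⟨N₀, hN₀, hN⟩ := good_large u v huh hvh hg hx y
  obtain ⟨hm, -⟩ := hN N₀ le_rfl
  have hN0 : N₀ ≠ 0 := hN₀.ne'
  have e : N₀ • x₀ + y = N₀ • (x₀ + N₀⁻¹ • y) := by
    rw [smul_add, smul_smul, mul_inv_cancel₀ hN0, one_smul]
  have key : ∀ z, bet v y z = N₀ * bet v (x₀ + N₀⁻¹ • y) z - N₀ * bet v x₀ z := by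
    intro z
    have h1 := bet_shift u v huh hvh (hg x₀ hx) y z hN0
    rw [e, (good_smul u v huh hvh (hg _ hm) hN0).1, bet_add_ball u v huh hvh hg hx] at h1
    linarith
  rw [key, key, key, bet_add_ball u v huh hvh hg hm, bet_add_ball u v huh hvh hg hx]
  ring

end aux

/-- TARGET -/
theorem lin_quad {V : Type*} [NormedAddCommGroup V] [NormedSpace ℝ V] (u v : V → ℝ)
    (hu : Continuous u) (hv : Continuous v) (huh : ∀ (r : ℝ) x, u (r • x) = r * u x)
    (hvh : ∀ (r : ℝ) x, v (r • x) = r ^ 2 * v x) (x₀ : V) (η : ℝ) (hη : 0 < η)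
    (h : ∀ ξ₀ ∈ ball x₀ η, ∀ ξ₁ : V, LinearIndependent ℝ ![ξ₀, ξ₁] →
      ∃ a b c d e : ℝ, ∀ s : ℝ, u (ξ₀ + s • ξ₁) = a + b * s ∧
        v (ξ₀ + s • ξ₁) = c + d * s + e * s ^ 2) :
    (∃ L : V →ₗ[ℝ] ℝ, ∀ x, u x = L x) ∧
    ∃ B : V →ₗ[ℝ] V →ₗ[ℝ] ℝ, (∀ x y, B x y = B y x) ∧ ∀ x, v x = B x x := by
  have hg := step1 u v hu hv huh hvh x₀ η (step0 u v huh hvh x₀ η h)
  have hx : x₀ ∈ ball x₀ η := mem_ball_self hη
  constructor
  · have hadd : ∀ y z, u (y + z) = u y + u z := by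
      intro y z
      obtain ⟨N₀, hN₀, hN⟩ := good_large u v huh hvh hg hx y
      have h1 := (hN N₀ le_rfl).2
      have h2 := (good_smul u v huh hvh (hg x₀ hx) hN₀.ne').2
      have e1 := (h1 z 1).1
      have e2 := (h2 y 1).1
      have e3 := (h2 (y + z) 1).1
      rw [one_smul, one_mul] at e1 e2 e3
      rw [add_assoc] at e1
      linarith
    exact ⟨{ toFun := u, map_add' := hadd, map_smul' := fun r x => by rw [huh]; rfl }, fun x => rfl⟩
  · have hsymm : ∀ y z, bet v y z = bet v z y := by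
      intro y z
      unfold bet
      rw [add_comm y z]
      ring
    have hadd := bet_add u v huh hvh hη hg
    have hsm : ∀ (s : ℝ) y z, bet v y (s • z) = s * bet v y z := fun s y z =>
      (bet_props u v huh hvh hg hx y z s).1
    refine ⟨LinearMap.mk₂ ℝ (fun y z => 1 / 2 * bet v y z) ?_ ?_ ?_ ?_, ?_, ?_⟩
    · intro m₁ m₂ n
      rw [hsymm (m₁ + m₂) n, hadd, hsymm n m₁, hsymm n m₂]
      ring
    · intro c m n
      rw [hsymm (c • m) n, hsm, hsymm n m, smul_eq_mul]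
      ring
    · intro m n₁ n₂
      rw [hadd]
      ring
    · intro c m n
      rw [hsm, smul_eq_mul]
      ring
    · intro x y
      simp only [LinearMap.mk₂_apply]
      rw [hsymm]
    · intro x
      simp only [LinearMap.mk₂_apply]
      unfold bet
      rw [← two_smul ℝ x, hvh]
      ring

end AS.J4139

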