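import Mathlib

set_option autoImplicit false
open Polynomial Set Filter Topology Metric
open scoped RealInnerProductSpace

namespace AS.J4140

/-- a positive semidefinite symmetric form is a sum of squares -/
theorem exists_sqrt {n : ℕ}
    (B : EuclideanSpace ℝ (Fin n) →ₗ[ℝ] EuclideanSpace ℝ (Fin n) →ₗ[ℝ] ℝ)
    (hBs : ∀ x y, B x y = B y x) (hB : ∀ ξ, 0 ≤ B ξ ξ) :
    ∃ S : EuclideanSpace ℝ (Fin n) →ₗ[ℝ] EuclideanSpace ℝ (Fin n), ∀ ξ, B ξ ξ = ‖S ξ‖ ^ 2 := by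
  classical
  have : Invertible (2 : ℝ) := invertibleOfNonzero two_ne_zero
  have hsymm : LinearMap.IsSymm B := ⟨fun x y => by simpa using hBs x y⟩
  obtain ⟨v₀, hv₀⟩ := LinearMap.BilinForm.exists_orthogonal_basis hsymm
  have hfr : Module.finrank ℝ (EuclideanSpace ℝ (Fin n)) = n := finrank_euclideanSpace_fin
  let v : Module.Basis (Fin n) ℝ (EuclideanSpace ℝ (Fin n)) := v₀.reindex (finCongr hfr)
  have hv : ∀ i j, i ≠ j → B (v i) (v j) = 0 := by
    intro i j hij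
    simp only [v, Module.Basis.reindex_apply]
    exact hv₀ (fun h => hij ((finCongr hfr).symm.injective h))
  let S : EuclideanSpace ℝ (Fin n) →ₗ[ℝ] EuclideanSpace ℝ (Fin n) :=
    (WithLp.linearEquiv 2 ℝ (Fin n → ℝ)).symm.toLinearMap ∘ₗ
      (LinearMap.pi fun i => (Real.sqrt (B (v i) (v i))) • v.coord i)
  refine ⟨S, fun ξ => ?_⟩
  have hS : ∀ i, S ξ i = Real.sqrt (B (v i) (v i)) * v.repr ξ i := fun i => rfl
  rw [EuclideanSpace.real_norm_sq_eq]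
  have h1 : ∀ i, S ξ i ^ 2 = v.repr ξ i * v.repr ξ i * B (v i) (v i) := by
    intro i
    rw [hS, mul_pow, Real.sq_sqrt (hB _)]
    ring
  simp_rw [h1]
  conv_lhs => rw [← v.sum_repr ξ]
  rw [map_sum]
  refine Finset.sum_congr rfl (fun i _ => ?_)
  rw [map_sum, LinearMap.sum_apply, Finset.sum_eq_single i]
  · rw [map_smul, map_smul, LinearMap.smul_apply, smul_eq_mul, smul_eq_mul]
    ring
  · intro j _ hji
    rw [map_smul, map_smul, LinearMap.smul_apply, hv j i hji, smul_zero, smul_zero]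
  · intro h
    exact absurd (Finset.mem_univ i) h

/-- TARGET: from the support function to ball position -/
theorem ball_position {n : ℕ} (K : Set (EuclideanSpace ℝ (Fin n))) (hK : IsCompact K)
    (hKi : (interior K).Nonempty) (h : EuclideanSpace ℝ (Fin n) → ℝ)
    (hh : ∀ ξ, IsGreatest ((fun x => ⟪x, ξ⟫) '' K) (h ξ))
    (L : EuclideanSpace ℝ (Fin n) →ₗ[ℝ] ℝ) (hL : ∀ ξ, h ξ - h (-ξ) = L ξ)
    (B : EuclideanSpace ℝ (Fin n) →ₗ[ℝ] EuclideanSpace ℝ (Fin n) →ₗ[ℝ] ℝ)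
    (hBs : ∀ x y, B x y = B y x) (hB : ∀ ξ, h ξ * h (-ξ) = B ξ ξ) :
    ∃ (c : EuclideanSpace ℝ (Fin n))
      (T : EuclideanSpace ℝ (Fin n) ≃L[ℝ] EuclideanSpace ℝ (Fin n)),
      (∀ x ∈ K, ‖T (x - c)‖ ≤ 1) ∧ ∀ y : EuclideanSpace ℝ (Fin n), ‖y‖ = 1 →
        ∃ x ∈ K, T (x - c) = y := by
  obtain ⟨c, hc⟩ : ∃ c : EuclideanSpace ℝ (Fin n), ∀ ξ, ⟪c, ξ⟫ = L ξ / 2 := by
    refine ⟨(InnerProductSpace.toDual ℝ (EuclideanSpace ℝ (Fin n))).symm
      (LinearMap.toContinuousLinearMap ((1 / 2 : ℝ) • L)), fun ξ => ?_⟩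
    rw [InnerProductSpace.toDual_symm_apply]
    simp only [LinearMap.coe_toContinuousLinearMap', LinearMap.smul_apply, smul_eq_mul]
    ring
  -- the even part
  have hle : ∀ ξ, ∀ x ∈ K, ⟪x, ξ⟫ ≤ h ξ := fun ξ x hx => (hh ξ).2 ⟨x, hx, rfl⟩
  have hpos : ∀ ξ, ξ ≠ 0 → 0 < h ξ + h (-ξ) := by
    intro ξ hξ
    obtain ⟨x₀, hx₀⟩ := hKi
    obtain ⟨r, hr, hrK⟩ := Metric.isOpen_iff.mp isOpen_interior x₀ hx₀
    have hnξ : 0 < ‖ξ‖ := norm_pos_iff.mpr hξ
    set δ : ℝ := r / (2 * ‖ξ‖) with hδ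
    have hδ0 : 0 < δ := by positivity
    have hδn : ‖δ • ξ‖ < r := by
      rw [norm_smul, Real.norm_eq_abs, abs_of_pos hδ0, hδ]
      field_simp
      linarith
    have h1 : x₀ + δ • ξ ∈ K := interior_subset (hrK (by
      rw [Metric.mem_ball, dist_eq_norm, add_sub_cancel_left]; exact hδn))
    have h2 : x₀ - δ • ξ ∈ K := interior_subset (hrK (by
      rw [Metric.mem_ball, dist_eq_norm, sub_sub_cancel_left, norm_neg]; exact hδn))
    have h3 := hle ξ _ h1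
    have h4 := hle (-ξ) _ h2
    rw [inner_add_left, real_inner_smul_left] at h3
    rw [inner_neg_right, inner_sub_left, real_inner_smul_left] at h4
    have h5 : 0 < ⟪ξ, ξ⟫ := by rw [real_inner_self_eq_norm_sq]; positivity
    have h6 : 0 < δ * ⟪ξ, ξ⟫ := mul_pos hδ0 h5
    linarith
  have hg : ∀ ξ, h ξ - ⟪c, ξ⟫ = (h ξ + h (-ξ)) / 2 := by
    intro ξ
    rw [hc, ← hL]; ring
  have hg0 : ∀ ξ, 0 ≤ h ξ - ⟪c, ξ⟫ := by
    intro ξ
    rw [hg]
    by_cases hξ : ξ = 0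
    · have h0 : h 0 = 0 := by
        obtain ⟨x, _, hx⟩ := (hh 0).1
        rw [← hx]
        simp
      rw [hξ, neg_zero, h0]; norm_num
    · have := hpos ξ hξ
      positivity
  -- the form
  let ℓ : EuclideanSpace ℝ (Fin n) →ₗ[ℝ] ℝ := (1 / 2 : ℝ) • L
  have hℓ : ∀ ξ, ℓ ξ = ⟪c, ξ⟫ := by
    intro ξ
    rw [hc]
    simp only [ℓ, LinearMap.smul_apply, smul_eq_mul]
    ring
  let B' : EuclideanSpace ℝ (Fin n) →ₗ[ℝ] EuclideanSpace ℝ (Fin n) →ₗ[ℝ] ℝ :=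
    LinearMap.mk₂ ℝ (fun x y => ℓ x * ℓ y + B x y)
      (by intro x y z; simp only [map_add, LinearMap.add_apply]; ring)
      (by intro a x y; simp only [map_smul, LinearMap.smul_apply, smul_eq_mul]; ring)
      (by intro x y z; simp only [map_add]; ring)
      (by intro a x y; simp only [map_smul, smul_eq_mul]; ring)
  have hB' : ∀ ξ, B' ξ ξ = (h ξ - ⟪c, ξ⟫) ^ 2 := by
    intro ξ
    have e : B' ξ ξ = ℓ ξ * ℓ ξ + B ξ ξ := rfl
    rw [e, hℓ, hg, hc, ← hL, ← hB]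
    ring
  obtain ⟨S, hS⟩ := exists_sqrt B' (fun x y => by
    show ℓ x * ℓ y + B x y = ℓ y * ℓ x + B y x
    rw [hBs x y]; ring) (fun ξ => by rw [hB']; positivity)
  have hgS : ∀ ξ, h ξ - ⟪c, ξ⟫ = ‖S ξ‖ := by
    intro ξ
    have h1 := hS ξ
    rw [hB'] at h1
    exact (pow_left_inj₀ (hg0 ξ) (norm_nonneg _) two_ne_zero).mp h1
  have hSinj : Function.Injective S := by
    rw [← LinearMap.ker_eq_bot, LinearMap.ker_eq_bot']
    intro ξ hξ
    by_contra hne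
    have h1 := hgS ξ
    rw [hξ, norm_zero, hg] at h1
    have h2 := hpos ξ hne
    linarith
  let Se : EuclideanSpace ℝ (Fin n) ≃ₗ[ℝ] EuclideanSpace ℝ (Fin n) :=
    LinearEquiv.ofInjectiveEndo S hSinj
  have hSe : ∀ x, Se x = S x := fun x => rfl
  let R : EuclideanSpace ℝ (Fin n) →L[ℝ] EuclideanSpace ℝ (Fin n) :=
    LinearMap.toContinuousLinearMap Se.symm.toLinearMap
  have hR : ∀ x, S (R x) = x := fun x => Se.apply_symm_apply x
  have hR' : ∀ x, R (S x) = x := fun x => Se.symm_apply_apply x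
  let T₀ : EuclideanSpace ℝ (Fin n) →L[ℝ] EuclideanSpace ℝ (Fin n) := ContinuousLinearMap.adjoint R
  have hT₀ : ∀ x y, ⟪T₀ x, y⟫ = ⟪x, R y⟫ := fun x y => ContinuousLinearMap.adjoint_inner_left R y x
  have hT₀inj : Function.Injective T₀.toLinearMap := by
    rw [← LinearMap.ker_eq_bot, LinearMap.ker_eq_bot']
    intro x hx
    have h1 := hT₀ x (S x)
    rw [hR'] at h1
    have h2 : T₀ x = 0 := hx
    rw [h2, inner_zero_left] at h1
    exact inner_self_eq_zero.mp h1.symm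
  let Te : EuclideanSpace ℝ (Fin n) ≃ₗ[ℝ] EuclideanSpace ℝ (Fin n) :=
    LinearEquiv.ofInjectiveEndo T₀.toLinearMap hT₀inj
  have hT : ∀ x y, ⟪Te.toContinuousLinearEquiv x, y⟫ = ⟪x, R y⟫ := fun x y => hT₀ x y
  have hball : ∀ x ∈ K, ‖Te.toContinuousLinearEquiv (x - c)‖ ≤ 1 := by
    intro x hx
    set y := Te.toContinuousLinearEquiv (x - c) with hy
    have h1 : ⟪y, y⟫ ≤ ‖y‖ := by
      conv_lhs => rw [hy]
      rw [hT, inner_sub_left]
      have h2 := hle (R y) x hx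
      have h3 := hgS (R y)
      rw [hR] at h3
      linarith
    rw [real_inner_self_eq_norm_sq] at h1
    by_contra hcon
    push Not at hcon
    nlinarith
  refine ⟨c, Te.toContinuousLinearEquiv, hball, fun y hy => ?_⟩
  obtain ⟨x, hx, hxy⟩ := (hh (R y)).1
  refine ⟨x, hx, ?_⟩
  have h1 : ⟪Te.toContinuousLinearEquiv (x - c), y⟫ = 1 := by
    rw [hT, inner_sub_left]
    have h3 := hgS (R y)
    rw [hR, hy] at h3
    have h4 : ⟪x, R y⟫ = h (R y) := hxy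
    rw [h4]; exact h3
  have h2 := hball x hx
  have h3 : ‖Te.toContinuousLinearEquiv (x - c) - y‖ ^ 2 ≤ 0 := by
    rw [norm_sub_sq_real, h1, hy]
    have : ‖Te.toContinuousLinearEquiv (x - c)‖ ^ 2 ≤ 1 := pow_le_one₀ (norm_nonneg _) h2
    linarith
  have h4 : ‖Te.toContinuousLinearEquiv (x - c) - y‖ = 0 := by
    have := sq_nonneg ‖Te.toContinuousLinearEquiv (x - c) - y‖
    exact pow_eq_zero_iff two_ne_zero |>.mp (le_antisymm h3 this)
  exact sub_eq_zero.mp (norm_eq_zero.mp h4)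

end AS.J4140

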