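import Mathlib

set_option autoImplicit false
open Set Metric MeasureTheory Polynomial
open scoped ContDiff RealInnerProductSpace ENNReal

namespace AS.J4610

/-- TARGET 1: basic properties of the support function -/
theorem support_basic {n : ℕ} (K : Set (EuclideanSpace ℝ (Fin n))) (hK : IsCompact K)
    (hreg : closure (interior K) = K) (hKi : (interior K).Nonempty) :
    ∃ h : EuclideanSpace ℝ (Fin n) → ℝ,
      (∀ ξ, IsGreatest ((fun x => ⟪x, ξ⟫) '' K) (h ξ)) ∧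
      (∀ ξ, sSup ((fun x : EuclideanSpace ℝ (Fin n) => ⟪x, ξ⟫) '' interior K) = h ξ) ∧
      (∀ ξ, sInf ((fun x : EuclideanSpace ℝ (Fin n) => ⟪x, ξ⟫) '' interior K) = -h (-ξ)) ∧
      Continuous h ∧
      (∀ (r : ℝ) ξ, h (r • ξ) - h (-(r • ξ)) = r * (h ξ - h (-ξ))) ∧
      (∀ (r : ℝ) ξ, h (r • ξ) * h (-(r • ξ)) = r ^ 2 * (h ξ * h (-ξ))) := by
  have hKne : K.Nonempty := hKi.mono interior_subset
  have hatt : ∀ ξ : EuclideanSpace ℝ (Fin n), ∃ z ∈ K, ∀ x ∈ K, ⟪x, ξ⟫ ≤ ⟪z, ξ⟫ := by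
    intro ξ
    obtain ⟨z, hz, hm⟩ := hK.exists_isMaxOn hKne
      (f := fun x : EuclideanSpace ℝ (Fin n) => ⟪x, ξ⟫) (by fun_prop)
    exact ⟨z, hz, fun x hx => hm hx⟩
  choose z hzK hz using hatt
  have hgr : ∀ ξ, IsGreatest ((fun x : EuclideanSpace ℝ (Fin n) => ⟪x, ξ⟫) '' K) ⟪z ξ, ξ⟫ := by
    intro ξ
    refine ⟨⟨z ξ, hzK ξ, rfl⟩, ?_⟩
    rintro _ ⟨x, hx, rfl⟩
    exact hz ξ x hx
  have hsup : ∀ ξ : EuclideanSpace ℝ (Fin n),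
      sSup ((fun x : EuclideanSpace ℝ (Fin n) => ⟪x, ξ⟫) '' interior K) = ⟪z ξ, ξ⟫ := by
    intro ξ
    have hub : ∀ y ∈ (fun x : EuclideanSpace ℝ (Fin n) => ⟪x, ξ⟫) '' interior K,
        y ≤ ⟪z ξ, ξ⟫ := by
      rintro _ ⟨x, hx, rfl⟩
      exact hz ξ x (interior_subset hx)
    refine le_antisymm (csSup_le (hKi.image _) hub) ?_
    have hcl : IsClosed {x : EuclideanSpace ℝ (Fin n) |
        ⟪x, ξ⟫ ≤ sSup ((fun x : EuclideanSpace ℝ (Fin n) => ⟪x, ξ⟫) '' interior K)} :=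
      isClosed_le (by fun_prop) continuous_const
    have hsub : closure (interior K) ⊆ {x : EuclideanSpace ℝ (Fin n) |
        ⟪x, ξ⟫ ≤ sSup ((fun x : EuclideanSpace ℝ (Fin n) => ⟪x, ξ⟫) '' interior K)} :=
      closure_minimal (fun x hx => le_csSup ⟨_, hub⟩ ⟨x, hx, rfl⟩) hcl
    rw [hreg] at hsub
    exact hsub (hzK ξ)
  have hhom : ∀ (r : ℝ), 0 ≤ r → ∀ ξ, ⟪z (r • ξ), r • ξ⟫ = r * ⟪z ξ, ξ⟫ := by
    intro r hr ξ
    apply le_antisymm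
    · rw [real_inner_smul_right]
      exact mul_le_mul_of_nonneg_left (hz ξ _ (hzK _)) hr
    · have := hz (r • ξ) (z ξ) (hzK ξ)
      rwa [real_inner_smul_right] at this
  refine ⟨fun ξ => ⟪z ξ, ξ⟫, hgr, hsup, ?_, ?_, ?_, ?_⟩
  · intro ξ
    show _ = -⟪z (-ξ), -ξ⟫
    rw [Real.sInf_def, ← hsup (-ξ)]
    congr 2
    ext y
    simp only [Set.mem_neg, Set.mem_image, inner_neg_right]
    constructor
    · rintro ⟨x, hx, he⟩; exact ⟨x, hx, by linarith⟩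
    · rintro ⟨x, hx, he⟩; exact ⟨x, hx, by linarith⟩
  · obtain ⟨M, hM0, hM⟩ : ∃ M : NNReal, True ∧ ∀ x ∈ K, ‖x‖ ≤ M := by
      obtain ⟨M, hM⟩ := hK.isBounded.exists_norm_le
      exact ⟨⟨max M 0, le_max_right _ _⟩, trivial, fun x hx => (hM x hx).trans (le_max_left _ _)⟩
    refine (LipschitzWith.of_le_add_mul M ?_).continuous
    intro ξ η
    have h1 : ⟪z ξ, ξ⟫ = ⟪z ξ, η⟫ + ⟪z ξ, ξ - η⟫ := by rw [inner_sub_right]; ring
    have h2 := hz η (z ξ) (hzK ξ)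
    have h3 : ⟪z ξ, ξ - η⟫ ≤ M * dist ξ η := by
      rw [dist_eq_norm]
      exact (real_inner_le_norm _ _).trans
        (mul_le_mul_of_nonneg_right (hM _ (hzK ξ)) (norm_nonneg _))
    show ⟪z ξ, ξ⟫ ≤ ⟪z η, η⟫ + M * dist ξ η
    linarith
  · intro r ξ
    show ⟪z (r • ξ), r • ξ⟫ - ⟪z (-(r • ξ)), -(r • ξ)⟫ = r * (⟪z ξ, ξ⟫ - ⟪z (-ξ), -ξ⟫)
    rcases le_total 0 r with hr | hr
    · have h1 := hhom r hr ξ
      have h2 := hhom r hr (-ξ)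
      rw [smul_neg] at h2
      rw [h1, h2]; ring
    · have h1 := hhom (-r) (by linarith) ξ
      have h2 := hhom (-r) (by linarith) (-ξ)
      rw [neg_smul, smul_neg, neg_neg] at h2
      rw [neg_smul] at h1
      rw [h1, h2]; ring
  · intro r ξ
    show ⟪z (r • ξ), r • ξ⟫ * ⟪z (-(r • ξ)), -(r • ξ)⟫ = r ^ 2 * (⟪z ξ, ξ⟫ * ⟪z (-ξ), -ξ⟫)
    rcases le_total 0 r with hr | hr
    · have h1 := hhom r hr ξ
      have h2 := hhom r hr (-ξ)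
      rw [smul_neg] at h2
      rw [h1, h2]; ring
    · have h1 := hhom (-r) (by linarith) ξ
      have h2 := hhom (-r) (by linarith) (-ξ)
      rw [neg_smul, smul_neg, neg_neg] at h2
      rw [neg_smul] at h1
      rw [h1, h2]; ring

/-- TARGET 2: directions near a given one -/
theorem near_direction {n : ℕ} (K : Set (EuclideanSpace ℝ (Fin n)))
    (x₀ : EuclideanSpace ℝ (Fin n)) (hne : x₀ ≠ 0) (η κ : ℝ) (hη : 0 < η) (hκ : 0 < κ)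
    (h : ∀ ξ : EuclideanSpace ℝ (Fin n), ‖ξ‖ = 1 → ‖ξ - (‖x₀‖⁻¹ : ℝ) • x₀‖ < η →
      ∃ z ∈ K, ∀ x ∈ K, ⟪x, ξ⟫ ≤ ⟪z, ξ⟫ - κ * ‖x - z‖ ^ 2) :
    ∃ η' > 0, ∀ ξ₀ ∈ ball x₀ η', ∀ ξ₁ : EuclideanSpace ℝ (Fin n), ∃ δ > 0, ∀ s : ℝ, |s| < δ →
      ∃ z ∈ K, ∃ κ' > 0, ∀ x ∈ K,
        ⟪x, ξ₀ + s • ξ₁⟫ ≤ ⟪z, ξ₀ + s • ξ₁⟫ - κ' * ‖x - z‖ ^ 2 := by
  have hn0 : (0:ℝ) < ‖x₀‖ := norm_pos_iff.2 hne
  -- continuity of the direction map
  have hcont : ContinuousAt (fun ξ : EuclideanSpace ℝ (Fin n) => (‖ξ‖⁻¹ : ℝ) • ξ) x₀ := by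
    exact ((continuous_norm.continuousAt (x := x₀)).inv₀ hn0.ne').smul continuousAt_id
  obtain ⟨r, hr0, hr⟩ := Metric.continuousAt_iff.1 hcont η hη
  refine ⟨min r ‖x₀‖, lt_min hr0 hn0, ?_⟩
  intro ξ₀ hξ₀ ξ₁
  have hc2 : Continuous (fun s : ℝ => ξ₀ + s • ξ₁) := by fun_prop
  have hopen : IsOpen ((fun s : ℝ => ξ₀ + s • ξ₁) ⁻¹' ball x₀ (min r ‖x₀‖)) :=
    isOpen_ball.preimage hc2
  obtain ⟨δ, hδ0, hδ⟩ := Metric.isOpen_iff.1 hopen 0 (by simpa using hξ₀)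
  refine ⟨δ, hδ0, fun s hs => ?_⟩
  have hmem : ξ₀ + s • ξ₁ ∈ ball x₀ (min r ‖x₀‖) := hδ (by simpa [Real.norm_eq_abs] using hs)
  set ξ := ξ₀ + s • ξ₁ with hξ
  rw [mem_ball] at hmem
  have h1 : dist ξ x₀ < r := hmem.trans_le (min_le_left _ _)
  have h2 : dist ξ x₀ < ‖x₀‖ := hmem.trans_le (min_le_right _ _)
  have hξ0 : ξ ≠ 0 := by
    intro h0
    rw [h0, dist_zero_left] at h2
    exact lt_irrefl _ h2
  have hξn : (0:ℝ) < ‖ξ‖ := norm_pos_iff.2 hξ0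
  have h3 := hr h1
  rw [dist_eq_norm] at h3
  obtain ⟨z, hzK, hz⟩ := h ((‖ξ‖⁻¹ : ℝ) • ξ)
    (by rw [norm_smul, norm_inv, norm_norm, inv_mul_cancel₀ hξn.ne']) h3
  refine ⟨z, hzK, ‖ξ‖ * κ, mul_pos hξn hκ, fun x hx => ?_⟩
  have h4 := hz x hx
  rw [real_inner_smul_right, real_inner_smul_right] at h4
  have h5 := mul_le_mul_of_nonneg_left h4 hξn.le
  have e1 : ‖ξ‖ * (‖ξ‖⁻¹ * ⟪x, ξ⟫) = ⟪x, ξ⟫ := by
    rw [← mul_assoc, mul_inv_cancel₀ hξn.ne', one_mul]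
  have e2 : ‖ξ‖ * (‖ξ‖⁻¹ * ⟪z, ξ⟫ - κ * ‖x - z‖ ^ 2) = ⟪z, ξ⟫ - ‖ξ‖ * κ * ‖x - z‖ ^ 2 := by
    rw [mul_sub, ← mul_assoc, mul_inv_cancel₀ hξn.ne', one_mul]; ring
  rw [e1, e2] at h5
  exact h5

/-- TARGET 3: the farthest point -/
theorem farthest {n : ℕ} (hn : 2 ≤ n) (K : Set (EuclideanSpace ℝ (Fin n))) (hK : IsCompact K)
    (hKi : (interior K).Nonempty) :
    ∃ x₀ ∈ frontier K, x₀ ≠ 0 ∧ ∀ x ∈ K, ‖x‖ ≤ ‖x₀‖ := by
  obtain ⟨x₀, hx₀, hmax⟩ := hK.exists_isMaxOn (hKi.mono interior_subset)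
    (f := fun x : EuclideanSpace ℝ (Fin n) => ‖x‖) (by fun_prop)
  have hm : ∀ x ∈ K, ‖x‖ ≤ ‖x₀‖ := fun x hx => hmax hx
  have : Nonempty (Fin n) := ⟨⟨0, by omega⟩⟩
  have : Nontrivial (EuclideanSpace ℝ (Fin n)) := inferInstance
  -- outward push
  have hpush : ∀ y ∈ interior K, ∀ v : EuclideanSpace ℝ (Fin n), ∃ t : ℝ, 0 < t ∧ y + t • v ∈ K := by
    intro y hy v
    have hc2 : Continuous (fun s : ℝ => y + s • v) := by fun_prop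
    have hopen : IsOpen ((fun s : ℝ => y + s • v) ⁻¹' interior K) :=
      isOpen_interior.preimage hc2
    obtain ⟨δ, hδ0, hδ⟩ := Metric.isOpen_iff.1 hopen 0 (by simpa using hy)
    refine ⟨δ / 2, by linarith, interior_subset (hδ ?_)⟩
    rw [mem_ball, dist_zero_right, Real.norm_eq_abs, abs_of_pos (by linarith)]
    linarith
  have hne : x₀ ≠ 0 := by
    rintro rfl
    obtain ⟨y, hy⟩ := hKi
    obtain ⟨v, hv⟩ := exists_ne (0 : EuclideanSpace ℝ (Fin n))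
    have hy0 : y = 0 := by
      have := hm y (interior_subset hy)
      rw [norm_zero] at this
      exact norm_le_zero_iff.1 this
    obtain ⟨t, ht, htK⟩ := hpush y hy v
    have h1 := hm _ htK
    rw [norm_zero, hy0, zero_add] at h1
    have h2 := norm_le_zero_iff.1 h1
    rcases smul_eq_zero.1 h2 with h | h
    · exact ht.ne' h
    · exact hv h
  refine ⟨x₀, ?_, hne, hm⟩
  rw [frontier, hK.isClosed.closure_eq]
  refine ⟨hx₀, fun hint => ?_⟩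
  obtain ⟨t, ht, htK⟩ := hpush x₀ hint x₀
  have h1 := hm _ htK
  have e : x₀ + t • x₀ = (1 + t) • x₀ := by rw [add_smul, one_smul]
  rw [e, norm_smul, Real.norm_eq_abs, abs_of_pos (by linarith)] at h1
  have hpos : (0:ℝ) < ‖x₀‖ := norm_pos_iff.2 hne
  nlinarith

/-- TARGET 4: the frontier of a solid ellipsoid -/
theorem frontier_ellipsoid {n : ℕ} (hn : 2 ≤ n) (K : Set (EuclideanSpace ℝ (Fin n)))
    (c : EuclideanSpace ℝ (Fin n))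
    (T : EuclideanSpace ℝ (Fin n) ≃L[ℝ] EuclideanSpace ℝ (Fin n))
    (h : (fun x => T (x - c)) '' K = closedBall 0 1) :
    K = {x | ‖T (x - c)‖ ≤ 1} ∧ frontier K = {x | ‖T (x - c)‖ = 1} := by
  have : Nonempty (Fin n) := ⟨⟨0, by omega⟩⟩
  have : Nontrivial (EuclideanSpace ℝ (Fin n)) := inferInstance
  have hinj : Function.Injective (fun x : EuclideanSpace ℝ (Fin n) => T (x - c)) := by
    intro x y hxy
    have := T.injective hxy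
    exact sub_left_injective this
  have hKeq : K = (fun x : EuclideanSpace ℝ (Fin n) => T (x - c)) ⁻¹' closedBall 0 1 := by
    rw [← h, hinj.preimage_image]
  let Φ : EuclideanSpace ℝ (Fin n) ≃ₜ EuclideanSpace ℝ (Fin n) :=
    (Homeomorph.subRight c).trans T.toHomeomorph
  have hΦ : (fun x : EuclideanSpace ℝ (Fin n) => T (x - c)) = Φ := rfl
  constructor
  · rw [hKeq]; ext x; simp
  · rw [hKeq, hΦ, ← Φ.preimage_frontier, frontier_closedBall (0 : EuclideanSpace ℝ (Fin n))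
      (one_ne_zero), ← hΦ]
    ext x; simp

end AS.J4610

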