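import Mathlib

set_option autoImplicit false
open Polynomial Set Metric

namespace AS.J3642

theorem lr_clear (R : ℂ[X][X]) (hR : R ≠ 0) :
    ∃ (Q U V A B : ℂ[X][X]) (e1 e2 e3 : ℂ[X]) (N : ℕ), Q ≠ 0 ∧ e1 ≠ 0 ∧ e2 ≠ 0 ∧ e3 ≠ 0 ∧
      C e1 * R = Q * U ∧ C e2 * Q ^ N = R * V ∧ A * Q + B * derivative Q = C e3 := by
  classical
  have hφ : Function.Injective (algebraMap ℂ[X] (FractionRing ℂ[X])) :=
    IsFractionRing.injective _ _
  generalize hφdef : algebraMap ℂ[X] (FractionRing ℂ[X]) = φ at hφ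
  have hmap : Function.Injective (Polynomial.map φ) := Polynomial.map_injective φ hφ
  obtain ⟨Rk, hRkdef⟩ : ∃ Rk, Rk = R.map φ := ⟨_, rfl⟩
  have hRk : Rk ≠ 0 := by
    rw [hRkdef]
    exact (Polynomial.map_ne_zero_iff hφ).2 hR
  obtain ⟨Qk, hQkdef⟩ : ∃ Qk, Qk = UniqueFactorizationMonoid.radical Rk := ⟨_, rfl⟩
  have hQk : Qk ≠ 0 := by
    rw [hQkdef]
    exact UniqueFactorizationMonoid.radical_ne_zero
  have hsep : Qk.Separable := by
    rw [PerfectField.separable_iff_squarefree, hQkdef]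
    exact UniqueFactorizationMonoid.squarefree_radical
  obtain ⟨a, b, hab⟩ := hsep
  obtain ⟨Uk, hUk⟩ : Qk ∣ Rk := by
    rw [hQkdef]
    exact UniqueFactorizationMonoid.radical_dvd_self
  obtain ⟨N, Vk, hVk⟩ : ∃ n, Rk ∣ Qk ^ n := by
    rw [hQkdef]
    exact UniqueFactorizationMonoid.exists_dvd_radical_self_pow hRk
  have norm : ∀ p : (FractionRing ℂ[X])[X], ∃ (d : ℂ[X]) (q : ℂ[X][X]), d ≠ 0 ∧
      q.map φ = C (φ d) * p := by
    intro p
    obtain ⟨d, hd, h⟩ := IsLocalization.integerNormalization_spec (nonZeroDivisors ℂ[X]) p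
    refine ⟨d, IsLocalization.integerNormalization (nonZeroDivisors ℂ[X]) p,
      nonZeroDivisors.ne_zero hd, ?_⟩
    rw [← hφdef, h, ← smul_eq_C_mul, algebraMap_smul]
  obtain ⟨d0, Q, hd0, hQ⟩ := norm Qk
  obtain ⟨dU, U, hdU, hU⟩ := norm Uk
  obtain ⟨dV, V, hdV, hV⟩ := norm Vk
  obtain ⟨dA, A, hdA, hA⟩ := norm a
  obtain ⟨dB, B, hdB, hB⟩ := norm b
  refine ⟨Q, U, C (d0 ^ N) * V, C dB * A, C dA * B, d0 * dU, dV, dA * dB * d0, N, ?_,
    mul_ne_zero hd0 hdU, hdV, mul_ne_zero (mul_ne_zero hdA hdB) hd0, ?_, ?_, ?_⟩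
  · intro h0
    rw [h0, Polynomial.map_zero] at hQ
    have h1 : φ d0 ≠ 0 := by
      intro h
      exact hd0 (hφ (h.trans (map_zero φ).symm))
    exact mul_ne_zero (C_ne_zero.2 h1) hQk hQ.symm
  · apply hmap
    simp only [Polynomial.map_mul, Polynomial.map_C, map_mul]
    rw [← hRkdef, hQ, hU, hUk]
    ring
  · apply hmap
    simp only [Polynomial.map_mul, Polynomial.map_C, Polynomial.map_pow, map_mul, map_pow]
    rw [← hRkdef, hQ, hV, mul_pow, hVk]
    ring
  · apply hmap
    simp only [Polynomial.map_mul, Polynomial.map_C, Polynomial.map_add, map_mul,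
      ← Polynomial.derivative_map]
    rw [hQ, hA, hB, derivative_C_mul]
    linear_combination (C (φ dA) * C (φ dB) * C (φ d0)) * hab

theorem lr_implicit (Q : ℂ[X][X]) (s₀ τ : ℂ) (h0 : Q.evalEval s₀ τ = 0)
    (h1 : (derivative (Q.map (evalRingHom s₀))).eval τ ≠ 0) :
    ∃ t : ℂ → ℂ, t s₀ = τ ∧ (∀ᶠ s in nhds s₀, DifferentiableAt ℂ t s) ∧
      ∀ᶠ s in nhds s₀, Q.evalEval s (t s) = 0 := by
  let f : ℂ × ℂ → ℂ := fun v => Q.evalEval v.1 v.2
  have hf : f = fun v => ∑ i ∈ Finset.range (Q.natDegree + 1), (Q.coeff i).eval v.1 * v.2 ^ i := by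
    funext v
    show Q.evalEval v.1 v.2 = _
    rw [← map_evalRingHom_eval, eval_map, eval₂_eq_sum_range]
    rfl
  have hcd : ContDiff ℂ 1 f := by
    rw [hf]
    apply ContDiff.sum
    intro i _
    apply ContDiff.mul
    · have h := (Polynomial.contDiff_aeval (𝕜 := ℂ) (R := ℂ) (Q.coeff i) 1).comp
        (contDiff_fst (𝕜 := ℂ) (E := ℂ) (F := ℂ) (n := 1))
      simpa [Function.comp_def] using h
    · exact contDiff_snd.pow i
  have cdf : ContDiffAt ℂ 1 f (s₀, τ) := hcd.contDiffAt
  have hL : fderiv ℂ f (s₀, τ) (0, 1) = (derivative (Q.map (evalRingHom s₀))).eval τ := by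
    have hd : HasFDerivAt f (fderiv ℂ f (s₀, τ)) (s₀, τ) :=
      (cdf.differentiableAt (by norm_num)).hasFDerivAt
    have hg : HasDerivAt (fun z : ℂ => (s₀, z)) ((0 : ℂ), (1 : ℂ)) τ :=
      (hasDerivAt_const τ s₀).prodMk (hasDerivAt_id τ)
    have h2 := hd.comp_hasDerivAt τ hg
    have h3 : HasDerivAt (fun z => (Q.map (evalRingHom s₀)).eval z)
        ((derivative (Q.map (evalRingHom s₀))).eval τ) τ := Polynomial.hasDerivAt _ _
    have h4 : (f ∘ fun z : ℂ => (s₀, z)) = fun z => (Q.map (evalRingHom s₀)).eval z := by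
      funext z
      exact (map_evalRingHom_eval s₀ z Q).symm
    rw [h4] at h2
    exact h2.unique h3
  have hinv : (fderiv ℂ f (s₀, τ) ∘L .inr ℂ ℂ ℂ).IsInvertible := by
    refine ⟨ContinuousLinearEquiv.unitsEquivAut ℂ (Units.mk0 _ h1), ?_⟩
    ext
    simp only [ContinuousLinearEquiv.coe_coe, ContinuousLinearEquiv.unitsEquivAut_apply,
      Units.val_mk0, one_mul, ContinuousLinearMap.comp_apply, ContinuousLinearMap.inr_apply]
    exact hL.symm
  refine ⟨cdf.implicitFunction one_ne_zero hinv, ?_, ?_, ?_⟩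
  · exact cdf.implicitFunction_apply_self one_ne_zero hinv
  · have h := cdf.contDiffAt_implicitFunction one_ne_zero hinv
    have h' := h.eventually (by norm_num)
    filter_upwards [h'] with s hs
    exact hs.differentiableAt (by norm_num)
  · have h := cdf.eventually_apply_implicitFunction one_ne_zero hinv
    filter_upwards [h] with s hs
    have h0' : f (s₀, τ) = 0 := h0
    rw [h0'] at hs
    exact hs

/-- TARGET -/
theorem local_roots (R : ℂ[X][X]) (hR : R ≠ 0) :
    ∃ S : Set ℂ, S.Finite ∧ ∀ s₀ ∉ S, ∃ r > 0, ∃ (n : ℕ) (t : Fin n → ℂ → ℂ),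
      (∀ i, DifferentiableOn ℂ (t i) (ball s₀ r)) ∧
      (∀ s ∈ ball s₀ r, Function.Injective (fun i => t i s)) ∧
      (∀ s ∈ ball s₀ r, R.map (evalRingHom s) ≠ 0 ∧
        ∀ z, R.evalEval s z = 0 ↔ ∃ i, z = t i s) := by
  classical
  obtain ⟨Q, U, V, A, B, e1, e2, e3, N, hQ, he1, he2, he3, i1, i2, i3⟩ := lr_clear R hR
  obtain ⟨D, hDdef⟩ : ∃ D : ℂ[X], D = e1 * e2 * e3 * Q.leadingCoeff * R.leadingCoeff := ⟨_, rfl⟩
  have hD : D ≠ 0 := by
    rw [hDdef]
    exact mul_ne_zero (mul_ne_zero (mul_ne_zero (mul_ne_zero he1 he2) he3)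
      (leadingCoeff_ne_zero.2 hQ)) (leadingCoeff_ne_zero.2 hR)
  have fact : ∀ s, D.eval s ≠ 0 → R.map (evalRingHom s) ≠ 0 ∧
      (∀ z, R.evalEval s z = 0 ↔ Q.evalEval s z = 0) ∧
      (Q.map (evalRingHom s)).natDegree = Q.natDegree ∧ (Q.map (evalRingHom s)).Separable := by
    intro s hs
    rw [hDdef, eval_mul, eval_mul, eval_mul, eval_mul] at hs
    have hR' : (R.leadingCoeff).eval s ≠ 0 := right_ne_zero_of_mul hs
    have hs2 := left_ne_zero_of_mul hs
    have hQ' : (Q.leadingCoeff).eval s ≠ 0 := right_ne_zero_of_mul hs2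
    have hs3 := left_ne_zero_of_mul hs2
    have h3 : e3.eval s ≠ 0 := right_ne_zero_of_mul hs3
    have hs4 := left_ne_zero_of_mul hs3
    have h2 : e2.eval s ≠ 0 := right_ne_zero_of_mul hs4
    have h1 : e1.eval s ≠ 0 := left_ne_zero_of_mul hs4
    refine ⟨?_, ?_, ?_, ?_⟩
    · intro h0
      have := congrArg (fun p => p.coeff R.natDegree) h0
      simp only [coeff_map, coeff_zero] at this
      exact hR' this
    · intro z
      have j1 := congrArg (evalEval s z) i1
      have j2 := congrArg (evalEval s z) i2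
      rw [evalEval_mul, evalEval_mul, evalEval_C] at j1
      rw [evalEval_mul, evalEval_mul, evalEval_pow, evalEval_C] at j2
      constructor
      · intro h
        rw [h, zero_mul] at j2
        exact eq_zero_of_pow_eq_zero ((mul_eq_zero.1 j2).resolve_left h2)
      · intro h
        rw [h, zero_mul] at j1
        exact (mul_eq_zero.1 j1).resolve_left h1
    · exact natDegree_map_of_leadingCoeff_ne_zero _ hQ'
    · rw [separable_def']
      refine ⟨C (e3.eval s)⁻¹ * A.map (evalRingHom s), C (e3.eval s)⁻¹ * B.map (evalRingHom s), ?_⟩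
      have j3 := congrArg (Polynomial.map (evalRingHom s)) i3
      rw [Polynomial.map_add, Polynomial.map_mul, Polynomial.map_mul, Polynomial.map_C,
        ← Polynomial.derivative_map, coe_evalRingHom] at j3
      have e : C (e3.eval s)⁻¹ * C (e3.eval s) = (1 : ℂ[X]) := by
        rw [← C_mul, inv_mul_cancel₀ h3, C_1]
      linear_combination (C (e3.eval s)⁻¹) * j3 + e
  refine ⟨{s | D.eval s = 0}, ?_, ?_⟩
  · have : {s | D.eval s = 0} = (D.roots.toFinset : Set ℂ) := by
      ext s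
      simp [hD]
    rw [this]
    exact Finset.finite_toSet _
  intro s₀ hs₀
  have hs₀' : D.eval s₀ ≠ 0 := hs₀
  obtain ⟨_, _, hdeg0, hsep0⟩ := fact s₀ hs₀'
  have hq0 : Q.map (evalRingHom s₀) ≠ 0 := hsep0.ne_zero
  have hcard : (Q.map (evalRingHom s₀)).roots.toFinset.card = Q.natDegree := by
    rw [Multiset.toFinset_card_of_nodup (nodup_roots hsep0), ← hdeg0]
    exact splits_iff_card_roots.1 (IsAlgClosed.splits _)
  let e := (Q.map (evalRingHom s₀)).roots.toFinset.equivFinOfCardEq hcard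
  have hroot : ∀ i : Fin Q.natDegree, (Q.map (evalRingHom s₀)).eval ((e.symm i : ℂ)) = 0 := by
    intro i
    have h := (e.symm i).2
    rw [Multiset.mem_toFinset, mem_roots hq0] at h
    exact h
  have hinj : ∀ i j : Fin Q.natDegree, i ≠ j → ((e.symm i : ℂ)) ≠ (e.symm j : ℂ) := by
    intro i j hij h
    exact hij (e.symm.injective (Subtype.ext h))
  have hder : ∀ i : Fin Q.natDegree,
      (derivative (Q.map (evalRingHom s₀))).eval ((e.symm i : ℂ)) ≠ 0 := by
    intro i h
    obtain ⟨a, b, hab⟩ := separable_def' _ |>.1 hsep0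
    have := congrArg (eval ((e.symm i : ℂ))) hab
    rw [eval_add, eval_mul, eval_mul, hroot i, h, mul_zero, mul_zero, add_zero, eval_one] at this
    exact zero_ne_one this
  have himp : ∀ i : Fin Q.natDegree, ∃ t : ℂ → ℂ, t s₀ = (e.symm i : ℂ) ∧
      (∀ᶠ s in nhds s₀, DifferentiableAt ℂ t s) ∧
      ∀ᶠ s in nhds s₀, Q.evalEval s (t s) = 0 := by
    intro i
    apply lr_implicit Q s₀ _ _ (hder i)
    rw [← map_evalRingHom_eval]
    exact hroot i
  choose t ht0 htd htz using himp
  have E1 : ∀ᶠ s in nhds s₀, ∀ i, DifferentiableAt ℂ (t i) s := Filter.eventually_all.2 htd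
  have E2 : ∀ᶠ s in nhds s₀, ∀ i, Q.evalEval s (t i s) = 0 := Filter.eventually_all.2 htz
  have E3 : ∀ᶠ s in nhds s₀, ∀ i j, i ≠ j → t i s ≠ t j s := by
    rw [Filter.eventually_all]
    intro i
    rw [Filter.eventually_all]
    intro j
    by_cases hij : i = j
    · exact Filter.Eventually.of_forall (fun s h => absurd hij h)
    · have hci : ContinuousAt (t i) s₀ := (htd i).self_of_nhds.continuousAt
      have hcj : ContinuousAt (t j) s₀ := (htd j).self_of_nhds.continuousAt
      have hne : (fun s => t i s - t j s) s₀ ≠ 0 := by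
        show t i s₀ - t j s₀ ≠ 0
        rw [ht0, ht0]
        exact sub_ne_zero.2 (hinj i j hij)
      have := (hci.sub hcj).eventually_ne hne
      filter_upwards [this] with s hs _ h
      exact hs (sub_eq_zero.2 h)
  have E4 : ∀ᶠ s in nhds s₀, D.eval s ≠ 0 := D.continuous.continuousAt.eventually_ne hs₀'
  obtain ⟨r, hr, hball⟩ := Metric.eventually_nhds_iff_ball.1 (E1.and (E2.and (E3.and E4)))
  refine ⟨r, hr, Q.natDegree, t, ?_, ?_, ?_⟩
  · intro i s hs
    exact ((hball s hs).1 i).differentiableWithinAt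
  · intro s hs i j h
    by_contra hij
    exact (hball s hs).2.2.1 i j hij h
  · intro s hs
    obtain ⟨_, hz, hne, hDs⟩ := hball s hs
    obtain ⟨g1, g2, g3, g4⟩ := fact s hDs
    refine ⟨g1, ?_⟩
    intro z
    rw [g2]
    constructor
    · intro h
      have hq : Q.map (evalRingHom s) ≠ 0 := g4.ne_zero
      have hsub : (Finset.univ.image (fun i => t i s)) ⊆
          (Q.map (evalRingHom s)).roots.toFinset := by
        intro w hw
        rw [Finset.mem_image] at hw
        obtain ⟨i, _, rfl⟩ := hw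
        rw [Multiset.mem_toFinset, mem_roots hq]
        show (Q.map (evalRingHom s)).eval (t i s) = 0
        rw [map_evalRingHom_eval]
        exact hz i
      have hc : (Q.map (evalRingHom s)).roots.toFinset.card ≤
          (Finset.univ.image (fun i => t i s)).card := by
        rw [Finset.card_image_of_injective _ (fun i j hij => by
          by_contra h'
          exact hne i j h' hij), Finset.card_univ, Fintype.card_fin, ← g3]
        exact (Multiset.toFinset_card_le _).trans (card_roots' _)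
      have heq := Finset.eq_of_subset_of_card_le hsub hc
      have hmem : z ∈ (Q.map (evalRingHom s)).roots.toFinset := by
        rw [Multiset.mem_toFinset, mem_roots hq]
        show (Q.map (evalRingHom s)).eval z = 0
        rw [map_evalRingHom_eval]
        exact h
      rw [← heq, Finset.mem_image] at hmem
      obtain ⟨i, _, hi⟩ := hmem
      exact ⟨i, hi.symm⟩
    · rintro ⟨i, rfl⟩
      exact hz i

end AS.J3642
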