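import Mathlib

set_option autoImplicit false
open Polynomial Set Metric

namespace AS.J3643

theorem ge_coeff {ι : Type} (F : Finset ι) (t : ι → ℂ → ℂ) (B : Set ℂ)
    (ht : ∀ i, DifferentiableOn ℂ (t i) B) (j : ℕ) :
    DifferentiableOn ℂ (fun s => (∏ i ∈ F, (X - C (t i s)) : ℂ[X]).coeff j) B := by
  classical
  induction F using Finset.induction_on generalizing j with
  | empty =>
    simp only [Finset.prod_empty]
    exact differentiableOn_const _
  | insert a F ha ih =>
    have h : (fun s => (∏ i ∈ insert a F, (X - C (t i s)) : ℂ[X]).coeff j) =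
        fun s => ∑ p ∈ Finset.HasAntidiagonal.antidiagonal j, (X - C (t a s) : ℂ[X]).coeff p.1 *
          (∏ i ∈ F, (X - C (t i s)) : ℂ[X]).coeff p.2 := by
      funext s
      rw [Finset.prod_insert ha, coeff_mul]
    rw [h]
    refine DifferentiableOn.fun_sum (fun p _ => DifferentiableOn.mul ?_ (ih p.2))
    simp only [coeff_sub, coeff_C]
    by_cases h0 : p.1 = 0
    · simp only [h0, if_true]
      exact (differentiableOn_const _).sub (ht a)
    · simp only [h0, if_false]
      exact (differentiableOn_const _).sub (differentiableOn_const _)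

/-- removable singularities for a finite set -/
theorem ge_removable (S : Set ℂ) (hS : S.Finite) (f : ℂ → ℂ) (hf : DifferentiableOn ℂ f Sᶜ)
    (hb : ∀ R : ℝ, ∃ K : ℝ, ∀ s ∉ S, ‖s‖ ≤ R → ‖f s‖ ≤ K) :
    ∃ F : ℂ → ℂ, Differentiable ℂ F ∧ ∀ s ∉ S, F s = f s := by
  classical
  have hU : IsOpen Sᶜ := hS.isClosed.isOpen_compl
  refine ⟨fun s => if s ∈ S then (nhdsWithin s {s}ᶜ).limUnder f else f s, ?_, ?_⟩
  · intro s₀
    by_cases hs : s₀ ∈ S
    · -- a ball meeting `S` only in `s₀`
      have h1 : IsOpen (S \ {s₀})ᶜ := (hS.subset sdiff_subset).isClosed.isOpen_compl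
      obtain ⟨r, hr, hball⟩ := Metric.isOpen_iff.1 h1 s₀ (by simp)
      have hball' : ∀ s ∈ ball s₀ r, s ≠ s₀ → s ∉ S := by
        intro s hs1 hs2 hs3
        exact hball hs1 ⟨hs3, hs2⟩
      obtain ⟨K, hK⟩ := hb (‖s₀‖ + r)
      have h2 := Complex.differentiableOn_update_limUnder_of_bddAbove (f := f) (s := ball s₀ r)
        (c := s₀) (ball_mem_nhds s₀ hr) (hf.mono (by
          intro s hs1
          exact hball' s hs1.1 hs1.2)) ⟨K, by
          rintro _ ⟨s, hs1, rfl⟩
          refine hK s (hball' s hs1.1 hs1.2) ?_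
          have h3 : ‖s - s₀‖ < r := by rw [← dist_eq_norm]; exact hs1.1
          calc ‖s‖ = ‖s₀ + (s - s₀)‖ := by rw [add_sub_cancel]
            _ ≤ ‖s₀‖ + ‖s - s₀‖ := norm_add_le _ _
            _ ≤ ‖s₀‖ + r := by linarith⟩
      have h3 := h2.differentiableAt (ball_mem_nhds s₀ hr)
      refine h3.congr_of_eventuallyEq ?_
      filter_upwards [ball_mem_nhds s₀ hr] with s hs1
      by_cases hs2 : s = s₀
      · subst hs2
        simp [hs]
      · simp [hball' s hs1 hs2, Function.update_of_ne hs2]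
    · have h3 := hf.differentiableAt (hU.mem_nhds hs)
      refine h3.congr_of_eventuallyEq ?_
      filter_upwards [hU.mem_nhds hs] with s hs1
      rw [if_neg hs1]
  · intro s hs
    simp [hs]

/-- an entire function of polynomial growth is a polynomial -/
theorem ge_liouville (F : ℂ → ℂ) (hF : Differentiable ℂ F) (k : ℕ) (K R₀ : ℝ)
    (hb : ∀ s, R₀ ≤ ‖s‖ → ‖F s‖ ≤ K * (1 + ‖s‖) ^ k) :
    ∃ p : ℂ[X], p.natDegree ≤ k ∧ ∀ s, p.eval s = F s := by
  have hz : ∀ n, k < n → iteratedDeriv n F 0 = 0 := by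
    intro n hn
    have hbound : ∀ R : ℝ, max R₀ 1 ≤ R → ‖iteratedDeriv n F 0‖ ≤ n.factorial * (K * 2 ^ k) / R := by
      intro R hR
      have hR1 : 1 ≤ R := (le_max_right _ _).trans hR
      have hR0 : 0 < R := by linarith
      have hK : 0 ≤ K * (1 + R) ^ k := by
        have := hb (R : ℂ) (by
          rw [Complex.norm_real, Real.norm_of_nonneg hR0.le]
          exact (le_max_left _ _).trans hR)
        rw [Complex.norm_real, Real.norm_of_nonneg hR0.le] at this
        exact (norm_nonneg _).trans this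
      have hK0 : 0 ≤ K := by
        by_contra h
        push Not at h
        have : K * (1 + R) ^ k < 0 := mul_neg_of_neg_of_pos h (by positivity)
        linarith
      have h1 := Complex.norm_iteratedDeriv_le_of_forall_mem_sphere_norm_le (f := F) (c := 0)
        (R := R) (C := K * (1 + R) ^ k) n hR0 hF.diffContOnCl (by
          intro z hz
          have hz' : ‖z‖ = R := by simpa using hz
          rw [← hz']
          exact hb z (by rw [hz']; exact (le_max_left _ _).trans hR))
      refine h1.trans ?_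
      have h2 : (1 + R) ^ k ≤ (2 * R) ^ k := by
        apply pow_le_pow_left₀ (by linarith)
        linarith
      have h3 : R ^ (k + 1) ≤ R ^ n := pow_le_pow_right₀ hR1 hn
      calc (n.factorial : ℝ) * (K * (1 + R) ^ k) / R ^ n
          ≤ (n.factorial : ℝ) * (K * (2 * R) ^ k) / R ^ (k + 1) := by
            apply div_le_div₀
            · positivity
            · apply mul_le_mul_of_nonneg_left _ (by positivity)
              exact mul_le_mul_of_nonneg_left h2 hK0
            · positivity
            · exact h3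
        _ = n.factorial * (K * 2 ^ k) / R := by
            rw [mul_pow, pow_succ]
            field_simp
    have hlim : Filter.Tendsto (fun R : ℝ => (n.factorial : ℝ) * (K * 2 ^ k) / R) Filter.atTop
        (nhds 0) := tendsto_const_nhds.div_atTop Filter.tendsto_id
    have h0 : ‖iteratedDeriv n F 0‖ ≤ 0 := by
      refine ge_of_tendsto hlim ?_
      filter_upwards [Filter.eventually_ge_atTop (max R₀ 1)] with R hR using hbound R hR
    exact norm_le_zero_iff.1 h0
  refine ⟨∑ n ∈ Finset.range (k + 1), C ((n.factorial : ℂ)⁻¹ * iteratedDeriv n F 0) * X ^ n, ?_, ?_⟩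
  · refine natDegree_sum_le_of_forall_le _ _ ?_
    intro n hn
    refine (natDegree_C_mul_X_pow_le _ _).trans ?_
    have := Finset.mem_range.1 hn
    omega
  · intro s
    have h1 := Complex.taylorSeries_eq_of_entire' (c := 0) (z := s) hF
    rw [← h1, tsum_eq_sum (s := Finset.range (k + 1))]
    · rw [eval_finsetSum]
      refine Finset.sum_congr rfl fun n _ => ?_
      simp
    · intro n hn
      have : k < n := by
        by_contra h
        exact hn (Finset.mem_range.2 (by omega))
      rw [hz n this]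
      simp

/-- TARGET -/
theorem G_exists (S : Set ℂ) (hS : S.Finite) (O : ℂ → Set ℂ) (ρ : ℝ)
    (hloc : ∀ s₀ ∉ S, ∃ r > 0, ∃ (n : ℕ) (t : Fin n → ℂ → ℂ),
      (∀ i, DifferentiableOn ℂ (t i) (ball s₀ r)) ∧
      (∀ s ∈ ball s₀ r, Function.Injective fun i => t i s) ∧
      (∀ s ∈ ball s₀ r, O s = Set.range (fun i => t i s)))
    (hbd : ∀ s ∉ S, ∀ τ ∈ O s, ‖τ‖ ≤ ρ * (1 + ‖s‖)) :
    ∃ (g : ℕ) (G : ℂ[X][X]), G.Monic ∧ G.natDegree = g ∧
      (∀ k ≤ g, (G.coeff (g - k)).natDegree ≤ k) ∧
      ∀ s ∉ S, (G.map (evalRingHom s)).roots.Nodup ∧ ∀ z, G.evalEval s z = 0 ↔ z ∈ O s := by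
  classical
  have hU : IsOpen Sᶜ := hS.isClosed.isOpen_compl
  -- the finite sets
  have hfin : ∀ s ∉ S, (O s).Finite := by
    intro s hs
    obtain ⟨r, hr, n, t, h1, h2, h3⟩ := hloc s hs
    rw [h3 s (mem_ball_self hr)]
    exact Set.finite_range _
  let T : ℂ → Finset ℂ := fun s => if h : (O s).Finite then h.toFinset else ∅
  have hT : ∀ s ∉ S, ∀ z, z ∈ T s ↔ z ∈ O s := by
    intro s hs z
    simp only [T, dif_pos (hfin s hs), Set.Finite.mem_toFinset]
  let P : ℂ → ℂ[X] := fun s => ∏ τ ∈ T s, (X - C τ)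
  -- local form
  have hlocT : ∀ s₀ ∉ S, ∃ r > 0, ∃ (n : ℕ) (t : Fin n → ℂ → ℂ),
      (∀ i, DifferentiableOn ℂ (t i) (ball s₀ r)) ∧ (∀ s ∈ ball s₀ r, s ∉ S →
        (T s).card = n ∧ P s = ∏ i, (X - C (t i s))) := by
    intro s₀ hs₀
    obtain ⟨r, hr, n, t, h1, h2, h3⟩ := hloc s₀ hs₀
    refine ⟨r, hr, n, t, h1, fun s hs hsS => ?_⟩
    have hTi : T s = Finset.univ.image (fun i => t i s) := by
      ext z
      rw [hT s hsS, h3 s hs]
      simp
    have hinj : Function.Injective (fun i => t i s) := h2 s hs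
    constructor
    · rw [hTi, Finset.card_image_of_injective _ hinj]
      simp
    · show ∏ τ ∈ T s, (X - C τ) = _
      rw [hTi, Finset.prod_image (fun i _ j _ h => hinj h)]
  have hconn : IsPreconnected (Sᶜ : Set ℂ) :=
    (hS.countable.isPathConnected_compl_of_one_lt_rank
      (by rw [Complex.rank_real_complex]; norm_num)).isConnected.isPreconnected
  have hcont : ContinuousOn (fun s => (T s).card) Sᶜ := by
    intro s₀ hs₀
    obtain ⟨r, hr, n, t, h1, h2⟩ := hlocT s₀ hs₀
    have : (fun s => (T s).card) =ᶠ[nhds s₀] fun _ => n := by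
      filter_upwards [ball_mem_nhds s₀ hr, hU.mem_nhds hs₀] with s hs hsS using (h2 s hs hsS).1
    exact (continuousAt_const.congr this.symm).continuousWithinAt
  obtain ⟨a, ha⟩ : (Sᶜ : Set ℂ).Nonempty := by
    by_contra h
    rw [Set.not_nonempty_iff_eq_empty, Set.compl_empty_iff] at h
    rw [h] at hS
    exact Set.infinite_univ hS
  set g : ℕ := (T a).card with hg
  have hcard : ∀ s ∉ S, (T s).card = g := fun s hs => hconn.constant hcont hs ha
  have hPm : ∀ s, (P s).Monic := fun s => monic_prod_of_monic _ _ (fun τ _ => monic_X_sub_C τ)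
  have hPd : ∀ s ∉ S, (P s).natDegree = g := by
    intro s hs
    show (∏ τ ∈ T s, (X - C τ)).natDegree = g
    rw [natDegree_prod_of_monic _ _ (fun τ _ => monic_X_sub_C τ)]
    simp [hcard s hs]
  have hPr : ∀ s, (P s).roots = (T s).val := fun s => roots_prod_X_sub_C (T s)
  -- coefficient functions
  have hcd : ∀ j, DifferentiableOn ℂ (fun s => (P s).coeff j) Sᶜ := by
    intro j s₀ hs₀
    obtain ⟨r, hr, n, t, h1, h2⟩ := hlocT s₀ hs₀
    have h3 := (ge_coeff Finset.univ t (ball s₀ r) h1 j).differentiableAt (ball_mem_nhds s₀ hr)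
    refine DifferentiableAt.differentiableWithinAt (h3.congr_of_eventuallyEq ?_)
    filter_upwards [ball_mem_nhds s₀ hr, hU.mem_nhds hs₀] with s hs hsS
    rw [(h2 s hs hsS).2]
  have hcb : ∀ j, ∀ s ∉ S, ‖(P s).coeff j‖ ≤ (ρ * (1 + ‖s‖)) ^ (g - j) * g.choose j := by
    intro j s hs
    have h1 := coeff_le_of_roots_le (F := ℂ) (K := ℂ) (p := P s) (f := RingHom.id ℂ)
      (B := ρ * (1 + ‖s‖)) j (hPm s) (by rw [Polynomial.map_id]; exact IsAlgClosed.splits _) (by
        intro z hz
        rw [Polynomial.map_id, hPr s] at hz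
        exact hbd s hs z ((hT s hs z).1 hz))
    rw [Polynomial.map_id, hPd s hs] at h1
    exact h1
  have hpoly : ∀ j, ∃ p : ℂ[X], p.natDegree ≤ g - j ∧ ∀ s ∉ S, p.eval s = (P s).coeff j := by
    intro j
    obtain ⟨F, hF1, hF2⟩ := ge_removable S hS (fun s => (P s).coeff j) (hcd j) (by
      intro R
      refine ⟨(|ρ| * (1 + |R|)) ^ (g - j) * g.choose j, fun s hs hsR => ?_⟩
      refine (hcb j s hs).trans ?_
      have h1 : (ρ * (1 + ‖s‖)) ^ (g - j) ≤ (|ρ| * (1 + |R|)) ^ (g - j) := by
        refine (le_abs_self _).trans ?_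
        rw [abs_pow, abs_mul]
        apply pow_le_pow_left₀ (by positivity)
        apply mul_le_mul_of_nonneg_left _ (abs_nonneg _)
        rw [abs_of_nonneg (by positivity)]
        have := hsR.trans (le_abs_self R)
        linarith
      exact mul_le_mul_of_nonneg_right h1 (by positivity))
    obtain ⟨M, hM⟩ := hS.isBounded.exists_norm_le
    obtain ⟨p, hp1, hp2⟩ := ge_liouville F hF1 (g - j) (|ρ| ^ (g - j) * g.choose j) (M + 1) (by
      intro s hs
      have hsS : s ∉ S := by
        intro h
        have := hM s h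
        linarith
      rw [hF2 s hsS]
      refine (hcb j s hsS).trans ?_
      have h1 : (ρ * (1 + ‖s‖)) ^ (g - j) ≤ |ρ| ^ (g - j) * (1 + ‖s‖) ^ (g - j) := by
        refine (le_abs_self _).trans ?_
        rw [abs_pow, abs_mul, mul_pow, abs_of_nonneg (show (0:ℝ) ≤ 1 + ‖s‖ by positivity)]
      calc (ρ * (1 + ‖s‖)) ^ (g - j) * g.choose j
          ≤ (|ρ| ^ (g - j) * (1 + ‖s‖) ^ (g - j)) * g.choose j :=
            mul_le_mul_of_nonneg_right h1 (by positivity)
        _ = |ρ| ^ (g - j) * g.choose j * (1 + ‖s‖) ^ (g - j) := by ring)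
    exact ⟨p, hp1, fun s hs => by rw [hp2, hF2 s hs]⟩
  choose p hp1 hp2 using hpoly
  -- the bivariate polynomial
  set L : ℂ[X][X] := ∑ j ∈ Finset.range g, C (p j) * X ^ j with hL
  have hLc : ∀ j, L.coeff j = if j < g then p j else 0 := by
    intro j
    rw [hL, finsetSum_coeff]
    simp only [coeff_C_mul, coeff_X_pow, mul_ite, mul_one, mul_zero]
    by_cases hj : j < g
    · rw [if_pos hj, Finset.sum_eq_single j]
      · simp
      · intro b _ hb
        rw [if_neg (Ne.symm hb)]
      · intro h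
        exact absurd (Finset.mem_range.2 hj) h
    · rw [if_neg hj]
      apply Finset.sum_eq_zero
      intro b hb
      have := Finset.mem_range.1 hb
      rw [if_neg (by omega)]
  have hLd : L.degree < g := by
    rw [degree_lt_iff_coeff_zero]
    intro m hm
    rw [hLc, if_neg (by omega)]
  refine ⟨g, X ^ g + L, monic_X_pow_add hLd, ?_, ?_, ?_⟩
  · exact natDegree_eq_of_degree_eq_some (by
      rw [degree_add_eq_left_of_degree_lt (by rw [degree_X_pow]; exact hLd), degree_X_pow])
  · intro k hk
    rw [coeff_add, coeff_X_pow, hLc]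
    rcases Nat.eq_zero_or_pos k with rfl | hk0
    · simp
    · have h1 : g - k < g := by omega
      rw [if_neg (by omega), if_pos h1, zero_add]
      exact (hp1 (g - k)).trans (by omega)
  · intro s hs
    have hmap : (X ^ g + L).map (evalRingHom s) = P s := by
      ext j
      rw [coeff_map, coeff_add, coeff_X_pow, hLc]
      simp only [coe_evalRingHom]
      rcases lt_trichotomy j g with hj | hj | hj
      · rw [if_neg (by omega), if_pos hj, zero_add, hp2 j s hs]
      · subst hj
        have : (P s).coeff g = 1 := by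
          have := (hPm s).coeff_natDegree
          rwa [hPd s hs] at this
        simp [this]
      · rw [if_neg (by omega), if_neg (by omega)]
        have : (P s).coeff j = 0 := coeff_eq_zero_of_natDegree_lt (by rw [hPd s hs]; exact hj)
        simp [this]
    refine ⟨?_, fun z => ?_⟩
    · rw [hmap, hPr]
      exact (T s).nodup
    · rw [← eval₂_evalRingHom, ← eval_map, hmap]
      rw [← hT s hs z]
      have h1 : z ∈ (P s).roots ↔ z ∈ T s := by rw [hPr]; rfl
      rw [← h1, mem_roots (hPm s).ne_zero]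
      rfl

end AS.J3643
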