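import Mathlib
import Pool.Agent.Helper272.Ell.Defs

set_option autoImplicit false
open Polynomial Set Filter Topology MeasureTheory Metric

namespace AS.J4033

/-- TARGET 1 -/
theorem dS_coeff {A : Type*} [CommRing A] (R : A[X][X]) (n : ℕ) :
    (dS R).coeff n = derivative (R.coeff n) := by
  unfold dS
  rw [Polynomial.sum_def, finset_sum_coeff]
  simp only [coeff_monomial]
  rw [Finset.sum_ite_eq']
  split_ifs with h
  · rfl
  · rw [notMem_support_iff.mp h, derivative_zero]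

theorem dS_add {A : Type*} [CommRing A] (R S : A[X][X]) : dS (R + S) = dS R + dS S := by
  ext n : 1
  simp [dS_coeff]

theorem dS_monomial {A : Type*} [CommRing A] (n : ℕ) (r : A[X]) :
    dS (monomial n r) = monomial n (derivative r) := by
  ext k : 1
  rw [dS_coeff, coeff_monomial, coeff_monomial]
  split_ifs <;> simp

theorem dS_C {A : Type*} [CommRing A] (r : A[X]) :
    dS (C r) = C (derivative r) := by
  have := dS_monomial 0 r
  simpa using this

theorem derivative_dS {A : Type*} [CommRing A] (R : A[X][X]) :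
    derivative (dS R) = dS (derivative R) := by
  ext n : 1
  rw [coeff_derivative, dS_coeff, dS_coeff, coeff_derivative]
  simp [derivative_mul]

theorem hasFDerivAt_evalPoly (r : ℂ[X]) (w : ℂ × ℂ) :
    HasFDerivAt (fun w : ℂ × ℂ => r.eval w.1)
      ((derivative r).eval w.1 • ContinuousLinearMap.fst ℂ ℂ ℂ) w := by
  have h1 := (r.hasDerivAt w.1).comp_hasFDerivAt w
    (hasFDerivAt_fst (𝕜 := ℂ) (E := ℂ) (F := ℂ) (p := w))
  exact h1

/-- TARGET 2 -/
theorem hasFDerivAt_evalEval (R : ℂ[X][X]) (w : ℂ × ℂ) :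
    HasFDerivAt (fun w : ℂ × ℂ => R.evalEval w.1 w.2)
      ((dS R).evalEval w.1 w.2 • ContinuousLinearMap.fst ℂ ℂ ℂ
        + (derivative R).evalEval w.1 w.2 • ContinuousLinearMap.snd ℂ ℂ ℂ) w := by
  induction R using Polynomial.induction_on' with
  | add p q hp hq =>
    have h := hp.add hq
    refine (h.congr_of_eventuallyEq ?_).congr_fderiv ?_
    · exact Filter.Eventually.of_forall fun w => by simp [evalEval_add]
    · rw [dS_add, derivative_add, evalEval_add, evalEval_add]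
      ext <;> simp
  | monomial n r =>
    have h1 := hasFDerivAt_evalPoly r w
    have h2 : HasFDerivAt (fun w : ℂ × ℂ => w.2 ^ n)
        (((n : ℂ) * w.2 ^ (n - 1)) • ContinuousLinearMap.snd ℂ ℂ ℂ) w :=
      (hasDerivAt_pow n w.2).comp_hasFDerivAt w
        (hasFDerivAt_snd (𝕜 := ℂ) (E := ℂ) (F := ℂ) (p := w))
    have h := h1.mul h2
    have hev : ∀ (n : ℕ) (r : ℂ[X]) (w : ℂ × ℂ),
        (monomial n r : ℂ[X][X]).evalEval w.1 w.2 = r.eval w.1 * w.2 ^ n := by
      intro n r w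
      simp [evalEval, eval_monomial]
    refine (h.congr_of_eventuallyEq ?_).congr_fderiv ?_
    · exact Filter.Eventually.of_forall fun w => by simp [hev]
    · rw [dS_monomial, derivative_monomial, hev, hev]
      ext <;> simp <;> ring

theorem hasFDerivAt_quot {u v : ℂ × ℂ → ℂ} {u' v' : ℂ × ℂ →L[ℂ] ℂ} {w : ℂ × ℂ}
    (hu : HasFDerivAt u u' w) (hv : HasFDerivAt v v' w) (h : v w ≠ 0) :
    HasFDerivAt (fun x => u x / v x) (((v w)⁻¹ ^ 2) • (v w • u' - u w • v')) w := by
  have h1 : HasFDerivAt (fun x => (v x)⁻¹) ((-((v w) ^ 2)⁻¹) • v') w :=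
    (hasDerivAt_inv h).comp_hasFDerivAt w hv
  have h2 := hu.mul h1
  refine (h2.congr_of_eventuallyEq ?_).congr_fderiv ?_
  · exact Filter.Eventually.of_forall fun w => by simp [div_eq_mul_inv]
  · ext <;> simp <;> field_simp <;> ring

/-- a bivariate polynomial vanishing on the exterior is zero -/
theorem eq_zero_of_exterior (P : ℂ[X][X]) (ρ : ℝ)
    (h : ∀ w : ℂ × ℂ, ρ * (1 + ‖w.1‖) < ‖w.2‖ → P.evalEval w.1 w.2 = 0) : P = 0 := by
  have h1 : ∀ s : ℂ, P.map (evalRingHom s) = 0 := by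
    intro s
    apply Polynomial.eq_zero_of_infinite_isRoot
    have h2 : {z : ℂ | ρ * (1 + ‖s‖) < ‖z‖} ⊆ {x | (P.map (evalRingHom s)).IsRoot x} := by
      intro z hz
      have h3 := h (s, z) hz
      show (P.map (evalRingHom s)).eval z = 0
      rw [eval_map, ← coe_eval₂RingHom, ← evalEvalRingHom_eq]
      exact h3
    refine Set.Infinite.mono h2 ?_
    intro hfin
    have hb := hfin.isBounded
    obtain ⟨B, hB⟩ := hb.exists_norm_le
    have h4 := hB ((max B (ρ * (1 + ‖s‖)) + 1 + |max B (ρ * (1 + ‖s‖))| : ℝ) : ℂ) (by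
      show ρ * (1 + ‖s‖) < ‖((max B (ρ * (1 + ‖s‖)) + 1 + |max B (ρ * (1 + ‖s‖))| : ℝ) : ℂ)‖
      rw [Complex.norm_real, Real.norm_eq_abs]
      have h5 := le_max_right B (ρ * (1 + ‖s‖))
      have h6 := abs_nonneg (max B (ρ * (1 + ‖s‖)))
      have h7 := le_abs_self (max B (ρ * (1 + ‖s‖)) + 1 + |max B (ρ * (1 + ‖s‖))|)
      linarith)
    rw [Complex.norm_real, Real.norm_eq_abs] at h4
    have h5 := le_max_left B (ρ * (1 + ‖s‖))
    have h6 := abs_nonneg (max B (ρ * (1 + ‖s‖)))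
    have h7 := le_abs_self (max B (ρ * (1 + ‖s‖)) + 1 + |max B (ρ * (1 + ‖s‖))|)
    linarith
  ext n : 1
  apply Polynomial.funext
  intro s
  have h2 := congrArg (fun p => p.coeff n) (h1 s)
  simpa using h2

/-- TARGET 3: the connection is integrable -/
theorem integrable_conn (m : ℕ) (hm : 0 < m) (R Q Q2 : ℂ[X][X]) (N G : ℂ[X]) (hR : R ≠ 0)
    (hN : N ≠ 0) (ρ : ℝ) (F : ℂ × ℂ → ℂ)
    (hF : DifferentiableOn ℂ F {w | ρ * (1 + ‖w.1‖) < ‖w.2‖})
    (hz : ∀ w : ℂ × ℂ, ρ * (1 + ‖w.1‖) < ‖w.2‖ →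
      m * R.evalEval w.1 w.2 * fderiv ℂ F w (0, 1) - (derivative R).evalEval w.1 w.2 * F w
        = Q.evalEval w.1 w.2)
    (hs : ∀ w : ℂ × ℂ, ρ * (1 + ‖w.1‖) < ‖w.2‖ →
      N.eval w.1 * (m * R.evalEval w.1 w.2 * fderiv ℂ F w (1, 0)
          - (dS R).evalEval w.1 w.2 * F w) + G.eval w.1 * R.evalEval w.1 w.2 * F w
        = Q2.evalEval w.1 w.2)
    (W : Set (ℂ × ℂ)) (hW : W = {w | R.evalEval w.1 w.2 ≠ 0 ∧ N.eval w.1 ≠ 0})
    (a b p q : ℂ × ℂ → ℂ)
    (ha : a = fun w => (derivative R).evalEval w.1 w.2 / (m * R.evalEval w.1 w.2))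
    (hb : b = fun w => (dS R).evalEval w.1 w.2 / (m * R.evalEval w.1 w.2)
      - G.eval w.1 / (m * N.eval w.1))
    (hp : p = fun w => Q.evalEval w.1 w.2 / (m * R.evalEval w.1 w.2))
    (hq : q = fun w => Q2.evalEval w.1 w.2 / (m * N.eval w.1 * R.evalEval w.1 w.2)) :
    IsOpen W ∧ DifferentiableOn ℂ a W ∧ DifferentiableOn ℂ b W ∧ DifferentiableOn ℂ p W ∧
      DifferentiableOn ℂ q W ∧
      (∀ w ∈ W, fderiv ℂ a w (1, 0) = fderiv ℂ b w (0, 1)) ∧
      (∀ w ∈ W, fderiv ℂ p w (1, 0) + a w * q w = fderiv ℂ q w (0, 1) + b w * p w) := by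
  have hM : (m : ℂ) ≠ 0 := by exact_mod_cast hm.ne'
  -- continuity
  have hcont : ∀ P : ℂ[X][X], Continuous fun w : ℂ × ℂ => P.evalEval w.1 w.2 := fun P =>
    continuous_iff_continuousAt.mpr fun w => (hasFDerivAt_evalEval P w).continuousAt
  have hcontN : Continuous fun w : ℂ × ℂ => N.eval w.1 :=
    continuous_iff_continuousAt.mpr fun w => (hasFDerivAt_evalPoly N w).continuousAt
  have hopen : IsOpen W := by
    rw [hW]
    exact ((hcont R).isOpen_preimage _ isOpen_compl_singleton).inter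
      (hcontN.isOpen_preimage _ isOpen_compl_singleton)
  have hWR : ∀ w ∈ W, R.evalEval w.1 w.2 ≠ 0 := by
    intro w hw; rw [hW] at hw; exact hw.1
  have hWN : ∀ w ∈ W, N.eval w.1 ≠ 0 := by
    intro w hw; rw [hW] at hw; exact hw.2
  -- the derivatives
  have hda : ∀ w ∈ W, HasFDerivAt a (((m * R.evalEval w.1 w.2)⁻¹ ^ 2) •
      ((m * R.evalEval w.1 w.2) • ((dS (derivative R)).evalEval w.1 w.2 • ContinuousLinearMap.fst ℂ ℂ ℂ
        + (derivative (derivative R)).evalEval w.1 w.2 • ContinuousLinearMap.snd ℂ ℂ ℂ)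
        - (derivative R).evalEval w.1 w.2 • ((m : ℂ) • ((dS R).evalEval w.1 w.2 • ContinuousLinearMap.fst ℂ ℂ ℂ
        + (derivative R).evalEval w.1 w.2 • ContinuousLinearMap.snd ℂ ℂ ℂ)))) w := by
    intro w hw
    rw [ha]
    exact hasFDerivAt_quot (hasFDerivAt_evalEval (derivative R) w)
      ((hasFDerivAt_evalEval R w).const_mul (m : ℂ)) (mul_ne_zero hM (hWR w hw))
  have hdp : ∀ w ∈ W, HasFDerivAt p (((m * R.evalEval w.1 w.2)⁻¹ ^ 2) •
      ((m * R.evalEval w.1 w.2) • ((dS Q).evalEval w.1 w.2 • ContinuousLinearMap.fst ℂ ℂ ℂ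
        + (derivative Q).evalEval w.1 w.2 • ContinuousLinearMap.snd ℂ ℂ ℂ)
        - Q.evalEval w.1 w.2 • ((m : ℂ) • ((dS R).evalEval w.1 w.2 • ContinuousLinearMap.fst ℂ ℂ ℂ
        + (derivative R).evalEval w.1 w.2 • ContinuousLinearMap.snd ℂ ℂ ℂ)))) w := by
    intro w hw
    rw [hp]
    exact hasFDerivAt_quot (hasFDerivAt_evalEval Q w)
      ((hasFDerivAt_evalEval R w).const_mul (m : ℂ)) (mul_ne_zero hM (hWR w hw))
  have hdb : ∀ w ∈ W, HasFDerivAt b ((((m * R.evalEval w.1 w.2)⁻¹ ^ 2) •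
      ((m * R.evalEval w.1 w.2) • ((dS (dS R)).evalEval w.1 w.2 • ContinuousLinearMap.fst ℂ ℂ ℂ
        + (derivative (dS R)).evalEval w.1 w.2 • ContinuousLinearMap.snd ℂ ℂ ℂ)
        - (dS R).evalEval w.1 w.2 • ((m : ℂ) • ((dS R).evalEval w.1 w.2 • ContinuousLinearMap.fst ℂ ℂ ℂ
        + (derivative R).evalEval w.1 w.2 • ContinuousLinearMap.snd ℂ ℂ ℂ)))) - 
        (((m * N.eval w.1)⁻¹ ^ 2) • ((m * N.eval w.1) • ((derivative G).eval w.1 •
          ContinuousLinearMap.fst ℂ ℂ ℂ) - G.eval w.1 • ((m : ℂ) • ((derivative N).eval w.1 •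
          ContinuousLinearMap.fst ℂ ℂ ℂ))))) w := by
    intro w hw
    rw [hb]
    exact (hasFDerivAt_quot (hasFDerivAt_evalEval (dS R) w)
      ((hasFDerivAt_evalEval R w).const_mul (m : ℂ)) (mul_ne_zero hM (hWR w hw))).sub
      (hasFDerivAt_quot (hasFDerivAt_evalPoly G w)
      ((hasFDerivAt_evalPoly N w).const_mul (m : ℂ)) (mul_ne_zero hM (hWN w hw)))
  have hdq : ∀ w ∈ W, HasFDerivAt q (((m * N.eval w.1 * R.evalEval w.1 w.2)⁻¹ ^ 2) •
      ((m * N.eval w.1 * R.evalEval w.1 w.2) • ((dS Q2).evalEval w.1 w.2 • ContinuousLinearMap.fst ℂ ℂ ℂ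
        + (derivative Q2).evalEval w.1 w.2 • ContinuousLinearMap.snd ℂ ℂ ℂ)
        - Q2.evalEval w.1 w.2 • ((m * N.eval w.1) • ((dS R).evalEval w.1 w.2 • ContinuousLinearMap.fst ℂ ℂ ℂ
        + (derivative R).evalEval w.1 w.2 • ContinuousLinearMap.snd ℂ ℂ ℂ)
        + R.evalEval w.1 w.2 • ((m : ℂ) • ((derivative N).eval w.1 •
          ContinuousLinearMap.fst ℂ ℂ ℂ))))) w := by
    intro w hw
    rw [hq]
    exact hasFDerivAt_quot (hasFDerivAt_evalEval Q2 w)
      (((hasFDerivAt_evalPoly N w).const_mul (m : ℂ)).mul (hasFDerivAt_evalEval R w))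
      (mul_ne_zero (mul_ne_zero hM (hWN w hw)) (hWR w hw))
  have h1 : ∀ w ∈ W, fderiv ℂ a w (1, 0) = fderiv ℂ b w (0, 1) := by
    intro w hw
    rw [(hda w hw).fderiv, (hdb w hw).fderiv, derivative_dS]
    have hr := hWR w hw
    have hn := hWN w hw
    simp
    left
    ring
  refine ⟨hopen, fun w hw => (hda w hw).differentiableAt.differentiableWithinAt,
    fun w hw => (hdb w hw).differentiableAt.differentiableWithinAt,
    fun w hw => (hdp w hw).differentiableAt.differentiableWithinAt,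
    fun w hw => (hdq w hw).differentiableAt.differentiableWithinAt, h1, ?_⟩
  -- the defect polynomial
  set E : ℂ[X][X] := C (C (m : ℂ)) * C N * (dS Q * R - Q * dS R) + derivative R * Q2
    - C (C (m : ℂ)) * (derivative Q2 * R - Q2 * derivative R) - (dS R * C N - C G * R) * Q
    with hE
  have hEev : ∀ w : ℂ × ℂ, E.evalEval w.1 w.2 = m * N.eval w.1 *
      ((dS Q).evalEval w.1 w.2 * R.evalEval w.1 w.2 - Q.evalEval w.1 w.2 * (dS R).evalEval w.1 w.2)
      + (derivative R).evalEval w.1 w.2 * Q2.evalEval w.1 w.2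
      - m * ((derivative Q2).evalEval w.1 w.2 * R.evalEval w.1 w.2
        - Q2.evalEval w.1 w.2 * (derivative R).evalEval w.1 w.2)
      - ((dS R).evalEval w.1 w.2 * N.eval w.1 - G.eval w.1 * R.evalEval w.1 w.2)
        * Q.evalEval w.1 w.2 := by
    intro w
    rw [hE]
    simp only [evalEval_add, evalEval_sub, evalEval_mul, evalEval_C, eval_C]
  have hdef : ∀ w ∈ W, (fderiv ℂ p w (1, 0) + a w * q w - (fderiv ℂ q w (0, 1) + b w * p w))
      * (m ^ 2 * N.eval w.1 * R.evalEval w.1 w.2 ^ 2) = E.evalEval w.1 w.2 := by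
    intro w hw
    rw [(hdp w hw).fderiv, (hdq w hw).fderiv, hEev, ha, hb, hp, hq]
    have hr := hWR w hw
    have hn := hWN w hw
    simp
    field_simp
    ring
  -- on the exterior part the defect vanishes
  set O : Set (ℂ × ℂ) := {w | ρ * (1 + ‖w.1‖) < ‖w.2‖} with hO
  have hOopen : IsOpen O := by
    apply isOpen_lt <;> fun_prop
  have hfF : ∀ w ∈ W, w ∈ O → HasFDerivAt F ((b w * F w + q w) • ContinuousLinearMap.fst ℂ ℂ ℂ
      + (a w * F w + p w) • ContinuousLinearMap.snd ℂ ℂ ℂ) w := by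
    intro w hw hwO
    have hd : DifferentiableAt ℂ F w := (hF w hwO).differentiableAt (hOopen.mem_nhds hwO)
    refine hd.hasFDerivAt.congr_fderiv ?_
    have hr := hWR w hw
    have hn := hWN w hw
    have e1 := hz w hwO
    have e2 := hs w hwO
    have e3 : fderiv ℂ F w (0, 1) = a w * F w + p w := by
      rw [ha, hp]
      field_simp
      linear_combination e1
    have e4 : fderiv ℂ F w (1, 0) = b w * F w + q w := by
      rw [hb, hq]
      field_simp
      linear_combination e2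
    ext
    · simp [e4]
    · simp [e3]
  have hvan : ∀ w ∈ W, w ∈ O →
      fderiv ℂ p w (1, 0) + a w * q w = fderiv ℂ q w (0, 1) + b w * p w := by
    intro w hw hwO
    have hFw := hfF w hw hwO
    have hd1 : HasFDerivAt (fun y => b y * F y + q y)
        (b w • fderiv ℂ F w + F w • fderiv ℂ b w + fderiv ℂ q w) w := by
      have := ((hdb w hw).differentiableAt.hasFDerivAt.mul hFw.differentiableAt.hasFDerivAt).add
        (hdq w hw).differentiableAt.hasFDerivAt
      exact this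
    have hd2 : HasFDerivAt (fun y => a y * F y + p y)
        (a w • fderiv ℂ F w + F w • fderiv ℂ a w + fderiv ℂ p w) w := by
      have := ((hda w hw).differentiableAt.hasFDerivAt.mul hFw.differentiableAt.hasFDerivAt).add
        (hdp w hw).differentiableAt.hasFDerivAt
      exact this
    have hev : ∀ᶠ y in 𝓝 w, HasFDerivAt F ((b y * F y + q y) • ContinuousLinearMap.fst ℂ ℂ ℂ
      + (a y * F y + p y) • ContinuousLinearMap.snd ℂ ℂ ℂ) y := by
      filter_upwards [hopen.mem_nhds hw, hOopen.mem_nhds hwO] with y h1 h2 using hfF y h1 h2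
    have hx := (hd1.smul_const (ContinuousLinearMap.fst ℂ ℂ ℂ)).add
      (hd2.smul_const (ContinuousLinearMap.snd ℂ ℂ ℂ))
    have hsym := second_derivative_symmetric_of_eventually hev hx (1, 0) (0, 1)
    have e3 : fderiv ℂ F w (0, 1) = a w * F w + p w := by
      rw [hFw.fderiv]; simp
    have e4 : fderiv ℂ F w (1, 0) = b w * F w + q w := by
      rw [hFw.fderiv]; simp
    simp only [ContinuousLinearMap.add_apply, ContinuousLinearMap.smulRight_apply,
      ContinuousLinearMap.smul_apply, ContinuousLinearMap.coe_fst', ContinuousLinearMap.coe_snd',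
      smul_eq_mul, e3, e4, mul_zero, mul_one, zero_add, add_zero] at hsym
    have h11 := h1 w hw
    linear_combination hsym - F w * h11
  have hEzero : E * R * C N = 0 := by
    apply eq_zero_of_exterior _ ρ
    intro w hwO
    rw [evalEval_mul, evalEval_mul, evalEval_C]
    by_cases hw : w ∈ W
    · rw [← hdef w hw, hvan w hw hwO]
      ring
    · rw [hW] at hw
      simp only [Set.mem_setOf_eq, not_and_or, not_not] at hw
      rcases hw with h | h
      · rw [h]; ring
      · rw [h]; ring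
  have hE0 : E = 0 := by
    rcases mul_eq_zero.mp hEzero with h | h
    · rcases mul_eq_zero.mp h with h | h
      · exact h
      · exact absurd h hR
    · exact absurd (C_eq_zero.mp h) hN
  intro w hw
  have h3 := hdef w hw
  rw [hE0, evalEval_zero] at h3
  have h4 : (m : ℂ) ^ 2 * N.eval w.1 * R.evalEval w.1 w.2 ^ 2 ≠ 0 :=
    mul_ne_zero (mul_ne_zero (pow_ne_zero _ hM) (hWN w hw)) (pow_ne_zero _ (hWR w hw))
  rcases mul_eq_zero.mp h3 with h | h
  · exact sub_eq_zero.mp h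
  · exact absurd h h4

end AS.J4033

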