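import Mathlib
import Pool.Agent.Helper272.Ell.Defs

set_option autoImplicit false
open Polynomial Set Filter Topology MeasureTheory Metric

namespace AS.J4055

theorem J4055_lower {ρ δ : ℝ} {x : ℂ × ℂ} (hx : ρ * (1 + ‖x.1‖) + δ < ‖x.2‖) {y : ℝ × ℝ}
    (hy : ‖y‖ ≤ ρ) : δ < ‖x.2 - ((y.1 : ℂ) + x.1 * (y.2 : ℂ))‖ := by
  have h1 : ‖(y.1 : ℂ)‖ ≤ ρ := by
    rw [Complex.norm_real]; exact (norm_fst_le y).trans hy
  have h2 : ‖(y.2 : ℂ)‖ ≤ ρ := by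
    rw [Complex.norm_real]; exact (norm_snd_le y).trans hy
  have h3 : ‖(y.1 : ℂ) + x.1 * (y.2 : ℂ)‖ ≤ ρ * (1 + ‖x.1‖) := by
    calc ‖(y.1 : ℂ) + x.1 * (y.2 : ℂ)‖ ≤ ‖(y.1 : ℂ)‖ + ‖x.1 * (y.2 : ℂ)‖ := norm_add_le _ _
      _ = ‖(y.1 : ℂ)‖ + ‖x.1‖ * ‖(y.2 : ℂ)‖ := by rw [norm_mul]
      _ ≤ ρ + ‖x.1‖ * ρ := add_le_add h1 (mul_le_mul_of_nonneg_left h2 (norm_nonneg _))
      _ = _ := by ring
  have h4 := norm_sub_norm_le x.2 ((y.1 : ℂ) + x.1 * (y.2 : ℂ))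
  linarith

theorem J4055_meas (x : ℂ × ℂ) :
    Measurable (fun y : ℝ × ℝ => (x.2 - ((y.1 : ℂ) + x.1 * (y.2 : ℂ)))) := by
  apply Continuous.measurable
  fun_prop

theorem J4055_deriv (y : ℝ × ℝ) (x : ℂ × ℂ) (hne : x.2 - ((y.1 : ℂ) + x.1 * (y.2 : ℂ)) ≠ 0) :
    HasFDerivAt (fun x : ℂ × ℂ => (x.2 - ((y.1 : ℂ) + x.1 * (y.2 : ℂ)))⁻¹)
      (((y.2 : ℂ) * ((x.2 - ((y.1 : ℂ) + x.1 * (y.2 : ℂ))) ^ 2)⁻¹) • ContinuousLinearMap.fst ℂ ℂ ℂ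
        - (((x.2 - ((y.1 : ℂ) + x.1 * (y.2 : ℂ))) ^ 2)⁻¹) • ContinuousLinearMap.snd ℂ ℂ ℂ) x := by
  have hg : HasFDerivAt (fun x : ℂ × ℂ => x.2 - ((y.1 : ℂ) + x.1 * (y.2 : ℂ)))
      (ContinuousLinearMap.snd ℂ ℂ ℂ - ((y.2 : ℂ)) • ContinuousLinearMap.fst ℂ ℂ ℂ) x := by
    have h1 : HasFDerivAt (fun x : ℂ × ℂ => x.2) (ContinuousLinearMap.snd ℂ ℂ ℂ) x := hasFDerivAt_snd
    have h2 : HasFDerivAt (fun x : ℂ × ℂ => x.1 * (y.2 : ℂ))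
        (((y.2 : ℂ)) • ContinuousLinearMap.fst ℂ ℂ ℂ) x := by
      have h3 : HasFDerivAt (fun x : ℂ × ℂ => x.1) (ContinuousLinearMap.fst ℂ ℂ ℂ) x := hasFDerivAt_fst
      have := h3.mul_const' (y.2 : ℂ)
      refine this.congr_fderiv ?_
      ext <;> simp
    exact h1.sub (h2.const_add (y.1 : ℂ))
  have h := (hasDerivAt_inv hne).comp_hasFDerivAt x hg
  refine h.congr_fderiv ?_
  ext <;> simp <;> ring

/-- TARGET 1 -/
theorem FF_hasFDerivAt (μ : Measure (ℝ × ℝ)) [IsFiniteMeasure μ] (ρ : ℝ) (hρ : 0 ≤ ρ)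
    (hμ : ∀ᵐ y ∂μ, ‖y‖ ≤ ρ) (w : ℂ × ℂ) (hw : ρ * (1 + ‖w.1‖) < ‖w.2‖) :
    HasFDerivAt (FF μ)
      ((∫ y : ℝ × ℝ, (y.2 : ℂ) * ((w.2 - ((y.1 : ℂ) + w.1 * (y.2 : ℂ))) ^ 2)⁻¹ ∂μ)
          • ContinuousLinearMap.fst ℂ ℂ ℂ
        - (∫ y : ℝ × ℝ, ((w.2 - ((y.1 : ℂ) + w.1 * (y.2 : ℂ))) ^ 2)⁻¹ ∂μ)
          • ContinuousLinearMap.snd ℂ ℂ ℂ) w := by
  set δ : ℝ := (‖w.2‖ - ρ * (1 + ‖w.1‖)) / 2 with hδ
  have hδ0 : 0 < δ := by rw [hδ]; linarith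
  have hws : ρ * (1 + ‖w.1‖) + δ < ‖w.2‖ := by rw [hδ]; linarith
  set s : Set (ℂ × ℂ) := {x | ρ * (1 + ‖x.1‖) + δ < ‖x.2‖} with hs
  have hsopen : IsOpen s := isOpen_lt (by fun_prop) (by fun_prop)
  have hsn : s ∈ 𝓝 w := hsopen.mem_nhds hws
  have hm2 : Measurable (fun y : ℝ × ℝ => ((y.2 : ℝ) : ℂ)) := by
    apply Continuous.measurable; fun_prop
  have hmf1 : AEStronglyMeasurable (fun y : ℝ × ℝ =>
      (y.2 : ℂ) * ((w.2 - ((y.1 : ℂ) + w.1 * (y.2 : ℂ))) ^ 2)⁻¹) μ :=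
    (hm2.mul (((J4055_meas w).pow_const 2).inv)).aestronglyMeasurable
  have hmf2 : AEStronglyMeasurable (fun y : ℝ × ℝ =>
      ((w.2 - ((y.1 : ℂ) + w.1 * (y.2 : ℂ))) ^ 2)⁻¹) μ :=
    (((J4055_meas w).pow_const 2).inv).aestronglyMeasurable
  have hinvb : ∀ x ∈ s, ∀ y : ℝ × ℝ, ‖y‖ ≤ ρ →
      ‖((x.2 - ((y.1 : ℂ) + x.1 * (y.2 : ℂ))) ^ 2)⁻¹‖ ≤ (δ ^ 2)⁻¹ := by
    intro x hx y hy
    rw [norm_inv, norm_pow]
    apply inv_anti₀ (by positivity)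
    exact pow_le_pow_left₀ hδ0.le (J4055_lower hx hy).le 2
  have hif2 : Integrable (fun y : ℝ × ℝ => ((w.2 - ((y.1 : ℂ) + w.1 * (y.2 : ℂ))) ^ 2)⁻¹) μ :=
    Integrable.of_bound hmf2 ((δ ^ 2)⁻¹) (hμ.mono fun y hy => hinvb w hws y hy)
  have hif1 : Integrable (fun y : ℝ × ℝ =>
      (y.2 : ℂ) * ((w.2 - ((y.1 : ℂ) + w.1 * (y.2 : ℂ))) ^ 2)⁻¹) μ := by
    refine Integrable.of_bound hmf1 (ρ * (δ ^ 2)⁻¹) (hμ.mono fun y hy => ?_)
    rw [norm_mul, Complex.norm_real]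
    exact mul_le_mul ((norm_snd_le y).trans hy) (hinvb w hws y hy) (norm_nonneg _) hρ
  have hint : ∫ y : ℝ × ℝ, (((y.2 : ℂ) * ((w.2 - ((y.1 : ℂ) + w.1 * (y.2 : ℂ))) ^ 2)⁻¹) •
        ContinuousLinearMap.fst ℂ ℂ ℂ
        - (((w.2 - ((y.1 : ℂ) + w.1 * (y.2 : ℂ))) ^ 2)⁻¹) • ContinuousLinearMap.snd ℂ ℂ ℂ) ∂μ =
      (∫ y : ℝ × ℝ, (y.2 : ℂ) * ((w.2 - ((y.1 : ℂ) + w.1 * (y.2 : ℂ))) ^ 2)⁻¹ ∂μ)
          • ContinuousLinearMap.fst ℂ ℂ ℂ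
        - (∫ y : ℝ × ℝ, ((w.2 - ((y.1 : ℂ) + w.1 * (y.2 : ℂ))) ^ 2)⁻¹ ∂μ)
          • ContinuousLinearMap.snd ℂ ℂ ℂ := by
    rw [integral_sub (hif1.smul_const _) (hif2.smul_const _), integral_smul_const,
      integral_smul_const]
  rw [← hint]
  refine hasFDerivAt_integral_of_dominated_of_fderiv_le (𝕜 := ℂ) (bound := fun _ => (ρ + 1) * (δ ^ 2)⁻¹)
    (s := s) (F := fun (x : ℂ × ℂ) (y : ℝ × ℝ) => (x.2 - ((y.1 : ℂ) + x.1 * (y.2 : ℂ)))⁻¹)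
    (F' := fun (x : ℂ × ℂ) (y : ℝ × ℝ) =>
      ((y.2 : ℂ) * ((x.2 - ((y.1 : ℂ) + x.1 * (y.2 : ℂ))) ^ 2)⁻¹) • ContinuousLinearMap.fst ℂ ℂ ℂ
        - (((x.2 - ((y.1 : ℂ) + x.1 * (y.2 : ℂ))) ^ 2)⁻¹) • ContinuousLinearMap.snd ℂ ℂ ℂ)
    hsn ?_ ?_ ?_ ?_ ?_ ?_
  · exact Eventually.of_forall fun x => ((J4055_meas x).inv).aestronglyMeasurable
  · refine Integrable.of_bound ((J4055_meas w).inv).aestronglyMeasurable (δ⁻¹) (hμ.mono fun y hy => ?_)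
    rw [norm_inv]
    exact inv_anti₀ hδ0 (J4055_lower hws hy).le
  · exact (hmf1.smul_const _).sub (hmf2.smul_const _)
  · refine hμ.mono fun y hy x hx => ?_
    have h1 := hinvb x hx y hy
    have hf : ‖ContinuousLinearMap.fst ℂ ℂ ℂ‖ ≤ 1 := ContinuousLinearMap.norm_fst_le ℂ ℂ ℂ
    have hsn' : ‖ContinuousLinearMap.snd ℂ ℂ ℂ‖ ≤ 1 := ContinuousLinearMap.norm_snd_le ℂ ℂ ℂ
    refine (norm_sub_le _ _).trans ?_
    rw [norm_smul, norm_smul, norm_mul, Complex.norm_real]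
    have h2 : ‖y.2‖ * ‖((x.2 - ((y.1 : ℂ) + x.1 * (y.2 : ℂ))) ^ 2)⁻¹‖ ≤ ρ * (δ ^ 2)⁻¹ :=
      mul_le_mul ((norm_snd_le y).trans hy) h1 (norm_nonneg _) hρ
    have h3 : (‖y.2‖ * ‖((x.2 - ((y.1 : ℂ) + x.1 * (y.2 : ℂ))) ^ 2)⁻¹‖) *
        ‖ContinuousLinearMap.fst ℂ ℂ ℂ‖ ≤ (ρ * (δ ^ 2)⁻¹) * 1 :=
      mul_le_mul h2 hf (norm_nonneg _) (by positivity)
    have h4 : ‖((x.2 - ((y.1 : ℂ) + x.1 * (y.2 : ℂ))) ^ 2)⁻¹‖ *
        ‖ContinuousLinearMap.snd ℂ ℂ ℂ‖ ≤ (δ ^ 2)⁻¹ * 1 :=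
      mul_le_mul h1 hsn' (norm_nonneg _) (by positivity)
    linarith
  · exact integrable_const _
  · refine hμ.mono fun y hy x hx => ?_
    have h1 := J4055_lower hx hy
    exact J4055_deriv y x (norm_pos_iff.mp (hδ0.trans h1))

theorem J4055_geo {𝕜 : Type*} [RCLike 𝕜] (l z : 𝕜) (h : ‖l‖ < ‖z‖) :
    HasSum (fun k : ℕ => (z ^ (k + 1))⁻¹ * l ^ k) (z - l)⁻¹ ∧
    HasSum (fun k : ℕ => (z ^ (k + 1))⁻¹ * ((k : 𝕜) * l ^ (k - 1))) ((z - l) ^ 2)⁻¹ := by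
  have hz : z ≠ 0 := by
    intro h0; rw [h0, norm_zero] at h; exact absurd h (not_lt.mpr (norm_nonneg _))
  have hx : ‖l / z‖ < 1 := by
    rw [norm_div, div_lt_one (norm_pos_iff.mpr hz)]; exact h
  have hzl : z - l ≠ 0 := by
    intro h0
    rw [sub_eq_zero.mp h0] at h
    exact lt_irrefl _ h
  have h1x : 1 - l / z ≠ 0 := by
    intro h0
    apply hzl
    have : l / z = 1 := (sub_eq_zero.mp h0).symm
    rw [div_eq_one_iff_eq hz] at this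
    rw [this, sub_self]
  have hg1 := hasSum_geometric_of_norm_lt_one hx
  have hg2 := hasSum_coe_mul_geometric_of_norm_lt_one hx
  constructor
  · have := hg1.mul_left z⁻¹
    have e : z⁻¹ * (1 - l / z)⁻¹ = (z - l)⁻¹ := by
      rw [← mul_inv]; congr 1; field_simp
    rw [e] at this
    refine this.congr_fun ?_ 
    intro k
    rw [div_pow, pow_succ]
    field_simp
  · have h3 := (hg2.add hg1).mul_left ((z ^ 2)⁻¹)
    have e : (z ^ 2)⁻¹ * (l / z / (1 - l / z) ^ 2 + (1 - l / z)⁻¹) = ((z - l) ^ 2)⁻¹ := by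
      have e1 : 1 - l / z = (z - l) / z := by field_simp
      rw [e1]
      field_simp
      ring
    rw [e] at h3
    rw [← hasSum_nat_add_iff' 1]
    simp only [Finset.range_one, Finset.sum_singleton, Nat.cast_zero, zero_mul, mul_zero, sub_zero]
    refine h3.congr_fun ?_
    intro k
    rw [Nat.add_sub_cancel, div_pow]
    push_cast
    field_simp
    ring

/-- TARGET 2: Cauchy transform from moments -/
theorem lim_cauchy {α : Type*} [MeasurableSpace α] (μ : Measure α) (A B l : α → ℂ)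
    (hA : Integrable A μ) (hB : Integrable B μ) (hl : AEStronglyMeasurable l μ) (r : ℝ)
    (hr : ∀ᵐ y ∂μ, ‖l y‖ ≤ r)
    (h : ∀ k : ℕ, ∫ y, (A y * l y ^ k + B y * (k * l y ^ (k - 1))) ∂μ = 0) (z : ℂ) (hz : r < ‖z‖) :
    ∫ y, (A y * (z - l y)⁻¹ + B y * ((z - l y) ^ 2)⁻¹) ∂μ = 0 := by
  rcases lt_or_ge r 0 with hr0 | hr0
  · have hf : ∀ᵐ y ∂μ, False := hr.mono fun y hy => by
      have := norm_nonneg (l y); linarith
    have : μ = 0 := ae_eq_bot.mp (Filter.eventually_false_iff_eq_bot.mp hf)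
    rw [this, integral_zero_measure]
  -- real majorants
  have hrz : ‖r‖ < ‖(‖z‖ : ℝ)‖ := by
    rw [norm_norm, Real.norm_of_nonneg hr0]; exact hz
  obtain ⟨hs1, hs2⟩ := J4055_geo (r : ℝ) (‖z‖ : ℝ) hrz
  have hzpos : 0 < ‖z‖ := lt_of_le_of_lt hr0 hz
  set C1 : ℝ := (‖z‖ - r)⁻¹ with hC1
  set C2 : ℝ := ((‖z‖ - r) ^ 2)⁻¹ with hC2
  set term : ℕ → α → ℂ := fun k y => (z ^ (k + 1))⁻¹ * (A y * l y ^ k + B y * (k * l y ^ (k - 1)))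
    with hterm
  -- integrability of each term
  have hpowb : ∀ k : ℕ, ∀ᵐ y ∂μ, ‖l y ^ k‖ ≤ r ^ k := fun k => hr.mono fun y hy => by
    rw [norm_pow]; exact pow_le_pow_left₀ (norm_nonneg _) hy k
  have hI1 : ∀ k : ℕ, Integrable (fun y => A y * l y ^ k) μ := fun k => by
    have := hA.bdd_mul (c := r ^ k) (hl.pow k) (hpowb k)
    refine this.congr (Eventually.of_forall fun y => ?_)
    simp [mul_comm]
  have hI2 : ∀ k : ℕ, Integrable (fun y => B y * (k * l y ^ (k - 1))) μ := fun k => by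
    have := (hB.bdd_mul (c := r ^ (k - 1)) (hl.pow (k - 1)) (hpowb (k - 1))).const_mul (k : ℂ)
    refine this.congr (Eventually.of_forall fun y => ?_)
    simp only [Pi.pow_apply]
    ring
  have hI : ∀ k : ℕ, Integrable (term k) μ := fun k =>
    ((hI1 k).add (hI2 k)).const_mul _
  have hzero : ∀ k : ℕ, ∫ y, term k y ∂μ = 0 := fun k => by
    rw [hterm]
    show ∫ y, (z ^ (k + 1))⁻¹ * (A y * l y ^ k + B y * (k * l y ^ (k - 1))) ∂μ = 0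
    rw [integral_const_mul, h k, mul_zero]
  have hlim : Tendsto (fun n : ℕ => ∫ y, (∑ k ∈ Finset.range n, term k y) ∂μ) atTop
      (𝓝 (∫ y, (A y * (z - l y)⁻¹ + B y * ((z - l y) ^ 2)⁻¹) ∂μ)) := by
    refine tendsto_integral_of_dominated_convergence (fun y => ‖A y‖ * C1 + ‖B y‖ * C2) ?_ ?_ ?_ ?_
    · intro n
      exact (integrable_finsetSum _ fun k _ => hI k).aestronglyMeasurable
    · exact (hA.norm.mul_const _).add (hB.norm.mul_const _)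
    · intro n
      refine hr.mono fun y hy => ?_
      refine (norm_sum_le _ _).trans ?_
      have hb : ∀ k ∈ Finset.range n, ‖term k y‖ ≤ ‖A y‖ * ((‖z‖ ^ (k + 1))⁻¹ * r ^ k) +
          ‖B y‖ * ((‖z‖ ^ (k + 1))⁻¹ * ((k : ℝ) * r ^ (k - 1))) := by
        intro k _
        have hzinv : ‖(z ^ (k + 1))⁻¹‖ = (‖z‖ ^ (k + 1))⁻¹ := by rw [norm_inv, norm_pow]
        have hp1 : ‖l y‖ ^ k ≤ r ^ k := pow_le_pow_left₀ (norm_nonneg _) hy k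
        have hp2 : ‖l y‖ ^ (k - 1) ≤ r ^ (k - 1) := pow_le_pow_left₀ (norm_nonneg _) hy (k - 1)
        rw [hterm]
        show ‖(z ^ (k + 1))⁻¹ * (A y * l y ^ k + B y * (k * l y ^ (k - 1)))‖ ≤ _
        rw [norm_mul, hzinv]
        have h1 : ‖A y * l y ^ k + B y * (k * l y ^ (k - 1))‖ ≤
            ‖A y‖ * r ^ k + ‖B y‖ * ((k : ℝ) * r ^ (k - 1)) := by
          refine (norm_add_le _ _).trans (add_le_add ?_ ?_)
          · rw [norm_mul, norm_pow]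
            exact mul_le_mul_of_nonneg_left hp1 (norm_nonneg _)
          · rw [norm_mul, norm_mul, norm_pow, Complex.norm_natCast]
            exact mul_le_mul_of_nonneg_left (mul_le_mul_of_nonneg_left hp2 (Nat.cast_nonneg _))
              (norm_nonneg _)
        have h2 : (0 : ℝ) ≤ (‖z‖ ^ (k + 1))⁻¹ := by positivity
        calc (‖z‖ ^ (k + 1))⁻¹ * ‖A y * l y ^ k + B y * (k * l y ^ (k - 1))‖
            ≤ (‖z‖ ^ (k + 1))⁻¹ * (‖A y‖ * r ^ k + ‖B y‖ * ((k : ℝ) * r ^ (k - 1))) :=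
              mul_le_mul_of_nonneg_left h1 h2
          _ = _ := by ring
      refine (Finset.sum_le_sum hb).trans ?_
      rw [Finset.sum_add_distrib, ← Finset.mul_sum, ← Finset.mul_sum]
      refine add_le_add (mul_le_mul_of_nonneg_left ?_ (norm_nonneg _))
        (mul_le_mul_of_nonneg_left ?_ (norm_nonneg _))
      · exact sum_le_hasSum _ (fun k _ => by positivity) hs1
      · exact sum_le_hasSum _ (fun k _ => by positivity) hs2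
    · refine hr.mono fun y hy => ?_
      obtain ⟨g1, g2⟩ := J4055_geo (l y) z (lt_of_le_of_lt hy hz)
      have g3 := ((g1.mul_left (A y)).add (g2.mul_left (B y))).tendsto_sum_nat
      refine g3.congr fun n => ?_
      apply Finset.sum_congr rfl
      intro k _
      rw [hterm]
      ring
  have hconst : ∀ n : ℕ, ∫ y, (∑ k ∈ Finset.range n, term k y) ∂μ = 0 := by
    intro n
    rw [integral_finsetSum _ (fun k _ => hI k)]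
    exact Finset.sum_eq_zero fun k _ => hzero k
  simp only [hconst] at hlim
  exact (tendsto_nhds_unique hlim tendsto_const_nhds)

end AS.J4055

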