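import Mathlib
import Pool.Agent.Helper272.Ell.Defs
import Pool.Agent.Helper272.Ell.J4055

set_option autoImplicit false
open Polynomial Set Filter Topology MeasureTheory Metric

namespace AS.J4056

open AS.J4055 (lim_cauchy)

/-- three-variable evaluation -/
noncomputable def Phi (s z w : ℂ) : ℂ[X][X][X] →+* ℂ := eval₂RingHom (evalEvalRingHom s z) w

/-- coefficient embedding -/
noncomputable def cc : ℂ[X] →+* ℂ[X][X][X] := RingHom.comp C C

lemma Phi_eval (s z w : ℂ) (P : ℂ[X][X]) (x : ℂ[X][X][X]) :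
    Phi s z w ((P.map cc).eval x) = P.evalEval s (Phi s z w x) := by
  rw [eval_map, hom_eval₂]
  have h : (Phi s z w).comp cc = evalRingHom s := by
    ext <;> simp [Phi, cc]
  rw [h, ← eval₂_evalRingHom]

lemma Phi_X (s z w : ℂ) : Phi s z w X = w := by simp [Phi]
lemma Phi_CX (s z w : ℂ) : Phi s z w (C X) = z := by simp [Phi]

lemma taylor2 (R : ℂ[X][X]) : ∃ E : ℂ[X][X][X], ∀ s z w : ℂ, R.evalEval s z = R.evalEval s w +
    (derivative R).evalEval s w * (z - w) + Phi s z w E * (z - w) ^ 2 := by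
  obtain ⟨k, hk⟩ := Polynomial.binomExpansion (R.map cc : ℂ[X][X][X][X]) (X : ℂ[X][X][X]) (C X - X)
  refine ⟨k, fun s z w => ?_⟩
  have h := congrArg (Phi s z w) hk
  rw [derivative_map] at h
  have h2 : Phi s z w (C X - X) = z - w := by simp [Phi]
  simp only [map_add, map_mul, map_pow, Phi_eval, Phi_X, h2] at h
  rw [add_sub_cancel] at h
  exact h

lemma taylor1 (R : ℂ[X][X]) : ∃ E : ℂ[X][X][X], ∀ s z w : ℂ, R.evalEval s z = R.evalEval s w +
    Phi s z w E * (z - w) := by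
  obtain ⟨k, hk⟩ := Polynomial.evalSubFactor (R.map cc : ℂ[X][X][X][X]) (C X : ℂ[X][X][X]) X
  refine ⟨k, fun s z w => ?_⟩
  have h := congrArg (Phi s z w) hk
  have h2 : Phi s z w (C X - X) = z - w := by simp [Phi]
  have h3 : Phi s z w ((R.map cc).eval (C X) - (R.map cc).eval X) = R.evalEval s z - R.evalEval s w := by
    have := map_sub (Phi s z w) ((R.map cc).eval (C X)) ((R.map cc).eval X)
    rw [this, Phi_eval, Phi_eval, Phi_X, Phi_CX]
  rw [h3, map_mul, h2] at h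
  rw [← h]; ring

lemma int_of (μ : Measure (ℝ × ℝ)) [IsFiniteMeasure μ] (ρ : ℝ)
    (hμ : ∀ᵐ y ∂μ, ‖y‖ ≤ ρ) (F : ℝ × ℝ → ℂ) (hF : AEStronglyMeasurable F μ) (K : ℝ)
    (hb : ∀ y, ‖y‖ ≤ ρ → ‖F y‖ ≤ K) : Integrable F μ :=
  Integrable.of_bound hF K (by filter_upwards [hμ] with y hy using hb y hy)

lemma bdd_cont (ρ : ℝ) (F : ℝ × ℝ → ℂ) (hF : Continuous F) : ∃ K, ∀ y, ‖y‖ ≤ ρ → ‖F y‖ ≤ K := by
  obtain ⟨K, hK⟩ := (isCompact_closedBall (0 : ℝ × ℝ) ρ).exists_bound_of_continuousOn hF.continuousOn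
  exact ⟨K, fun y hy => hK y (by simpa using hy)⟩

lemma int_cont (μ : Measure (ℝ × ℝ)) [IsFiniteMeasure μ] (ρ : ℝ)
    (hμ : ∀ᵐ y ∂μ, ‖y‖ ≤ ρ) (F : ℝ × ℝ → ℂ) (hF : Continuous F) : Integrable F μ := by
  obtain ⟨K, hK⟩ := bdd_cont ρ F hF
  exact int_of μ ρ hμ F hF.aestronglyMeasurable K hK

/-- the linear form -/
noncomputable def lf (s : ℂ) (y : ℝ × ℝ) : ℂ := (y.1 : ℂ) + s * (y.2 : ℂ)

lemma lf_cont (s : ℂ) : Continuous (lf s) := by unfold lf; fun_prop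

lemma lf_bd (s : ℂ) {ρ : ℝ} {y : ℝ × ℝ} (hy : ‖y‖ ≤ ρ) : ‖lf s y‖ ≤ ρ * (1 + ‖s‖) := by
  unfold lf
  have h1 : ‖(y.1 : ℂ)‖ ≤ ρ := by
    rw [Complex.norm_real]; exact (norm_fst_le y).trans hy
  have h2 : ‖(y.2 : ℂ)‖ ≤ ρ := by
    rw [Complex.norm_real]; exact (norm_snd_le y).trans hy
  refine (norm_add_le _ _).trans ?_
  rw [norm_mul]
  nlinarith [norm_nonneg s, mul_le_mul_of_nonneg_left h2 (norm_nonneg s)]

lemma int_inv (μ : Measure (ℝ × ℝ)) [IsFiniteMeasure μ] (ρ : ℝ)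
    (hμ : ∀ᵐ y ∂μ, ‖y‖ ≤ ρ) (F : ℝ × ℝ → ℂ) (hF : Continuous F) (s z : ℂ)
    (hz : ρ * (1 + ‖s‖) < ‖z‖) : Integrable (fun y => F y * (z - lf s y)⁻¹) μ := by
  obtain ⟨K, hK⟩ := bdd_cont ρ F hF
  have hm : Measurable (fun y => (z - lf s y)⁻¹) := (measurable_const.sub (lf_cont s).measurable).inv
  refine int_of μ ρ hμ _ (hF.measurable.mul hm).aestronglyMeasurable
    (K * (‖z‖ - ρ * (1 + ‖s‖))⁻¹) fun y hy => ?_
  rw [norm_mul, norm_inv]
  have h1 : ‖z‖ - ρ * (1 + ‖s‖) ≤ ‖z - lf s y‖ := by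
    have := norm_sub_norm_le z (lf s y)
    linarith [lf_bd s hy]
  have h2 : ‖z - lf s y‖⁻¹ ≤ (‖z‖ - ρ * (1 + ‖s‖))⁻¹ := inv_anti₀ (by linarith) h1
  exact mul_le_mul (hK y hy) h2 (by positivity) ((norm_nonneg _).trans (hK y hy))

lemma int_inv2 (μ : Measure (ℝ × ℝ)) [IsFiniteMeasure μ] (ρ : ℝ)
    (hμ : ∀ᵐ y ∂μ, ‖y‖ ≤ ρ) (F : ℝ × ℝ → ℂ) (hF : Continuous F) (s z : ℂ)
    (hz : ρ * (1 + ‖s‖) < ‖z‖) : Integrable (fun y => F y * ((z - lf s y) ^ 2)⁻¹) μ := by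
  obtain ⟨K, hK⟩ := bdd_cont ρ F hF
  have hm : Measurable (fun y => ((z - lf s y) ^ 2)⁻¹) :=
    ((measurable_const.sub (lf_cont s).measurable).pow_const 2).inv
  refine int_of μ ρ hμ _ (hF.measurable.mul hm).aestronglyMeasurable
    (K * ((‖z‖ - ρ * (1 + ‖s‖)) ^ 2)⁻¹) fun y hy => ?_
  rw [norm_mul, norm_inv, norm_pow]
  have h1 : ‖z‖ - ρ * (1 + ‖s‖) ≤ ‖z - lf s y‖ := by
    have := norm_sub_norm_le z (lf s y)
    linarith [lf_bd s hy]
  have h0 : 0 < ‖z‖ - ρ * (1 + ‖s‖) := by linarith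
  have h2 : (‖z - lf s y‖ ^ 2)⁻¹ ≤ ((‖z‖ - ρ * (1 + ‖s‖)) ^ 2)⁻¹ :=
    inv_anti₀ (by positivity) (pow_le_pow_left₀ h0.le h1 2)
  exact mul_le_mul (hK y hy) h2 (by positivity) ((norm_nonneg _).trans (hK y hy))

lemma evalEval_cont (P : ℂ[X][X]) (s : ℂ) : Continuous (fun w : ℂ => P.evalEval s w) := by
  have h : (fun w : ℂ => P.evalEval s w) = fun w => (P.map (evalRingHom s)).eval w := by
    funext w
    rw [← eval₂_evalRingHom, eval_map]
  rw [h]; exact Polynomial.continuous _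

lemma Phi_cont (E : ℂ[X][X][X]) (s z : ℂ) : Continuous (fun w : ℂ => Phi s z w E) := by
  have h : (fun w : ℂ => Phi s z w E) = fun w => (E.map (evalEvalRingHom s z)).eval w := by
    funext w
    rw [eval_map]; rfl
  rw [h]; exact Polynomial.continuous _

lemma poly_int (μ : Measure (ℝ × ℝ)) [IsFiniteMeasure μ] (ρ : ℝ)
    (hμ : ∀ᵐ y ∂μ, ‖y‖ ≤ ρ) (j : ℕ) (E : ℂ[X][X][X]) :
    ∃ Q : ℂ[X][X], ∀ s z : ℂ, ∫ y : ℝ × ℝ, (y.2 : ℂ) ^ j * Phi s z (lf s y) E ∂μ = Q.evalEval s z := by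
  induction E using Polynomial.induction_on' with
  | add p q hp hq =>
    obtain ⟨Q1, h1⟩ := hp
    obtain ⟨Q2, h2⟩ := hq
    refine ⟨Q1 + Q2, fun s z => ?_⟩
    rw [evalEval_add, ← h1, ← h2, ← integral_add]
    · refine integral_congr_ae (Filter.Eventually.of_forall fun y => ?_)
      simp only [map_add]; ring
    · exact int_cont μ ρ hμ _ (by have := (Phi_cont p s z).comp (lf_cont s); fun_prop)
    · exact int_cont μ ρ hμ _ (by have := (Phi_cont q s z).comp (lf_cont s); fun_prop)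
  | monomial k a =>
    refine ⟨a * C (∑ i ∈ Finset.range (k + 1), C ((k.choose i : ℂ) *
      ∫ y : ℝ × ℝ, (y.1 : ℂ) ^ (k - i) * (y.2 : ℂ) ^ (i + j) ∂μ) * X ^ i), fun s z => ?_⟩
    have h1 : ∀ y : ℝ × ℝ, (y.2 : ℂ) ^ j * Phi s z (lf s y) (monomial k a) =
        a.evalEval s z * ∑ i ∈ Finset.range (k + 1), ((k.choose i : ℂ) * s ^ i) *
          ((y.1 : ℂ) ^ (k - i) * (y.2 : ℂ) ^ (i + j)) := by
      intro y
      have h2 : Phi s z (lf s y) (monomial k a) = a.evalEval s z * (lf s y) ^ k := by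
        simp [Phi]
      have h3 : (lf s y) ^ k = ∑ i ∈ Finset.range (k + 1), (s * (y.2 : ℂ)) ^ i * (y.1 : ℂ) ^ (k - i) *
          (k.choose i : ℂ) := by
        unfold lf
        rw [add_comm, add_pow]
      rw [h2, h3, mul_left_comm, Finset.mul_sum]
      congr 1
      refine Finset.sum_congr rfl fun i _ => ?_
      rw [mul_pow, pow_add]; ring
    simp_rw [h1]
    rw [integral_const_mul, evalEval_mul, evalEval_C, eval_finsetSum, integral_finsetSum]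
    · congr 1
      refine Finset.sum_congr rfl fun i _ => ?_
      rw [integral_const_mul]
      simp only [eval_mul, eval_C, eval_pow, eval_X]
      ring
    · intro i _
      exact int_cont μ ρ hμ _ (by fun_prop)

/-- TARGET 1 -/
theorem exists_Q (μ : Measure (ℝ × ℝ)) [IsFiniteMeasure μ] (ρ : ℝ) (hρ : 0 ≤ ρ)
    (hμ : ∀ᵐ y ∂μ, ‖y‖ ≤ ρ) (m : ℕ) (R : ℂ[X][X])
    (hZ : ∀ (s : ℂ) (k : ℕ), ∫ y : ℝ × ℝ,
      ((m + 1) * (derivative R).evalEval s ((y.1 : ℂ) + s * (y.2 : ℂ))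
          * ((y.1 : ℂ) + s * (y.2 : ℂ)) ^ k
        + m * R.evalEval s ((y.1 : ℂ) + s * (y.2 : ℂ))
          * (k * ((y.1 : ℂ) + s * (y.2 : ℂ)) ^ (k - 1))) ∂μ = 0) :
    ∃ Q : ℂ[X][X], ∀ s z : ℂ, ρ * (1 + ‖s‖) < ‖z‖ →
      m * R.evalEval s z * (-∫ y : ℝ × ℝ, ((z - ((y.1 : ℂ) + s * (y.2 : ℂ))) ^ 2)⁻¹ ∂μ)
        - (derivative R).evalEval s z * (∫ y : ℝ × ℝ, (z - ((y.1 : ℂ) + s * (y.2 : ℂ)))⁻¹ ∂μ)
        = Q.evalEval s z := by
  obtain ⟨E1, hE1⟩ := taylor2 R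
  obtain ⟨E2, hE2⟩ := taylor1 (derivative R)
  obtain ⟨Q0, hQ0⟩ := poly_int μ ρ hμ 0 ((m : ℂ[X][X][X]) * E1 + E2)
  refine ⟨-Q0, fun s z hz => ?_⟩
  change m * R.evalEval s z * (-∫ y : ℝ × ℝ, ((z - lf s y) ^ 2)⁻¹ ∂μ)
        - (derivative R).evalEval s z * (∫ y : ℝ × ℝ, (z - lf s y)⁻¹ ∂μ) = _
  have hR := (evalEval_cont R s).comp (lf_cont s)
  have hR' := (evalEval_cont (derivative R) s).comp (lf_cont s)
  have hP := (Phi_cont ((m : ℂ[X][X][X]) * E1 + E2) s z).comp (lf_cont s)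
  have hlc := lim_cauchy μ (fun y => (m + 1) * (derivative R).evalEval s (lf s y))
    (fun y => m * R.evalEval s (lf s y)) (lf s)
    (int_cont μ ρ hμ _ (continuous_const.mul hR'))
    (int_cont μ ρ hμ _ (continuous_const.mul hR))
    (lf_cont s).aestronglyMeasurable (ρ * (1 + ‖s‖))
    (by filter_upwards [hμ] with y hy using lf_bd s hy) (hZ s) z hz
  have i1 : Integrable (fun y => (m + 1) * (derivative R).evalEval s (lf s y) * (z - lf s y)⁻¹) μ :=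
    int_inv μ ρ hμ _ (continuous_const.mul hR') s z hz
  have i2 : Integrable (fun y => m * R.evalEval s (lf s y) * ((z - lf s y) ^ 2)⁻¹) μ :=
    int_inv2 μ ρ hμ _ (continuous_const.mul hR) s z hz
  have i3 : Integrable (fun y : ℝ × ℝ => (y.2 : ℂ) ^ 0 * Phi s z (lf s y) ((m : ℂ[X][X][X]) * E1 + E2)) μ :=
    int_cont μ ρ hμ _ (by
      have h := (continuous_const (y := (1 : ℂ))).mul hP
      refine h.congr fun y => ?_
      simp)
  have hL : m * R.evalEval s z * (-∫ y : ℝ × ℝ, ((z - lf s y) ^ 2)⁻¹ ∂μ)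
        - (derivative R).evalEval s z * (∫ y : ℝ × ℝ, (z - lf s y)⁻¹ ∂μ) =
      ∫ y, (-((m + 1) * (derivative R).evalEval s (lf s y) * (z - lf s y)⁻¹ +
        m * R.evalEval s (lf s y) * ((z - lf s y) ^ 2)⁻¹) -
        (y.2 : ℂ) ^ 0 * Phi s z (lf s y) ((m : ℂ[X][X][X]) * E1 + E2)) ∂μ := by
    rw [← integral_neg, ← integral_const_mul, ← integral_const_mul, ← integral_sub]
    · refine integral_congr_ae ?_
      filter_upwards [hμ] with y hy
      have hne : z - lf s y ≠ 0 := by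
        intro h0
        have h1 : z = lf s y := sub_eq_zero.mp h0
        have h2 := lf_bd s hy
        rw [← h1] at h2
        linarith
      have e1 := hE1 s z (lf s y)
      have e2 := hE2 s z (lf s y)
      have e3 : Phi s z (lf s y) ((m : ℂ[X][X][X]) * E1 + E2) =
          m * Phi s z (lf s y) E1 + Phi s z (lf s y) E2 := by
        rw [map_add, map_mul, map_natCast]
      rw [e1, e2, e3]
      field_simp
      ring
    · have h := (int_inv2 μ ρ hμ (fun _ => (1 : ℂ)) continuous_const s z hz).neg.const_mul (m * R.evalEval s z)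
      refine h.congr (Filter.Eventually.of_forall fun y => ?_)
      simp
    · have h := (int_inv μ ρ hμ (fun _ => (1 : ℂ)) continuous_const s z hz).const_mul
        ((derivative R).evalEval s z)
      refine h.congr (Filter.Eventually.of_forall fun y => ?_)
      simp
  have i12 : Integrable (fun y => -((m + 1) * (derivative R).evalEval s (lf s y) * (z - lf s y)⁻¹ +
        m * R.evalEval s (lf s y) * ((z - lf s y) ^ 2)⁻¹)) μ := (i1.add i2).neg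
  rw [hL, integral_sub i12 i3, integral_neg, hlc, hQ0, evalEval_neg]
  ring

/-- TARGET 2 -/
theorem exists_Q2 (μ : Measure (ℝ × ℝ)) [IsFiniteMeasure μ] (ρ : ℝ) (hρ : 0 ≤ ρ)
    (hμ : ∀ᵐ y ∂μ, ‖y‖ ≤ ρ) (m : ℕ) (hm : 0 < m) (R : ℂ[X][X]) (N G : ℂ[X])
    (hS : ∀ (s : ℂ) (k : ℕ), ∫ y : ℝ × ℝ,
      ((N.eval s * (m * (y.2 : ℂ) * (derivative R).evalEval s ((y.1 : ℂ) + s * (y.2 : ℂ))
            - (dS R).evalEval s ((y.1 : ℂ) + s * (y.2 : ℂ)))
          + G.eval s * R.evalEval s ((y.1 : ℂ) + s * (y.2 : ℂ)))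
          * ((y.1 : ℂ) + s * (y.2 : ℂ)) ^ k
        + N.eval s * (m * (y.2 : ℂ) * R.evalEval s ((y.1 : ℂ) + s * (y.2 : ℂ)))
          * (k * ((y.1 : ℂ) + s * (y.2 : ℂ)) ^ (k - 1))) ∂μ = 0) :
    ∃ Q2 : ℂ[X][X], ∀ s z : ℂ, ρ * (1 + ‖s‖) < ‖z‖ →
      N.eval s * (m * R.evalEval s z
          * (∫ y : ℝ × ℝ, (y.2 : ℂ) * ((z - ((y.1 : ℂ) + s * (y.2 : ℂ))) ^ 2)⁻¹ ∂μ)
          - (dS R).evalEval s z * (∫ y : ℝ × ℝ, (z - ((y.1 : ℂ) + s * (y.2 : ℂ)))⁻¹ ∂μ))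
        + G.eval s * R.evalEval s z * (∫ y : ℝ × ℝ, (z - ((y.1 : ℂ) + s * (y.2 : ℂ)))⁻¹ ∂μ)
        = Q2.evalEval s z := by
  obtain ⟨E1, hE1⟩ := taylor2 R
  obtain ⟨E3, hE3⟩ := taylor1 (dS R)
  obtain ⟨E4, hE4⟩ := taylor1 R
  obtain ⟨Q1, hQ1⟩ := poly_int μ ρ hμ 1 E1
  obtain ⟨Q3, hQ3⟩ := poly_int μ ρ hμ 0 E3
  obtain ⟨Q4, hQ4⟩ := poly_int μ ρ hμ 0 E4
  refine ⟨C N * (m : ℂ[X][X]) * Q1 - C N * Q3 + C G * Q4, fun s z hz => ?_⟩
  change N.eval s * (m * R.evalEval s z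
          * (∫ y : ℝ × ℝ, (y.2 : ℂ) * ((z - lf s y) ^ 2)⁻¹ ∂μ)
          - (dS R).evalEval s z * (∫ y : ℝ × ℝ, (z - lf s y)⁻¹ ∂μ))
        + G.eval s * R.evalEval s z * (∫ y : ℝ × ℝ, (z - lf s y)⁻¹ ∂μ) = _
  have hR := (evalEval_cont R s).comp (lf_cont s)
  have hR' := (evalEval_cont (derivative R) s).comp (lf_cont s)
  have hD := (evalEval_cont (dS R) s).comp (lf_cont s)
  have hP1 := (Phi_cont E1 s z).comp (lf_cont s)
  have hP3 := (Phi_cont E3 s z).comp (lf_cont s)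
  have hP4 := (Phi_cont E4 s z).comp (lf_cont s)
  have hy2 : Continuous (fun y : ℝ × ℝ => (y.2 : ℂ)) := by fun_prop
  have hAc : Continuous (fun y : ℝ × ℝ => N.eval s * (m * (y.2 : ℂ) * (derivative R).evalEval s (lf s y)
            - (dS R).evalEval s (lf s y)) + G.eval s * R.evalEval s (lf s y)) :=
    (continuous_const.mul (((continuous_const.mul hy2).mul hR').sub hD)).add (continuous_const.mul hR)
  have hBc : Continuous (fun y : ℝ × ℝ => N.eval s * (m * (y.2 : ℂ) * R.evalEval s (lf s y))) :=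
    continuous_const.mul ((continuous_const.mul hy2).mul hR)
  have hlc := lim_cauchy μ (fun y : ℝ × ℝ => N.eval s * (m * (y.2 : ℂ) * (derivative R).evalEval s (lf s y)
            - (dS R).evalEval s (lf s y)) + G.eval s * R.evalEval s (lf s y))
    (fun y : ℝ × ℝ => N.eval s * (m * (y.2 : ℂ) * R.evalEval s (lf s y))) (lf s)
    (int_cont μ ρ hμ _ hAc) (int_cont μ ρ hμ _ hBc)
    (lf_cont s).aestronglyMeasurable (ρ * (1 + ‖s‖))
    (by filter_upwards [hμ] with y hy using lf_bd s hy) (hS s) z hz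
  have i1 := int_inv μ ρ hμ _ hAc s z hz
  have i2 := int_inv2 μ ρ hμ _ hBc s z hz
  have j1 : Integrable (fun y : ℝ × ℝ => (y.2 : ℂ) ^ 1 * Phi s z (lf s y) E1) μ :=
    int_cont μ ρ hμ _ ((hy2.pow 1).mul hP1)
  have j3 : Integrable (fun y : ℝ × ℝ => (y.2 : ℂ) ^ 0 * Phi s z (lf s y) E3) μ :=
    int_cont μ ρ hμ _ ((hy2.pow 0).mul hP3)
  have j4 : Integrable (fun y : ℝ × ℝ => (y.2 : ℂ) ^ 0 * Phi s z (lf s y) E4) μ :=
    int_cont μ ρ hμ _ ((hy2.pow 0).mul hP4)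
  have k2 : Integrable (fun y : ℝ × ℝ => (y.2 : ℂ) * ((z - lf s y) ^ 2)⁻¹) μ :=
    int_inv2 μ ρ hμ _ hy2 s z hz
  have k1 : Integrable (fun y : ℝ × ℝ => (z - lf s y)⁻¹) μ := by
    refine (int_inv μ ρ hμ (fun _ => (1 : ℂ)) continuous_const s z hz).congr
      (Filter.Eventually.of_forall fun y => ?_)
    simp
  have hL : N.eval s * (m * R.evalEval s z
          * (∫ y : ℝ × ℝ, (y.2 : ℂ) * ((z - lf s y) ^ 2)⁻¹ ∂μ)
          - (dS R).evalEval s z * (∫ y : ℝ × ℝ, (z - lf s y)⁻¹ ∂μ))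
        + G.eval s * R.evalEval s z * (∫ y : ℝ × ℝ, (z - lf s y)⁻¹ ∂μ) =
      ∫ y, ((((N.eval s * (m * (y.2 : ℂ) * (derivative R).evalEval s (lf s y)
            - (dS R).evalEval s (lf s y)) + G.eval s * R.evalEval s (lf s y)) * (z - lf s y)⁻¹ +
        N.eval s * (m * (y.2 : ℂ) * R.evalEval s (lf s y)) * ((z - lf s y) ^ 2)⁻¹) +
        (N.eval s * m) * ((y.2 : ℂ) ^ 1 * Phi s z (lf s y) E1)) -
        N.eval s * ((y.2 : ℂ) ^ 0 * Phi s z (lf s y) E3) +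
        G.eval s * ((y.2 : ℂ) ^ 0 * Phi s z (lf s y) E4)) ∂μ := by
    have g1 : N.eval s * (m * R.evalEval s z
          * (∫ y : ℝ × ℝ, (y.2 : ℂ) * ((z - lf s y) ^ 2)⁻¹ ∂μ)
          - (dS R).evalEval s z * (∫ y : ℝ × ℝ, (z - lf s y)⁻¹ ∂μ))
        + G.eval s * R.evalEval s z * (∫ y : ℝ × ℝ, (z - lf s y)⁻¹ ∂μ) =
        (∫ y : ℝ × ℝ, (N.eval s * (m * R.evalEval s z)) * ((y.2 : ℂ) * ((z - lf s y) ^ 2)⁻¹) ∂μ) +
        (∫ y : ℝ × ℝ, (-(N.eval s * (dS R).evalEval s z) + G.eval s * R.evalEval s z) * (z - lf s y)⁻¹ ∂μ) := by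
      rw [integral_const_mul, integral_const_mul]; ring
    rw [g1, ← integral_add (k2.const_mul _) (k1.const_mul _)]
    refine integral_congr_ae ?_
    filter_upwards [hμ] with y hy
    have hne : z - lf s y ≠ 0 := by
      intro h0
      have h1 : z = lf s y := sub_eq_zero.mp h0
      have h2 := lf_bd s hy
      rw [← h1] at h2
      linarith
    have e1 := hE1 s z (lf s y)
    have e3 := hE3 s z (lf s y)
    have e4 := hE4 s z (lf s y)
    have f1 : R.evalEval s z * ((z - lf s y) ^ 2)⁻¹ = R.evalEval s (lf s y) * ((z - lf s y) ^ 2)⁻¹ +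
        (derivative R).evalEval s (lf s y) * (z - lf s y)⁻¹ + Phi s z (lf s y) E1 := by
      rw [e1]; field_simp
    have f3 : (dS R).evalEval s z * (z - lf s y)⁻¹ = (dS R).evalEval s (lf s y) * (z - lf s y)⁻¹ +
        Phi s z (lf s y) E3 := by
      rw [e3]; field_simp
    have f4 : R.evalEval s z * (z - lf s y)⁻¹ = R.evalEval s (lf s y) * (z - lf s y)⁻¹ +
        Phi s z (lf s y) E4 := by
      rw [e4]; field_simp
    simp only [pow_one, pow_zero, one_mul]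
    linear_combination (N.eval s * m * (y.2 : ℂ)) * f1 - N.eval s * f3 + G.eval s * f4
  rw [hL, integral_add, integral_sub, integral_add, hlc, integral_const_mul, integral_const_mul,
    integral_const_mul, hQ1, hQ3, hQ4]
  · simp only [evalEval_add, evalEval_sub, evalEval_mul, evalEval_C, evalEval_natCast]
    ring
  · exact i1.add i2
  · exact j1.const_mul _
  · exact (i1.add i2).add (j1.const_mul _)
  · exact j3.const_mul _
  · exact ((i1.add i2).add (j1.const_mul _)).sub (j3.const_mul _)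
  · exact j4.const_mul _

end AS.J4056

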