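import Mathlib
import Pool.Agent.Helper272.Ell.Defs
import Pool.Agent.Helper272.Ell.J3795
import Pool.Agent.Helper272.Ell.J4094

set_option autoImplicit false
open Polynomial Set Filter Topology MeasureTheory Metric

namespace AS.J4095

open AS.J3795 (hom_exists sol_exists sol_diff hom_ratio sol_unique)
open AS.J4094 (jump)

/-! the following lemmas are proved elsewhere, you may use them -/

theorem t12_eval (P : ℝ[X]) (x : ℝ) :
    (P.map (algebraMap ℝ ℂ)).eval (x : ℂ) = ((P.eval x : ℝ) : ℂ) := by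
  rw [Polynomial.eval_map]; exact Polynomial.eval₂_at_apply (algebraMap ℝ ℂ) x

theorem t12_root {α β : ℂ} {m : ℕ} (hm : 0 < m) (hα : α ≠ 0) (h : α ^ m = β ^ m) :
    ∃ ζ : ℂ, IsIntegral ℤ ζ ∧ β = ζ * α := by
  refine ⟨β / α, ?_, by field_simp⟩
  apply IsIntegral.of_pow hm
  rw [div_pow, ← h, div_self (pow_ne_zero _ hα)]
  exact isIntegral_one

theorem t12_coset {v c α β : ℂ} {m : ℕ} (hm : 0 < m) (hα : α ≠ 0) (h : α ^ m = β ^ m) :
    coset v (c * α) = coset v (c * β) := by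
  have hβ : β ≠ 0 := by
    intro h0
    rw [h0, zero_pow hm.ne'] at h
    exact hα (pow_eq_zero_iff hm.ne' |>.1 h)
  obtain ⟨ζ, hζ, h1⟩ := t12_root hm hα h
  obtain ⟨ξ, hξ, h2⟩ := t12_root hm hβ h.symm
  ext w
  constructor
  · rintro ⟨x, hx, rfl⟩
    exact ⟨x * ξ, hx.mul hξ, by rw [h2]; ring⟩
  · rintro ⟨x, hx, rfl⟩
    exact ⟨x * ζ, hx.mul hζ, by rw [h1]; ring⟩

theorem t12_coset_add {v b : ℂ} : coset (v + b) b = coset v b := by
  ext w
  constructor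
  · rintro ⟨x, hx, rfl⟩
    exact ⟨x + 1, hx.add isIntegral_one, by ring⟩
  · rintro ⟨x, hx, rfl⟩
    exact ⟨x - 1, hx.sub isIntegral_one, by ring⟩

theorem t12_hd (Q : ℂ[X]) (z : ℂ) : HasDerivAt (fun z => Q.eval z) ((derivative Q).eval z) z :=
  Q.hasDerivAt z

theorem t12_pow (Q : ℂ[X]) {m : ℕ} (hm : 0 < m) {V : Set ℂ} (hVo : IsOpen V)
    (hVp : IsPreconnected V) (hV : ∀ z ∈ V, Q.eval z ≠ 0) {α : ℂ → ℂ}
    (hα : Hom (fun z => (derivative Q).eval z / (m * Q.eval z)) V α) {z₀ : ℂ} (hz₀ : z₀ ∈ V)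
    (h : α z₀ ^ m = Q.eval z₀) : ∀ z ∈ V, α z ^ m = Q.eval z := by
  have hm' : (m : ℂ) ≠ 0 := Nat.cast_ne_zero.2 hm.ne'
  have hb : Hom (fun z => (derivative Q).eval z / Q.eval z) V (fun z => Q.eval z) := by
    intro z hz
    refine ⟨?_, hV z hz⟩
    have := t12_hd Q z
    rwa [div_mul_cancel₀ _ (hV z hz)]
  have hc : ∀ z ∈ V, HasDerivAt (fun z => α z ^ m)
      ((fun z => (derivative Q).eval z / Q.eval z) z * (fun z => α z ^ m) z) z := by
    intro z hz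
    have h1 := (hα z hz).1.pow m
    have hq := hV z hz
    have h5 : α z ^ m = α z ^ (m - 1) * α z := by
      rw [← pow_succ]; congr 1; omega
    have h6 : (derivative Q).eval z / Q.eval z * α z ^ m =
      m * α z ^ (m - 1) * ((derivative Q).eval z / (m * Q.eval z) * α z) := by
      rw [h5]
      field_simp
    show HasDerivAt (fun z => α z ^ m) ((derivative Q).eval z / Q.eval z * α z ^ m) z
    rw [h6]
    exact h1
  obtain ⟨k, hk⟩ := hom_ratio hVo hVp hb hc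
  have h1 := hk z₀ hz₀
  have hk1 : k = 1 := by
    have h2 : (1 : ℂ) * Q.eval z₀ = k * Q.eval z₀ := by rw [one_mul, ← h1, h]
    exact (mul_right_cancel₀ (hV z₀ hz₀) h2).symm
  intro z hz
  have h2 := hk z hz
  rw [h2, hk1, one_mul]

/-- the base value -/
noncomputable def t12_base (U : Set ℝ) (Fe : ℂ → ℂ) (z : ℂ) : ℂ :=
  open Classical in if z.im = 0 ∧ z.re ∈ U then
    limUnder (𝓝[>] (0 : ℝ)) (fun ε : ℝ => Fe ((z.re : ℂ) + ε * Complex.I)) else Fe z

/-- the coset field -/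
def t12_C (U : Set ℝ) (P : ℝ[X]) (m : ℕ) (Fe : ℂ → ℂ) (z : ℂ) : Set ℂ :=
  {w | ∃ α : ℂ, α ^ m = (P.map (algebraMap ℝ ℂ)).eval z ∧
    w ∈ coset (t12_base U Fe z) (2 * Real.pi * Complex.I * α)}

theorem t12_C_eq (U : Set ℝ) (P : ℝ[X]) {m : ℕ} (hm : 0 < m) (Fe : ℂ → ℂ) {z α : ℂ}
    (hz : (P.map (algebraMap ℝ ℂ)).eval z ≠ 0) (hα : α ^ m = (P.map (algebraMap ℝ ℂ)).eval z) :
    t12_C U P m Fe z = coset (t12_base U Fe z) (2 * Real.pi * Complex.I * α) := by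
  ext w
  constructor
  · rintro ⟨β, hβ, hw⟩
    have hβ0 : β ≠ 0 := by
      rintro rfl
      rw [zero_pow hm.ne'] at hβ
      exact hz hβ.symm
    rwa [t12_coset hm hβ0 (hβ.trans hα.symm)] at hw
  · intro hw
    exact ⟨α, hα, hw⟩

theorem t12_A (U : Set ℝ) (hUo : IsOpen U) (hUb : Bornology.IsBounded U)
    (P : ℝ[X]) (hpos : ∀ t ∈ U, 0 < P.eval t) (m : ℕ) :
    ∃ A : ℝ → ℝ, Integrable A ∧ (∃ M, ∀ t, |A t| ≤ M) ∧ (∀ x ∈ U, ContinuousAt A x) ∧
      (∀ x ∈ U, A x = P.eval x ^ (1 / (m : ℝ))) ∧ ∀ z : ℂ,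
      ∫ t in U, ((P.eval t ^ (1 / (m : ℝ)) : ℝ) : ℂ) / (z - t) = ∫ t, (A t : ℂ) / (z - t) := by
  have hc : Continuous (fun t => P.eval t ^ (1 / (m : ℝ))) :=
    P.continuous.rpow_const (fun _ => Or.inr (by positivity))
  have hK : IsCompact (closure U) := hUb.isCompact_closure
  refine ⟨U.indicator (fun t => P.eval t ^ (1 / (m : ℝ))), ?_, ?_, ?_, ?_, ?_⟩
  · exact ((hc.continuousOn.integrableOn_compact hK).mono_set subset_closure).integrable_indicator
      hUo.measurableSet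
  · obtain ⟨M, hM⟩ := hK.exists_bound_of_continuousOn hc.continuousOn
    refine ⟨max M 0, fun t => ?_⟩
    by_cases ht : t ∈ U
    · rw [indicator_of_mem ht]
      exact (hM t (subset_closure ht)).trans (le_max_left _ _)
    · rw [indicator_of_notMem ht, abs_zero]
      exact le_max_right _ _
  · intro x hx
    apply hc.continuousAt.congr
    filter_upwards [hUo.mem_nhds hx] with t ht
    rw [indicator_of_mem ht]
  · intro x hx
    rw [indicator_of_mem hx]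
  · intro z
    rw [← integral_indicator hUo.measurableSet]
    congr 1
    ext t
    by_cases ht : t ∈ U
    · rw [indicator_of_mem ht, indicator_of_mem ht]
    · rw [indicator_of_notMem ht, indicator_of_notMem ht]
      simp

theorem t12_adiff (Q : ℂ[X]) {m : ℕ} (hm : 0 < m) {V : Set ℂ} (hV : ∀ z ∈ V, Q.eval z ≠ 0) :
    DifferentiableOn ℂ (fun z => (derivative Q).eval z / (m * Q.eval z)) V := by
  intro z hz
  have := hV z hz
  have hm' : (m : ℂ) ≠ 0 := Nat.cast_ne_zero.2 hm.ne'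
  exact (((derivative Q).differentiable.differentiableAt).div
    ((differentiableAt_const _).mul Q.differentiable.differentiableAt)
      (mul_ne_zero hm' this)).differentiableWithinAt

theorem t12_hom_of_pow (Q : ℂ[X]) {m : ℕ} (hm : 0 < m) {V : Set ℂ} (hVo : IsOpen V)
    (hV : ∀ z ∈ V, Q.eval z ≠ 0) {α : ℂ → ℂ} (hd : ∀ z ∈ V, DifferentiableAt ℂ α z)
    (h : ∀ z ∈ V, α z ^ m = Q.eval z) :
    Hom (fun z => (derivative Q).eval z / (m * Q.eval z)) V α := by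
  have hm' : (m : ℂ) ≠ 0 := Nat.cast_ne_zero.2 hm.ne'
  intro z hz
  have h0 : α z ≠ 0 := by
    intro h0
    have := h z hz
    rw [h0, zero_pow hm.ne'] at this
    exact hV z hz this.symm
  refine ⟨?_, h0⟩
  have h1 := (hd z hz).hasDerivAt
  have h2 := h1.pow m
  have h3 : HasDerivAt (fun z => Q.eval z) (↑m * α z ^ (m - 1) * deriv α z) z := by
    apply h2.congr_of_eventuallyEq
    filter_upwards [hVo.mem_nhds hz] with w hw
    exact (h w hw).symm
  have h4 := h3.unique (t12_hd Q z)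
  have h5 : deriv α z = (derivative Q).eval z / (m * Q.eval z) * α z := by
    have h6 : α z ^ m = α z ^ (m - 1) * α z := by
      rw [← pow_succ]; congr 1; omega
    rw [← h4, ← h z hz, h6]
    field_simp
  rw [h5] at h1
  exact h1

theorem t12_alpha (Q : ℂ[X]) {m : ℕ} (hm : 0 < m) {V : Set ℂ} (hVo : IsOpen V)
    (hVc : Convex ℝ V) (hV : ∀ z ∈ V, Q.eval z ≠ 0) {z₀ : ℂ} (hz₀ : z₀ ∈ V) {v : ℂ}
    (hv : v ^ m = Q.eval z₀) :
    ∃ α, Hom (fun z => (derivative Q).eval z / (m * Q.eval z)) V α ∧ α z₀ = v ∧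
      ∀ z ∈ V, α z ^ m = Q.eval z := by
  have hv0 : v ≠ 0 := by
    rintro rfl
    rw [zero_pow hm.ne'] at hv
    exact hV z₀ hz₀ hv.symm
  obtain ⟨α, h1, h2⟩ := hom_exists hVo hVc (t12_adiff Q hm hV) hz₀ v hv0
  exact ⟨α, h1, h2, t12_pow Q hm hVo hVc.isPreconnected hV h1 hz₀ (by rw [h2, hv])⟩

theorem t12_scale {a : ℂ → ℂ} {V : Set ℂ} {α : ℂ → ℂ} (h : Hom a V α) :
    Hom a V (fun z => 2 * Real.pi * Complex.I * α z) := by
  intro z hz
  obtain ⟨h1, h2⟩ := h z hz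
  refine ⟨?_, ?_⟩
  · have := h1.const_mul (2 * Real.pi * Complex.I : ℂ)
    have e : a z * (fun z => 2 * Real.pi * Complex.I * α z) z =
      2 * Real.pi * Complex.I * (a z * α z) := by
      simp only
      ring
    rw [e]
    exact this
  · exact mul_ne_zero Complex.two_pi_I_ne_zero h2

theorem t12_openO (U : Set ℝ) : IsOpen {z : ℂ | ∀ t ∈ closure U, z ≠ (t : ℂ)} := by
  have h1 : IsClosed ((fun t : ℝ => (t : ℂ)) '' closure U) :=
    Complex.isometry_ofReal.isClosedEmbedding.isClosedMap _ isClosed_closure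
  have h2 : {z : ℂ | ∀ t ∈ closure U, z ≠ (t : ℂ)} = ((fun t : ℝ => (t : ℂ)) '' closure U)ᶜ := by
    ext z
    simp only [mem_ofPred_eq, mem_compl_iff, mem_image, not_exists, not_and]
    exact ⟨fun h t ht e => h t ht e.symm, fun h t ht e => h t ht e.symm⟩
  rw [h2]
  exact h1.isOpen_compl

theorem t12_openQ (Q : ℂ[X]) : IsOpen {z : ℂ | Q.eval z ≠ 0} :=
  isOpen_ne_fun Q.continuous continuous_const

theorem t12_flat_off (U : Set ℝ) (P : ℝ[X]) (m : ℕ) (hm : 0 < m) (a p Fe : ℂ → ℂ)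
    (ha : a = fun z => (derivative (P.map (algebraMap ℝ ℂ))).eval z
      / (m * (P.map (algebraMap ℝ ℂ)).eval z))
    (hSol : Sol a p {z | (P.map (algebraMap ℝ ℂ)).eval z ≠ 0 ∧ ∀ t ∈ closure U, z ≠ (t : ℂ)} Fe)
    {z₀ : ℂ} (hz₀ : (P.map (algebraMap ℝ ℂ)).eval z₀ ≠ 0) (hz₁ : ∀ t ∈ closure U, z₀ ≠ (t : ℂ)) :
    FlatAt a p (t12_C U P m Fe) z₀ := by
  have hopen : IsOpen ({z : ℂ | (P.map (algebraMap ℝ ℂ)).eval z ≠ 0} ∩
      {z : ℂ | ∀ t ∈ closure U, z ≠ (t : ℂ)}) := (t12_openQ _).inter (t12_openO U)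
  obtain ⟨ε, hε, hsub⟩ := Metric.isOpen_iff.1 hopen z₀ ⟨hz₀, hz₁⟩
  obtain ⟨v, hv⟩ := IsAlgClosed.exists_pow_nat_eq ((P.map (algebraMap ℝ ℂ)).eval z₀) hm
  obtain ⟨α, hα, -, hαm⟩ := t12_alpha (P.map (algebraMap ℝ ℂ)) hm isOpen_ball
    (convex_ball z₀ ε) (fun z hz => (hsub hz).1) (mem_ball_self hε) hv
  refine ⟨ε, hε, Fe, fun z => 2 * Real.pi * Complex.I * α z, fun z hz => hSol z (hsub hz), ?_, ?_⟩
  · rw [ha]
    exact t12_scale hα
  · intro z hz
    rw [t12_C_eq U P hm Fe (hsub hz).1 (hαm z hz)]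
    have : t12_base U Fe z = Fe z := by
      unfold t12_base
      rw [if_neg]
      rintro ⟨h1, h2⟩
      exact (hsub hz).2 z.re (subset_closure h2) (Complex.ext (by simp) (by simp [h1]))
    rw [this]

theorem t12_flat_on (U : Set ℝ) (hUo : IsOpen U) (hUb : Bornology.IsBounded U)
    (P : ℝ[X]) (hpos : ∀ t ∈ U, 0 < P.eval t)
    (m : ℕ) (hm : 0 < m) (a p Fe : ℂ → ℂ)
    (ha : a = fun z => (derivative (P.map (algebraMap ℝ ℂ))).eval z
      / (m * (P.map (algebraMap ℝ ℂ)).eval z))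
    (hp : DifferentiableOn ℂ p {z | (P.map (algebraMap ℝ ℂ)).eval z ≠ 0})
    (hFe : Fe = fun z => ∫ t in U, ((P.eval t ^ (1 / (m : ℝ)) : ℝ) : ℂ) / (z - t))
    (hSol : Sol a p {z | (P.map (algebraMap ℝ ℂ)).eval z ≠ 0 ∧ ∀ t ∈ closure U, z ≠ (t : ℂ)} Fe)
    {x₀ : ℝ} (hx₀ : x₀ ∈ U) :
    FlatAt a p (t12_C U P m Fe) (x₀ : ℂ) := by
  obtain ⟨A, hAi, ⟨M, hM⟩, hAc, hAx, hAI⟩ := t12_A U hUo hUb P hpos m
  have hQx : (P.map (algebraMap ℝ ℂ)).eval (x₀ : ℂ) ≠ 0 := by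
    rw [t12_eval]
    exact_mod_cast (hpos x₀ hx₀).ne'
  obtain ⟨r₁, hr₁, hs₁⟩ := Metric.isOpen_iff.1 (t12_openQ (P.map (algebraMap ℝ ℂ))) _ hQx
  obtain ⟨r₂, hr₂, hs₂⟩ := Metric.isOpen_iff.1 hUo x₀ hx₀
  set r := min r₁ r₂ with hr
  have hr0 : 0 < r := lt_min hr₁ hr₂
  have hQ : ∀ z ∈ ball (x₀ : ℂ) r, (P.map (algebraMap ℝ ℂ)).eval z ≠ 0 := fun z hz =>
    hs₁ (ball_subset_ball (min_le_left _ _) hz)
  have hU : ∀ z ∈ ball (x₀ : ℂ) r, z.re ∈ U := by
    intro z hz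
    apply hs₂
    rw [mem_ball, Real.dist_eq]
    have h1 := Complex.abs_re_le_norm (z - x₀)
    rw [Complex.sub_re, Complex.ofReal_re] at h1
    have h2 := mem_ball.1 hz
    rw [Complex.dist_eq] at h2
    exact (h1.trans_lt h2).trans_le (min_le_right _ _)
  have hoff : ∀ z : ℂ, z.im ≠ 0 → ∀ t ∈ closure U, z ≠ (t : ℂ) := by
    rintro z hz t - rfl
    exact hz (Complex.ofReal_im t)
  have hda : DifferentiableOn ℂ a (ball (x₀ : ℂ) r) := by
    rw [ha]
    exact t12_adiff _ hm hQ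
  have hdp : DifferentiableOn ℂ p (ball (x₀ : ℂ) r) := hp.mono hQ
  -- α
  have hApos : 0 < A x₀ := by
    rw [hAx x₀ hx₀]
    exact Real.rpow_pos_of_pos (hpos x₀ hx₀) _
  have hAm : ((A x₀ : ℝ) : ℂ) ^ m = (P.map (algebraMap ℝ ℂ)).eval (x₀ : ℂ) := by
    rw [t12_eval, ← Complex.ofReal_pow, hAx x₀ hx₀, one_div,
      Real.rpow_inv_natCast_pow (hpos x₀ hx₀).le hm.ne']
  obtain ⟨α, hα, hα0, hαm⟩ := t12_alpha (P.map (algebraMap ℝ ℂ)) hm isOpen_ball
    (convex_ball (x₀ : ℂ) r) hQ (mem_ball_self hr0) hAm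
  rw [← ha] at hα
  -- f and g
  have hmem : ∀ ε : ℝ, |ε| < r → (x₀ : ℂ) + ε * Complex.I ∈ ball (x₀ : ℂ) r := by
    intro ε hε
    rw [mem_ball, Complex.dist_eq, add_sub_cancel_left, norm_mul, Complex.norm_I, mul_one,
      Complex.norm_real]
    exact hε
  have hzp := hmem (r / 2) (by rw [abs_of_pos (by positivity)]; linarith)
  have hzm := hmem (-(r / 2)) (by rw [abs_neg, abs_of_pos (by positivity)]; linarith)
  obtain ⟨f, hf, hf0⟩ := sol_exists isOpen_ball (convex_ball (x₀ : ℂ) r) hda hdp hzp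
    (Fe ((x₀ : ℂ) + (r / 2 : ℝ) * Complex.I))
  obtain ⟨g, hg, hg0⟩ := sol_exists isOpen_ball (convex_ball (x₀ : ℂ) r) hda hdp hzm
    (Fe ((x₀ : ℂ) + (-(r / 2) : ℝ) * Complex.I))
  have hup : ∀ z ∈ ball (x₀ : ℂ) r, 0 < z.im → Fe z = f z := by
    have ho : IsOpen (ball (x₀ : ℂ) r ∩ {z | 0 < z.im}) :=
      isOpen_ball.inter (isOpen_lt continuous_const Complex.continuous_im)
    have hc : Convex ℝ (ball (x₀ : ℂ) r ∩ {z | 0 < z.im}) :=
      (convex_ball _ _).inter (convex_halfSpace_im_gt 0)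
    intro z hz hz'
    refine sol_unique ho hc.isPreconnected (hda.mono inter_subset_left)
      (fun w hw => hSol w ⟨hQ w hw.1, hoff w (ne_of_gt hw.2)⟩) (fun w hw => hf w hw.1)
      (z₀ := (x₀ : ℂ) + (r / 2 : ℝ) * Complex.I) ⟨hzp, ?_⟩ hf0.symm z ⟨hz, hz'⟩
    show 0 < ((x₀ : ℂ) + (r / 2 : ℝ) * Complex.I).im
    simp
    linarith
  have hdown : ∀ z ∈ ball (x₀ : ℂ) r, z.im < 0 → Fe z = g z := by
    have ho : IsOpen (ball (x₀ : ℂ) r ∩ {z | z.im < 0}) :=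
      isOpen_ball.inter (isOpen_lt Complex.continuous_im continuous_const)
    have hc : Convex ℝ (ball (x₀ : ℂ) r ∩ {z | z.im < 0}) :=
      (convex_ball _ _).inter (convex_halfSpace_im_lt 0)
    intro z hz hz'
    refine sol_unique ho hc.isPreconnected (hda.mono inter_subset_left)
      (fun w hw => hSol w ⟨hQ w hw.1, hoff w (ne_of_lt hw.2)⟩) (fun w hw => hg w hw.1)
      (z₀ := (x₀ : ℂ) + (-(r / 2) : ℝ) * Complex.I) ⟨hzm, ?_⟩ hg0.symm z ⟨hz, hz'⟩
    show ((x₀ : ℂ) + (-(r / 2) : ℝ) * Complex.I).im < 0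
    simp
    linarith
  obtain ⟨k, hk⟩ := sol_diff isOpen_ball (convex_ball (x₀ : ℂ) r).isPreconnected hf hg hα
  -- limits
  have hfc : ContinuousOn f (ball (x₀ : ℂ) r) := fun z hz =>
    (hf z hz).continuousAt.continuousWithinAt
  have hgc : ContinuousOn g (ball (x₀ : ℂ) r) := fun z hz =>
    (hg z hz).continuousAt.continuousWithinAt
  have hlim : ∀ x : ℝ, Tendsto (fun ε : ℝ => (x : ℂ) + ε * Complex.I) (𝓝[>] 0) (𝓝 (x : ℂ)) := by
    intro x
    have : Continuous (fun ε : ℝ => (x : ℂ) + ε * Complex.I) := by fun_prop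
    have h := (this.tendsto 0).mono_left (nhdsWithin_le_nhds (s := Ioi 0))
    simpa using h
  have hlim' : ∀ x : ℝ, Tendsto (fun ε : ℝ => (x : ℂ) - ε * Complex.I) (𝓝[>] 0) (𝓝 (x : ℂ)) := by
    intro x
    have : Continuous (fun ε : ℝ => (x : ℂ) - ε * Complex.I) := by fun_prop
    have h := (this.tendsto 0).mono_left (nhdsWithin_le_nhds (s := Ioi 0))
    simpa using h
  have hlimF : ∀ x : ℝ, (x : ℂ) ∈ ball (x₀ : ℂ) r →
      Tendsto (fun ε : ℝ => Fe ((x : ℂ) + ε * Complex.I)) (𝓝[>] 0) (𝓝 (f x)) := by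
    intro x hx
    have h1 : Tendsto (fun ε : ℝ => f ((x : ℂ) + ε * Complex.I)) (𝓝[>] 0) (𝓝 (f x)) :=
      ((hf _ hx).continuousAt.tendsto).comp (hlim x)
    apply h1.congr'
    filter_upwards [(hlim x).eventually (isOpen_ball.mem_nhds hx), self_mem_nhdsWithin] with ε h2 h3
    refine (hup _ h2 ?_).symm
    simpa using h3
  have hlimG : ∀ x : ℝ, (x : ℂ) ∈ ball (x₀ : ℂ) r →
      Tendsto (fun ε : ℝ => Fe ((x : ℂ) - ε * Complex.I)) (𝓝[>] 0) (𝓝 (g x)) := by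
    intro x hx
    have h1 : Tendsto (fun ε : ℝ => g ((x : ℂ) - ε * Complex.I)) (𝓝[>] 0) (𝓝 (g x)) :=
      ((hg _ hx).continuousAt.tendsto).comp (hlim' x)
    apply h1.congr'
    filter_upwards [(hlim' x).eventually (isOpen_ball.mem_nhds hx), self_mem_nhdsWithin]
      with ε h2 h3
    refine (hdown _ h2 ?_).symm
    simpa using h3
  -- the jump
  have hj := jump A hAi M hM x₀ (hAc x₀ hx₀)
  have hj2 : Tendsto (fun ε : ℝ => Fe ((x₀ : ℂ) + ε * Complex.I) - Fe ((x₀ : ℂ) - ε * Complex.I))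
      (𝓝[>] 0) (𝓝 (-2 * Real.pi * Complex.I * A x₀)) := by
    rw [hFe]
    simp only [hAI]
    exact hj
  have hj3 := tendsto_nhds_unique hj2 ((hlimF x₀ (mem_ball_self hr0)).sub
    (hlimG x₀ (mem_ball_self hr0)))
  have hA0 : ((A x₀ : ℝ) : ℂ) ≠ 0 := by exact_mod_cast hApos.ne'
  have hk1 : k = -2 * Real.pi * Complex.I := by
    have h1 := hk x₀ (mem_ball_self hr0)
    rw [hα0] at h1
    rw [h1, add_sub_cancel_left] at hj3
    exact (mul_right_cancel₀ hA0 hj3).symm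
  refine ⟨r, hr0, f, fun z => 2 * Real.pi * Complex.I * α z, hf, t12_scale hα, ?_⟩
  intro z hz
  rw [t12_C_eq U P hm Fe (hQ z hz) (hαm z hz)]
  rcases lt_trichotomy z.im 0 with h | h | h
  · have h1 : t12_base U Fe z = f z + 2 * Real.pi * Complex.I * α z := by
      unfold t12_base
      rw [if_neg (fun h' => h.ne h'.1), hdown z hz h, hk z hz, hk1]
      ring
    rw [h1, t12_coset_add]
  · have h2 : z = (z.re : ℂ) := Complex.ext (by simp) (by simp [h])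
    have h1 : t12_base U Fe z = f z := by
      unfold t12_base
      rw [if_pos ⟨h, hU z hz⟩]
      have h3 : f z = f (z.re : ℂ) := by rw [← h2]
      rw [h3]
      exact (hlimF z.re (by rw [← h2]; exact hz)).limUnder_eq
    rw [h1]
  · have h1 : t12_base U Fe z = f z := by
      unfold t12_base
      rw [if_neg (fun h' => h.ne' h'.1), hup z hz h]
    rw [h1]

theorem t12_zeta (κ A β : ℂ) (m : ℕ) (hm : 0 < m) (hκ : IsIntegral ℤ κ) (hA : A ≠ 0)
    (h : A = 2 * κ * β) (hβ : β ^ m = A ^ m) : False := by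
  have h1 : (2 * κ) ^ m * A ^ m = 1 * A ^ m := by
    rw [one_mul]
    nth_rewrite 2 [h]
    rw [mul_pow (2 * κ) β, hβ]
  have h2 : (2 * κ) ^ m = 1 := mul_right_cancel₀ (pow_ne_zero _ hA) h1
  have h3 : IsIntegral ℤ (κ ^ m) := hκ.pow m
  have h4 : κ ^ m = algebraMap ℚ ℂ ((1 / 2) ^ m) := by
    rw [mul_pow] at h2
    have h5 : (2 : ℂ) ^ m ≠ 0 := pow_ne_zero _ two_ne_zero
    rw [map_pow, map_div₀, map_one, map_ofNat, div_pow, one_pow]
    field_simp
    rw [mul_comm]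
    exact h2
  rw [h4] at h3
  have h5 : IsIntegral ℤ (((1 : ℚ) / 2) ^ m) := by
    rwa [isIntegral_algebraMap_iff (algebraMap ℚ ℂ).injective] at h3
  obtain ⟨n, hn⟩ := IsIntegrallyClosed.isIntegral_iff.1 h5
  have h6 : (n : ℚ) * 2 ^ m = 1 := by
    have : (n : ℚ) = (1 / 2) ^ m := hn
    rw [this, ← mul_pow]
    norm_num
  have h7 : n * 2 ^ m = 1 := by exact_mod_cast h6
  have h8 : (2 : ℤ) ∣ 1 := by
    rw [← h7]
    exact Dvd.dvd.mul_left (dvd_pow_self 2 hm.ne') n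
  norm_num at h8

theorem t12_odd (U : Set ℝ) (hUo : IsOpen U) (hUb : Bornology.IsBounded U)
    (hUne : U.Nonempty) (P : ℝ[X]) (hpos : ∀ t ∈ U, 0 < P.eval t)
    (hfr : ∀ t ∈ frontier U, P.eval t = 0) (m : ℕ) (hm : 0 < m) (a p Fe : ℂ → ℂ)
    (ha : a = fun z => (derivative (P.map (algebraMap ℝ ℂ))).eval z
      / (m * (P.map (algebraMap ℝ ℂ)).eval z))
    (hFe : Fe = fun z => ∫ t in U, ((P.eval t ^ (1 / (m : ℝ)) : ℝ) : ℂ) / (z - t))
    (hSol : Sol a p {z | (P.map (algebraMap ℝ ℂ)).eval z ≠ 0 ∧ ∀ t ∈ closure U, z ≠ (t : ℂ)} Fe)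
    (hdvd : m ∣ 2 * P.rootMultiplicity (sSup U)) :
    Odd a p (t12_C U P m Fe) ((sSup U : ℝ) : ℂ) := by
  obtain ⟨A, hAi, ⟨M, hM⟩, hAc, hAx, hAI⟩ := t12_A U hUo hUb P hpos m
  have hbdd : BddAbove U := hUb.bddAbove
  set τ : ℝ := sSup U with hτ
  set Q : ℂ[X] := P.map (algebraMap ℝ ℂ) with hQdef
  set e : ℕ := P.rootMultiplicity τ with he
  have hm' : (m : ℂ) ≠ 0 := Nat.cast_ne_zero.2 hm.ne'
  have hτcl : τ ∈ closure U := csSup_mem_closure hUne hbdd
  have hτle : ∀ t ∈ closure U, t ≤ τ := by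
    intro t ht
    have : closure U ⊆ Iic τ := closure_minimal (fun t ht => le_csSup hbdd ht) isClosed_Iic
    exact this ht
  have hP0 : P ≠ 0 := by
    rintro rfl
    obtain ⟨t, ht⟩ := hUne
    have := hpos t ht
    simp at this
  obtain ⟨P₁, hP₁, hP₁nd⟩ := exists_eq_pow_rootMultiplicity_mul_and_not_dvd P hP0 τ
  rw [← he] at hP₁
  set Q₁ : ℂ[X] := P₁.map (algebraMap ℝ ℂ) with hQ₁def
  have hQQ₁ : ∀ z : ℂ, Q.eval z = (z - τ) ^ e * Q₁.eval z := by
    intro z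
    rw [hQdef, hP₁, Polynomial.map_mul, Polynomial.map_pow, Polynomial.map_sub, map_X, map_C,
      eval_mul, eval_pow, eval_sub, eval_X, eval_C]
    rfl
  have hP₁τ : P₁.eval τ ≠ 0 := by
    intro h
    exact hP₁nd (dvd_iff_isRoot.2 h)
  have hQ₁τ : Q₁.eval (τ : ℂ) ≠ 0 := by
    rw [hQ₁def, t12_eval]
    exact_mod_cast hP₁τ
  intro r hr f hf
  by_contra hcon
  push Not at hcon
  obtain ⟨r₁, hr₁, hs₁⟩ := Metric.isOpen_iff.1 (t12_openQ Q₁) _ hQ₁τ
  set s := min r r₁ with hs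
  have hs0 : 0 < s := lt_min hr hr₁
  have hQ₁s : ∀ z ∈ ball (τ : ℂ) s, Q₁.eval z ≠ 0 := fun z hz =>
    hs₁ (ball_subset_ball (min_le_right _ _) hz)
  have hQs : ∀ z ∈ ball (τ : ℂ) s, z ≠ τ → Q.eval z ≠ 0 := by
    intro z hz hne
    rw [hQQ₁]
    exact mul_ne_zero (pow_ne_zero _ (sub_ne_zero.2 hne)) (hQ₁s z hz)
  have hfs : ∀ z ∈ ball (τ : ℂ) s, z ≠ τ → HasDerivAt f (a z * f z + p z) z := fun z hz hne =>
    hf z ⟨ball_subset_ball (min_le_left _ _) hz, hne⟩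
  have hfC : ∀ z ∈ ball (τ : ℂ) s, z ≠ τ → f z ∈ t12_C U P m Fe z := fun z hz hne =>
    hcon z ⟨ball_subset_ball (min_le_left _ _) hz, hne⟩
  -- the interval below `τ`
  have hreal : ∀ x : ℝ, |x - τ| < s → (x : ℂ) ∈ ball (τ : ℂ) s := by
    intro x hx
    rw [mem_ball, Complex.dist_eq, ← Complex.ofReal_sub, Complex.norm_real]
    exact hx
  have hIoo : Ioo (τ - s) τ ⊆ U := by
    apply isPreconnected_Ioo.subset_of_closure_inter_subset hUo
    · obtain ⟨u, hu, hu'⟩ := exists_lt_of_lt_csSup hUne (show τ - s < sSup U by linarith)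
      refine ⟨u, ⟨hu', lt_of_le_of_ne (hτle u (subset_closure hu)) ?_⟩, hu⟩
      rintro rfl
      obtain ⟨δ, hδ, hδ'⟩ := Metric.isOpen_iff.1 hUo _ hu
      have h1 : τ + δ / 2 ∈ U := by
        apply hδ'
        rw [mem_ball, Real.dist_eq, add_sub_cancel_left, abs_of_pos (by positivity)]
        linarith
      have h2 := hτle _ (subset_closure h1)
      linarith
    · rintro x ⟨hx, hx'⟩
      by_contra hxU
      have h1 : x ∈ frontier U := by
        rw [hUo.frontier_eq]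
        exact ⟨hx, hxU⟩
      have h2 := hfr x h1
      have h3 : Q.eval (x : ℂ) ≠ 0 := by
        apply hQs _ (hreal x _)
        · exact_mod_cast hx'.2.ne
        · rw [abs_lt]
          constructor <;> linarith [hx'.1, hx'.2]
      rw [hQdef, t12_eval, h2] at h3
      simp at h3
  -- the slit ball
  set D : Set ℂ := ball (τ : ℂ) s ∩ {z | z - τ ∈ Complex.slitPlane} with hD
  have hDo : IsOpen D := by
    refine isOpen_ball.inter (Complex.isOpen_slitPlane.preimage ?_)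
    fun_prop
  have hDne : ∀ z ∈ D, z ≠ τ := by
    rintro z hz rfl
    have h1 : (τ : ℂ) - τ ∈ Complex.slitPlane := hz.2
    rw [sub_self] at h1
    exact Complex.zero_notMem_slitPlane h1
  have hz₁ : ((τ + s / 2 : ℝ) : ℂ) ∈ D := by
    refine ⟨hreal _ ?_, ?_⟩
    · rw [add_sub_cancel_left, abs_of_pos (by positivity)]
      linarith
    · show ((τ + s / 2 : ℝ) : ℂ) - τ ∈ Complex.slitPlane
      rw [← Complex.ofReal_sub, add_sub_cancel_left]
      exact Complex.ofReal_mem_slitPlane.2 (by positivity)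
  have hDp : IsPreconnected D := by
    have h1 : StarConvex ℝ ((τ + s / 2 : ℝ) : ℂ) D := by
      refine StarConvex.inter ((convex_ball _ _).starConvex hz₁.1) ?_
      intro z hz a' b' ha' hb' hab
      have h2 := Complex.starConvex_ofReal_slitPlane (x := s / 2) (by positivity) hz ha' hb' hab
      show a' • ((τ + s / 2 : ℝ) : ℂ) + b' • z - τ ∈ Complex.slitPlane
      convert h2 using 1
      have h3 : (a' : ℂ) + b' = 1 := by exact_mod_cast hab
      simp only [Complex.real_smul]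
      push_cast
      linear_combination (τ : ℂ) * h3
    exact (h1.isPathConnected hz₁).isConnected.isPreconnected
  have hDcl : ∀ z ∈ D, ∀ t ∈ closure U, z ≠ (t : ℂ) := by
    rintro z hz t ht rfl
    have h1 : (t : ℂ) - τ ∈ Complex.slitPlane := hz.2
    rw [← Complex.ofReal_sub, Complex.ofReal_mem_slitPlane] at h1
    have := hτle t ht
    linarith
  -- α
  obtain ⟨v, hv⟩ := IsAlgClosed.exists_pow_nat_eq (Q₁.eval (τ : ℂ)) hm
  obtain ⟨u, hu, -, hum⟩ := t12_alpha Q₁ hm isOpen_ball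
    (convex_ball (τ : ℂ) s) hQ₁s (mem_ball_self hs0) hv
  set α : ℂ → ℂ := fun z => Complex.exp ((e / m : ℂ) * Complex.log (z - τ)) * u z with hαdef
  have hαm : ∀ z ∈ D, α z ^ m = Q.eval z := by
    intro z hz
    rw [hQQ₁, hαdef]
    simp only
    rw [mul_pow, hum z hz.1, ← Complex.exp_nat_mul]
    congr 1
    have h1 : (m : ℂ) * ((e / m : ℂ) * Complex.log (z - τ)) = e * Complex.log (z - τ) := by
      field_simp
    rw [h1, Complex.exp_nat_mul, Complex.exp_log (sub_ne_zero.2 (hDne z hz))]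
  have hαd : ∀ z ∈ D, DifferentiableAt ℂ α z := by
    intro z hz
    have h1 : DifferentiableAt ℂ (fun z => Complex.log (z - τ)) z :=
      DifferentiableAt.clog (by fun_prop) hz.2
    exact ((h1.const_mul _).cexp).mul (hu z hz.1).1.differentiableAt
  have hα := t12_hom_of_pow Q hm hDo (fun z hz => hQs z hz.1 (hDne z hz)) hαd hαm
  rw [← ha] at hα
  obtain ⟨k, hk⟩ := sol_diff hDo hDp (fun z hz => hfs z hz.1 (hDne z hz))
    (fun z hz => hSol z ⟨hQs z hz.1 (hDne z hz), hDcl z hz⟩) hα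
  -- κ
  obtain ⟨κ, hκ, hkκ⟩ : ∃ κ : ℂ, IsIntegral ℤ κ ∧ k = 2 * Real.pi * Complex.I * κ := by
    have h1 := hfC _ hz₁.1 (hDne _ hz₁)
    rw [t12_C_eq U P hm Fe (hQs _ hz₁.1 (hDne _ hz₁)) (hαm _ hz₁)] at h1
    obtain ⟨x, hx, hx'⟩ := h1
    have h2 : t12_base U Fe ((τ + s / 2 : ℝ) : ℂ) = Fe ((τ + s / 2 : ℝ) : ℂ) := by
      unfold t12_base
      rw [if_neg]
      rintro ⟨-, h3⟩
      rw [Complex.ofReal_re] at h3
      have := hτle _ (subset_closure h3)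
      linarith
    rw [hk _ hz₁, h2] at hx'
    refine ⟨x, hx, ?_⟩
    have h3 : k * α ((τ + s / 2 : ℝ) : ℂ) =
        (2 * Real.pi * Complex.I * x) * α ((τ + s / 2 : ℝ) : ℂ) := by
      linear_combination hx'
    exact mul_right_cancel₀ (hα _ hz₁).2 h3
  -- the point
  set x : ℝ := τ - s / 2 with hx
  have hxI : x ∈ Ioo (τ - s) τ := by constructor <;> simp only [hx] <;> linarith
  have hxU : x ∈ U := hIoo hxI
  have hxb : (x : ℂ) ∈ ball (τ : ℂ) s := by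
    apply hreal
    rw [abs_lt]
    constructor <;> simp only [hx] <;> linarith
  have hxne : (x : ℂ) ≠ τ := by
    exact_mod_cast hxI.2.ne
  have hlim : Tendsto (fun ε : ℝ => (x : ℂ) + ε * Complex.I) (𝓝[>] 0) (𝓝 (x : ℂ)) := by
    have : Continuous (fun ε : ℝ => (x : ℂ) + ε * Complex.I) := by fun_prop
    have h := (this.tendsto 0).mono_left (nhdsWithin_le_nhds (s := Ioi 0))
    simpa using h
  have hlim' : Tendsto (fun ε : ℝ => (x : ℂ) - ε * Complex.I) (𝓝[>] 0) (𝓝 (x : ℂ)) := by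
    have : Continuous (fun ε : ℝ => (x : ℂ) - ε * Complex.I) := by fun_prop
    have h := (this.tendsto 0).mono_left (nhdsWithin_le_nhds (s := Ioi 0))
    simpa using h
  have hneg : ((x : ℂ) - τ).re < 0 := by
    rw [← Complex.ofReal_sub, Complex.ofReal_re]
    linarith [hxI.2]
  have him : ((x : ℂ) - τ).im = 0 := by
    rw [← Complex.ofReal_sub, Complex.ofReal_im]
  set L : ℂ := (Real.log ‖(x : ℂ) - τ‖ : ℂ) with hL
  have hlog1 : Tendsto (fun ε : ℝ => Complex.log ((x : ℂ) + ε * Complex.I - τ)) (𝓝[>] 0)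
      (𝓝 (L + Real.pi * Complex.I)) := by
    refine (Complex.tendsto_log_nhdsWithin_im_nonneg_of_re_neg_of_im_zero hneg him).comp ?_
    refine tendsto_nhdsWithin_iff.2 ⟨hlim.sub_const _, ?_⟩
    filter_upwards [self_mem_nhdsWithin] with ε hε
    show 0 ≤ ((x : ℂ) + ε * Complex.I - τ).im
    simpa using (le_of_lt hε)
  have hlog2 : Tendsto (fun ε : ℝ => Complex.log ((x : ℂ) - ε * Complex.I - τ)) (𝓝[>] 0)
      (𝓝 (L - Real.pi * Complex.I)) := by
    refine (Complex.tendsto_log_nhdsWithin_im_neg_of_re_neg_of_im_zero hneg him).comp ?_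
    refine tendsto_nhdsWithin_iff.2 ⟨hlim'.sub_const _, ?_⟩
    filter_upwards [self_mem_nhdsWithin] with ε hε
    show ((x : ℂ) - ε * Complex.I - τ).im < 0
    simpa using hε
  have huc : ContinuousAt u (x : ℂ) := (hu _ hxb).1.continuousAt
  have hα1 : Tendsto (fun ε : ℝ => α ((x : ℂ) + ε * Complex.I)) (𝓝[>] 0)
      (𝓝 (Complex.exp ((e / m : ℂ) * (L + Real.pi * Complex.I)) * u x)) :=
    ((Complex.continuous_exp.tendsto _).comp (hlog1.const_mul _)).mul (huc.tendsto.comp hlim)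
  have hα2 : Tendsto (fun ε : ℝ => α ((x : ℂ) - ε * Complex.I)) (𝓝[>] 0)
      (𝓝 (Complex.exp ((e / m : ℂ) * (L - Real.pi * Complex.I)) * u x)) :=
    ((Complex.continuous_exp.tendsto _).comp (hlog2.const_mul _)).mul (huc.tendsto.comp hlim')
  set β : ℂ := Complex.exp ((e / m : ℂ) * (L + Real.pi * Complex.I)) * u x with hβ
  set ζ : ℂ := Complex.exp (-(2 * Real.pi * Complex.I * (e / m : ℂ))) with hζ
  have hβ2 : Complex.exp ((e / m : ℂ) * (L - Real.pi * Complex.I)) * u x = ζ * β := by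
    rw [hβ, hζ, ← mul_assoc, ← Complex.exp_add]
    congr 2
    ring
  rw [hβ2] at hα2
  have hζ2 : ζ * ζ = 1 := by
    obtain ⟨c, hc⟩ := hdvd
    rw [hζ, ← Complex.exp_add, Complex.exp_eq_one_iff]
    refine ⟨-c, ?_⟩
    have h1 : (2 : ℂ) * e = m * c := by exact_mod_cast hc
    push_cast
    field_simp
    linear_combination (-1 : ℂ) * h1
  have hfc : ContinuousAt f (x : ℂ) := (hfs _ hxb hxne).continuousAt
  have hmemD : ∀ᶠ ε : ℝ in 𝓝[>] 0, (x : ℂ) + ε * Complex.I ∈ D := by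
    filter_upwards [hlim.eventually (isOpen_ball.mem_nhds hxb), self_mem_nhdsWithin] with ε h1 h2
    refine ⟨h1, Or.inr ?_⟩
    show ((x : ℂ) + ε * Complex.I - τ).im ≠ 0
    simpa using (ne_of_gt h2)
  have hmemD' : ∀ᶠ ε : ℝ in 𝓝[>] 0, (x : ℂ) - ε * Complex.I ∈ D := by
    filter_upwards [hlim'.eventually (isOpen_ball.mem_nhds hxb), self_mem_nhdsWithin] with ε h1 h2
    refine ⟨h1, Or.inr ?_⟩
    show ((x : ℂ) - ε * Complex.I - τ).im ≠ 0
    simpa using (ne_of_gt h2)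
  have hj := jump A hAi M hM x (hAc x hxU)
  have hj2 : Tendsto (fun ε : ℝ => Fe ((x : ℂ) + ε * Complex.I) - Fe ((x : ℂ) - ε * Complex.I))
      (𝓝[>] 0) (𝓝 (-2 * Real.pi * Complex.I * A x)) := by
    rw [hFe]
    simp only [hAI]
    exact hj
  have hj3 : Tendsto (fun ε : ℝ => f ((x : ℂ) + ε * Complex.I) - f ((x : ℂ) - ε * Complex.I))
      (𝓝[>] 0) (𝓝 (-2 * Real.pi * Complex.I * A x + k * (β - ζ * β))) := by
    refine (hj2.add ((hα1.sub hα2).const_mul k)).congr' ?_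
    filter_upwards [hmemD, hmemD'] with ε h1 h2
    rw [hk _ h1, hk _ h2]
    ring
  have hj4 := tendsto_nhds_unique hj3 ((hfc.tendsto.comp hlim).sub (hfc.tendsto.comp hlim'))
  rw [sub_self, hkκ] at hj4
  have hA : ((A x : ℝ) : ℂ) = κ * (β - ζ * β) := by
    have h1 : (2 * Real.pi * Complex.I : ℂ) * (A x : ℂ) =
        (2 * Real.pi * Complex.I : ℂ) * (κ * (β - ζ * β)) := by
      linear_combination (-1 : ℂ) * hj4
    exact mul_left_cancel₀ Complex.two_pi_I_ne_zero h1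
  have hApos : 0 < A x := by
    rw [hAx x hxU]
    exact Real.rpow_pos_of_pos (hpos x hxU) _
  have hA0 : ((A x : ℝ) : ℂ) ≠ 0 := by exact_mod_cast hApos.ne'
  have hAm : ((A x : ℝ) : ℂ) ^ m = Q.eval (x : ℂ) := by
    rw [hQdef, t12_eval, ← Complex.ofReal_pow, hAx x hxU, one_div,
      Real.rpow_inv_natCast_pow (hpos x hxU).le hm.ne']
  have hβm : β ^ m = ((A x : ℝ) : ℂ) ^ m := by
    rw [hAm]
    have h1 : Tendsto (fun ε : ℝ => α ((x : ℂ) + ε * Complex.I) ^ m) (𝓝[>] 0) (𝓝 (β ^ m)) :=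
      hα1.pow m
    have h2 : Tendsto (fun ε : ℝ => Q.eval ((x : ℂ) + ε * Complex.I)) (𝓝[>] 0)
        (𝓝 (Q.eval (x : ℂ))) := (Q.continuous.tendsto _).comp hlim
    refine tendsto_nhds_unique (h1.congr' ?_) h2
    filter_upwards [hmemD] with ε h3
    exact hαm _ h3
  rcases mul_self_eq_one_iff.1 hζ2 with h | h
  · rw [h, one_mul, sub_self, mul_zero] at hA
    exact hA0 hA
  · exact t12_zeta κ (A x) β m hm hκ hA0 (by rw [hA, h]; ring) hβm

/-- TARGET: the coset structure at a real parameter, and oddness of the top end point -/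
theorem struct_exists (U : Set ℝ) (hUo : IsOpen U) (hUb : Bornology.IsBounded U)
    (hUne : U.Nonempty) (P : ℝ[X]) (hpos : ∀ t ∈ U, 0 < P.eval t)
    (hfr : ∀ t ∈ frontier U, P.eval t = 0) (m : ℕ) (hm : 0 < m) (a p Fe : ℂ → ℂ)
    (ha : a = fun z => (derivative (P.map (algebraMap ℝ ℂ))).eval z
      / (m * (P.map (algebraMap ℝ ℂ)).eval z))
    (hp : DifferentiableOn ℂ p {z | (P.map (algebraMap ℝ ℂ)).eval z ≠ 0})
    (hFe : Fe = fun z => ∫ t in U, ((P.eval t ^ (1 / (m : ℝ)) : ℝ) : ℂ) / (z - t))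
    (hSol : Sol a p {z | (P.map (algebraMap ℝ ℂ)).eval z ≠ 0 ∧ ∀ t ∈ closure U, z ≠ (t : ℂ)} Fe) :
    ∃ C : ℂ → Set ℂ, Flat a p C {z | (P.map (algebraMap ℝ ℂ)).eval z ≠ 0} ∧
      (∀ z, (P.map (algebraMap ℝ ℂ)).eval z ≠ 0 → (∀ t ∈ closure U, z ≠ (t : ℂ)) → Fe z ∈ C z) ∧
      (m ∣ 2 * P.rootMultiplicity (sSup U) → Odd a p C ((sSup U : ℝ) : ℂ)) := by
  refine ⟨t12_C U P m Fe, ?_, ?_, ?_⟩
  · intro z hz
    by_cases h : ∀ t ∈ closure U, z ≠ (t : ℂ)
    · exact t12_flat_off U P m hm a p Fe ha hSol hz h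
    · push Not at h
      obtain ⟨t, ht, rfl⟩ := h
      have htU : t ∈ U := by
        by_contra htU
        have h1 : t ∈ frontier U := by
          rw [hUo.frontier_eq]
          exact ⟨ht, htU⟩
        have h2 : (P.map (algebraMap ℝ ℂ)).eval (t : ℂ) ≠ 0 := hz
        rw [t12_eval, hfr t h1] at h2
        simp at h2
      exact t12_flat_on U hUo hUb P hpos m hm a p Fe ha hp hFe hSol htU
  · intro z hz h
    obtain ⟨v, hv⟩ := IsAlgClosed.exists_pow_nat_eq ((P.map (algebraMap ℝ ℂ)).eval z) hm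
    refine ⟨v, hv, 0, isIntegral_zero, ?_⟩
    have h1 : t12_base U Fe z = Fe z := by
      unfold t12_base
      rw [if_neg]
      rintro ⟨h1, h2⟩
      exact h z.re (subset_closure h2) (Complex.ext (by simp) (by simp [h1]))
    rw [h1, zero_mul, add_zero]
  · intro hdvd
    exact t12_odd U hUo hUb hUne P hpos hfr m hm a p Fe ha hFe hSol hdvd

end AS.J4095

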