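import Mathlib
import Pool.Agent.Helper272.Ell.Defs

set_option autoImplicit false
open Polynomial Set Filter Topology MeasureTheory Metric

namespace AS.J4090

theorem t5a_evalEval_eq (R : ℝ[X][X]) (s t : ℝ) :
    R.evalEval s t = ∑ i ∈ R.support, (R.coeff i).eval s * t ^ i := by
  conv_lhs => rw [R.as_sum_support]
  rw [evalEval_finsetSum]
  refine Finset.sum_congr rfl fun i _ => ?_
  simp [evalEval, eval_monomial]

theorem t5a_dS_eq (R : ℝ[X][X]) (s t : ℝ) :
    (dS R).evalEval s t = ∑ i ∈ R.support, (derivative (R.coeff i)).eval s * t ^ i := by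
  rw [dS, Polynomial.sum, evalEval_finsetSum]
  refine Finset.sum_congr rfl fun i _ => ?_
  simp [evalEval, eval_monomial]

theorem t5a_contDiff (R : ℝ[X][X]) : ContDiff ℝ 1 (fun p : ℝ × ℝ => R.evalEval p.1 p.2) := by
  simp only [t5a_evalEval_eq]
  refine ContDiff.sum fun i _ => ?_
  refine ContDiff.mul ?_ (contDiff_snd.pow i)
  have h := (Polynomial.contDiff_aeval (𝕜 := ℝ) (R.coeff i) 1).comp
    (contDiff_fst (𝕜 := ℝ) (E := ℝ) (F := ℝ))
  simpa [Function.comp_def, Polynomial.coe_aeval_eq_eval] using h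

theorem t5a_cont (R : ℝ[X][X]) : Continuous (fun p : ℝ × ℝ => R.evalEval p.1 p.2) :=
  (t5a_contDiff R).continuous

theorem t5a_cont' (R : ℝ[X][X]) (s : ℝ) : Continuous (fun t : ℝ => R.evalEval s t) :=
  (t5a_cont R).comp (Continuous.prodMk continuous_const continuous_id)

theorem t5a_hasDerivAt (R : ℝ[X][X]) (s t : ℝ) :
    HasDerivAt (fun s => R.evalEval s t) ((dS R).evalEval s t) s := by
  simp only [t5a_evalEval_eq R, t5a_dS_eq]
  refine HasDerivAt.fun_sum fun i _ => ?_
  exact ((R.coeff i).hasDerivAt s).mul_const _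

theorem t5a_abs_rpow (x : ℝ) {a : ℝ} (ha : 1 < a) :
    a * |x| ^ (a - 2) * x = a * |x| ^ (a - 1) * (SignType.sign x : ℝ) := by
  rcases eq_or_ne x 0 with rfl | hx
  · simp
  · have h1 : (0 : ℝ) < |x| := abs_pos.2 hx
    have h2 : x = |x| * (SignType.sign x : ℝ) := by
      rcases lt_or_gt_of_ne hx with h | h
      · rw [sign_neg h, abs_of_neg h]; simp
      · rw [sign_pos h, abs_of_pos h]; simp
    have h3 : |x| ^ (a - 1) = |x| ^ (a - 2) * |x| := by
      rw [← Real.rpow_add_one h1.ne']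
      congr 1
      ring
    rw [h3]
    conv_lhs => rw [h2]
    rw [abs_mul, abs_abs]
    have h4 : |((SignType.sign x : ℝ))| = 1 := by
      rcases lt_or_gt_of_ne hx with h | h
      · rw [sign_neg h]; simp
      · rw [sign_pos h]; simp
    rw [h4, mul_one]
    ring

/-- TARGET: differentiation of ∫_{U_s} |R(s,t)|^{1+1/m} φ(s,t) dt within the set of parameters for
which R(s,·) vanishes on the frontier of U_s. -/
theorem theta_deriv (Y : Set (ℝ × ℝ)) (hYo : IsOpen Y) (hYb : Bornology.IsBounded Y) (m : ℕ)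
    (hm : 0 < m) (R φ : ℝ[X][X]) (Gd : Set ℝ)
    (hfr : ∀ s ∈ Gd, ∀ t ∈ frontier ((fun y : ℝ × ℝ => y.1 + s * y.2) '' Y), R.evalEval s t = 0)
    (s₁ : ℝ) (hs₁ : s₁ ∈ Gd) :
    HasDerivWithinAt (fun s => ∫ t in (fun y : ℝ × ℝ => y.1 + s * y.2) '' Y,
        |R.evalEval s t| ^ (1 + 1 / (m : ℝ)) * φ.evalEval s t)
      (∫ t in (fun y : ℝ × ℝ => y.1 + s₁ * y.2) '' Y,
        ((1 + 1 / (m : ℝ)) * |R.evalEval s₁ t| ^ (1 / (m : ℝ)) * (SignType.sign (R.evalEval s₁ t) : ℝ)
            * (dS R).evalEval s₁ t * φ.evalEval s₁ t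
          + |R.evalEval s₁ t| ^ (1 + 1 / (m : ℝ)) * (dS φ).evalEval s₁ t)) Gd s₁ := by
  obtain ⟨a, ha⟩ : ∃ a : ℝ, a = 1 + 1 / (m : ℝ) := ⟨_, rfl⟩
  have hm' : (0 : ℝ) < m := by exact_mod_cast hm
  have hm1 : (0 : ℝ) < 1 / (m : ℝ) := by positivity
  have ha1 : 1 < a := by rw [ha]; linarith
  have ha2 : 1 / (m : ℝ) = a - 1 := by rw [ha]; ring
  rw [← ha, ha2]
  -- the open sets
  let U : ℝ → Set ℝ := fun s => (fun y : ℝ × ℝ => y.1 + s * y.2) '' Y
  have hUo : ∀ s, IsOpen (U s) := by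
    intro s
    let L : (ℝ × ℝ) →L[ℝ] ℝ :=
      ContinuousLinearMap.fst ℝ ℝ ℝ + s • ContinuousLinearMap.snd ℝ ℝ ℝ
    have hL : ∀ y, L y = y.1 + s * y.2 := fun y => by simp [L]
    have hsurj : Function.Surjective L := by
      intro t
      exact ⟨(t, 0), by simp [hL]⟩
    have h1 := L.isOpenMap hsurj
    have h2 : U s = L '' Y := by
      apply Set.image_congr
      intro y _
      exact (hL y).symm
    rw [h2]
    exact h1 Y hYo
  obtain ⟨ρ, hρ0, hρ⟩ : ∃ ρ : ℝ, 0 ≤ ρ ∧ ∀ y ∈ Y, |y.1| ≤ ρ ∧ |y.2| ≤ ρ := by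
    obtain ⟨r, hr⟩ := hYb.exists_norm_le
    refine ⟨max r 0, le_max_right _ _, fun y hy => ?_⟩
    have h1 := hr y hy
    exact ⟨(norm_fst_le y).trans (h1.trans (le_max_left _ _)),
      (norm_snd_le y).trans (h1.trans (le_max_left _ _))⟩
  obtain ⟨M, hM⟩ : ∃ M : ℝ, M = ρ + (|s₁| + 1) * ρ := ⟨_, rfl⟩
  have hM0 : 0 ≤ M := by rw [hM]; positivity
  have hUM : ∀ s, |s - s₁| ≤ 1 → ∀ y ∈ Y, |y.1 + s * y.2| ≤ M := by
    intro s hs y hy
    obtain ⟨h1, h2⟩ := hρ y hy
    have h3 : |s| ≤ |s₁| + 1 := by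
      have : |s| ≤ |s - s₁| + |s₁| := by
        have := abs_add_le (s - s₁) s₁
        simpa using this
      linarith
    calc |y.1 + s * y.2| ≤ |y.1| + |s * y.2| := abs_add_le _ _
      _ = |y.1| + |s| * |y.2| := by rw [abs_mul]
      _ ≤ ρ + (|s₁| + 1) * ρ := by gcongr
      _ = M := hM.symm
  have hUsub : ∀ s, |s - s₁| ≤ 1 → U s ⊆ Icc (-M) M := by
    rintro s hs _ ⟨y, hy, rfl⟩
    exact abs_le.1 (hUM s hs y hy)
  -- the functions
  let f : ℝ → ℝ → ℝ := fun s t => |R.evalEval s t| ^ a * φ.evalEval s t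
  let g : ℝ → ℝ → ℝ := fun s t => a * |R.evalEval s t| ^ (a - 1) *
      (SignType.sign (R.evalEval s t) : ℝ) * (dS R).evalEval s t * φ.evalEval s t
          + |R.evalEval s t| ^ a * (dS φ).evalEval s t
  have hf_deriv : ∀ s t, HasDerivAt (fun s => f s t) (g s t) s := by
    intro s t
    have h1 := (hasDerivAt_abs_rpow (R.evalEval s t) ha1).comp s (t5a_hasDerivAt R s t)
    rw [t5a_abs_rpow _ ha1] at h1
    exact h1.mul (t5a_hasDerivAt φ s t)
  have hf_cont : ∀ s, Continuous (f s) := by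
    intro s
    exact ((t5a_cont' R s).abs.rpow_const (fun _ => Or.inr (by linarith))).mul (t5a_cont' φ s)
  let K : Set (ℝ × ℝ) := Icc (s₁ - 1) (s₁ + 1) ×ˢ Icc (-M) M
  have hKc : IsCompact K := isCompact_Icc.prod isCompact_Icc
  -- bound for g
  let G : ℝ × ℝ → ℝ := fun p => a * |R.evalEval p.1 p.2| ^ (a - 1) *
      |(dS R).evalEval p.1 p.2| * |φ.evalEval p.1 p.2|
          + |R.evalEval p.1 p.2| ^ a * |(dS φ).evalEval p.1 p.2|
  have hGc : Continuous G := by
    have h1 := t5a_cont R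
    have h2 := t5a_cont φ
    have h3 := t5a_cont (dS R)
    have h4 := t5a_cont (dS φ)
    exact (((continuous_const.mul (h1.abs.rpow_const (fun _ => Or.inr (by linarith)))).mul
      h3.abs).mul h2.abs).add ((h1.abs.rpow_const (fun _ => Or.inr (by linarith))).mul h4.abs)
  have hgG : ∀ s t, |g s t| ≤ G (s, t) := by
    intro s t
    have hsg : |(SignType.sign (R.evalEval s t) : ℝ)| ≤ 1 := by
      rcases lt_trichotomy (R.evalEval s t) 0 with h | h | h
      · rw [sign_neg h]; simp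
      · rw [h]; simp
      · rw [sign_pos h]; simp
    have hp1 : 0 ≤ |R.evalEval s t| ^ (a - 1) := Real.rpow_nonneg (abs_nonneg _) _
    have hp2 : 0 ≤ |R.evalEval s t| ^ a := Real.rpow_nonneg (abs_nonneg _) _
    refine (abs_add_le _ _).trans ?_
    rw [abs_mul, abs_mul, abs_mul, abs_mul, abs_mul, abs_of_nonneg hp1, abs_of_nonneg hp2,
      abs_of_pos (by linarith : (0:ℝ) < a)]
    have : a * |R.evalEval s t| ^ (a - 1) * |(SignType.sign (R.evalEval s t) : ℝ)| ≤
        a * |R.evalEval s t| ^ (a - 1) := by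
      have h0 : 0 ≤ a * |R.evalEval s t| ^ (a - 1) := by positivity
      nlinarith
    show _ ≤ a * |R.evalEval s t| ^ (a - 1) *
      |(dS R).evalEval s t| * |φ.evalEval s t| + |R.evalEval s t| ^ a * |(dS φ).evalEval s t|
    gcongr
  obtain ⟨B, hB⟩ : ∃ B, ∀ p ∈ K, G p ≤ B := by
    obtain ⟨B, hB⟩ := (hKc.image hGc).bddAbove
    exact ⟨B, fun p hp => hB (mem_image_of_mem _ hp)⟩
  -- first bracket
  have hfin : volume (U s₁) < ⊤ :=
    (measure_mono (hUsub s₁ (by simp))).trans_lt (by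
      rw [Real.volume_Icc]; exact ENNReal.ofReal_lt_top)
  have hmeasU : ∀ s, MeasurableSet (U s) := fun s => (hUo s).measurableSet
  have hfint : ∀ s, |s - s₁| ≤ 1 → IntegrableOn (f s) (U s) ∧ IntegrableOn (f s) (U s₁) := by
    intro s hs
    have h1 : IntegrableOn (f s) (Icc (-M) M) := (hf_cont s).continuousOn.integrableOn_compact
      isCompact_Icc
    exact ⟨h1.mono_set (hUsub s hs), h1.mono_set (hUsub s₁ (by simp))⟩
  have hA : HasDerivAt (fun s => ∫ t in U s₁, f s t) (∫ t in U s₁, g s₁ t) s₁ := by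
    have : IsFiniteMeasure (volume.restrict (U s₁)) := ⟨by simpa using hfin⟩
    refine (hasDerivAt_integral_of_dominated_loc_of_deriv_le (s := ball s₁ 1)
      (bound := fun _ => B) (ball_mem_nhds _ one_pos) ?_ ?_ ?_ ?_ ?_ ?_).2
    · exact Eventually.of_forall fun s => (hf_cont s).aestronglyMeasurable
    · exact (hfint s₁ (by simp)).2
    · have h1 : Measurable (g s₁) := by
        have h1 := (t5a_cont' R s₁).measurable
        have h2 := (t5a_cont' φ s₁).measurable
        have h3 := (t5a_cont' (dS R) s₁).measurable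
        have h4 := (t5a_cont' (dS φ) s₁).measurable
        have h5 : g s₁ = fun t => a * |R.evalEval s₁ t| ^ (a - 2) * R.evalEval s₁ t *
            (dS R).evalEval s₁ t * φ.evalEval s₁ t
            + |R.evalEval s₁ t| ^ a * (dS φ).evalEval s₁ t := by
          funext t
          show a * |R.evalEval s₁ t| ^ (a - 1) *
            (SignType.sign (R.evalEval s₁ t) : ℝ) * (dS R).evalEval s₁ t * φ.evalEval s₁ t
            + |R.evalEval s₁ t| ^ a * (dS φ).evalEval s₁ t = _
          rw [← t5a_abs_rpow _ ha1]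
        rw [h5]
        have h6 : Measurable fun t => |R.evalEval s₁ t| := (t5a_cont' R s₁).abs.measurable
        exact ((((measurable_const.mul (h6.pow_const _)).mul h1).mul h3).mul h2).add
          ((h6.pow_const _).mul h4)
      exact h1.aestronglyMeasurable
    · rw [ae_restrict_iff' (hmeasU s₁)]
      refine Eventually.of_forall fun t ht s hs => ?_
      rw [Real.norm_eq_abs]
      refine (hgG s t).trans (hB _ ⟨?_, hUsub s₁ (by simp) ht⟩)
      rw [mem_ball, Real.dist_eq, abs_lt] at hs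
      exact ⟨by linarith, by linarith⟩
    · exact integrable_const _
    · exact Eventually.of_forall fun t s _ => hf_deriv s t
  -- Lipschitz constant
  obtain ⟨L, hL⟩ : ∃ L, LipschitzOnWith L (fun p : ℝ × ℝ => R.evalEval p.1 p.2) K :=
    LocallyLipschitzOn.exists_lipschitzOnWith_of_compact hKc
      (t5a_contDiff R).locallyLipschitz.locallyLipschitzOn
  have hLip : ∀ s t s' t', |s - s₁| ≤ 1 → |s' - s₁| ≤ 1 → t ∈ Icc (-M) M → t' ∈ Icc (-M) M →
      |R.evalEval s t - R.evalEval s' t'| ≤ L * (|s - s'| + |t - t'|) := by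
    intro s t s' t' hs hs' ht ht'
    have h1 : ((s, t) : ℝ × ℝ) ∈ K := ⟨by rw [abs_le] at hs; exact ⟨by linarith, by linarith⟩, ht⟩
    have h2 : ((s', t') : ℝ × ℝ) ∈ K :=
      ⟨by rw [abs_le] at hs'; exact ⟨by linarith, by linarith⟩, ht'⟩
    have h3 := hL.dist_le_mul _ h1 _ h2
    rw [Real.dist_eq, Prod.dist_eq, Real.dist_eq, Real.dist_eq] at h3
    refine h3.trans ?_
    gcongr
    exact max_le (le_add_of_nonneg_right (abs_nonneg _)) (le_add_of_nonneg_left (abs_nonneg _))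
  -- the claim
  have hclaim0 : ∀ s s', s' ∈ Gd → |s - s₁| ≤ 1 → |s' - s₁| ≤ 1 → ∀ t ∈ U s, t ∉ U s' →
      |R.evalEval s' t| ≤ L * ρ * |s - s'| := by
    rintro s s' hs'G hs hs' _ ⟨y, hy, rfl⟩ hnot
    obtain ⟨t, ht⟩ : ∃ t, t = (fun y : ℝ × ℝ => y.1 + s * y.2) y := ⟨_, rfl⟩
    rw [← ht] at hnot ⊢
    obtain ⟨q, hq⟩ : ∃ q, q = y.1 + s' * y.2 := ⟨_, rfl⟩
    have hqU : q ∈ U s' := ⟨y, hy, hq.symm⟩
    have hcon : IsPreconnected (uIcc q t) := isPreconnected_uIcc
    obtain ⟨t', ht'1, ht'2⟩ : (uIcc q t ∩ frontier (U s')).Nonempty := by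
      by_contra hne
      rw [Set.not_nonempty_iff_eq_empty] at hne
      have h1 : uIcc q t ⊆ U s' ∪ (closure (U s'))ᶜ := by
        intro z hz
        by_cases hzU : z ∈ closure (U s')
        · left
          by_contra hzU'
          have : z ∈ frontier (U s') := by
            rw [(hUo s').frontier_eq]
            exact ⟨hzU, hzU'⟩
          exact (Set.eq_empty_iff_forall_notMem.1 hne z) ⟨hz, this⟩
        · right; exact hzU
      have h2 := hcon (U s') ((closure (U s'))ᶜ) (hUo s') isClosed_closure.isOpen_compl h1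
        ⟨q, left_mem_uIcc, hqU⟩ ⟨t, right_mem_uIcc, ?_⟩
      · obtain ⟨z, _, hz1, hz2⟩ := h2
        exact hz2 (subset_closure hz1)
      · rcases h1 right_mem_uIcc with h3 | h3
        · exact absurd h3 hnot
        · exact h3
    have h0 : R.evalEval s' t' = 0 := hfr s' hs'G t' ht'2
    have hqM : q ∈ Icc (-M) M := hUsub s' hs' hqU
    have htM : t ∈ Icc (-M) M := hUsub s hs ⟨y, hy, ht.symm⟩
    have ht'M : t' ∈ Icc (-M) M := (ordConnected_Icc.uIcc_subset hqM htM) ht'1
    have h3 := hLip s' t s' t' hs' hs' htM ht'M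
    rw [h0, sub_zero, sub_self, abs_zero, zero_add] at h3
    have h4 : |t - t'| ≤ |t - q| := by
      rw [abs_sub_comm t t', abs_sub_comm t q]
      rw [uIcc_comm] at ht'1
      exact abs_sub_left_of_mem_uIcc ht'1
    have h5 : |t - q| ≤ ρ * |s - s'| := by
      rw [ht, hq]
      have : y.1 + s * y.2 - (y.1 + s' * y.2) = y.2 * (s - s') := by ring
      simp only [this, abs_mul]
      have := (hρ y hy).2
      gcongr
    calc |R.evalEval s' t| ≤ L * |t - t'| := h3
      _ ≤ L * (ρ * |s - s'|) := by gcongr; exact h4.trans h5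
      _ = L * ρ * |s - s'| := by ring
  have hclaim : ∀ s ∈ Gd, |s - s₁| ≤ 1 → ∀ t, (t ∈ U s ∧ t ∉ U s₁) ∨ (t ∈ U s₁ ∧ t ∉ U s) →
      |R.evalEval s t| ≤ (L * ρ + L) * |s - s₁| := by
    intro s hs hs1 t ht
    rcases ht with ⟨h1, h2⟩ | ⟨h1, h2⟩
    · have h3 := hclaim0 s s₁ hs₁ hs1 (by simp) t h1 h2
      have h4 := hLip s t s₁ t hs1 (by simp) (hUsub s hs1 h1) (hUsub s hs1 h1)
      rw [sub_self, abs_zero, add_zero] at h4
      have h5 : |R.evalEval s t| ≤ |R.evalEval s t - R.evalEval s₁ t| + |R.evalEval s₁ t| := by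
        have := abs_add_le (R.evalEval s t - R.evalEval s₁ t) (R.evalEval s₁ t)
        simpa using this
      linarith
    · have h3 := hclaim0 s₁ s hs (by simp) hs1 t h1 h2
      rw [abs_sub_comm s₁ s] at h3
      have : 0 ≤ L * |s - s₁| := by positivity
      linarith
  -- bound for φ
  obtain ⟨P, hP0, hP⟩ : ∃ P, 0 ≤ P ∧ ∀ p ∈ K, |φ.evalEval p.1 p.2| ≤ P := by
    obtain ⟨P, hP⟩ := (hKc.image (t5a_cont φ).abs).bddAbove
    exact ⟨max P 0, le_max_right _ _, fun p hp =>
      (hP (mem_image_of_mem (fun p : ℝ × ℝ => |φ.evalEval p.1 p.2|) hp)).trans (le_max_left _ _)⟩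
  obtain ⟨C, hC⟩ : ∃ C : ℝ, C = L * ρ + L := ⟨_, rfl⟩
  have hC0 : 0 ≤ C := by rw [hC]; positivity
  have hD : ∀ s ∈ Gd, |s - s₁| ≤ 1 →
      |(∫ t in U s, f s t) - ∫ t in U s₁, f s t| ≤ (C ^ a * P * (2 * M)) * |s - s₁| ^ a := by
    intro s hs hs1
    obtain ⟨hi1, hi2⟩ := hfint s hs1
    have e1 : ∫ t in U s, f s t = ∫ t in Icc (-M) M, (U s).indicator (f s) t := by
      rw [setIntegral_indicator (hmeasU s), Set.inter_eq_self_of_subset_right (hUsub s hs1)]
    have e2 : ∫ t in U s₁, f s t = ∫ t in Icc (-M) M, (U s₁).indicator (f s) t := by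
      rw [setIntegral_indicator (hmeasU s₁),
        Set.inter_eq_self_of_subset_right (hUsub s₁ (by simp))]
    have hi : IntegrableOn (f s) (Icc (-M) M) := (hf_cont s).continuousOn.integrableOn_compact
      isCompact_Icc
    rw [e1, e2, ← integral_sub (hi.indicator (hmeasU s)) (hi.indicator (hmeasU s₁))]
    have h1 := norm_setIntegral_le_of_norm_le_const (μ := volume) (s := Icc (-M) M)
      (f := fun t => (U s).indicator (f s) t - (U s₁).indicator (f s) t)
      (C := (C * |s - s₁|) ^ a * P) (by rw [Real.volume_Icc]; exact ENNReal.ofReal_lt_top) ?_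
    · rw [Real.norm_eq_abs] at h1
      refine h1.trans (le_of_eq ?_)
      rw [Real.mul_rpow hC0 (abs_nonneg _), Real.volume_real_Icc_of_le (by linarith)]
      ring
    · intro t ht
      have hnn : 0 ≤ (C * |s - s₁|) ^ a * P := by positivity
      by_cases h1 : t ∈ U s <;> by_cases h2 : t ∈ U s₁
      · rw [indicator_of_mem h1, indicator_of_mem h2, sub_self, norm_zero]; exact hnn
      · rw [indicator_of_mem h1, indicator_of_notMem h2, sub_zero, Real.norm_eq_abs]
        have h3 := hclaim s hs hs1 t (Or.inl ⟨h1, h2⟩)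
        rw [← hC] at h3
        have h4 := hP (s, t) ⟨by rw [abs_le] at hs1; exact ⟨by linarith, by linarith⟩, ht⟩
        show |(|R.evalEval s t| ^ a * φ.evalEval s t)| ≤ _
        rw [abs_mul, abs_of_nonneg (Real.rpow_nonneg (abs_nonneg _) _)]
        gcongr
      · rw [indicator_of_notMem h1, indicator_of_mem h2, zero_sub, norm_neg, Real.norm_eq_abs]
        have h3 := hclaim s hs hs1 t (Or.inr ⟨h2, h1⟩)
        rw [← hC] at h3
        have h4 := hP (s, t) ⟨by rw [abs_le] at hs1; exact ⟨by linarith, by linarith⟩, ht⟩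
        show |(|R.evalEval s t| ^ a * φ.evalEval s t)| ≤ _
        rw [abs_mul, abs_of_nonneg (Real.rpow_nonneg (abs_nonneg _) _)]
        gcongr
      · rw [indicator_of_notMem h1, indicator_of_notMem h2, sub_self, norm_zero]; exact hnn
  have hD' : HasDerivWithinAt (fun s => (∫ t in U s, f s t) - ∫ t in U s₁, f s t) 0 Gd s₁ := by
    rw [hasDerivWithinAt_iff_isLittleO]
    simp only [sub_self, smul_zero, sub_zero]
    obtain ⟨Q, hQ⟩ : ∃ Q : ℝ, Q = C ^ a * P * (2 * M) := ⟨_, rfl⟩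
    have hbig : (fun s => (∫ t in U s, f s t) - ∫ t in U s₁, f s t) =O[𝓝[Gd] s₁]
        fun s => |s - s₁| ^ (a - 1) * (s - s₁) := by
      refine Asymptotics.IsBigO.of_bound Q ?_
      have h1 : ∀ᶠ s in 𝓝[Gd] s₁, |s - s₁| ≤ 1 := by
        apply Filter.Eventually.filter_mono nhdsWithin_le_nhds
        filter_upwards [closedBall_mem_nhds s₁ one_pos] with s hs
        rwa [mem_closedBall, Real.dist_eq] at hs
      filter_upwards [h1, self_mem_nhdsWithin] with s hs1 hs2
      have h2 := hD s hs2 hs1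
      rw [Real.norm_eq_abs, Real.norm_eq_abs, abs_mul,
        abs_of_nonneg (Real.rpow_nonneg (abs_nonneg _) _)]
      refine h2.trans (le_of_eq ?_)
      rw [← hQ]
      congr 1
      rcases eq_or_ne (s - s₁) 0 with h | h
      · rw [h, abs_zero, Real.zero_rpow (by linarith), mul_zero]
      · rw [← Real.rpow_add_one (abs_pos.2 h).ne']
        congr 1; ring
    have hlit : (fun s => |s - s₁| ^ (a - 1) * (s - s₁)) =o[𝓝[Gd] s₁] fun s => s - s₁ := by
      have h1 : Tendsto (fun s => |s - s₁| ^ (a - 1)) (𝓝[Gd] s₁) (𝓝 0) := by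
        have h2 : Continuous (fun s : ℝ => |s - s₁| ^ (a - 1)) :=
          ((continuous_id.sub continuous_const).abs).rpow_const (fun _ => Or.inr (by linarith))
        have h3 := h2.tendsto s₁
        simp only [sub_self, abs_zero, Real.zero_rpow (by linarith : a - 1 ≠ 0)] at h3
        exact h3.mono_left nhdsWithin_le_nhds
      have h4 := (Asymptotics.isLittleO_one_iff (F := ℝ)).2 h1
      have h5 := h4.mul_isBigO (Asymptotics.isBigO_refl (fun s => s - s₁) (𝓝[Gd] s₁))
      simpa using h5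
    exact hbig.trans_isLittleO hlit
  have hfinal := hA.hasDerivWithinAt (s := Gd) |>.add hD'
  rw [add_zero] at hfinal
  refine hfinal.congr_of_eventuallyEq ?_ ?_
  · filter_upwards with s
    show _ = (∫ t in U s₁, f s t) + ((∫ t in U s, f s t) - ∫ t in U s₁, f s t)
    rw [add_sub_cancel]
  · show _ = (∫ t in U s₁, f s₁ t) + ((∫ t in U s₁, f s₁ t) - ∫ t in U s₁, f s₁ t)
    rw [add_sub_cancel]

end AS.J4090

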