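import Mathlib
import Pool.Agent.Helper272.Ell.Defs
import Pool.Agent.Helper272.Ell.J4090

set_option autoImplicit false
open Polynomial Set Filter Topology MeasureTheory Metric

namespace AS.J4317

open AS.J4090 (theta_deriv)

theorem coeff_dS (R : ℝ[X][X]) (n : ℕ) : (dS R).coeff n = derivative (R.coeff n) := by
  unfold dS
  rw [Polynomial.sum_def, finsetSum_coeff]
  simp only [coeff_monomial]
  rw [Finset.sum_ite_eq' R.support n]
  split_ifs with h
  · rfl
  · rw [notMem_support_iff.mp h, derivative_zero]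

theorem dS_add (p q : ℝ[X][X]) : dS (p + q) = dS p + dS q := by
  ext1 n
  rw [coeff_add, coeff_dS, coeff_dS, coeff_dS, coeff_add, derivative_add]

theorem dS_monomial (n : ℕ) (r : ℝ[X]) : dS (monomial n r) = monomial n (derivative r) := by
  ext1 k
  rw [coeff_dS, coeff_monomial, coeff_monomial]
  split_ifs
  · rfl
  · exact derivative_zero

theorem dS_X_pow (k : ℕ) : dS ((X : ℝ[X][X]) ^ k) = 0 := by
  rw [← monomial_one_right_eq_X_pow, dS_monomial, derivative_one, monomial_zero_right]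

theorem dS_mul_X_pow (R : ℝ[X][X]) (k : ℕ) : dS (R * X ^ k) = dS R * X ^ k := by
  ext1 n
  rw [coeff_dS, coeff_mul_X_pow', coeff_mul_X_pow']
  split_ifs
  · rw [coeff_dS]
  · exact derivative_zero

/-- nice families of polynomials -/
def Nice (Q : ℝ × ℝ → ℝ[X]) : Prop :=
  (∃ D, ∀ y, (Q y).natDegree < D) ∧ ∀ k, Continuous fun y => (Q y).coeff k

theorem Nice.add {P Q : ℝ × ℝ → ℝ[X]} (hP : Nice P) (hQ : Nice Q) : Nice (fun y => P y + Q y) := by
  obtain ⟨⟨D1, h1⟩, c1⟩ := hP
  obtain ⟨⟨D2, h2⟩, c2⟩ := hQ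
  refine ⟨⟨max D1 D2, fun y => ?_⟩, fun k => ?_⟩
  · exact (natDegree_add_le _ _).trans_lt (max_lt_max (h1 y) (h2 y))
  · simp only [coeff_add]
    exact (c1 k).add (c2 k)

theorem Nice.mul {P Q : ℝ × ℝ → ℝ[X]} (hP : Nice P) (hQ : Nice Q) : Nice (fun y => P y * Q y) := by
  obtain ⟨⟨D1, h1⟩, c1⟩ := hP
  obtain ⟨⟨D2, h2⟩, c2⟩ := hQ
  refine ⟨⟨D1 + D2, fun y => ?_⟩, fun k => ?_⟩
  · refine natDegree_mul_le.trans_lt ?_
    have := h1 y
    have := h2 y
    omega
  · simp only [coeff_mul]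
    exact continuous_finsetSum _ fun i _ => (c1 _).mul (c2 _)

theorem Nice.const (p : ℝ[X]) : Nice (fun _ => p) :=
  ⟨⟨p.natDegree + 1, fun _ => Nat.lt_succ_self _⟩, fun _ => continuous_const⟩

theorem Nice.ofC {f : ℝ × ℝ → ℝ} (hf : Continuous f) : Nice (fun y => C (f y)) := by
  refine ⟨⟨1, fun y => by simp⟩, fun k => ?_⟩
  simp only [coeff_C]
  split_ifs
  · exact hf
  · exact continuous_const

theorem Nice.pow {P : ℝ × ℝ → ℝ[X]} (hP : Nice P) (n : ℕ) : Nice (fun y => P y ^ n) := by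
  induction n with
  | zero => simpa using Nice.const 1
  | succ n ih =>
    simp only [pow_succ]
    exact ih.mul hP

/-- the substitution -/
noncomputable def qq (y : ℝ × ℝ) : ℝ[X] := C y.1 + X * C y.2

theorem nice_q : Nice qq :=
  (Nice.ofC continuous_fst).add ((Nice.const X).mul (Nice.ofC continuous_snd))

theorem nice_eval (ψ : ℝ[X][X]) : Nice (fun y => ψ.eval (qq y)) := by
  induction ψ using Polynomial.induction_on' with
  | add p r hp hr =>
    simp only [eval_add]
    exact hp.add hr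
  | monomial n r =>
    simp only [eval_monomial]
    exact (Nice.const r).mul (nice_q.pow n)

theorem eval_q (ψ : ℝ[X][X]) (s : ℝ) (y : ℝ × ℝ) :
    (ψ.eval (qq y)).eval s = ψ.evalEval s (y.1 + s * y.2) := by
  induction ψ using Polynomial.induction_on' with
  | add p r hp hr =>
    simp only [eval_add, evalEval_add, hp, hr]
  | monomial n r =>
    simp only [evalEval, qq, eval_monomial, eval_mul, eval_pow, eval_add, eval_C, eval_X]

theorem derivative_eval_q (ψ : ℝ[X][X]) (y : ℝ × ℝ) :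
    derivative (ψ.eval (qq y)) = (dS ψ).eval (qq y) + C y.2 * (derivative ψ).eval (qq y) := by
  induction ψ using Polynomial.induction_on' with
  | add p r hp hr =>
    simp only [eval_add, derivative_add, hp, hr, dS_add]
    ring
  | monomial n r =>
    rw [dS_monomial, derivative_monomial, eval_monomial, eval_monomial, eval_monomial,
      derivative_mul, derivative_pow]
    have : derivative (qq y) = C y.2 := by simp [qq]
    rw [this]
    simp only [map_natCast]
    ring

theorem poly_moment (μ : Measure (ℝ × ℝ)) (hI : ∀ f : ℝ × ℝ → ℝ, Continuous f → Integrable f μ)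
    (Q : ℝ × ℝ → ℝ[X]) (hQ : Nice Q) : ∃ p : ℝ[X], (∀ s, ∫ y, (Q y).eval s ∂μ = p.eval s) ∧
      (∀ s, ∫ y, (derivative (Q y)).eval s ∂μ = (derivative p).eval s) := by
  obtain ⟨⟨D, hD⟩, hc⟩ := hQ
  refine ⟨∑ k ∈ Finset.range D, monomial k (∫ y, (Q y).coeff k ∂μ), fun s => ?_, fun s => ?_⟩
  · have h1 : ∀ y, (Q y).eval s = ∑ k ∈ Finset.range D, (Q y).coeff k * s ^ k := fun y =>
      eval_eq_sum_range' (hD y) s
    simp only [h1]
    rw [integral_finsetSum _ fun k _ => (hI _ (hc k)).mul_const _]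
    simp only [eval_finsetSum, eval_monomial, integral_mul_const]
  · have h1 : ∀ y, (derivative (Q y)).eval s =
        ∑ k ∈ Finset.range D, (Q y).coeff k * (k * s ^ (k - 1)) := by
      intro y
      conv_lhs => rw [as_sum_range' (Q y) D (hD y)]
      simp only [derivative_sum, derivative_monomial, eval_finsetSum, eval_monomial, mul_assoc]
    simp only [h1]
    rw [integral_finsetSum _ fun k _ => (hI _ (hc k)).mul_const _]
    simp only [derivative_sum, derivative_monomial, eval_finsetSum, eval_monomial,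
      integral_mul_const, mul_assoc]

theorem continuous_evalEval (ψ : ℝ[X][X]) : Continuous fun p : ℝ × ℝ => ψ.evalEval p.1 p.2 := by
  induction ψ using Polynomial.induction_on' with
  | add p r hp hr =>
    simp only [evalEval_add]
    exact hp.add hr
  | monomial n r =>
    simp only [evalEval, eval_monomial, eval_mul, eval_pow, eval_C]
    exact (r.continuous.comp continuous_fst).mul (continuous_snd.pow n)

theorem isOpen_U (Y : Set (ℝ × ℝ)) (hYo : IsOpen Y) (s : ℝ) :
    IsOpen ((fun y : ℝ × ℝ => y.1 + s * y.2) '' Y) := by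
  have : (fun y : ℝ × ℝ => y.1 + s * y.2) '' Y =
      ⋃ b : ℝ, (fun t : ℝ => (t - s * b, b)) ⁻¹' Y := by
    ext t
    constructor
    · rintro ⟨y, hy, rfl⟩
      refine mem_iUnion.mpr ⟨y.2, ?_⟩
      show (y.1 + s * y.2 - s * y.2, y.2) ∈ Y
      rw [add_sub_cancel_right]
      exact hy
    · intro ht
      obtain ⟨b, hb⟩ := mem_iUnion.mp ht
      exact ⟨(t - s * b, b), hb, by simp⟩
  rw [this]
  exact isOpen_iUnion fun b => hYo.preimage (by fun_prop)

theorem split4 {μ : Measure (ℝ × ℝ)} {fa fb fc fe : ℝ × ℝ → ℝ} (ha : Integrable fa μ)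
    (hb : Integrable fb μ) (hc : Integrable fc μ) (he : Integrable fe μ) (α β γ δ : ℝ) :
    ∫ y, (α * fa y - β * fb y + γ * fc y + δ * fe y) ∂μ =
      α * ∫ y, fa y ∂μ - β * ∫ y, fb y ∂μ + γ * ∫ y, fc y ∂μ + δ * ∫ y, fe y ∂μ := by
  have i1 : Integrable (fun y => α * fa y - β * fb y) μ := (ha.const_mul α).sub (hb.const_mul β)
  have e1 : ∫ y, (α * fa y - β * fb y) ∂μ = α * ∫ y, fa y ∂μ - β * ∫ y, fb y ∂μ := by
    rw [integral_sub (ha.const_mul α) (hb.const_mul β), integral_const_mul, integral_const_mul]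
  have i2 : Integrable (fun y => α * fa y - β * fb y + γ * fc y) μ := i1.add (hc.const_mul γ)
  have e2 : ∫ y, (α * fa y - β * fb y + γ * fc y) ∂μ =
      α * ∫ y, fa y ∂μ - β * ∫ y, fb y ∂μ + γ * ∫ y, fc y ∂μ := by
    rw [integral_add i1 (hc.const_mul γ), e1, integral_const_mul]
  rw [integral_add i2 (he.const_mul δ), e2, integral_const_mul]

/-- TARGET -/
theorem real_S (Y : Set (ℝ × ℝ)) (hYo : IsOpen Y) (hYne : Y.Nonempty)
    (hYb : Bornology.IsBounded Y) (μ : Measure (ℝ × ℝ)) [IsFiniteMeasure μ] (hμ : μ Yᶜ = 0)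
    (m : ℕ) (hm : 0 < m) (P : ℝ → ℝ[X]) (Bad : Set ℝ) (hBad : Bad.Countable)
    (hpos : ∀ s, ∀ t ∈ (fun y : ℝ × ℝ => y.1 + s * y.2) '' Y, 0 < (P s).eval t)
    (hint : ∀ s, ∀ φ : ℝ → ℝ, Continuous φ → ∫ y, φ (y.1 + s * y.2) ∂μ
        = ∫ t in (fun y : ℝ × ℝ => y.1 + s * y.2) '' Y, φ t * (P s).eval t ^ (1 / (m : ℝ)))
    (hfr : ∀ s ∉ Bad, ∀ t ∈ frontier ((fun y : ℝ × ℝ => y.1 + s * y.2) '' Y), (P s).eval t = 0)
    (R : ℝ[X][X]) (hR : R ≠ 0)
    (hRP : ∀ s ∉ Bad, R.map (evalRingHom s) ≠ 0 →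
      ∃ c : ℝ, c ≠ 0 ∧ R.map (evalRingHom s) = C c * P s) :
    ∃ N G : ℝ[X], N ≠ 0 ∧ ∀ s ∉ Bad, R.map (evalRingHom s) ≠ 0 → ∀ k : ℕ,
      ∫ y, ((N.eval s * (m * y.2 * (derivative R).evalEval s (y.1 + s * y.2)
              - (dS R).evalEval s (y.1 + s * y.2))
            + G.eval s * R.evalEval s (y.1 + s * y.2)) * (y.1 + s * y.2) ^ k
          + N.eval s * (m * y.2 * R.evalEval s (y.1 + s * y.2))
            * (k * (y.1 + s * y.2) ^ (k - 1))) ∂μ = 0 := by
  classical
  have hm' : (0 : ℝ) < m := by exact_mod_cast hm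
  -- integrability
  have hI : ∀ f : ℝ × ℝ → ℝ, Continuous f → Integrable f μ := by
    intro f hf
    obtain ⟨B, hB⟩ := (hYb.isCompact_closure).exists_bound_of_continuousOn hf.continuousOn
    refine Integrable.of_bound hf.aestronglyMeasurable B ?_
    have h1 : ∀ᵐ y ∂μ, y ∈ Y := by
      rw [ae_iff]
      exact hμ
    filter_upwards [h1] with y hy
    exact hB y (subset_closure hy)
  have hcl : ∀ (ψ : ℝ[X][X]) (s : ℝ), Continuous fun y : ℝ × ℝ => ψ.evalEval s (y.1 + s * y.2) :=
    fun ψ s => (continuous_evalEval ψ).comp (by fun_prop :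
      Continuous fun y : ℝ × ℝ => ((s, y.1 + s * y.2) : ℝ × ℝ))
  have hct : ∀ (ψ : ℝ[X][X]) (s : ℝ), Continuous fun t : ℝ => ψ.evalEval s t :=
    fun ψ s => (continuous_evalEval ψ).comp (by fun_prop : Continuous fun t : ℝ => ((s, t) : ℝ × ℝ))
  set L : ℝ[X][X] → ℝ → ℝ := fun ψ s => ∫ y, ψ.evalEval s (y.1 + s * y.2) ∂μ with hLdef
  have hL : ∀ ψ : ℝ[X][X], ∃ p : ℝ[X], (∀ s, L ψ s = p.eval s) ∧
      ∀ s, L (dS ψ) s + ∫ y, y.2 * (derivative ψ).evalEval s (y.1 + s * y.2) ∂μ =
        (derivative p).eval s := by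
    intro ψ
    obtain ⟨p, h1, h2⟩ := poly_moment μ hI _ (nice_eval ψ)
    refine ⟨p, fun s => ?_, fun s => ?_⟩
    · rw [← h1 s]
      simp only [eval_q, hLdef]
    · rw [← h2 s]
      simp only [derivative_eval_q, eval_add, eval_mul, eval_C, eval_q, hLdef]
      exact (integral_add (hI _ (hcl (dS ψ) s))
        (hI _ (continuous_snd.mul (hcl (derivative ψ) s)))).symm
  choose! c hc using hRP
  set Gd : Set ℝ := {s | s ∉ Bad ∧ R.map (evalRingHom s) ≠ 0} with hGd
  set κ : ℝ → ℝ := fun s => (SignType.sign (c s) : ℝ) * |c s| ^ (1 / (m : ℝ)) with hκ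
  have hκne : ∀ s ∈ Gd, κ s ≠ 0 := by
    intro s hs
    have h1 := (hc s hs.1 hs.2).1
    have h2 : (SignType.sign (c s) : ℝ) ≠ 0 := by
      rcases lt_or_gt_of_ne h1 with h | h
      · rw [sign_neg h]; norm_num
      · rw [sign_pos h]; norm_num
    exact mul_ne_zero h2 (Real.rpow_pos_of_pos (abs_pos.mpr h1) _).ne'
  have hReval : ∀ s ∈ Gd, ∀ t, R.evalEval s t = c s * (P s).eval t := by
    intro s hs t
    have h1 := (hc s hs.1 hs.2).2
    have h2 := congrArg (eval t) h1
    rw [map_evalRingHom_eval, eval_mul, eval_C] at h2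
    exact h2
  have hpw1 : ∀ s ∈ Gd, ∀ t ∈ (fun y : ℝ × ℝ => y.1 + s * y.2) '' Y,
      |R.evalEval s t| ^ (1 / (m : ℝ)) * (SignType.sign (R.evalEval s t) : ℝ) =
        κ s * (P s).eval t ^ (1 / (m : ℝ)) := by
    intro s hs t ht
    have hP := hpos s t ht
    rw [hReval s hs t, abs_mul, abs_of_pos hP, Real.mul_rpow (abs_nonneg _) hP.le, sign_mul,
      sign_pos hP, mul_one]
    simp only [hκ]
    ring
  have hpw2 : ∀ s ∈ Gd, ∀ t ∈ (fun y : ℝ × ℝ => y.1 + s * y.2) '' Y,
      |R.evalEval s t| ^ (1 + 1 / (m : ℝ)) =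
        κ s * (R.evalEval s t * (P s).eval t ^ (1 / (m : ℝ))) := by
    intro s hs t ht
    have hP := hpos s t ht
    have hc0 := (hc s hs.1 hs.2).1
    have h1 : 0 < |R.evalEval s t| := by
      rw [hReval s hs t, abs_mul, abs_of_pos hP]
      exact mul_pos (abs_pos.mpr hc0) hP
    rw [Real.rpow_add h1, Real.rpow_one, hReval s hs t, abs_mul, abs_of_pos hP,
      Real.mul_rpow (abs_nonneg _) hP.le]
    have h2 : |c s| = (SignType.sign (c s) : ℝ) * c s := by
      rcases lt_or_gt_of_ne hc0 with h | h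
      · rw [sign_neg h, abs_of_neg h]; simp
      · rw [sign_pos h, abs_of_pos h]; simp
    simp only [hκ]
    nth_rewrite 1 [h2]
    ring
  -- the function Θ
  set Th : ℝ[X][X] → ℝ → ℝ := fun φ s => ∫ t in (fun y : ℝ × ℝ => y.1 + s * y.2) '' Y,
        |R.evalEval s t| ^ (1 + 1 / (m : ℝ)) * φ.evalEval s t with hTh
  have hThval : ∀ φ : ℝ[X][X], ∀ s ∈ Gd, Th φ s = κ s * L (R * φ) s := by
    intro φ s hs
    simp only [hTh, hLdef]
    rw [hint s (fun t => (R * φ).evalEval s t) (hct _ s), ← integral_const_mul]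
    refine setIntegral_congr_fun (isOpen_U Y hYo s).measurableSet fun t ht => ?_
    beta_reduce
    rw [hpw2 s hs t ht, evalEval_mul]
    ring
  have hThder : ∀ φ : ℝ[X][X], ∀ s ∈ Gd, HasDerivWithinAt (Th φ)
      (κ s * ((1 + 1 / (m : ℝ)) * L (dS R * φ) s + L (R * dS φ) s)) Gd s := by
    intro φ s hs
    have h1 := theta_deriv Y hYo hYb m hm R φ Gd (fun s hs t ht => by
      rw [hReval s hs t, hfr s hs.1 t ht, mul_zero]) s hs
    convert h1 using 1
    have h2 : (1 + 1 / (m : ℝ)) * L (dS R * φ) s + L (R * dS φ) s =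
        ∫ y, ((1 + 1 / (m : ℝ)) * (dS R * φ).evalEval s (y.1 + s * y.2) +
          (R * dS φ).evalEval s (y.1 + s * y.2)) ∂μ := by
      rw [integral_add ((hI _ (hcl _ s)).const_mul _) (hI _ (hcl _ s)), integral_const_mul]
    rw [h2, hint s (fun t => (1 + 1 / (m : ℝ)) * (dS R * φ).evalEval s t + (R * dS φ).evalEval s t)
      ((continuous_const.mul (hct _ s)).add (hct _ s)), ← integral_const_mul]
    refine setIntegral_congr_fun (isOpen_U Y hYo s).measurableSet fun t ht => ?_
    beta_reduce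
    rw [hpw2 s hs t ht, evalEval_mul, evalEval_mul]
    have h3 := hpw1 s hs t ht
    calc κ s * (((1 + 1 / (m : ℝ)) * ((dS R).evalEval s t * φ.evalEval s t) +
          R.evalEval s t * (dS φ).evalEval s t) * (P s).eval t ^ (1 / (m : ℝ)))
        = (1 + 1 / (m : ℝ)) * (κ s * (P s).eval t ^ (1 / (m : ℝ))) * (dS R).evalEval s t *
            φ.evalEval s t + κ s * (R.evalEval s t * (P s).eval t ^ (1 / (m : ℝ))) *
              (dS φ).evalEval s t := by ring
      _ = _ := by rw [← h3]; ring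
  -- N
  obtain ⟨N, hN1, -⟩ := hL (R * R)
  obtain ⟨P1, hP1, -⟩ := hL (R * dS R)
  have hNpos : ∀ s ∈ Gd, 0 < N.eval s := by
    intro s hs
    rw [← hN1 s]
    simp only [hLdef]
    rw [hint s (fun t => (R * R).evalEval s t) (hct _ s)]
    have hcont : Continuous fun t : ℝ => (R * R).evalEval s t * (P s).eval t ^ (1 / (m : ℝ)) :=
      (hct _ s).mul ((P s).continuous.rpow_const fun t => Or.inr (by positivity))
    have hUo := isOpen_U Y hYo s
    have hUne : ((fun y : ℝ × ℝ => y.1 + s * y.2) '' Y).Nonempty := hYne.image _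
    have hUb : IsCompact ((fun y : ℝ × ℝ => y.1 + s * y.2) '' closure Y) :=
      hYb.isCompact_closure.image (by fun_prop)
    have hpt : ∀ t ∈ (fun y : ℝ × ℝ => y.1 + s * y.2) '' Y,
        0 < (R * R).evalEval s t * (P s).eval t ^ (1 / (m : ℝ)) := by
      intro t ht
      have hP := hpos s t ht
      have hc0 := (hc s hs.1 hs.2).1
      rw [evalEval_mul, hReval s hs t]
      have h1 : 0 < (c s * (P s).eval t) * (c s * (P s).eval t) :=
        mul_self_pos.mpr (mul_ne_zero hc0 hP.ne')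
      exact mul_pos h1 (Real.rpow_pos_of_pos hP _)
    rw [setIntegral_pos_iff_support_of_nonneg_ae]
    · have h2 : (fun y : ℝ × ℝ => y.1 + s * y.2) '' Y ⊆
          (Function.support fun t : ℝ => (R * R).evalEval s t * (P s).eval t ^ (1 / (m : ℝ))) ∩
            ((fun y : ℝ × ℝ => y.1 + s * y.2) '' Y) := fun t ht => ⟨(hpt t ht).ne', ht⟩
      exact lt_of_lt_of_le (hUo.measure_pos volume hUne) (measure_mono h2)
    · filter_upwards [ae_restrict_mem hUo.measurableSet] with t ht
      exact (hpt t ht).le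
    · exact (hcont.continuousOn.integrableOn_compact hUb).mono_set
        (image_mono subset_closure)
  -- Gd is large
  have hGdc : (Gdᶜ).Countable := by
    obtain ⟨n, hn⟩ : ∃ n, R.coeff n ≠ 0 := by
      by_contra h
      push Not at h
      exact hR (Polynomial.ext fun n => by rw [h n, coeff_zero])
    refine (hBad.union ((R.coeff n).roots.toFinset.finite_toSet.countable)).mono ?_
    intro s hs
    by_cases hb : s ∈ Bad
    · exact Or.inl hb
    · right
      have h1 : R.map (evalRingHom s) = 0 := by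
        by_contra h
        exact hs ⟨hb, h⟩
      have h2 := congrArg (fun p => coeff p n) h1
      simp only [coeff_map, coeff_zero, coe_evalRingHom] at h2
      simp only [Finset.mem_coe, Multiset.mem_toFinset]
      exact (mem_roots hn).mpr h2
  have hGdne : Gd.Nonempty := by
    by_contra h
    rw [Set.not_nonempty_iff_eq_empty] at h
    rw [h, compl_empty] at hGdc
    exact Set.not_countable_univ hGdc
  have hUD : ∀ s ∈ Gd, UniqueDiffWithinAt ℝ Gd s := by
    intro s hs
    rw [uniqueDiffWithinAt_iff_accPt, accPt_principal_iff_clusterPt, ← mem_closure_iff_clusterPt]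
    have h1 : ((Gd \ {s})ᶜ).Countable := by
      have : (Gd \ {s})ᶜ = Gdᶜ ∪ {s} := by
        ext x; simp only [mem_compl_iff, mem_diff, mem_singleton_iff, mem_union]; tauto
      rw [this]
      exact hGdc.union (countable_singleton s)
    have h2 := h1.dense_compl ℝ
    rw [compl_compl] at h2
    exact h2 s
  obtain ⟨s0, hs0⟩ := hGdne
  refine ⟨N, C (m : ℝ) * (C (2 + 1 / (m : ℝ)) * P1 - derivative N), ?_, ?_⟩
  · intro h
    have := hNpos s0 hs0
    rw [h, eval_zero] at this
    exact lt_irrefl _ this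
  intro s hsB hsR k
  have hs : s ∈ Gd := ⟨hsB, hsR⟩
  have hNs := hNpos s hs
  -- derivative of κ
  have hκder : HasDerivWithinAt κ (κ s * (((2 + 1 / (m : ℝ)) * P1.eval s -
      (derivative N).eval s) / N.eval s)) Gd s := by
    have h1 := (hThder R s hs).div (N.hasDerivAt s).hasDerivWithinAt hNs.ne'
    refine (h1.congr (fun x hx => ?_) ?_).congr_deriv ?_
    · have := hThval R x hx
      rw [hN1] at this
      show κ x = Th R x / N.eval x
      rw [this, mul_div_assoc, div_self (hNpos x hx).ne', mul_one]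
    · have := hThval R s hs
      rw [hN1] at this
      show κ s = Th R s / N.eval s
      rw [this, mul_div_assoc, div_self hNs.ne', mul_one]
    · have h2 := hThval R s hs
      rw [hN1] at h2
      rw [h2, mul_comm (dS R) R, hP1 s]
      field_simp
      ring
  obtain ⟨pk, hpk1, hpk2⟩ := hL (R * X ^ k)
  have hder1 : HasDerivWithinAt (Th (X ^ k)) (κ s * (((2 + 1 / (m : ℝ)) * P1.eval s -
      (derivative N).eval s) / N.eval s) * pk.eval s + κ s * (derivative pk).eval s) Gd s := by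
    refine (hκder.mul (pk.hasDerivAt s).hasDerivWithinAt).congr (fun x hx => ?_) ?_
    · show Th (X ^ k) x = κ x * pk.eval x
      rw [hThval _ x hx, hpk1]
    · show Th (X ^ k) s = κ s * pk.eval s
      rw [hThval _ s hs, hpk1]
  have hder2 := hThder (X ^ k) s hs
  have huniq := (hUD s hs).eq_deriv _ hder1 hder2
  rw [dS_X_pow, mul_zero] at huniq
  have hL0 : L 0 s = 0 := by
    simp only [hLdef, evalEval_zero, integral_zero]
  rw [hL0, add_zero] at huniq
  have hpk2' := hpk2 s
  rw [dS_mul_X_pow] at hpk2'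
  -- integrals
  have hia : Integrable (fun y : ℝ × ℝ => y.2 * ((derivative R).evalEval s (y.1 + s * y.2) *
      (y.1 + s * y.2) ^ k)) μ :=
    hI _ (continuous_snd.mul ((hcl _ s).mul (by fun_prop)))
  have hib : Integrable (fun y : ℝ × ℝ => (dS R).evalEval s (y.1 + s * y.2) *
      (y.1 + s * y.2) ^ k) μ := hI _ ((hcl _ s).mul (by fun_prop))
  have hic : Integrable (fun y : ℝ × ℝ => R.evalEval s (y.1 + s * y.2) *
      (y.1 + s * y.2) ^ k) μ := hI _ ((hcl _ s).mul (by fun_prop))
  have hie : Integrable (fun y : ℝ × ℝ => y.2 * (R.evalEval s (y.1 + s * y.2) *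
      (k * (y.1 + s * y.2) ^ (k - 1)))) μ :=
    hI _ (continuous_snd.mul ((hcl _ s).mul (by fun_prop)))
  have hB : L (dS R * X ^ k) s = ∫ y, (dS R).evalEval s (y.1 + s * y.2) * (y.1 + s * y.2) ^ k ∂μ := by
    simp only [hLdef, evalEval_mul, evalEval_pow, evalEval_X]
  have hCc : pk.eval s = ∫ y, R.evalEval s (y.1 + s * y.2) * (y.1 + s * y.2) ^ k ∂μ := by
    rw [← hpk1 s]
    simp only [hLdef, evalEval_mul, evalEval_pow, evalEval_X]
  have hAE : ∫ y, y.2 * (derivative (R * X ^ k)).evalEval s (y.1 + s * y.2) ∂μ =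
      (∫ y, y.2 * ((derivative R).evalEval s (y.1 + s * y.2) * (y.1 + s * y.2) ^ k) ∂μ) +
      ∫ y, y.2 * (R.evalEval s (y.1 + s * y.2) * (k * (y.1 + s * y.2) ^ (k - 1))) ∂μ := by
    rw [← integral_add hia hie]
    refine integral_congr_ae (Filter.Eventually.of_forall fun y => ?_)
    simp only [derivative_mul, derivative_X_pow, evalEval_add, evalEval_mul, evalEval_pow,
      evalEval_X, evalEval_natCast, map_natCast]
    ring
  rw [hAE, hB] at hpk2'
  rw [hB] at huniq
  set IA := ∫ y, y.2 * ((derivative R).evalEval s (y.1 + s * y.2) * (y.1 + s * y.2) ^ k) ∂μ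
  set IB := ∫ y, (dS R).evalEval s (y.1 + s * y.2) * (y.1 + s * y.2) ^ k ∂μ
  set IC := ∫ y, R.evalEval s (y.1 + s * y.2) * (y.1 + s * y.2) ^ k ∂μ
  set IE := ∫ y, y.2 * (R.evalEval s (y.1 + s * y.2) * (k * (y.1 + s * y.2) ^ (k - 1))) ∂μ
  have hsplit : ∫ y, ((N.eval s * (m * y.2 * (derivative R).evalEval s (y.1 + s * y.2)
              - (dS R).evalEval s (y.1 + s * y.2))
            + (C (m : ℝ) * (C (2 + 1 / (m : ℝ)) * P1 - derivative N)).eval s *
              R.evalEval s (y.1 + s * y.2)) * (y.1 + s * y.2) ^ k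
          + N.eval s * (m * y.2 * R.evalEval s (y.1 + s * y.2))
            * (k * (y.1 + s * y.2) ^ (k - 1))) ∂μ =
      (N.eval s * m) * IA - N.eval s * IB +
        (C (m : ℝ) * (C (2 + 1 / (m : ℝ)) * P1 - derivative N)).eval s * IC +
        (N.eval s * m) * IE := by
    rw [← split4 hia hib hic hie]
    refine integral_congr_ae (Filter.Eventually.of_forall fun y => ?_)
    beta_reduce
    ring
  rw [hsplit]
  have hκs := hκne s hs
  have h4 : ((2 + 1 / (m : ℝ)) * P1.eval s - (derivative N).eval s) / N.eval s * IC +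
      (IB + (IA + IE)) = (1 + 1 / (m : ℝ)) * IB := by
    apply mul_left_cancel₀ hκs
    rw [← huniq, hCc, ← hpk2']
    ring
  have h5 : (C (m : ℝ) * (C (2 + 1 / (m : ℝ)) * P1 - derivative N)).eval s =
      m * ((2 + 1 / (m : ℝ)) * P1.eval s - (derivative N).eval s) := by
    simp only [eval_mul, eval_C, eval_sub]
  rw [h5]
  set Γ := (2 + 1 / (m : ℝ)) * P1.eval s - (derivative N).eval s
  have h6 : Γ * IC + N.eval s * (IB + (IA + IE)) = N.eval s * ((1 + 1 / (m : ℝ)) * IB) := by
    rw [← h4]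
    field_simp
  have h7 : (m : ℝ) * (Γ * IC + N.eval s * (IB + (IA + IE))) =
      N.eval s * ((m + 1) * IB) := by
    rw [h6]
    field_simp
  linear_combination h7

end AS.J4317

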