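import Mathlib
import Pool.Agent.Helper272.Ell.Defs

set_option autoImplicit false
open Polynomial Set Filter Topology MeasureTheory Metric

namespace AS.J4391

/-- good families of polynomials -/
def C1cGood (q : ℝ × ℝ → ℝ[X]) : Prop :=
  (∃ d : ℕ, ∀ y, (q y).natDegree ≤ d) ∧ ∀ j, Continuous (fun y => (q y).coeff j)

theorem c1c_const (p : ℝ[X]) : C1cGood (fun _ => p) :=
  ⟨⟨p.natDegree, fun _ => le_rfl⟩, fun _ => continuous_const⟩

theorem c1c_add {p q : ℝ × ℝ → ℝ[X]} (hp : C1cGood p) (hq : C1cGood q) :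
    C1cGood (fun y => p y + q y) := by
  obtain ⟨⟨d, hd⟩, hc⟩ := hp
  obtain ⟨⟨e, he⟩, hc'⟩ := hq
  refine ⟨⟨max d e, fun y => ?_⟩, fun j => ?_⟩
  · exact (natDegree_add_le _ _).trans (max_le_max (hd y) (he y))
  · simp only [coeff_add]
    exact (hc j).add (hc' j)

theorem c1c_mul {p q : ℝ × ℝ → ℝ[X]} (hp : C1cGood p) (hq : C1cGood q) :
    C1cGood (fun y => p y * q y) := by
  obtain ⟨⟨d, hd⟩, hc⟩ := hp
  obtain ⟨⟨e, he⟩, hc'⟩ := hq
  refine ⟨⟨d + e, fun y => ?_⟩, fun j => ?_⟩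
  · exact natDegree_mul_le.trans (add_le_add (hd y) (he y))
  · simp only [coeff_mul]
    exact continuous_finsetSum _ fun i _ => (hc _).mul (hc' _)

theorem c1c_sub {p q : ℝ × ℝ → ℝ[X]} (hp : C1cGood p) (hq : C1cGood q) :
    C1cGood (fun y => p y - q y) := by
  have h := c1c_add hp (c1c_mul (c1c_const (-1)) hq)
  have e : (fun y => p y - q y) = fun y => p y + (-1) * q y := by
    funext y; ring
  rw [e]
  exact h

theorem c1c_pow {p : ℝ × ℝ → ℝ[X]} (hp : C1cGood p) (k : ℕ) : C1cGood (fun y => p y ^ k) := by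
  induction k with
  | zero => simpa using c1c_const 1
  | succ k ih =>
    simp only [pow_succ]
    exact c1c_mul ih hp

theorem c1c_C {c : ℝ × ℝ → ℝ} (hc : Continuous c) : C1cGood (fun y => C (c y)) := by
  refine ⟨⟨0, fun y => by simp⟩, fun j => ?_⟩
  simp only [coeff_C]
  split_ifs
  · exact hc
  · exact continuous_const

theorem c1c_sum {ι : Type*} (s : Finset ι) {p : ι → ℝ × ℝ → ℝ[X]}
    (hp : ∀ i ∈ s, C1cGood (p i)) : C1cGood (fun y => ∑ i ∈ s, p i y) := by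
  classical
  induction s using Finset.induction_on with
  | empty => simpa using c1c_const 0
  | insert a s ha ih =>
    simp only [Finset.sum_insert ha]
    exact c1c_add (hp a (Finset.mem_insert_self _ _))
      (ih fun i hi => hp i (Finset.mem_insert_of_mem hi))

/-- the linear family -/
noncomputable def c1cL (y : ℝ × ℝ) : ℝ[X] := C y.1 + X * C y.2

theorem c1c_L : C1cGood c1cL :=
  c1c_add (c1c_C continuous_fst) (c1c_mul (c1c_const X) (c1c_C continuous_snd))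

theorem c1c_evalL (ψ : ℝ[X][X]) : C1cGood (fun y => ψ.eval (c1cL y)) := by
  simp only [eval_eq_sum_range]
  exact c1c_sum _ fun i _ => c1c_mul (c1c_const _) (c1c_pow c1c_L i)

theorem c1c_integrable (μ : Measure (ℝ × ℝ)) [IsFiniteMeasure μ] (ρ : ℝ)
    (hμ : ∀ᵐ y ∂μ, ‖y‖ ≤ ρ) {c : ℝ × ℝ → ℝ} (hc : Continuous c) : Integrable c μ := by
  obtain ⟨B, hB⟩ := ((isCompact_closedBall (0 : ℝ × ℝ) ρ).image hc.norm).bddAbove
  refine (integrable_const B).mono' hc.aestronglyMeasurable ?_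
  filter_upwards [hμ] with y hy
  exact hB (mem_image_of_mem _ (by simpa using hy))

theorem c1c_main (μ : Measure (ℝ × ℝ)) [IsFiniteMeasure μ] (ρ : ℝ)
    (hμ : ∀ᵐ y ∂μ, ‖y‖ ≤ ρ) {q : ℝ × ℝ → ℝ[X]} (hq : C1cGood q) (D : Set ℝ) (hD : D.Infinite)
    (h0 : ∀ s ∈ D, ∫ y, (q y).eval s ∂μ = 0) (s : ℂ) :
    ∫ y, ((q y).map (algebraMap ℝ ℂ)).eval s ∂μ = 0 := by
  obtain ⟨⟨d, hd⟩, hc⟩ := hq
  let I : ℝ[X] := ∑ j ∈ Finset.range (d + 1), C (∫ y, (q y).coeff j ∂μ) * X ^ j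
  have hI : I = 0 := by
    apply eq_zero_of_infinite_isRoot
    refine hD.mono fun s hs => ?_
    show I.eval s = 0
    rw [← h0 s hs]
    simp only [I, eval_finsetSum, eval_mul, eval_C, eval_pow, eval_X]
    have e : ∀ y, (q y).eval s = ∑ j ∈ Finset.range (d + 1), (q y).coeff j * s ^ j := fun y =>
      eval_eq_sum_range' (Nat.lt_succ_of_le (hd y)) s
    simp only [e]
    rw [integral_finsetSum]
    · refine Finset.sum_congr rfl fun j _ => ?_
      rw [integral_mul_const]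
    · intro j _
      exact (c1c_integrable μ ρ hμ (hc j)).mul_const _
  have hI' : ∀ j ∈ Finset.range (d + 1), ∫ y, (q y).coeff j ∂μ = 0 := by
    intro j hj
    have h1 : I.coeff j = 0 := by rw [hI]; simp
    simp only [I, finsetSum_coeff, coeff_C_mul, coeff_X_pow] at h1
    simpa [hj, Finset.mem_range.1 hj] using h1
  have e : ∀ y, ((q y).map (algebraMap ℝ ℂ)).eval s =
      ∑ j ∈ Finset.range (d + 1), (((q y).coeff j : ℝ) : ℂ) * s ^ j := fun y => by
    rw [eval_eq_sum_range' (n := d + 1)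
      (Nat.lt_succ_of_le ((natDegree_map_le).trans (hd y))) s]
    simp
  simp only [e]
  rw [integral_finsetSum]
  · refine Finset.sum_eq_zero fun j hj => ?_
    rw [integral_mul_const, integral_complex_ofReal, hI' j hj]
    simp
  · intro j _
    exact ((c1c_integrable μ ρ hμ (hc j)).ofReal).mul_const _

theorem c1c_evalEval {A : Type*} [CommRing A] (P : A[X][X]) (L : A[X]) (s : A) :
    eval s (eval L P) = P.evalEval s (eval s L) := by
  induction P using Polynomial.induction_on' with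
  | add p q hp hq => simp [evalEval, hp, hq] 
  | monomial n a => simp [evalEval, eval_monomial]

theorem c1c_L_eval (y : ℝ × ℝ) (s : ℝ) : eval s (c1cL y) = y.1 + s * y.2 := by
  rw [c1cL, eval_add, eval_C, eval_mul, eval_X, eval_C]

theorem c1c_L_evalC (y : ℝ × ℝ) (s : ℂ) :
    eval s ((c1cL y).map (algebraMap ℝ ℂ)) = (y.1 : ℂ) + s * (y.2 : ℂ) := by
  rw [c1cL, Polynomial.map_add, map_C, Polynomial.map_mul, map_X, map_C, eval_add, eval_C,
    eval_mul, eval_X, eval_C]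
  rfl

theorem c1c_evalL_real (ψ : ℝ[X][X]) (y : ℝ × ℝ) (s : ℝ) :
    (ψ.eval (c1cL y)).eval s = ψ.evalEval s (y.1 + s * y.2) := by
  rw [c1c_evalEval, c1c_L_eval]

theorem c1c_evalL_complex (ψ : ℝ[X][X]) (y : ℝ × ℝ) (s : ℂ) :
    ((ψ.eval (c1cL y)).map (algebraMap ℝ ℂ)).eval s =
      (ψ.map (mapRingHom (algebraMap ℝ ℂ))).evalEval s ((y.1 : ℂ) + s * (y.2 : ℂ)) := by
  have h1 : (ψ.eval (c1cL y)).map (algebraMap ℝ ℂ) =
      (ψ.map (mapRingHom (algebraMap ℝ ℂ))).eval ((c1cL y).map (algebraMap ℝ ℂ)) := by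
    have h2 := Polynomial.eval_map_apply (f := mapRingHom (algebraMap ℝ ℂ)) (p := ψ) (c1cL y)
    simpa using h2.symm
  rw [h1, c1c_evalEval, c1c_L_evalC]

theorem c1c_dS_map (R : ℝ[X][X]) :
    dS (R.map (mapRingHom (algebraMap ℝ ℂ))) = (dS R).map (mapRingHom (algebraMap ℝ ℂ)) := by
  ext n : 1
  have hcoeff : ∀ {A : Type} [CommRing A] (P : A[X][X]) (n : ℕ),
      (dS P).coeff n = derivative (P.coeff n) := by
    intro A _ P n
    rw [dS, Polynomial.sum, finsetSum_coeff]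
    simp only [coeff_monomial]
    rw [Finset.sum_ite_eq']
    split_ifs with h
    · rfl
    · rw [notMem_support_iff.1 h, derivative_zero]
  rw [hcoeff, coeff_map, coeff_map, hcoeff]
  simp [derivative_map]

/-- TARGET 1 -/
theorem complex_Z (μ : Measure (ℝ × ℝ)) [IsFiniteMeasure μ] (ρ : ℝ) (hμ : ∀ᵐ y ∂μ, ‖y‖ ≤ ρ)
    (m : ℕ) (R : ℝ[X][X])
    (hZ : ∀ (s : ℝ) (k : ℕ), ∫ y, ((m + 1) * (derivative R).evalEval s (y.1 + s * y.2)
            * (y.1 + s * y.2) ^ k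
          + m * R.evalEval s (y.1 + s * y.2) * (k * (y.1 + s * y.2) ^ (k - 1))) ∂μ = 0)
    (Rc : ℂ[X][X]) (hRc : Rc = R.map (mapRingHom (algebraMap ℝ ℂ))) :
    ∀ (s : ℂ) (k : ℕ), ∫ y : ℝ × ℝ,
      ((m + 1) * (derivative Rc).evalEval s ((y.1 : ℂ) + s * (y.2 : ℂ))
          * ((y.1 : ℂ) + s * (y.2 : ℂ)) ^ k
        + m * Rc.evalEval s ((y.1 : ℂ) + s * (y.2 : ℂ))
          * (k * ((y.1 : ℂ) + s * (y.2 : ℂ)) ^ (k - 1))) ∂μ = 0 := by
  intro s k
  let q : ℝ × ℝ → ℝ[X] := fun y =>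
    (C ((m : ℝ) + 1) * (derivative R).eval (c1cL y)) * c1cL y ^ k
      + (C (m : ℝ) * R.eval (c1cL y)) * (C (k : ℝ) * c1cL y ^ (k - 1))
  have hq : C1cGood q :=
    c1c_add (c1c_mul (c1c_mul (c1c_const _) (c1c_evalL _)) (c1c_pow c1c_L k))
      (c1c_mul (c1c_mul (c1c_const _) (c1c_evalL _))
        (c1c_mul (c1c_const _) (c1c_pow c1c_L (k - 1))))
  have h := c1c_main μ ρ hμ hq Set.univ Set.infinite_univ (fun s _ => by
    rw [← hZ s k]
    refine integral_congr_ae (Eventually.of_forall fun y => ?_)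
    simp only [q, eval_add, eval_mul, eval_C, eval_pow, c1c_evalL_real, c1c_L_eval]) s
  rw [← h]
  refine integral_congr_ae (Eventually.of_forall fun y => ?_)
  simp only [q, Polynomial.map_add, Polynomial.map_mul, Polynomial.map_pow, map_C, eval_add,
    eval_mul, eval_C, eval_pow, c1c_evalL_complex, hRc, derivative_map, c1c_L_evalC]
  simp

/-- TARGET 2 -/
theorem complex_S (μ : Measure (ℝ × ℝ)) [IsFiniteMeasure μ] (ρ : ℝ) (hμ : ∀ᵐ y ∂μ, ‖y‖ ≤ ρ)
    (m : ℕ) (R : ℝ[X][X]) (N G : ℝ[X]) (D : Set ℝ) (hD : D.Infinite)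
    (hS : ∀ s ∈ D, ∀ k : ℕ,
      ∫ y, ((N.eval s * (m * y.2 * (derivative R).evalEval s (y.1 + s * y.2)
              - (dS R).evalEval s (y.1 + s * y.2))
            + G.eval s * R.evalEval s (y.1 + s * y.2)) * (y.1 + s * y.2) ^ k
          + N.eval s * (m * y.2 * R.evalEval s (y.1 + s * y.2))
            * (k * (y.1 + s * y.2) ^ (k - 1))) ∂μ = 0)
    (Rc : ℂ[X][X]) (hRc : Rc = R.map (mapRingHom (algebraMap ℝ ℂ)))
    (Nc Gc : ℂ[X]) (hNc : Nc = N.map (algebraMap ℝ ℂ)) (hGc : Gc = G.map (algebraMap ℝ ℂ)) :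
    ∀ (s : ℂ) (k : ℕ), ∫ y : ℝ × ℝ,
      ((Nc.eval s * (m * (y.2 : ℂ) * (derivative Rc).evalEval s ((y.1 : ℂ) + s * (y.2 : ℂ))
            - (dS Rc).evalEval s ((y.1 : ℂ) + s * (y.2 : ℂ)))
          + Gc.eval s * Rc.evalEval s ((y.1 : ℂ) + s * (y.2 : ℂ)))
          * ((y.1 : ℂ) + s * (y.2 : ℂ)) ^ k
        + Nc.eval s * (m * (y.2 : ℂ) * Rc.evalEval s ((y.1 : ℂ) + s * (y.2 : ℂ)))
          * (k * ((y.1 : ℂ) + s * (y.2 : ℂ)) ^ (k - 1))) ∂μ = 0 := by
  intro s k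
  let q : ℝ × ℝ → ℝ[X] := fun y =>
    (N * (C (m : ℝ) * C y.2 * (derivative R).eval (c1cL y) - (dS R).eval (c1cL y))
      + G * R.eval (c1cL y)) * c1cL y ^ k
      + N * (C (m : ℝ) * C y.2 * R.eval (c1cL y)) * (C (k : ℝ) * c1cL y ^ (k - 1))
  have hy2 : C1cGood (fun y => C y.2) := c1c_C continuous_snd
  have hq : C1cGood q :=
    c1c_add (c1c_mul (c1c_add (c1c_mul (c1c_const N) (c1c_sub (c1c_mul (c1c_mul (c1c_const _) hy2)
      (c1c_evalL _)) (c1c_evalL _))) (c1c_mul (c1c_const G) (c1c_evalL _))) (c1c_pow c1c_L k))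
      (c1c_mul (c1c_mul (c1c_const N) (c1c_mul (c1c_mul (c1c_const _) hy2) (c1c_evalL _)))
        (c1c_mul (c1c_const _) (c1c_pow c1c_L (k - 1))))
  have h := c1c_main μ ρ hμ hq D hD (fun s hs => by
    rw [← hS s hs k]
    refine integral_congr_ae (Eventually.of_forall fun y => ?_)
    simp only [q, eval_add, eval_mul, eval_sub, eval_C, eval_pow, c1c_evalL_real, c1c_L_eval]) s
  rw [← h]
  refine integral_congr_ae (Eventually.of_forall fun y => ?_)
  simp only [q, Polynomial.map_add, Polynomial.map_mul, Polynomial.map_sub, Polynomial.map_pow,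
    map_C, eval_add, eval_sub, eval_mul, eval_C, eval_pow, c1c_evalL_complex, hRc, derivative_map,
    c1c_dS_map, hNc, hGc, c1c_L_evalC]
  simp

end AS.J4391

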