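import Mathlib
import Pool.Agent.Helper272.Ell.Defs

set_option autoImplicit false
open Polynomial Set Filter Topology MeasureTheory

namespace AS.J3639

theorem slice_z {F : ℂ × ℂ → ℂ} {C A s z : ℂ}
    (h : HasFDerivAt F (C • ContinuousLinearMap.fst ℂ ℂ ℂ + A • ContinuousLinearMap.snd ℂ ℂ ℂ)
      (s, z)) : HasDerivAt (fun z' => F (s, z')) A z := by
  have h1 : HasDerivAt (fun z' : ℂ => ((s, z') : ℂ × ℂ)) ((0, 1) : ℂ × ℂ) z :=
    (hasDerivAt_const z s).prodMk (hasDerivAt_id z)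
  have h2 := h.comp_hasDerivAt z h1
  have h3 : (C • ContinuousLinearMap.fst ℂ ℂ ℂ + A • ContinuousLinearMap.snd ℂ ℂ ℂ)
      ((0, 1) : ℂ × ℂ) = A := by simp
  rw [h3] at h2
  exact h2

theorem slice_s {F : ℂ × ℂ → ℂ} {C A s z : ℂ}
    (h : HasFDerivAt F (C • ContinuousLinearMap.fst ℂ ℂ ℂ + A • ContinuousLinearMap.snd ℂ ℂ ℂ)
      (s, z)) : HasDerivAt (fun s' => F (s', z)) C s := by
  have h1 : HasDerivAt (fun s' : ℂ => ((s', z) : ℂ × ℂ)) ((1, 0) : ℂ × ℂ) s :=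
    (hasDerivAt_id s).prodMk (hasDerivAt_const s z)
  have h2 := h.comp_hasDerivAt s h1
  have h3 : (C • ContinuousLinearMap.fst ℂ ℂ ℂ + A • ContinuousLinearMap.snd ℂ ℂ ℂ)
      ((1, 0) : ℂ × ℂ) = C := by simp
  rw [h3] at h2
  exact h2

theorem prim2 {D : Set (ℂ × ℂ)} (hD : IsOpen D) (hDc : Convex ℝ D) {A C : ℂ × ℂ → ℂ}
    (hA : DifferentiableOn ℂ A D) (hC : DifferentiableOn ℂ C D)
    (h : ∀ w ∈ D, fderiv ℂ A w (1, 0) = fderiv ℂ C w (0, 1)) :
    ∃ L : ℂ × ℂ → ℂ, ∀ w ∈ D, HasFDerivAt L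
      (C w • ContinuousLinearMap.fst ℂ ℂ ℂ + A w • ContinuousLinearMap.snd ℂ ℂ ℂ) w := by
  have hω : ∀ w ∈ D, HasFDerivAt (fun w => C w • ContinuousLinearMap.fst ℂ ℂ ℂ +
      A w • ContinuousLinearMap.snd ℂ ℂ ℂ)
      ((fderiv ℂ C w).smulRight (ContinuousLinearMap.fst ℂ ℂ ℂ) +
        (fderiv ℂ A w).smulRight (ContinuousLinearMap.snd ℂ ℂ ℂ)) w := by
    intro w hw
    have h1 := (hC.differentiableAt (hD.mem_nhds hw)).hasFDerivAt
    have h2 := (hA.differentiableAt (hD.mem_nhds hw)).hasFDerivAt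
    exact (h1.smul_const (ContinuousLinearMap.fst ℂ ℂ ℂ)).add
      (h2.smul_const (ContinuousLinearMap.snd ℂ ℂ ℂ))
  apply hDc.exists_forall_hasFDerivAt_of_fderiv_symmetric (𝕜 := ℂ) hD
  · intro w hw
    exact ((hω w hw).restrictScalars ℝ).differentiableAt.differentiableWithinAt
  · intro w hw x y
    rw [((hω w hw).restrictScalars ℝ).fderiv]
    have hx : ∀ (G : ℂ × ℂ →L[ℂ] ℂ) (v : ℂ × ℂ), G v = v.1 * G (1, 0) + v.2 * G (0, 1) := by
      intro G v
      have : v = v.1 • ((1, 0) : ℂ × ℂ) + v.2 • ((0, 1) : ℂ × ℂ) := by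
        ext <;> simp
      conv_lhs => rw [this]
      rw [map_add, map_smul, map_smul, smul_eq_mul, smul_eq_mul]
    simp only [ContinuousLinearMap.coe_restrictScalars', ContinuousLinearMap.add_apply,
      ContinuousLinearMap.smulRight_apply, ContinuousLinearMap.smul_apply,
      ContinuousLinearMap.coe_fst', ContinuousLinearMap.coe_snd', smul_eq_mul]
    rw [hx (fderiv ℂ C w) x, hx (fderiv ℂ C w) y, hx (fderiv ℂ A w) x, hx (fderiv ℂ A w) y,
      h w hw]
    ring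

theorem lin_unique {U : Set ℂ} (hU : IsOpen U) (hUc : IsPreconnected U) {α π e f g : ℂ → ℂ}
    (he : ∀ z ∈ U, HasDerivAt e (α z * e z) z) (he0 : ∀ z ∈ U, e z ≠ 0)
    (hf : ∀ z ∈ U, HasDerivAt f (α z * f z + π z) z)
    (hg : ∀ z ∈ U, HasDerivAt g (α z * g z + π z) z) {x y : ℂ} (hx : x ∈ U) (hy : y ∈ U) :
    (f x - g x) / e x = (f y - g y) / e y := by
  have hd : ∀ z ∈ U, HasDerivAt (fun z => (f z - g z) / e z) 0 z := by
    intro z hz
    have h1 := ((hf z hz).sub (hg z hz)).div (he z hz) (he0 z hz)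
    refine h1.congr_deriv ?_
    have := he0 z hz
    rw [Pi.sub_apply]
    field_simp
    ring
  exact hU.is_const_of_deriv_eq_zero hUc
    (fun z hz => (hd z hz).differentiableAt.differentiableWithinAt)
    (fun z hz => (hd z hz).deriv) hx hy

theorem localE {W : Set (ℂ × ℂ)} {a b p q : ℂ × ℂ → ℂ}
    (ha : DifferentiableOn ℂ a W) (hb : DifferentiableOn ℂ b W)
    (hp : DifferentiableOn ℂ p W) (hq : DifferentiableOn ℂ q W)
    (h1 : ∀ w ∈ W, fderiv ℂ a w (1, 0) = fderiv ℂ b w (0, 1))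
    (h2 : ∀ w ∈ W, fderiv ℂ p w (1, 0) + a w * q w = fderiv ℂ q w (0, 1) + b w * p w)
    {D : Set (ℂ × ℂ)} (hD : IsOpen D) (hDc : Convex ℝ D) (hDW : D ⊆ W) :
    ∃ E Λ : ℂ × ℂ → ℂ, (∀ w ∈ D, E w ≠ 0) ∧
      (∀ w ∈ D, HasFDerivAt E ((b w * E w) • ContinuousLinearMap.fst ℂ ℂ ℂ +
        (a w * E w) • ContinuousLinearMap.snd ℂ ℂ ℂ) w) ∧
      (∀ w ∈ D, HasFDerivAt Λ ((q w / E w) • ContinuousLinearMap.fst ℂ ℂ ℂ +
        (p w / E w) • ContinuousLinearMap.snd ℂ ℂ ℂ) w) := by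
  obtain ⟨L, hL⟩ := prim2 hD hDc (ha.mono hDW) (hb.mono hDW) (fun w hw => h1 w (hDW hw))
  set E : ℂ × ℂ → ℂ := fun w => Complex.exp (L w) with hE
  have hE0 : ∀ w, E w ≠ 0 := fun w => Complex.exp_ne_zero _
  have hEd : ∀ w ∈ D, HasFDerivAt E ((b w * E w) • ContinuousLinearMap.fst ℂ ℂ ℂ +
        (a w * E w) • ContinuousLinearMap.snd ℂ ℂ ℂ) w := by
    intro w hw
    have h3 := (hL w hw).cexp
    refine h3.congr_fderiv ?_
    rw [smul_add, smul_smul, smul_smul, mul_comm (b w), mul_comm (a w)]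
  have hEdiff : DifferentiableOn ℂ E D := fun w hw => (hEd w hw).differentiableAt.differentiableWithinAt
  have hpE : DifferentiableOn ℂ (fun w => p w / E w) D :=
    (hp.mono hDW).mul (hEdiff.fun_inv (fun w _ => hE0 w))
  have hqE : DifferentiableOn ℂ (fun w => q w / E w) D :=
    (hq.mono hDW).mul (hEdiff.fun_inv (fun w _ => hE0 w))
  have hdiv : ∀ (u : ℂ × ℂ → ℂ), DifferentiableOn ℂ u W → ∀ w ∈ D, ∀ v : ℂ × ℂ,
      fderiv ℂ (fun w => u w / E w) w v = (fderiv ℂ u w v) / E w -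
        u w * (b w * v.1 + a w * v.2) / E w := by
    intro u hu w hw v
    have h3 := ((hu.mono hDW).differentiableAt (hD.mem_nhds hw)).hasFDerivAt
    have h4 := hEd w hw
    have h5 := h3.mul ((hasDerivAt_inv (hE0 w)).comp_hasFDerivAt w h4)
    have h50 : (fun w => u w / E w) = u * (Inv.inv ∘ E) := by
      funext w'
      rw [div_eq_mul_inv]
      rfl
    rw [h50, h5.fderiv]
    simp only [ContinuousLinearMap.add_apply, ContinuousLinearMap.smul_apply,
      ContinuousLinearMap.coe_fst', ContinuousLinearMap.coe_snd', smul_eq_mul,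
      Function.comp_apply]
    have := hE0 w
    field_simp
    ring
  obtain ⟨Λ, hΛ⟩ := prim2 hD hDc hpE hqE (by
    intro w hw
    rw [hdiv p hp w hw, hdiv q hq w hw]
    have h3 := h2 w (hDW hw)
    have := hE0 w
    simp only [mul_one, mul_zero, add_zero, zero_add]
    rw [← sub_div, ← sub_div]
    congr 1
    linear_combination h3)
  exact ⟨E, Λ, fun w _ => hE0 w, hEd, hΛ⟩

/-- TARGET: flat transport in the parameter `s` -/
theorem transport {W : Set (ℂ × ℂ)} (hW : IsOpen W) {a b p q : ℂ × ℂ → ℂ}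
    (ha : DifferentiableOn ℂ a W) (hb : DifferentiableOn ℂ b W)
    (hp : DifferentiableOn ℂ p W) (hq : DifferentiableOn ℂ q W)
    (h1 : ∀ w ∈ W, fderiv ℂ a w (1, 0) = fderiv ℂ b w (0, 1))
    (h2 : ∀ w ∈ W, fderiv ℂ p w (1, 0) + a w * q w = fderiv ℂ q w (0, 1) + b w * p w)
    {B : Set ℂ} (hBo : IsOpen B) (hBc : Convex ℝ B) {Ω : Set ℂ} (hΩ : IsOpen Ω)
    (hBΩ : B ×ˢ Ω ⊆ W) :
    ∃ r k : ℂ → ℂ → ℂ → ℂ,
      (∀ s ∈ B, ∀ σ ∈ B, ∀ z ∈ Ω, r s σ z ≠ 0) ∧
      (∀ s ∈ B, ∀ σ ∈ B, ∀ z ∈ Ω, r σ s z * r s σ z = 1 ∧ r σ s z * k s σ z + k σ s z = 0) ∧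
      (∀ s ∈ B, ∀ σ ∈ B, ∀ V ⊆ Ω, IsOpen V → ∀ f,
        Sol (fun z => a (s, z)) (fun z => p (s, z)) V f →
        Sol (fun z => a (σ, z)) (fun z => p (σ, z)) V (fun z => r s σ z * f z + k s σ z)) ∧
      (∀ s ∈ B, ∀ σ ∈ B, ∀ V ⊆ Ω, IsOpen V → ∀ f,
        Hom (fun z => a (s, z)) V f → Hom (fun z => a (σ, z)) V (fun z => r s σ z * f z)) ∧
      (∀ z ∈ Ω, ∀ f : ℂ → ℂ, (∀ s ∈ B, HasDerivAt f (b (s, z) * f s + q (s, z)) s) →
        ∀ s ∈ B, ∀ σ ∈ B, f σ = r s σ z * f s + k s σ z) := by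
  have hBp : IsPreconnected B := hBc.isPreconnected
  have hex : ∀ z : ℂ, ∃ β η : ℂ → ℂ, z ∈ Ω → ∀ s ∈ B, β s ≠ 0 ∧
      HasDerivAt β (b (s, z) * β s) s ∧ HasDerivAt η (b (s, z) * η s + q (s, z)) s := by
    intro z
    by_cases hz : z ∈ Ω
    · have hmap : ∀ s ∈ B, ((s, z) : ℂ × ℂ) ∈ W := fun s hs => hBΩ ⟨hs, hz⟩
      have hbz : DifferentiableOn ℂ (fun s => b (s, z)) B :=
        hb.comp (differentiable_id.prodMk (differentiable_const z)).differentiableOn hmap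
      have hqz : DifferentiableOn ℂ (fun s => q (s, z)) B :=
        hq.comp (differentiable_id.prodMk (differentiable_const z)).differentiableOn hmap
      obtain ⟨P, hP⟩ := hBc.exists_forall_hasDerivWithinAt hbz
      have hP' : ∀ s ∈ B, HasDerivAt P (b (s, z)) s :=
        fun s hs => (hP s hs).hasDerivAt (hBo.mem_nhds hs)
      have hβd : ∀ s ∈ B, HasDerivAt (fun s => Complex.exp (P s)) (b (s, z) * Complex.exp (P s)) s := by
        intro s hs
        have := (hP' s hs).cexp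
        rwa [mul_comm] at this
      have hqβ : DifferentiableOn ℂ (fun s => q (s, z) / Complex.exp (P s)) B :=
        hqz.div (fun s hs => (hβd s hs).differentiableAt.differentiableWithinAt)
          (fun s _ => Complex.exp_ne_zero _)
      obtain ⟨R, hR⟩ := hBc.exists_forall_hasDerivWithinAt hqβ
      have hR' : ∀ s ∈ B, HasDerivAt R (q (s, z) / Complex.exp (P s)) s :=
        fun s hs => (hR s hs).hasDerivAt (hBo.mem_nhds hs)
      refine ⟨fun s => Complex.exp (P s), fun s => Complex.exp (P s) * R s, fun _ s hs =>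
        ⟨Complex.exp_ne_zero _, hβd s hs, ?_⟩⟩
      have h3 := (hβd s hs).mul (hR' s hs)
      refine h3.congr_deriv ?_
      have := Complex.exp_ne_zero (P s)
      field_simp
    · exact ⟨0, 0, fun h => absurd h hz⟩
  choose β η hβη using hex
  have hβ0 : ∀ z ∈ Ω, ∀ s ∈ B, β z s ≠ 0 := fun z hz s hs => (hβη z hz s hs).1
  have hβd : ∀ z ∈ Ω, ∀ s ∈ B, HasDerivAt (β z) (b (s, z) * β z s) s :=
    fun z hz s hs => (hβη z hz s hs).2.1
  have hηd : ∀ z ∈ Ω, ∀ s ∈ B, HasDerivAt (η z) (b (s, z) * η z s + q (s, z)) s :=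
    fun z hz s hs => (hβη z hz s hs).2.2
  have hc5 : ∀ z ∈ Ω, ∀ f : ℂ → ℂ, (∀ s ∈ B, HasDerivAt f (b (s, z) * f s + q (s, z)) s) →
        ∀ s ∈ B, ∀ σ ∈ B, f σ = (β z σ / β z s) * f s + (η z σ - (β z σ / β z s) * η z s) := by
    intro z hz f hf s hs σ hσ
    have h3 := lin_unique (α := fun s => b (s, z)) (π := fun s => q (s, z)) hBo hBp
      (hβd z hz) (hβ0 z hz) hf (hηd z hz) hσ hs
    have h4 := hβ0 z hz s hs
    have h5 := hβ0 z hz σ hσ
    rw [div_eq_div_iff h5 h4] at h3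
    field_simp
    linear_combination h3
  have hhom5 : ∀ z ∈ Ω, ∀ f : ℂ → ℂ, (∀ s ∈ B, HasDerivAt f (b (s, z) * f s) s) →
        ∀ s ∈ B, ∀ σ ∈ B, f σ = (β z σ / β z s) * f s := by
    intro z hz f hf s hs σ hσ
    have h3 := lin_unique (α := fun s => b (s, z)) (π := fun _ => 0) (f := f) (g := fun _ => 0)
      hBo hBp (hβd z hz) (hβ0 z hz) (fun s hs => by simpa using hf s hs)
      (fun s _ => by simpa using hasDerivAt_const s (0 : ℂ)) hσ hs
    have h4 := hβ0 z hz s hs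
    have h5 := hβ0 z hz σ hσ
    rw [div_eq_div_iff h5 h4] at h3
    field_simp
    linear_combination h3
  refine ⟨fun s σ z => β z σ / β z s, fun s σ z => η z σ - (β z σ / β z s) * η z s,
    ?_, ?_, ?_, ?_, hc5⟩
  · intro s hs σ hσ z hz
    exact div_ne_zero (hβ0 z hz σ hσ) (hβ0 z hz s hs)
  · intro s hs σ hσ z hz
    have h4 := hβ0 z hz s hs
    have h5 := hβ0 z hz σ hσ
    constructor
    · show β z s / β z σ * (β z σ / β z s) = 1
      field_simp
    · show β z s / β z σ * (η z σ - (β z σ / β z s) * η z s) +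
        (η z s - (β z s / β z σ) * η z σ) = 0
      field_simp
      ring
  · intro s hs σ hσ V hV hVo f hf z0 hz0
    obtain ⟨ε, hε, hball⟩ := Metric.isOpen_iff.1 hVo z0 hz0
    set U := Metric.ball z0 ε with hU
    have hz0U : z0 ∈ U := Metric.mem_ball_self hε
    have hD : IsOpen (B ×ˢ U) := hBo.prod Metric.isOpen_ball
    have hDc : Convex ℝ (B ×ˢ U) := hBc.prod (convex_ball z0 ε)
    have hDW : B ×ˢ U ⊆ W := (prod_mono subset_rfl (hball.trans hV)).trans hBΩ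
    obtain ⟨E, Λ, hE0, hE, hΛ⟩ := localE ha hb hp hq h1 h2 hD hDc hDW
    set c : ℂ := f z0 / E (s, z0) - Λ (s, z0) with hc
    set g : ℂ × ℂ → ℂ := fun w => E w * (c + Λ w) with hg
    have hgd : ∀ w ∈ B ×ˢ U, HasFDerivAt g ((b w * g w + q w) • ContinuousLinearMap.fst ℂ ℂ ℂ +
        (a w * g w + p w) • ContinuousLinearMap.snd ℂ ℂ ℂ) w := by
      intro w hw
      have h3 := (hE w hw).mul ((hΛ w hw).const_add c)
      refine h3.congr_fderiv ?_
      have h4 := hE0 w hw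
      ext
      · simp [hg]
        field_simp
        ring
      · simp [hg]
        field_simp
        ring
    have hfg : ∀ z ∈ U, f z = g (s, z) := by
      intro z hz
      have h3 := lin_unique (α := fun z => a (s, z)) (π := fun z => p (s, z)) (e := fun z => E (s, z))
        (f := f) (g := fun z => g (s, z)) Metric.isOpen_ball (convex_ball z0 ε).isPreconnected
        (fun z hz => slice_z (hE (s, z) ⟨hs, hz⟩)) (fun z hz => hE0 (s, z) ⟨hs, hz⟩)
        (fun z hz => hf z (hball hz)) (fun z hz => slice_z (hgd (s, z) ⟨hs, hz⟩)) hz hz0U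
      have h4 : f z0 - g (s, z0) = 0 := by
        have := hE0 (s, z0) ⟨hs, hz0U⟩
        simp only [hg, hc]
        field_simp
        ring
      rw [h4, zero_div, div_eq_zero_iff] at h3
      rcases h3 with h3 | h3
      · exact sub_eq_zero.1 h3
      · exact absurd h3 (hE0 (s, z) ⟨hs, hz⟩)
    have htr : ∀ z ∈ U, (β z σ / β z s) * f z + (η z σ - (β z σ / β z s) * η z s) = g (σ, z) := by
      intro z hz
      rw [hfg z hz]
      exact (hc5 z (hV (hball hz)) (fun s => g (s, z))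
        (fun s' hs' => slice_s (hgd (s', z) ⟨hs', hz⟩)) s hs σ hσ).symm
    have hev : (fun z => (β z σ / β z s) * f z + (η z σ - (β z σ / β z s) * η z s)) =ᶠ[𝓝 z0]
        (fun z => g (σ, z)) := by
      filter_upwards [Metric.isOpen_ball.mem_nhds hz0U] with z hz
      exact htr z hz
    have h5 := slice_z (hgd (σ, z0) ⟨hσ, hz0U⟩)
    have h6 := h5.congr_of_eventuallyEq hev
    show HasDerivAt (fun z => (β z σ / β z s) * f z + (η z σ - (β z σ / β z s) * η z s))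
      (a (σ, z0) * ((β z0 σ / β z0 s) * f z0 + (η z0 σ - (β z0 σ / β z0 s) * η z0 s)) + p (σ, z0)) z0
    rw [htr z0 hz0U]
    exact h6
  · intro s hs σ hσ V hV hVo f hf z0 hz0
    refine ⟨?_, mul_ne_zero (div_ne_zero (hβ0 z0 (hV hz0) σ hσ) (hβ0 z0 (hV hz0) s hs)) (hf z0 hz0).2⟩
    obtain ⟨ε, hε, hball⟩ := Metric.isOpen_iff.1 hVo z0 hz0
    set U := Metric.ball z0 ε with hU
    have hz0U : z0 ∈ U := Metric.mem_ball_self hε
    have hD : IsOpen (B ×ˢ U) := hBo.prod Metric.isOpen_ball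
    have hDc : Convex ℝ (B ×ˢ U) := hBc.prod (convex_ball z0 ε)
    have hDW : B ×ˢ U ⊆ W := (prod_mono subset_rfl (hball.trans hV)).trans hBΩ
    obtain ⟨E, Λ, hE0, hE, hΛ⟩ := localE ha hb hp hq h1 h2 hD hDc hDW
    set c : ℂ := f z0 / E (s, z0) with hc
    have hfE : ∀ z ∈ U, f z = c * E (s, z) := by
      intro z hz
      have h3 := lin_unique (α := fun z => a (s, z)) (π := fun _ => 0) (e := fun z => E (s, z))
        (f := f) (g := fun _ => 0) Metric.isOpen_ball (convex_ball z0 ε).isPreconnected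
        (fun z hz => slice_z (hE (s, z) ⟨hs, hz⟩)) (fun z hz => hE0 (s, z) ⟨hs, hz⟩)
        (fun z hz => by simpa using (hf z (hball hz)).1)
        (fun z _ => by simpa using hasDerivAt_const z (0 : ℂ)) hz hz0U
      have h4 := hE0 (s, z) ⟨hs, hz⟩
      have h5 := hE0 (s, z0) ⟨hs, hz0U⟩
      have h6 : f z / E (s, z) = f z0 / E (s, z0) := by simpa using h3
      rw [hc, ← h6]
      field_simp
    have htr : ∀ z ∈ U, (β z σ / β z s) * f z = c * E (σ, z) := by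
      intro z hz
      rw [hfE z hz]
      have h3 := hhom5 z (hV (hball hz)) (fun s => E (s, z))
        (fun s' hs' => slice_s (hE (s', z) ⟨hs', hz⟩)) s hs σ hσ
      rw [h3]
      ring
    have hev : (fun z => (β z σ / β z s) * f z) =ᶠ[𝓝 z0] (fun z => c * E (σ, z)) := by
      filter_upwards [Metric.isOpen_ball.mem_nhds hz0U] with z hz
      exact htr z hz
    have h5 := (slice_z (hE (σ, z0) ⟨hσ, hz0U⟩)).const_mul c
    have h6 := h5.congr_of_eventuallyEq hev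
    show HasDerivAt (fun z => (β z σ / β z s) * f z)
      (a (σ, z0) * ((β z0 σ / β z0 s) * f z0)) z0
    rw [htr z0 hz0U]
    refine h6.congr_deriv ?_
    ring

end AS.J3639

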