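import Mathlib
import Pool.Agent.Helper272.Ell.Defs
import Pool.Agent.Helper272.Ell.J3795

set_option autoImplicit false
open Polynomial Set Filter Topology MeasureTheory Metric

namespace AS.J3797

open AS.J3795 (hom_exists sol_exists sol_diff hom_ratio sol_unique flat_eq)

/-! the following lemmas are proved elsewhere, you may use them -/

/-- the shift `2 π i` -/
noncomputable def PP : ℂ := 2 * (Real.pi : ℂ) * Complex.I

def TT (I : Set ℝ) : Set ℂ := {w : ℂ | Real.exp w.re ∈ I}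

noncomputable def EE (τ w : ℂ) : ℂ := τ + Complex.exp w

noncomputable def pb (τ : ℂ) (a : ℂ → ℂ) (w : ℂ) : ℂ := Complex.exp w * a (EE τ w)

lemma TT_convex {I : Set ℝ} (hI : I.OrdConnected) : Convex ℝ (TT I) := by
  have h1 : (Real.exp ⁻¹' I).OrdConnected := hI.preimage_mono Real.exp_monotone
  exact h1.convex.linear_preimage Complex.reLm

lemma TT_open {I : Set ℝ} (hI : IsOpen I) : IsOpen (TT I) :=
  hI.preimage (Real.continuous_exp.comp Complex.continuous_re)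

lemma EE_norm (τ w : ℂ) : ‖EE τ w - τ‖ = Real.exp w.re := by
  simp [EE, Complex.norm_exp]

lemma EE_deriv (τ w : ℂ) : HasDerivAt (EE τ) (Complex.exp w) w :=
  (Complex.hasDerivAt_exp w).const_add τ

lemma EE_mem {τ : ℂ} {r₂ : ℝ} {w : ℂ} (hw : w ∈ TT (Iio r₂)) : EE τ w ∈ ball τ r₂ \ {τ} := by
  refine ⟨?_, ?_⟩
  · rw [mem_ball, dist_eq_norm, EE_norm]
    exact hw
  · simp [EE, Complex.exp_ne_zero]

lemma pb_diff {τ : ℂ} {r₂ : ℝ} {a : ℂ → ℂ} (ha : DifferentiableOn ℂ a (ball τ r₂ \ {τ})) :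
    DifferentiableOn ℂ (pb τ a) (TT (Iio r₂)) := by
  have h1 : DifferentiableOn ℂ (EE τ) (TT (Iio r₂)) :=
    fun w _ => (EE_deriv τ w).differentiableAt.differentiableWithinAt
  exact Complex.differentiable_exp.differentiableOn.mul (ha.comp h1 (fun w hw => EE_mem hw))

lemma pull_sol {a p f : ℂ → ℂ} {V W : Set ℂ} (τ : ℂ) (hf : Sol a p V f)
    (hW : ∀ w ∈ W, EE τ w ∈ V) :
    Sol (pb τ a) (pb τ p) W (fun w => f (EE τ w)) := by
  intro w hw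
  have := (hf _ (hW w hw)).comp w (EE_deriv τ w)
  refine this.congr_deriv ?_
  unfold pb
  ring

lemma pull_hom {a f : ℂ → ℂ} {V W : Set ℂ} (τ : ℂ) (hf : Hom a V f)
    (hW : ∀ w ∈ W, EE τ w ∈ V) :
    Hom (pb τ a) W (fun w => f (EE τ w)) := by
  intro w hw
  obtain ⟨h1, h2⟩ := hf _ (hW w hw)
  have := h1.comp w (EE_deriv τ w)
  refine ⟨this.congr_deriv ?_, h2⟩
  unfold pb
  ring

lemma EE_cont (τ : ℂ) : Continuous (EE τ) := by
  unfold EE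
  fun_prop

lemma pull_flat {a p : ℂ → ℂ} {C : ℂ → Set ℂ} {V W : Set ℂ} (τ : ℂ) (hC : Flat a p C V)
    (hW : ∀ w ∈ W, EE τ w ∈ V) :
    Flat (pb τ a) (pb τ p) (fun w => C (EE τ w)) W := by
  intro w hw
  obtain ⟨ε, hε, f, b, hf, hb, hfb⟩ := hC _ (hW w hw)
  have h1 : (EE τ) ⁻¹' (ball (EE τ w) ε) ∈ 𝓝 w :=
    (EE_cont τ).continuousAt.preimage_mem_nhds (ball_mem_nhds _ hε)
  obtain ⟨δ, hδ, hδs⟩ := Metric.mem_nhds_iff.1 h1
  refine ⟨δ, hδ, fun w => f (EE τ w), fun w => b (EE τ w), pull_sol τ hf (fun x hx => hδs hx),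
    pull_hom τ hb (fun x hx => hδs hx), fun z hz => hfb _ (hδs hz)⟩

lemma flat_of_sol {a p f b : ℂ → ℂ} {V : Set ℂ} (hV : IsOpen V) (hf : Sol a p V f)
    (hb : Hom a V b) : Flat a p (fun z => coset (f z) (b z)) V := by
  intro z hz
  obtain ⟨δ, hδ, hδs⟩ := Metric.isOpen_iff.1 hV z hz
  exact ⟨δ, hδ, f, b, fun x hx => hf x (hδs hx), fun x hx => hb x (hδs hx), fun _ _ => rfl⟩

lemma exp_PP (w : ℂ) : Complex.exp (w + PP) = Complex.exp w := Complex.exp_periodic w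

lemma EE_shift (τ w : ℂ) : EE τ (w + PP) = EE τ w := by
  unfold EE
  rw [exp_PP]

lemma pb_shift (τ : ℂ) (a : ℂ → ℂ) (w : ℂ) : pb τ a (w + PP) = pb τ a w := by
  unfold pb
  rw [exp_PP, EE_shift]

lemma PP_re : PP.re = 0 := by simp [PP]

lemma TT_shift {I : Set ℝ} {w : ℂ} (hw : w ∈ TT I) : w + PP ∈ TT I := by
  have : (w + PP).re = w.re := by simp [PP_re]
  show Real.exp (w + PP).re ∈ I
  rw [this]
  exact hw

lemma shift_sol {τ : ℂ} {a p F : ℂ → ℂ} {I : Set ℝ} (hF : Sol (pb τ a) (pb τ p) (TT I) F) :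
    Sol (pb τ a) (pb τ p) (TT I) (fun w => F (w + PP)) := by
  intro w hw
  have h := (hF (w + PP) (TT_shift hw)).comp_add_const w PP
  rw [pb_shift, pb_shift] at h
  exact h

lemma shift_hom {τ : ℂ} {a F : ℂ → ℂ} {I : Set ℝ} (hF : Hom (pb τ a) (TT I) F) :
    Hom (pb τ a) (TT I) (fun w => F (w + PP)) := by
  intro w hw
  obtain ⟨h1, h2⟩ := hF (w + PP) (TT_shift hw)
  have h := h1.comp_add_const w PP
  rw [pb_shift] at h
  exact ⟨h, h2⟩

lemma periodic_nat {X : Type*} {I : Set ℝ} {G : ℂ → X} (hG : ∀ w ∈ TT I, G (w + PP) = G w)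
    (n : ℕ) : ∀ w ∈ TT I, G (w + n * PP) = G w := by
  induction n with
  | zero => intro w _; simp
  | succ n ih =>
    intro w hw
    have h1 := ih (w + PP) (TT_shift hw)
    rw [hG w hw] at h1
    rw [← h1]
    congr 1
    push_cast
    ring

lemma periodic_eq {X : Type*} {I : Set ℝ} {G : ℂ → X} (hG : ∀ w ∈ TT I, G (w + PP) = G w)
    {w w' : ℂ} (hw : w ∈ TT I) (hw' : w' ∈ TT I) (h : Complex.exp w = Complex.exp w') :
    G w = G w' := by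
  obtain ⟨n, hn⟩ := Complex.exp_eq_exp_iff_exists_int.1 h
  obtain ⟨m, rfl | rfl⟩ := n.eq_nat_or_neg
  · have := periodic_nat hG m w' hw'
    rw [← this, hn]
    simp only [PP]
    push_cast
    rfl
  · have := periodic_nat hG m w hw
    rw [← this, hn]
    congr 1
    simp only [PP]
    push_cast
    ring

lemma branch {τ z₁ : ℂ} (h : z₁ ≠ τ) : ∃ L : ℂ → ℂ, ∀ z ∈ ball z₁ ‖z₁ - τ‖,
    HasDerivAt L (z - τ)⁻¹ z ∧ Complex.exp (L z) = z - τ ∧ z ≠ τ := by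
  have h0 : z₁ - τ ≠ 0 := sub_ne_zero.2 h
  refine ⟨fun z => Complex.log (z₁ - τ) + Complex.log ((z - τ) / (z₁ - τ)), fun z hz => ?_⟩
  have hz1 : ‖(z - τ)/(z₁ - τ) - 1‖ < 1 := by
    rw [div_sub_one h0, norm_div, div_lt_one (norm_pos_iff.2 h0)]
    have : z - τ - (z₁ - τ) = z - z₁ := by ring
    rw [this, ← dist_eq_norm]
    exact hz
  have hsl : (z - τ)/(z₁ - τ) ∈ Complex.slitPlane := by
    have := Complex.mem_slitPlane_of_norm_lt_one hz1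
    simpa using this
  have hzτ : z - τ ≠ 0 := by
    intro h2
    rw [h2] at hsl
    simp at hsl
  refine ⟨?_, ?_, sub_ne_zero.1 hzτ⟩
  · have h1 : HasDerivAt (fun z : ℂ => (z - τ)/(z₁ - τ)) (1/(z₁-τ)) z :=
      ((hasDerivAt_id z).sub_const τ).div_const _
    have h2 := (h1.clog hsl).const_add (Complex.log (z₁ - τ))
    refine h2.congr_deriv ?_
    field_simp
  · rw [Complex.exp_add, Complex.exp_log h0, Complex.exp_log (div_ne_zero hzτ h0)]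
    field_simp

lemma EE_inv {τ z : ℂ} {w : ℂ} (hE : Complex.exp w = z - τ) : EE τ w = z := by
  simp [EE, hE]

lemma mem_TT_of {τ z w : ℂ} {I : Set ℝ} (hE : Complex.exp w = z - τ) (hz : ‖z - τ‖ ∈ I) :
    w ∈ TT I := by
  show Real.exp w.re ∈ I
  rw [← EE_norm τ, EE_inv hE]
  exact hz

lemma mem_TT_ball {τ z w : ℂ} {r : ℝ} (hE : Complex.exp w = z - τ) (hz : z ∈ ball τ r) :
    w ∈ TT (Iio r) := by
  refine mem_TT_of hE ?_
  rw [← dist_eq_norm]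
  exact hz

lemma push_sol {a p F : ℂ → ℂ} {τ : ℂ} {r₂ : ℝ} (hF : Sol (pb τ a) (pb τ p) (TT (Iio r₂)) F)
    {L : ℂ → ℂ} {z : ℂ}
    (hL : HasDerivAt L (z - τ)⁻¹ z) (hE : Complex.exp (L z) = z - τ) (hz : z ∈ ball τ r₂)
    (hzτ : z ≠ τ) : HasDerivAt (fun z => F (L z)) (a z * F (L z) + p z) z := by
  have h0 : z - τ ≠ 0 := sub_ne_zero.2 hzτ
  have := (hF _ (mem_TT_ball hE hz)).comp z hL
  refine this.congr_deriv ?_
  unfold pb
  rw [EE_inv hE, hE]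
  field_simp

lemma push_hom {a F : ℂ → ℂ} {τ : ℂ} {r₂ : ℝ} (hF : Hom (pb τ a) (TT (Iio r₂)) F)
    {L : ℂ → ℂ} {z : ℂ}
    (hL : HasDerivAt L (z - τ)⁻¹ z) (hE : Complex.exp (L z) = z - τ) (hz : z ∈ ball τ r₂)
    (hzτ : z ≠ τ) : HasDerivAt (fun z => F (L z)) (a z * F (L z)) z ∧ F (L z) ≠ 0 := by
  have h0 : z - τ ≠ 0 := sub_ne_zero.2 hzτ
  obtain ⟨h1, h2⟩ := hF _ (mem_TT_ball hE hz)
  have := h1.comp z hL
  refine ⟨this.congr_deriv ?_, h2⟩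
  unfold pb
  rw [EE_inv hE, hE]
  field_simp

lemma exists_base {r₁ r₀ : ℝ} (h1 : 0 ≤ r₁) (h10 : r₁ < r₀) : ∃ w : ℂ, w ∈ TT (Ioo r₁ r₀) := by
  refine ⟨((Real.log ((r₁ + r₀) / 2) : ℝ) : ℂ), ?_⟩
  show Real.exp _ ∈ Ioo r₁ r₀
  rw [Complex.ofReal_re, Real.exp_log (by linarith)]
  constructor <;> linarith

lemma TT_mono {I J : Set ℝ} (h : I ⊆ J) : TT I ⊆ TT J := fun _ hw => h hw

/-- TARGET 1: a solution on an annulus extends to the punctured disc -/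
theorem ext_sol {a p : ℂ → ℂ} (τ : ℂ) {r₁ r₀ r₂ : ℝ} (h1 : 0 ≤ r₁) (h10 : r₁ < r₀) (h02 : r₀ ≤ r₂)
    (ha : DifferentiableOn ℂ a (ball τ r₂ \ {τ})) (hp : DifferentiableOn ℂ p (ball τ r₂ \ {τ}))
    {f : ℂ → ℂ} (hf : Sol a p {z | r₁ < ‖z - τ‖ ∧ ‖z - τ‖ < r₀} f) :
    ∃ g, Sol a p (ball τ r₂ \ {τ}) g ∧ ∀ z, r₁ < ‖z - τ‖ → ‖z - τ‖ < r₀ → g z = f z := by
  obtain ⟨w₀, hw₀⟩ := exists_base h1 h10
  have hsub : TT (Ioo r₁ r₀) ⊆ TT (Iio r₂) := TT_mono (fun x hx => lt_of_lt_of_le hx.2 h02)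
  have hHo : IsOpen (TT (Iio r₂)) := TT_open isOpen_Iio
  have hHc : Convex ℝ (TT (Iio r₂)) := TT_convex ordConnected_Iio
  have hSo : IsOpen (TT (Ioo r₁ r₀)) := TT_open isOpen_Ioo
  have hSc : Convex ℝ (TT (Ioo r₁ r₀)) := TT_convex ordConnected_Ioo
  have hat := pb_diff ha
  have hpt := pb_diff hp
  obtain ⟨F, hF, hF0⟩ := sol_exists hHo hHc hat hpt (hsub hw₀) (f (EE τ w₀))
  have hfp : Sol (pb τ a) (pb τ p) (TT (Ioo r₁ r₀)) (fun w => f (EE τ w)) := by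
    refine pull_sol τ hf ?_
    intro w hw
    show r₁ < ‖EE τ w - τ‖ ∧ ‖EE τ w - τ‖ < r₀
    rw [EE_norm]
    exact hw
  have hFs : Sol (pb τ a) (pb τ p) (TT (Ioo r₁ r₀)) F := fun w hw => hF w (hsub hw)
  have hFf := sol_unique hSo hSc.isPreconnected (hat.mono hsub) hFs hfp hw₀ hF0
  have hper : ∀ w ∈ TT (Iio r₂), F (w + PP) = F w := by
    refine sol_unique hHo hHc.isPreconnected hat (shift_sol hF) hF (hsub hw₀) ?_
    rw [hFf _ (TT_shift hw₀), hF0]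
    simp only [EE_shift]
  have key : ∀ z ∈ ball τ r₂, ∀ w, Complex.exp w = z - τ → F (Complex.log (z - τ)) = F w := by
    intro z hz w hw
    have hz0 : z - τ ≠ 0 := by
      rw [← hw]
      exact Complex.exp_ne_zero w
    refine periodic_eq hper ?_ (mem_TT_ball hw hz) ?_
    · exact mem_TT_ball (Complex.exp_log hz0) hz
    · rw [Complex.exp_log hz0, hw]
  refine ⟨fun z => F (Complex.log (z - τ)), ?_, ?_⟩
  · intro z₁ hz₁
    obtain ⟨L, hL⟩ := branch (τ := τ) (z₁ := z₁) (by simpa using hz₁.2)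
    have hz₁' : z₁ - τ ≠ 0 := sub_ne_zero.2 (by simpa using hz₁.2)
    obtain ⟨hL1, hL2, hL3⟩ := hL z₁ (mem_ball_self (norm_pos_iff.2 hz₁'))
    have h2 := push_sol hF hL1 hL2 hz₁.1 hL3
    have hev : (fun z => F (Complex.log (z - τ))) =ᶠ[𝓝 z₁] (fun z => F (L z)) := by
      have e1 : ball z₁ ‖z₁ - τ‖ ∈ 𝓝 z₁ := ball_mem_nhds _ (norm_pos_iff.2 hz₁')
      have e2 : ball τ r₂ ∈ 𝓝 z₁ := isOpen_ball.mem_nhds hz₁.1
      filter_upwards [e1, e2] with z hz hz'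
      exact key z hz' _ (hL z hz).2.1
    have h3 := h2.congr_of_eventuallyEq hev
    have h4 : F (L z₁) = F (Complex.log (z₁ - τ)) := (key z₁ hz₁.1 _ hL2).symm
    rw [h4] at h3
    exact h3
  · intro z hz1 hz2
    have hz0 : z - τ ≠ 0 := norm_pos_iff.1 (lt_of_le_of_lt h1 hz1)
    have hmem : Complex.log (z - τ) ∈ TT (Ioo r₁ r₀) :=
      mem_TT_of (Complex.exp_log hz0) ⟨hz1, hz2⟩
    show F (Complex.log (z - τ)) = f z
    rw [hFf _ hmem]
    simp only [EE_inv (Complex.exp_log hz0)]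

lemma coset_image (v l k b : ℂ) :
    coset (v + l * b) (k * b) = (fun t : ℂ => v + t * b) '' {t | ∃ x : ℂ, IsIntegral ℤ x ∧ t = l + x * k} := by
  ext w
  constructor
  · rintro ⟨x, hx, rfl⟩
    exact ⟨l + x * k, ⟨x, hx, rfl⟩, by ring⟩
  · rintro ⟨t, ⟨x, hx, rfl⟩, rfl⟩
    exact ⟨x, hx, by ring⟩

lemma coset_image' (v b : ℂ) :
    coset v b = (fun t : ℂ => v + t * b) '' {t | IsIntegral ℤ t} := by
  ext w
  constructor
  · rintro ⟨x, hx, rfl⟩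
    exact ⟨x, hx, rfl⟩
  · rintro ⟨t, hx, rfl⟩
    exact ⟨t, hx, rfl⟩

lemma coset_shift {v l k b : ℂ} (hb : b ≠ 0) :
    coset (v + l * b) (k * b) = coset v b ↔
      {t | ∃ x : ℂ, IsIntegral ℤ x ∧ t = l + x * k} = {t : ℂ | IsIntegral ℤ t} := by
  have hinj : Function.Injective (fun t : ℂ => v + t * b) := by
    intro s t hst
    have : s * b = t * b := by simpa using hst
    exact mul_right_cancel₀ hb this
  rw [coset_image, coset_image']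
  exact hinj.image_injective.eq_iff

/-- TARGET 2: a flat coset field on an annulus extends to the punctured disc -/
theorem ext_flat {a p : ℂ → ℂ} (τ : ℂ) {r₁ r₂ : ℝ} (h1 : 0 ≤ r₁) (h12 : r₁ < r₂)
    (ha : DifferentiableOn ℂ a (ball τ r₂ \ {τ})) (hp : DifferentiableOn ℂ p (ball τ r₂ \ {τ}))
    {C : ℂ → Set ℂ} (hC : Flat a p C {z | r₁ < ‖z - τ‖ ∧ ‖z - τ‖ < r₂}) :
    ∃ D : ℂ → Set ℂ, Flat a p D (ball τ r₂ \ {τ}) ∧
      ∀ z, r₁ < ‖z - τ‖ → ‖z - τ‖ < r₂ → D z = C z := by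
  obtain ⟨w₀, hw₀⟩ := exists_base h1 h12
  have hsub : TT (Ioo r₁ r₂) ⊆ TT (Iio r₂) := TT_mono (fun x hx => hx.2)
  have hHo : IsOpen (TT (Iio r₂)) := TT_open isOpen_Iio
  have hHc : Convex ℝ (TT (Iio r₂)) := TT_convex ordConnected_Iio
  have hSo : IsOpen (TT (Ioo r₁ r₂)) := TT_open isOpen_Ioo
  have hSc : Convex ℝ (TT (Ioo r₁ r₂)) := TT_convex ordConnected_Ioo
  have hat := pb_diff ha
  have hpt := pb_diff hp
  have hSE : ∀ w ∈ TT (Ioo r₁ r₂), EE τ w ∈ {z | r₁ < ‖z - τ‖ ∧ ‖z - τ‖ < r₂} := by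
    intro w hw
    show r₁ < ‖EE τ w - τ‖ ∧ ‖EE τ w - τ‖ < r₂
    rw [EE_norm]
    exact hw
  obtain ⟨ε, hε, f, b, hf, hb, hfb⟩ := hC _ (hSE w₀ hw₀)
  have hb0 : b (EE τ w₀) ≠ 0 := (hb _ (mem_ball_self hε)).2
  obtain ⟨F, hF, hF0⟩ := sol_exists hHo hHc hat hpt (hsub hw₀) (f (EE τ w₀))
  obtain ⟨B, hB, hB0⟩ := hom_exists hHo hHc hat (hsub hw₀) (b (EE τ w₀)) hb0
  have hCB : ∀ w ∈ TT (Ioo r₁ r₂), C (EE τ w) = coset (F w) (B w) := by
    refine flat_eq hSo hSc.isPreconnected (pull_flat τ hC hSE)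
      (flat_of_sol hSo (fun w hw => hF w (hsub hw)) (fun w hw => hB w (hsub hw))) hw₀ ?_
    show C (EE τ w₀) = coset (F w₀) (B w₀)
    rw [hF0, hB0]
    exact hfb _ (mem_ball_self hε)
  obtain ⟨k, hk⟩ := hom_ratio hHo hHc.isPreconnected hB (fun w hw => (shift_hom hB w hw).1)
  obtain ⟨l, hl⟩ := sol_diff hHo hHc.isPreconnected (shift_sol hF) hF hB
  have hper : ∀ w ∈ TT (Iio r₂), coset (F (w + PP)) (B (w + PP)) = coset (F w) (B w) := by
    have h0 : coset (F (w₀ + PP)) (B (w₀ + PP)) = coset (F w₀) (B w₀) := by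
      rw [← hCB _ (TT_shift hw₀), ← hCB _ hw₀, EE_shift]
    rw [hk w₀ (hsub hw₀), hl w₀ (hsub hw₀), coset_shift (hB w₀ (hsub hw₀)).2] at h0
    intro w hw
    rw [hk w hw, hl w hw, coset_shift (hB w hw).2]
    exact h0
  have key : ∀ z ∈ ball τ r₂, ∀ w, Complex.exp w = z - τ →
      coset (F (Complex.log (z - τ))) (B (Complex.log (z - τ))) = coset (F w) (B w) := by
    intro z hz w hw
    have hz0 : z - τ ≠ 0 := by
      rw [← hw]
      exact Complex.exp_ne_zero w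
    refine periodic_eq (G := fun w => coset (F w) (B w)) hper ?_ (mem_TT_ball hw hz) ?_
    · exact mem_TT_ball (Complex.exp_log hz0) hz
    · rw [Complex.exp_log hz0, hw]
  refine ⟨fun z => coset (F (Complex.log (z - τ))) (B (Complex.log (z - τ))), ?_, ?_⟩
  · intro z₁ hz₁
    have hzne : z₁ ≠ τ := by simpa using hz₁.2
    obtain ⟨L, hL⟩ := branch (τ := τ) (z₁ := z₁) hzne
    have hz₁' : z₁ - τ ≠ 0 := sub_ne_zero.2 hzne
    obtain ⟨δ, hδ, hδs⟩ := Metric.isOpen_iff.1 isOpen_ball z₁ hz₁.1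
    refine ⟨min δ ‖z₁ - τ‖, lt_min hδ (norm_pos_iff.2 hz₁'), fun z => F (L z), fun z => B (L z),
      ?_, ?_, ?_⟩
    · intro z hz
      have hz1 : z ∈ ball τ r₂ := hδs (ball_subset_ball (min_le_left _ _) hz)
      obtain ⟨hL1, hL2, hL3⟩ := hL z (ball_subset_ball (min_le_right _ _) hz)
      exact push_sol hF hL1 hL2 hz1 hL3
    · intro z hz
      have hz1 : z ∈ ball τ r₂ := hδs (ball_subset_ball (min_le_left _ _) hz)
      obtain ⟨hL1, hL2, hL3⟩ := hL z (ball_subset_ball (min_le_right _ _) hz)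
      exact push_hom hB hL1 hL2 hz1 hL3
    · intro z hz
      have hz1 : z ∈ ball τ r₂ := hδs (ball_subset_ball (min_le_left _ _) hz)
      obtain ⟨hL1, hL2, hL3⟩ := hL z (ball_subset_ball (min_le_right _ _) hz)
      exact key z hz1 _ hL2
  · intro z hz1 hz2
    have hz0 : z - τ ≠ 0 := norm_pos_iff.1 (lt_of_le_of_lt h1 hz1)
    have hmem : Complex.log (z - τ) ∈ TT (Ioo r₁ r₂) :=
      mem_TT_of (Complex.exp_log hz0) ⟨hz1, hz2⟩
    show coset (F (Complex.log (z - τ))) (B (Complex.log (z - τ))) = C z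
    rw [← hCB _ hmem, EE_inv (Complex.exp_log hz0)]

/-- TARGET 3: annuli are connected -/
theorem annulus_preconn (τ : ℂ) {r₁ r₂ : ℝ} (h1 : 0 ≤ r₁) :
    IsPreconnected {z : ℂ | r₁ < ‖z - τ‖ ∧ ‖z - τ‖ < r₂} := by
  have h : {z : ℂ | r₁ < ‖z - τ‖ ∧ ‖z - τ‖ < r₂} = EE τ '' TT (Ioo r₁ r₂) := by
    ext z
    constructor
    · rintro ⟨hz1, hz2⟩
      have hz0 : z - τ ≠ 0 := norm_pos_iff.1 (lt_of_le_of_lt h1 hz1)
      exact ⟨Complex.log (z - τ), mem_TT_of (Complex.exp_log hz0) ⟨hz1, hz2⟩,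
        EE_inv (Complex.exp_log hz0)⟩
    · rintro ⟨w, hw, rfl⟩
      show r₁ < ‖EE τ w - τ‖ ∧ ‖EE τ w - τ‖ < r₂
      rw [EE_norm]
      exact hw
  rw [h]
  exact (TT_convex ordConnected_Ioo).isPreconnected.image _ (EE_cont τ).continuousOn

end AS.J3797

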