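import Mathlib
import Pool.Agent.Helper272.Ell.Defs
import Pool.Agent.Helper272.Ell.J3639
import Pool.Agent.Helper272.Ell.J3795
import Pool.Agent.Helper272.Ell.J3797

set_option autoImplicit false
open Polynomial Set Filter Topology MeasureTheory Metric

namespace AS.J4110

open AS.J3639 (transport)
open AS.J3795 (flat_eq mem_flat)
open AS.J3797 (ext_sol ext_flat annulus_preconn)

/-! the following lemmas are proved elsewhere, you may use them -/

theorem FlatAt_congr {a p : ℂ → ℂ} {C D : ℂ → Set ℂ} {z₀ : ℂ} (h : FlatAt a p C z₀)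
    (hCD : ∀ᶠ z in 𝓝 z₀, C z = D z) : FlatAt a p D z₀ := by
  obtain ⟨ε, hε, f, b, hf, hb, hC⟩ := h
  obtain ⟨δ, hδ, hδ'⟩ := Metric.eventually_nhds_iff_ball.mp hCD
  refine ⟨min ε δ, lt_min hε hδ, f, b, fun z hz => hf z (ball_subset_ball (min_le_left _ _) hz),
    fun z hz => hb z (ball_subset_ball (min_le_left _ _) hz), fun z hz => ?_⟩
  rw [← hδ' z (ball_subset_ball (min_le_right _ _) hz)]
  exact hC z (ball_subset_ball (min_le_left _ _) hz)

theorem isOpen_compl_discs {n : ℕ} (τ : Fin n → ℂ) (r : ℝ) : IsOpen {z : ℂ | ∀ i, r < ‖z - τ i‖} := by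
  have : {z : ℂ | ∀ i, r < ‖z - τ i‖} = ⋂ i, {z : ℂ | r < ‖z - τ i‖} := by
    ext z; simp
  rw [this]
  refine isOpen_iInter_of_finite fun i => isOpen_lt continuous_const (by fun_prop)

/-- TARGET 1: glueing a flat field on the complement of discs with its extensions to the
punctured discs -/
theorem glue {n : ℕ} (τ : Fin n → ℂ) {r₁ r₂ : ℝ} (h1 : 0 ≤ r₁) (h12 : r₁ < r₂)
    (hsep : ∀ i j, i ≠ j → 2 * r₂ ≤ dist (τ i) (τ j)) {a p : ℂ → ℂ}
    (ha : DifferentiableOn ℂ a {z | ∀ i, z ≠ τ i}) (hp : DifferentiableOn ℂ p {z | ∀ i, z ≠ τ i})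
    {C : ℂ → Set ℂ} (hC : Flat a p C {z | ∀ i, r₁ < ‖z - τ i‖}) :
    ∃ D : ℂ → Set ℂ, Flat a p D {z | ∀ i, z ≠ τ i} ∧
      ∀ z, (∀ i, r₁ < ‖z - τ i‖) → D z = C z := by
  classical
  have hfar : ∀ i j, i ≠ j → ∀ z, ‖z - τ i‖ < r₂ → r₂ < ‖z - τ j‖ := by
    intro i j hij z hz
    have h := hsep i j hij
    have h2 : dist (τ i) (τ j) ≤ dist (τ i) z + dist z (τ j) := dist_triangle _ _ _
    rw [dist_comm (τ i) z, dist_eq_norm z (τ i), dist_eq_norm z (τ j)] at h2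
    linarith
  have hsub : ∀ i, ball (τ i) r₂ \ {τ i} ⊆ {z | ∀ j, z ≠ τ j} := by
    intro i z hz j
    rcases eq_or_ne i j with rfl | hij
    · exact hz.2
    · rintro rfl
      have := hfar i j hij (τ j) (by rw [← dist_eq_norm]; exact hz.1)
      simp at this
      linarith
  have hex : ∀ i, ∃ D : ℂ → Set ℂ, Flat a p D (ball (τ i) r₂ \ {τ i}) ∧
      ∀ z, r₁ < ‖z - τ i‖ → ‖z - τ i‖ < r₂ → D z = C z := by
    intro i
    refine ext_flat (τ i) h1 h12 (ha.mono (hsub i)) (hp.mono (hsub i)) ?_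
    intro z hz
    apply hC
    intro j
    rcases eq_or_ne i j with rfl | hij
    · exact hz.1
    · exact h12.trans (hfar i j hij z hz.2)
  choose E hE1 hE2 using hex
  let D : ℂ → Set ℂ := fun z => if h : ∀ i, r₁ < ‖z - τ i‖ then C z else
    E (Classical.choose (not_forall.mp h)) z
  have hD1 : ∀ z, (∀ i, r₁ < ‖z - τ i‖) → D z = C z := fun z hz => by
    simp only [D]; rw [dif_pos hz]
  have hD2 : ∀ i z, ‖z - τ i‖ < r₂ → D z = E i z := by
    intro i z hz
    by_cases h : ∀ j, r₁ < ‖z - τ j‖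
    · rw [hD1 z h, hE2 i z (h i) hz]
    · simp only [D]; rw [dif_neg h]
      have hc := Classical.choose_spec (not_forall.mp h)
      set j := Classical.choose (not_forall.mp h)
      rcases eq_or_ne i j with hij | hij
      · rw [← hij]
      · exact absurd (h12.trans (hfar i j hij z hz)) hc
  refine ⟨D, ?_, hD1⟩
  intro z₀ hz₀
  by_cases h : ∀ i, r₁ < ‖z₀ - τ i‖
  · refine FlatAt_congr (hC z₀ h) ?_
    filter_upwards [(isOpen_compl_discs τ r₁).mem_nhds h] with z hz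
    exact (hD1 z hz).symm
  · obtain ⟨i, hi⟩ := not_forall.mp h
    have hlt : ‖z₀ - τ i‖ < r₂ := (not_lt.mp hi).trans_lt h12
    refine FlatAt_congr (hE1 i z₀ ⟨by rw [mem_ball, dist_eq_norm]; exact hlt, hz₀ i⟩) ?_
    have ho : IsOpen {z : ℂ | ‖z - τ i‖ < r₂} := isOpen_lt (by fun_prop) continuous_const
    filter_upwards [ho.mem_nhds hlt] with z hz
    exact (hD2 i z hz).symm

theorem map_coset (r k v b : ℂ) :
    {w' | ∃ w ∈ coset v b, w' = r * w + k} = coset (r * v + k) (r * b) := by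
  ext w'
  constructor
  · rintro ⟨w, ⟨x, hx, rfl⟩, rfl⟩
    exact ⟨x, hx, by ring⟩
  · rintro ⟨x, hx, rfl⟩
    exact ⟨v + x * b, ⟨x, hx, rfl⟩, by ring⟩

/-- TARGET 2: transport of the whole structure -/
theorem transport_struct {W : Set (ℂ × ℂ)} (hW : IsOpen W) {a b p q : ℂ × ℂ → ℂ}
    (ha : DifferentiableOn ℂ a W) (hb : DifferentiableOn ℂ b W)
    (hp : DifferentiableOn ℂ p W) (hq : DifferentiableOn ℂ q W)
    (h1 : ∀ w ∈ W, fderiv ℂ a w (1, 0) = fderiv ℂ b w (0, 1))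
    (h2 : ∀ w ∈ W, fderiv ℂ p w (1, 0) + a w * q w = fderiv ℂ q w (0, 1) + b w * p w)
    {B : Set ℂ} (hBo : IsOpen B) (hBc : Convex ℝ B) {n : ℕ} (t : Fin n → ℂ → ℂ) (c : Fin n → ℂ)
    (η : ℝ) (hη : 0 < η) (hsep : ∀ i j, i ≠ j → 4 * η < dist (c i) (c j))
    (ht : ∀ s ∈ B, ∀ i, dist (t i s) (c i) < η / 10)
    (hBW : ∀ s ∈ B, ∀ z : ℂ, (∀ i, z ≠ t i s) → (s, z) ∈ W)
    (F : ℂ → ℂ → ℂ) (M : ℝ)
    (hF : ∀ z : ℂ, M < ‖z‖ → ∀ s ∈ B,
      HasDerivAt (fun s => F s z) (b (s, z) * F s z + q (s, z)) s)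
    (s : ℂ) (hs : s ∈ B) (σ : ℂ) (hσ : σ ∈ B) (C : ℂ → Set ℂ)
    (hC : Flat (fun z => a (s, z)) (fun z => p (s, z)) C {z | ∀ i, z ≠ t i s})
    (hCF : ∀ᶠ z in Bornology.cobounded ℂ, F s z ∈ C z) :
    ∃ D : ℂ → Set ℂ, Flat (fun z => a (σ, z)) (fun z => p (σ, z)) D {z | ∀ i, z ≠ t i σ} ∧
      (∀ᶠ z in Bornology.cobounded ℂ, F σ z ∈ D z) ∧
      ∀ i, Odd (fun z => a (s, z)) (fun z => p (s, z)) C (t i s) →
        Odd (fun z => a (σ, z)) (fun z => p (σ, z)) D (t i σ) := by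
  classical
  set Ω : Set ℂ := {z | ∀ i, η < ‖z - c i‖} with hΩdef
  have hΩ : IsOpen Ω := isOpen_compl_discs c η
  -- norm versions
  have htn : ∀ s' ∈ B, ∀ i, ‖t i s' - c i‖ < η / 10 := fun s' hs' i => by
    rw [← dist_eq_norm]; exact ht s' hs' i
  have hΩt : ∀ s' ∈ B, ∀ z ∈ Ω, ∀ i, z ≠ t i s' := by
    rintro s' hs' z hz i rfl
    have h3 := hz i
    have h4 := htn s' hs' i
    linarith
  have hBΩ : B ×ˢ Ω ⊆ W := by
    rintro ⟨s', z⟩ ⟨hs', hz⟩
    exact hBW s' hs' z (hΩt s' hs' z hz)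
  obtain ⟨r, k, hr0, hinv, hSol, hHom, hInf⟩ := transport hW ha hb hp hq h1 h2 hBo hBc hΩ hBΩ
  -- separation of the moved centers
  have hσσ : ∀ s' ∈ B, ∀ i j, i ≠ j → 3.8 * η < dist (t i s') (t j s') := by
    intro s' hs' i j hij
    have h3 := hsep i j hij
    have h4 := ht s' hs' i
    have h5 := ht s' hs' j
    have h6 : dist (c i) (c j) ≤ dist (c i) (t i s') + dist (t i s') (t j s') + dist (t j s') (c j) :=
      dist_triangle4 _ _ _ _
    rw [dist_comm (c i) (t i s')] at h6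
    linarith
  have hΩsub : ∀ z, (∀ i, 1.2 * η < ‖z - t i σ‖) → z ∈ Ω := by
    intro z hz i
    have h3 := hz i
    have h4 := htn σ hσ i
    have h5 : ‖z - t i σ‖ ≤ ‖z - c i‖ + ‖t i σ - c i‖ := by
      have : z - t i σ = (z - c i) - (t i σ - c i) := by ring
      rw [this]; exact norm_sub_le _ _
    have h6 : ‖z - c i‖ > η := by linarith
    exact h6
  have hclose : ∀ i, ‖t i σ - t i s‖ < 0.2 * η := by
    intro i
    have h3 := htn σ hσ i
    have h4 := htn s hs i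
    have h5 : ‖t i σ - t i s‖ ≤ ‖t i σ - c i‖ + ‖t i s - c i‖ := by
      have : t i σ - t i s = (t i σ - c i) - (t i s - c i) := by ring
      rw [this]; exact norm_sub_le _ _
    linarith
  -- the transported field
  set C' : ℂ → Set ℂ := fun z => {w' | ∃ w ∈ C z, w' = r s σ z * w + k s σ z} with hC'
  have hC'flat : Flat (fun z => a (σ, z)) (fun z => p (σ, z)) C' Ω := by
    intro z₀ hz₀
    obtain ⟨ε, hε, f, g, hf, hg, hCz⟩ := hC z₀ (hΩt s hs z₀ hz₀)
    obtain ⟨δ, hδ, hδΩ⟩ := Metric.isOpen_iff.mp hΩ z₀ hz₀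
    have hV1 : ball z₀ (min ε δ) ⊆ ball z₀ ε := ball_subset_ball (min_le_left _ _)
    have hV2 : ball z₀ (min ε δ) ⊆ Ω := (ball_subset_ball (min_le_right _ _)).trans hδΩ
    refine ⟨min ε δ, lt_min hε hδ, fun z => r s σ z * f z + k s σ z, fun z => r s σ z * g z,
      hSol s hs σ hσ _ hV2 isOpen_ball f (fun z hz => hf z (hV1 hz)),
      hHom s hs σ hσ _ hV2 isOpen_ball g (fun z hz => hg z (hV1 hz)), fun z hz => ?_⟩
    simp only [hC']
    rw [hCz z (hV1 hz), map_coset]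
  -- differentiability of the coefficients
  have hdiff : ∀ s' ∈ B, ∀ u : ℂ × ℂ → ℂ, DifferentiableOn ℂ u W →
      DifferentiableOn ℂ (fun z => u (s', z)) {z | ∀ i, z ≠ t i s'} := by
    intro s' hs' u hu
    have : (fun z => u (s', z)) = u ∘ (fun z => (s', z)) := rfl
    rw [this]
    refine hu.comp (by fun_prop) fun z hz => hBW s' hs' z hz
  obtain ⟨D, hD1, hD2⟩ := glue (fun i => t i σ) (r₁ := 1.2 * η) (r₂ := 1.8 * η) (by positivity)
    (by linarith) (fun i j hij => by have := hσσ σ hσ i j hij; linarith)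
    (hdiff σ hσ a ha) (hdiff σ hσ p hp) (C := C') (fun z hz => hC'flat z (hΩsub z hz))
  have hpunct : ∀ s' ∈ B, ∀ i, ∀ ρ ≤ 1.8 * η, ball (t i s') ρ \ {t i s'} ⊆ {z | ∀ j, z ≠ t j s'} := by
    intro s' hs' i ρ hρ z hz j
    rcases eq_or_ne i j with rfl | hij
    · exact hz.2
    · rintro rfl
      have h3 := hσσ s' hs' i j hij
      have h4 := hz.1
      rw [mem_ball, dist_comm] at h4
      linarith
  refine ⟨D, hD1, ?_, ?_⟩
  · have hbig : ∀ᶠ z in Bornology.cobounded ℂ, ∀ i, 1.2 * η < ‖z - t i σ‖ := by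
      rw [Filter.eventually_all]
      intro i
      have h3 : ∀ᶠ z in Bornology.cobounded ℂ, 1.2 * η + ‖t i σ‖ < ‖z‖ :=
        tendsto_norm_cobounded_atTop.eventually_gt_atTop _
      filter_upwards [h3] with z hz
      have : ‖z‖ ≤ ‖z - t i σ‖ + ‖t i σ‖ := by
        have := norm_add_le (z - t i σ) (t i σ)
        rwa [sub_add_cancel] at this
      linarith
    have hM : ∀ᶠ z in Bornology.cobounded ℂ, M < ‖z‖ :=
      tendsto_norm_cobounded_atTop.eventually_gt_atTop _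
    filter_upwards [hbig, hM, hCF] with z hz1 hz2 hz3
    rw [hD2 z hz1]
    exact ⟨F s z, hz3, hInf z (hΩsub z hz1) (fun s => F s z) (hF z hz2) s hs σ hσ⟩
  · intro i hodd r0 hr0pos f hf
    by_contra hcon
    push Not at hcon
    set τ := t i σ with hτ
    set ρ := min r0 (1.8 * η) with hρ
    have hρpos : 0 < ρ := lt_min hr0pos (by positivity)
    have hsub2 : ball τ (1.8 * η) \ {τ} ⊆ {z | ∀ j, z ≠ t j σ} := hpunct σ hσ i _ le_rfl
    have hfA : Sol (fun z => a (σ, z)) (fun z => p (σ, z)) {z | 0 < ‖z - τ‖ ∧ ‖z - τ‖ < ρ} f := by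
      intro z hz
      refine hf z ⟨?_, ?_⟩
      · rw [mem_ball, dist_eq_norm]; exact hz.2.trans_le (min_le_left _ _)
      · rintro rfl
        simp at hz
    obtain ⟨g, hg, hgf⟩ := ext_sol τ le_rfl hρpos (min_le_right _ _)
      ((hdiff σ hσ a ha).mono hsub2) ((hdiff σ hσ p hp).mono hsub2) hfA
    have hpb : ∀ ρ' : ℝ, ∀ τ' : ℂ, ball τ' ρ' \ {τ'} = {z | 0 < ‖z - τ'‖ ∧ ‖z - τ'‖ < ρ'} := by
      intro ρ' τ'
      ext z
      simp only [Set.mem_sdiff, mem_ball, mem_singleton_iff, Set.mem_ofPred_eq, norm_pos_iff, sub_ne_zero,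
        dist_eq_norm]
      tauto
    have hopen : ∀ ρ' : ℝ, ∀ τ' : ℂ, IsOpen (ball τ' ρ' \ {τ'}) := fun ρ' τ' =>
      isOpen_ball.sdiff isClosed_singleton
    have hconn : ∀ ρ' : ℝ, ∀ τ' : ℂ, IsPreconnected (ball τ' ρ' \ {τ'}) := fun ρ' τ' => by
      rw [hpb]; exact annulus_preconn τ' le_rfl
    -- g in D on the whole punctured ball
    have hz0 : ‖(τ + ((ρ / 2 : ℝ) : ℂ)) - τ‖ = ρ / 2 := by
      rw [add_sub_cancel_left, Complex.norm_real, Real.norm_of_nonneg (by positivity)]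
    have hz0V : (τ + ((ρ / 2 : ℝ) : ℂ)) ∈ ball τ (1.8 * η) \ {τ} := by
      rw [hpb]
      refine ⟨by rw [hz0]; positivity, ?_⟩
      rw [hz0]
      have := min_le_right r0 (1.8 * η)
      rw [← hρ] at this
      linarith
    have hgD : ∀ z ∈ ball τ (1.8 * η) \ {τ}, g z ∈ D z := by
      refine mem_flat (hopen _ _) (hconn _ _) (fun z hz => hD1 z (hsub2 hz)) hg hz0V ?_
      rw [hgf _ (by rw [hz0]; positivity) (by rw [hz0]; linarith)]
      refine hcon _ ?_
      rw [hpb]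
      refine ⟨by rw [hz0]; positivity, ?_⟩
      rw [hz0]
      have := min_le_left r0 (1.8 * η)
      rw [← hρ] at this
      linarith
    -- the annulus around t i s
    set A : Set ℂ := {z | 1.4 * η < ‖z - t i s‖ ∧ ‖z - t i s‖ < 1.6 * η} with hA
    have hAo : IsOpen A := by
      have e1 : IsOpen {z : ℂ | 1.4 * η < ‖z - t i s‖} := isOpen_lt continuous_const (by fun_prop)
      have e2 : IsOpen {z : ℂ | ‖z - t i s‖ < 1.6 * η} := isOpen_lt (by fun_prop) continuous_const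
      exact e1.inter e2
    have hAτ : ∀ z ∈ A, 1.2 * η < ‖z - τ‖ ∧ ‖z - τ‖ < 1.8 * η := by
      intro z hz
      have h3 := hclose i
      rw [← hτ] at h3
      have h4 : ‖z - t i s‖ ≤ ‖z - τ‖ + ‖τ - t i s‖ := by
        have : z - t i s = (z - τ) + (τ - t i s) := by ring
        rw [this]; exact norm_add_le _ _
      have h5 : ‖z - τ‖ ≤ ‖z - t i s‖ + ‖τ - t i s‖ := by
        have : z - τ = (z - t i s) - (τ - t i s) := by ring
        rw [this]; exact norm_sub_le _ _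
      have h6 := hz.1
      have h7 := hz.2
      constructor <;> linarith
    have hAall : ∀ z ∈ A, ∀ j, 1.2 * η < ‖z - t j σ‖ := by
      intro z hz j
      rcases eq_or_ne i j with rfl | hij
      · exact (hAτ z hz).1
      · have h3 := hσσ σ hσ i j hij
        have h4 := (hAτ z hz).2
        have h5 : dist (t i σ) (t j σ) ≤ dist (t i σ) z + dist z (t j σ) := dist_triangle _ _ _
        rw [dist_comm (t i σ) z, dist_eq_norm z (t i σ), dist_eq_norm z (t j σ)] at h5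
        rw [hτ] at h4
        linarith
    have hAΩ : A ⊆ Ω := fun z hz => hΩsub z (hAall z hz)
    have hAb : A ⊆ ball τ (1.8 * η) \ {τ} := by
      intro z hz
      rw [hpb]
      exact ⟨lt_of_le_of_lt (by positivity) (hAτ z hz).1, (hAτ z hz).2⟩
    have hg' : Sol (fun z => a (s, z)) (fun z => p (s, z)) A
        (fun z => r σ s z * g z + k σ s z) :=
      hSol σ hσ s hs A hAΩ hAo g (fun z hz => hg z (hAb hz))
    have hg'C : ∀ z ∈ A, r σ s z * g z + k σ s z ∈ C z := by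
      intro z hz
      have h3 := hgD z (hAb hz)
      rw [hD2 z (hAall z hz)] at h3
      obtain ⟨w, hw, hgw⟩ := h3
      obtain ⟨h4, h5⟩ := hinv s hs σ hσ z (hAΩ hz)
      have : r σ s z * g z + k σ s z = w := by
        rw [hgw]
        linear_combination w * h4 + h5
      rw [this]; exact hw
    have hsub3 : ball (t i s) (1.6 * η) \ {t i s} ⊆ {z | ∀ j, z ≠ t j s} :=
      hpunct s hs i _ (by linarith)
    obtain ⟨g2, hg2, hg2f⟩ := ext_sol (t i s) (r₁ := 1.4 * η) (r₀ := 1.6 * η) (r₂ := 1.6 * η)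
      (by positivity) (by linarith) le_rfl
      ((hdiff s hs a ha).mono hsub3) ((hdiff s hs p hp).mono hsub3) hg'
    have hz1 : ‖(t i s + ((1.5 * η : ℝ) : ℂ)) - t i s‖ = 1.5 * η := by
      rw [add_sub_cancel_left, Complex.norm_real, Real.norm_of_nonneg (by positivity)]
    have hz1A : (t i s + ((1.5 * η : ℝ) : ℂ)) ∈ A := by
      constructor
      · show 1.4 * η < ‖(t i s + ((1.5 * η : ℝ) : ℂ)) - t i s‖
        rw [hz1]; linarith
      · show ‖(t i s + ((1.5 * η : ℝ) : ℂ)) - t i s‖ < 1.6 * η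
        rw [hz1]; linarith
    have hz1V : (t i s + ((1.5 * η : ℝ) : ℂ)) ∈ ball (t i s) (1.6 * η) \ {t i s} := by
      rw [hpb]
      exact ⟨by rw [hz1]; positivity, hz1A.2⟩
    have hg2C : ∀ z ∈ ball (t i s) (1.6 * η) \ {t i s}, g2 z ∈ C z := by
      refine mem_flat (hopen _ _) (hconn _ _) (fun z hz => hC z (hsub3 hz)) hg2 hz1V ?_
      rw [hg2f _ hz1A.1 hz1A.2]
      exact hg'C _ hz1A
    obtain ⟨z, hz, hzn⟩ := hodd (1.6 * η) (by positivity) g2 hg2
    exact hzn (hg2C z hz)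

end AS.J4110

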