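import Mathlib
import Pool.Agent.Helper272.Ell.Defs
import Pool.Agent.Helper272.Ell.J4110
import Pool.Agent.Helper272.Ell.J4002

set_option autoImplicit false
open Polynomial Set Filter Topology MeasureTheory Metric

namespace AS.J4392

open AS.J4110 (transport_struct)
open AS.J4002 (not_odd)

/-- TARGET 1: the odd set is locally given by holomorphic functions -/
theorem Oset_local (R : ℂ[X][X]) (N : ℂ[X]) (W : Set (ℂ × ℂ))
    (hWd : W = {w | R.evalEval w.1 w.2 ≠ 0 ∧ N.eval w.1 ≠ 0}) (hW : IsOpen W)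
    {a b p q : ℂ × ℂ → ℂ}
    (ha : DifferentiableOn ℂ a W) (hb : DifferentiableOn ℂ b W)
    (hp : DifferentiableOn ℂ p W) (hq : DifferentiableOn ℂ q W)
    (h1 : ∀ w ∈ W, fderiv ℂ a w (1, 0) = fderiv ℂ b w (0, 1))
    (h2 : ∀ w ∈ W, fderiv ℂ p w (1, 0) + a w * q w = fderiv ℂ q w (0, 1) + b w * p w)
    (F : ℂ × ℂ → ℂ) (ρ : ℝ) (hρ : 0 ≤ ρ)
    (hF : ∀ w ∈ W, ρ * (1 + ‖w.1‖) < ‖w.2‖ →
      HasDerivAt (fun s => F (s, w.2)) (b w * F w + q w) w.1)
    (s₀ : ℂ) (hs₀ : N.eval s₀ ≠ 0) (r : ℝ) (hr : 0 < r) (n : ℕ) (t : Fin n → ℂ → ℂ)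
    (htd : ∀ i, DifferentiableOn ℂ (t i) (ball s₀ r))
    (hti : ∀ s ∈ ball s₀ r, Function.Injective (fun i => t i s))
    (htr : ∀ s ∈ ball s₀ r, ∀ z, R.evalEval s z = 0 ↔ ∃ i, z = t i s) :
    ∃ r' > 0, ∃ (n' : ℕ) (t' : Fin n' → ℂ → ℂ),
      (∀ i, DifferentiableOn ℂ (t' i) (ball s₀ r')) ∧
      (∀ s ∈ ball s₀ r', Function.Injective fun i => t' i s) ∧
      (∀ s ∈ ball s₀ r', Oset {z | R.evalEval s z = 0} (fun z => a (s, z)) (fun z => p (s, z))
        (fun z => F (s, z)) = Set.range (fun i => t' i s)) := by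
  classical
  have hs0r : s₀ ∈ ball s₀ r := mem_ball_self hr
  -- choice of η
  obtain ⟨η, hη, hsep⟩ : ∃ η : ℝ, 0 < η ∧ ∀ i j, i ≠ j → 4 * η < dist (t i s₀) (t j s₀) := by
    have hev : ∀ᶠ η in 𝓝[>] (0 : ℝ), ∀ i j, i ≠ j → 4 * η < dist (t i s₀) (t j s₀) := by
      refine eventually_all.2 fun i => eventually_all.2 fun j => ?_
      by_cases hij : i = j
      · exact Eventually.of_forall fun η h => absurd hij h
      · have hd : 0 < dist (t i s₀) (t j s₀) :=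
          dist_pos.2 fun h => hij (hti s₀ hs0r h)
        have hc : Tendsto (fun η : ℝ => 4 * η) (𝓝 0) (𝓝 (4 * 0)) :=
          (continuous_const.mul continuous_id).tendsto 0
        rw [mul_zero] at hc
        have := (hc.eventually (gt_mem_nhds hd)).filter_mono
          (nhdsWithin_le_nhds (s := Set.Ioi (0 : ℝ)))
        exact this.mono fun η h _ => h
    obtain ⟨η, h1, h2⟩ := (hev.and self_mem_nhdsWithin).exists
    exact ⟨η, h2, h1⟩
  -- choice of r'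
  have hev : ∀ᶠ s in 𝓝 s₀, (∀ i, dist (t i s) (t i s₀) < η / 10) ∧ N.eval s ≠ 0 := by
    refine Filter.Eventually.and (eventually_all.2 fun i => ?_) ?_
    · have hc : ContinuousAt (t i) s₀ :=
        ((htd i).differentiableAt (ball_mem_nhds s₀ hr)).continuousAt
      exact (Metric.tendsto_nhds.1 hc) (η / 10) (by positivity)
    · exact (N.continuous.continuousAt (x := s₀)).eventually_ne hs₀
  obtain ⟨ε, hε, hball⟩ := Metric.eventually_nhds_iff_ball.1 hev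
  obtain ⟨r', hr', hrr, hrε⟩ : ∃ r' : ℝ, 0 < r' ∧ r' ≤ r ∧ r' ≤ ε :=
    ⟨min r ε, lt_min hr hε, min_le_left _ _, min_le_right _ _⟩
  have hBr : ball s₀ r' ⊆ ball s₀ r := ball_subset_ball hrr
  have hBε : ball s₀ r' ⊆ ball s₀ ε := ball_subset_ball hrε
  have hs0 : s₀ ∈ ball s₀ r' := mem_ball_self hr'
  have hBt : ∀ s ∈ ball s₀ r', ∀ i, dist (t i s) (t i s₀) < η / 10 :=
    fun s hs => (hball s (hBε hs)).1
  have hBN : ∀ s ∈ ball s₀ r', N.eval s ≠ 0 := fun s hs => (hball s (hBε hs)).2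
  have hBW : ∀ s ∈ ball s₀ r', ∀ z : ℂ, (∀ i, z ≠ t i s) → (s, z) ∈ W := by
    intro s hs z hz
    rw [hWd]
    refine ⟨fun h => ?_, hBN s hs⟩
    obtain ⟨i, hi⟩ := (htr s (hBr hs) z).1 h
    exact hz i hi
  obtain ⟨M, hM1, hM2⟩ : ∃ M : ℝ, ρ * (1 + (‖s₀‖ + r')) ≤ M ∧ ∀ i, ‖t i s₀‖ + η ≤ M := by
    refine ⟨max (ρ * (1 + (‖s₀‖ + r'))) (∑ i, ‖t i s₀‖ + η), le_max_left _ _, fun i => ?_⟩
    refine le_trans ?_ (le_max_right _ _)
    have := Finset.single_le_sum (f := fun i => ‖t i s₀‖) (fun i _ => norm_nonneg _)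
      (Finset.mem_univ i)
    linarith
  have hFM : ∀ z : ℂ, M < ‖z‖ → ∀ s ∈ ball s₀ r',
      HasDerivAt (fun s => (fun s z => F (s, z)) s z)
        (b (s, z) * (fun s z => F (s, z)) s z + q (s, z)) s := by
    intro z hz s hs
    have hnorm : ‖s‖ < ‖s₀‖ + r' := by
      have h := mem_ball_iff_norm.1 hs
      have : s = s₀ + (s - s₀) := by ring
      calc ‖s‖ = ‖s₀ + (s - s₀)‖ := by rw [← this]
        _ ≤ ‖s₀‖ + ‖s - s₀‖ := norm_add_le _ _
        _ < _ := by linarith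
    refine hF (s, z) (hBW s hs z ?_) ?_
    · intro i hi
      have h := hBt s hs i
      rw [dist_eq_norm] at h
      have h3 : ‖z‖ ≤ ‖t i s₀‖ + ‖t i s - t i s₀‖ := by
        rw [hi]
        have : t i s = t i s₀ + (t i s - t i s₀) := by ring
        calc ‖t i s‖ = ‖t i s₀ + (t i s - t i s₀)‖ := by rw [← this]
          _ ≤ _ := norm_add_le _ _
      have := hM2 i
      linarith
    · refine lt_of_le_of_lt ?_ hz
      refine le_trans ?_ hM1
      refine mul_le_mul_of_nonneg_left ?_ hρ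
      show 1 + ‖s‖ ≤ 1 + (‖s₀‖ + r')
      linarith
  have hcompl : ∀ s ∈ ball s₀ r', ({z | R.evalEval s z = 0} : Set ℂ)ᶜ = {z | ∀ i, z ≠ t i s} := by
    intro s hs
    ext z
    have h := htr s (hBr hs) z
    simp only [Set.mem_compl_iff, Set.mem_ofPred_eq]
    rw [h]
    push Not
    rfl
  have key : ∀ s ∈ ball s₀ r', ∀ σ ∈ ball s₀ r', ∀ i,
      t i s ∈ Oset {z | R.evalEval s z = 0} (fun z => a (s, z)) (fun z => p (s, z))
        (fun z => F (s, z)) →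
      t i σ ∈ Oset {z | R.evalEval σ z = 0} (fun z => a (σ, z)) (fun z => p (σ, z))
        (fun z => F (σ, z)) := by
    rintro s hs σ hσ i ⟨-, C, hC, hCF, hCo⟩
    rw [hcompl s hs] at hC
    obtain ⟨D, hD, hDF, hDo⟩ := transport_struct hW ha hb hp hq h1 h2 isOpen_ball
      (convex_ball s₀ r') t (fun i => t i s₀) η hη hsep hBt hBW (fun s z => F (s, z)) M hFM
      s hs σ hσ C hC hCF
    refine ⟨(htr σ (hBr hσ) _).2 ⟨i, rfl⟩, D, ?_, hDF, hDo i hCo⟩
    rw [hcompl σ hσ]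
    exact hD
  let I : Type := {i : Fin n // t i s₀ ∈ Oset {z | R.evalEval s₀ z = 0} (fun z => a (s₀, z))
    (fun z => p (s₀, z)) (fun z => F (s₀, z))}
  let e : Fin (Fintype.card I) ≃ I := (Fintype.equivFin I).symm
  refine ⟨r', hr', Fintype.card I, fun j => t (e j).1, ?_, ?_, ?_⟩
  · intro j
    exact (htd _).mono hBr
  · intro s hs j k hjk
    have := hti s (hBr hs) hjk
    exact e.injective (Subtype.ext this)
  · intro s hs
    ext z
    constructor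
    · intro hz
      obtain ⟨i, rfl⟩ := (htr s (hBr hs) z).1 hz.1
      refine ⟨e.symm ⟨i, key s hs s₀ hs0 i hz⟩, ?_⟩
      simp
    · rintro ⟨j, rfl⟩
      exact key s₀ hs0 s hs _ (e j).2

/-- TARGET 2: odd points are not in the domain of the single valued solution -/
theorem Oset_not_mem {V : Set ℂ} (hVo : IsOpen V) (hVp : IsPreconnected V)
    (hVinf : ∀ᶠ z in Bornology.cobounded ℂ, z ∈ V) {Z : Set ℂ} (hZ : Z.Finite) {a p F : ℂ → ℂ}
    (hF : Sol a p (V \ Z) F) {τ : ℂ} (hτ : τ ∈ Oset Z a p F) : τ ∉ V := by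
  intro hV
  obtain ⟨-, C, hC, hCF, hCo⟩ := hτ
  have hZ' : ∀ᶠ z in Bornology.cobounded ℂ, z ∈ Zᶜ := Bornology.isBounded_def.1 hZ.isBounded
  obtain ⟨z₁, h1, h2, h3⟩ := (hVinf.and (hZ'.and hCF)).exists
  exact not_odd hVo hVp hZ hF hC ⟨h1, h2⟩ h3 hV hCo

end AS.J4392

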