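import Mathlib
import Pool.Agent.Helper272.Ell.Defs
import Pool.Agent.Helper272.Ell.J4002

set_option autoImplicit false
open Polynomial Set Filter Topology MeasureTheory Metric

namespace AS.J4486

open AS.J4002 (compl_real_preconn)

/-- TARGET 1 -/
theorem Fe_eq (Y : Set (ℝ × ℝ)) (hYo : IsOpen Y) (μ : Measure (ℝ × ℝ)) [IsFiniteMeasure μ]
    (hμ : μ Yᶜ = 0) (ρ : ℝ) (hρ : 0 ≤ ρ) (hYρ : ∀ y ∈ Y, ‖y‖ ≤ ρ) (m : ℕ) (hm : 0 < m) (s : ℝ)
    (P : ℝ[X])
    (hint : ∀ φ : ℝ → ℝ, Continuous φ → ∫ y, φ (y.1 + s * y.2) ∂μ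
        = ∫ t in (fun y : ℝ × ℝ => y.1 + s * y.2) '' Y, φ t * P.eval t ^ (1 / (m : ℝ)))
    (hpos : ∀ t ∈ (fun y : ℝ × ℝ => y.1 + s * y.2) '' Y, 0 < P.eval t)
    (z : ℂ) (hz : ρ * (1 + |s|) < ‖z‖) :
    FF μ ((s : ℂ), z) = ∫ t in (fun y : ℝ × ℝ => y.1 + s * y.2) '' Y,
      ((P.eval t ^ (1 / (m : ℝ)) : ℝ) : ℂ) / (z - t) := by
  set U := (fun y : ℝ × ℝ => y.1 + s * y.2) '' Y with hU
  set M := ρ * (1 + |s|) with hM
  have hM0 : 0 ≤ M := by positivity
  have hY : ∀ y ∈ Y, |y.1 + s * y.2| ≤ M := by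
    intro y hy
    have h1 : |y.1| ≤ ρ := (norm_fst_le y).trans (hYρ y hy)
    have h2 : |y.2| ≤ ρ := (norm_snd_le y).trans (hYρ y hy)
    calc |y.1 + s * y.2| ≤ |y.1| + |s * y.2| := abs_add_le _ _
      _ = |y.1| + |s| * |y.2| := by rw [abs_mul]
      _ ≤ ρ + |s| * ρ := add_le_add h1 (mul_le_mul_of_nonneg_left h2 (abs_nonneg _))
      _ = M := by rw [hM]; ring
  have hUM : U ⊆ Icc (-M) M := by
    rintro _ ⟨y, hy, rfl⟩
    exact abs_le.1 (hY y hy)
  -- U is open
  have hUo : IsOpen U := by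
    have h1 : IsOpenMap (fun y : ℝ × ℝ => y.1 + s * y.2) := by
      have h2 := ContinuousLinearMap.isOpenMap
        (ContinuousLinearMap.fst ℝ ℝ ℝ + s • ContinuousLinearMap.snd ℝ ℝ ℝ)
        (fun t => ⟨(t, 0), by simp⟩)
      exact h2
    exact h1 _ hYo
  -- the clamp
  let c : ℝ → ℝ := fun t => max (-M) (min M t)
  have hc : Continuous c := continuous_const.max (continuous_const.min continuous_id)
  have hcM : ∀ t, |c t| ≤ M := by
    intro t
    rw [abs_le]
    refine ⟨le_max_left _ _, max_le (by linarith) (min_le_left _ _)⟩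
  have hct : ∀ t ∈ Icc (-M) M, c t = t := by
    intro t ht
    show max (-M) (min M t) = t
    rw [min_eq_right ht.2, max_eq_right ht.1]
  have hcz : ∀ t, z - (c t : ℂ) ≠ 0 := by
    intro t h
    have h1 : z = (c t : ℂ) := sub_eq_zero.1 h
    have h2 : ‖z‖ = |c t| := by rw [h1, Complex.norm_real, Real.norm_eq_abs]
    have := hcM t
    linarith
  let φ : ℝ → ℂ := fun t => (z - (c t : ℂ))⁻¹
  have hφ : Continuous φ :=
    (continuous_const.sub (Complex.continuous_ofReal.comp hc)).inv₀ hcz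
  let B : ℝ := (‖z‖ - M)⁻¹
  have hφB : ∀ t, ‖φ t‖ ≤ B := by
    intro t
    show ‖(z - (c t : ℂ))⁻¹‖ ≤ (‖z‖ - M)⁻¹
    rw [norm_inv]
    refine inv_anti₀ (by linarith) ?_
    have h1 := norm_sub_norm_le z (c t : ℂ)
    rw [Complex.norm_real, Real.norm_eq_abs] at h1
    have := hcM t
    linarith
  let A : ℝ → ℝ := fun t => P.eval t ^ (1 / (m : ℝ))
  have hA : Continuous A := P.continuous.rpow_const fun x => Or.inr (by positivity)
  -- left side
  have hL : FF μ ((s : ℂ), z) = ∫ y : ℝ × ℝ, φ (y.1 + s * y.2) ∂μ := by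
    unfold FF
    refine integral_congr_ae ?_
    have h1 : ∀ᵐ y ∂μ, y ∈ Y := by
      rw [ae_iff]
      exact hμ
    filter_upwards [h1] with y hy
    show (z - ((y.1 : ℂ) + (s : ℂ) * (y.2 : ℂ)))⁻¹ = (z - (c (y.1 + s * y.2) : ℂ))⁻¹
    rw [hct _ (abs_le.1 (hY y hy))]
    push_cast
    rfl
  have hl : Continuous (fun y : ℝ × ℝ => y.1 + s * y.2) := by fun_prop
  have hLi : Integrable (fun y : ℝ × ℝ => φ (y.1 + s * y.2)) μ := by
    refine Integrable.of_bound (hφ.comp hl).aestronglyMeasurable B ?_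
    exact Eventually.of_forall fun y => hφB _
  have hR : (∫ t in U, ((P.eval t ^ (1 / (m : ℝ)) : ℝ) : ℂ) / (z - t)) = ∫ t in U, φ t * (A t : ℂ) := by
    refine setIntegral_congr_fun hUo.measurableSet fun t ht => ?_
    show ((A t : ℝ) : ℂ) / (z - t) = (z - (c t : ℂ))⁻¹ * (A t : ℂ)
    rw [hct t (hUM ht), div_eq_mul_inv, mul_comm]
  have hRi : IntegrableOn (fun t => φ t * (A t : ℂ)) U := by
    have h1 : IntegrableOn (fun t => φ t * (A t : ℂ)) (Icc (-M) M) :=
      (hφ.mul (Complex.continuous_ofReal.comp hA)).continuousOn.integrableOn_compact isCompact_Icc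
    exact h1.mono_set hUM
  rw [hL, hR, ← integral_re_add_im hLi, ← integral_re_add_im hRi]
  have e1 := hint (fun t => (φ t).re) (Complex.continuous_re.comp hφ)
  have e2 := hint (fun t => (φ t).im) (Complex.continuous_im.comp hφ)
  have e3 : ∀ t, RCLike.re (φ t * (A t : ℂ)) = (φ t).re * A t := by
    intro t
    show (φ t * (A t : ℂ)).re = _
    simp
  have e4 : ∀ t, RCLike.im (φ t * (A t : ℂ)) = (φ t).im * A t := by
    intro t
    show (φ t * (A t : ℂ)).im = _
    simp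
  simp only [e3, e4]
  have e5 : (∫ y : ℝ × ℝ, RCLike.re (φ (y.1 + s * y.2)) ∂μ) = ∫ t in U, (φ t).re * A t := e1
  have e6 : (∫ y : ℝ × ℝ, RCLike.im (φ (y.1 + s * y.2)) ∂μ) = ∫ t in U, (φ t).im * A t := e2
  rw [e5, e6]

/-- TARGET 2 -/
theorem Fe_sol (U : Set ℝ) (hUo : IsOpen U) (hUb : Bornology.IsBounded U) (A : ℝ → ℝ)
    (hA : IntegrableOn A U) (Fe : ℂ → ℂ) (hFe : Fe = fun z => ∫ t in U, ((A t : ℝ) : ℂ) / (z - t))
    (m : ℕ) (hm : 0 < m) (R Q : ℂ[X]) (M : ℝ)
    (h : ∀ z : ℂ, M < ‖z‖ → m * R.eval z * deriv Fe z - (derivative R).eval z * Fe z = Q.eval z) :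
    DifferentiableOn ℂ Fe {z : ℂ | ∀ t ∈ closure U, z ≠ (t : ℂ)} ∧
    Sol (fun z => (derivative R).eval z / (m * R.eval z)) (fun z => Q.eval z / (m * R.eval z))
      {z | R.eval z ≠ 0 ∧ ∀ t ∈ closure U, z ≠ (t : ℂ)} Fe := by
  set V : Set ℂ := {z : ℂ | ∀ t ∈ closure U, z ≠ (t : ℂ)} with hV
  have hcomp : IsCompact (closure U) := hUb.isCompact_closure
  have hVeq : V = ((fun t : ℝ => (t : ℂ)) '' closure U)ᶜ := by
    ext z
    simp only [hV, mem_setOf_eq, mem_compl_iff, mem_image, not_exists, not_and, ne_eq]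
    exact ⟨fun hz t ht e => hz t ht e.symm, fun hz t ht e => hz t ht e.symm⟩
  have hVo : IsOpen V := by
    rw [hVeq]
    exact (hcomp.image Complex.continuous_ofReal).isClosed.isOpen_compl
  have hVp : IsPreconnected V := compl_real_preconn _ hcomp
  have hder : ∀ z ∈ V, ∃ f', HasDerivAt Fe f' z := by
    intro z hz
    obtain ⟨d, hd, hball⟩ := Metric.isOpen_iff.1 hVo z hz
    have hfar : ∀ z' ∈ ball z (d / 2), ∀ t ∈ U, d / 2 ≤ ‖z' - (t : ℂ)‖ := by
      intro z' hz' t ht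
      have h1 : d ≤ ‖z - (t : ℂ)‖ := by
        by_contra hcon
        push Not at hcon
        have h2 : (t : ℂ) ∈ ball z d := by
          rw [mem_ball, dist_comm, dist_eq_norm]
          exact hcon
        exact (hball h2) t (subset_closure ht) rfl
      have h3 : ‖z' - z‖ < d / 2 := by
        rw [← dist_eq_norm]; exact hz'
      have h4 : ‖z - (t : ℂ)‖ ≤ ‖z' - (t : ℂ)‖ + ‖z' - z‖ := by
        have h5 : z - (t : ℂ) = (z' - (t : ℂ)) - (z' - z) := by ring
        rw [h5]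
        exact norm_sub_le _ _
      linarith
    have hmeasA : AEStronglyMeasurable (fun t => ((A t : ℝ) : ℂ)) (volume.restrict U) :=
      Complex.continuous_ofReal.comp_aestronglyMeasurable hA.1
    have hmeasinv : ∀ z' : ℂ, Measurable fun t : ℝ => (z' - (t : ℂ)) := fun z' =>
      measurable_const.sub Complex.measurable_ofReal
    have key := hasDerivAt_integral_of_dominated_loc_of_deriv_le (μ := volume.restrict U)
      (F := fun (z : ℂ) (t : ℝ) => ((A t : ℝ) : ℂ) / (z - t))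
      (F' := fun (z : ℂ) (t : ℝ) => - ((A t : ℝ) : ℂ) / (z - t) ^ 2)
      (x₀ := z) (s := ball z (d / 2)) (bound := fun t => ‖A t‖ * ((d / 2) ^ 2)⁻¹)
      (ball_mem_nhds z (by positivity)) ?_ ?_ ?_ ?_ ?_ ?_
    · rw [hFe]
      exact ⟨_, key.2⟩
    · refine Eventually.of_forall fun z' => ?_
      exact hmeasA.mul (hmeasinv z').inv.aestronglyMeasurable
    · refine Integrable.mono' (g := fun t => ‖A t‖ * (d / 2)⁻¹) (hA.norm.mul_const _)
        (hmeasA.mul (hmeasinv z).inv.aestronglyMeasurable) ?_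
      filter_upwards [ae_restrict_mem hUo.measurableSet] with t ht
      rw [norm_div, Complex.norm_real, div_eq_mul_inv]
      refine mul_le_mul_of_nonneg_left ?_ (norm_nonneg _)
      exact inv_anti₀ (by positivity) (hfar z (mem_ball_self (by positivity)) t ht)
    · exact (hmeasA.neg).mul ((hmeasinv z).pow_const 2).inv.aestronglyMeasurable
    · filter_upwards [ae_restrict_mem hUo.measurableSet] with t ht
      intro z' hz'
      rw [norm_div, norm_neg, Complex.norm_real, norm_pow, div_eq_mul_inv]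
      refine mul_le_mul_of_nonneg_left ?_ (norm_nonneg _)
      exact inv_anti₀ (by positivity) (pow_le_pow_left₀ (by positivity) (hfar z' hz' t ht) 2)
    · exact hA.norm.mul_const _
    · filter_upwards [ae_restrict_mem hUo.measurableSet] with t ht
      intro z' hz'
      have h0 : z' - (t : ℂ) ≠ 0 := by
        have := hfar z' hz' t ht
        intro h0
        rw [h0, norm_zero] at this
        linarith
      have h1 : HasDerivAt (fun z : ℂ => z - (t : ℂ)) 1 z' := (hasDerivAt_id z').sub_const _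
      have h2 := (hasDerivAt_const z' ((A t : ℝ) : ℂ)).div h1 h0
      have h3 : (0 * (z' - (t : ℂ)) - ((A t : ℝ) : ℂ) * 1) / (z' - (t : ℂ)) ^ 2
        = - ((A t : ℝ) : ℂ) / (z' - t) ^ 2 := by ring
      rw [h3] at h2
      exact h2
  have hdiff : DifferentiableOn ℂ Fe V := fun z hz => by
    obtain ⟨f', hf'⟩ := hder z hz
    exact hf'.differentiableAt.differentiableWithinAt
  refine ⟨hdiff, ?_⟩
  have han : AnalyticOnNhd ℂ Fe V := hdiff.analyticOnNhd hVo
  have hand : AnalyticOnNhd ℂ (deriv Fe) V := han.deriv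
  have hpoly : ∀ p : ℂ[X], AnalyticOnNhd ℂ (fun z => p.eval z) V := fun p =>
    (p.differentiable.differentiableOn).analyticOnNhd hVo
  let g : ℂ → ℂ := fun z => m * R.eval z * deriv Fe z - (derivative R).eval z * Fe z - Q.eval z
  have hg : AnalyticOnNhd ℂ g V :=
    (((analyticOnNhd_const.mul (hpoly R)).mul hand).sub ((hpoly (derivative R)).mul han)).sub (hpoly Q)
  let z0 : ℂ := Complex.I * ((|M| + 1 : ℝ) : ℂ)
  have hz0n : ‖z0‖ = |M| + 1 := by
    show ‖Complex.I * ((|M| + 1 : ℝ) : ℂ)‖ = _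
    rw [norm_mul, Complex.norm_I, one_mul, Complex.norm_real, Real.norm_of_nonneg (by positivity)]
  have hz0V : z0 ∈ V := by
    intro t _ e
    have h1 : z0.im = ((t : ℂ)).im := by rw [e]
    have h2 : z0.im = |M| + 1 := by
      show (Complex.I * ((|M| + 1 : ℝ) : ℂ)).im = _
      rw [Complex.mul_im, Complex.I_re, Complex.I_im, Complex.ofReal_re, Complex.ofReal_im]
      ring
    rw [h2, Complex.ofReal_im] at h1
    have := abs_nonneg M
    linarith
  have hz0M : M < ‖z0‖ := by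
    rw [hz0n]
    have := le_abs_self M
    linarith
  have hev : g =ᶠ[𝓝 z0] 0 := by
    have h1 : ∀ᶠ z in 𝓝 z0, M < ‖z‖ := (continuous_norm.tendsto z0).eventually (lt_mem_nhds hz0M)
    filter_upwards [h1] with z hz
    show m * R.eval z * deriv Fe z - (derivative R).eval z * Fe z - Q.eval z = 0
    rw [h z hz, sub_self]
  have hzero := hg.eqOn_zero_of_preconnected_of_eventuallyEq_zero hVp hz0V hev
  rintro z ⟨hRz, hzV⟩
  have h1 : m * R.eval z * deriv Fe z - (derivative R).eval z * Fe z - Q.eval z = 0 := hzero hzV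
  obtain ⟨f', hf'⟩ := hder z hzV
  have h2 : deriv Fe z = (derivative R).eval z / (m * R.eval z) * Fe z + Q.eval z / (m * R.eval z) := by
    have hm' : (m : ℂ) ≠ 0 := by exact_mod_cast hm.ne'
    field_simp
    linear_combination h1
  show HasDerivAt Fe ((derivative R).eval z / (m * R.eval z) * Fe z + Q.eval z / (m * R.eval z)) z
  rw [← h2]
  exact hf'.differentiableAt.hasDerivAt

end AS.J4486

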