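import Mathlib
import Pool.Agent.Helper272.Ell.J4317
import Pool.Agent.Helper272.Ell.J4486
import Pool.Agent.Helper272.Ell.Defs
import Pool.Agent.Helper272.Ell.J3642
import Pool.Agent.Helper272.Ell.J3643
import Pool.Agent.Helper272.Ell.J3644
import Pool.Agent.Helper272.Ell.J4002
import Pool.Agent.Helper272.Ell.J4033
import Pool.Agent.Helper272.Ell.J4055
import Pool.Agent.Helper272.Ell.J4056
import Pool.Agent.Helper272.Ell.J4095
import Pool.Agent.Helper272.Ell.J4316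
import Pool.Agent.Helper272.Ell.J4391
import Pool.Agent.Helper272.Ell.J4392

set_option autoImplicit false
open Polynomial Set Filter Topology MeasureTheory Metric

namespace AS

open AS.J4317 (real_S)
open AS.J4486 (Fe_eq Fe_sol)
open AS.J3642 (local_roots)
open AS.J3643 (G_exists)
open AS.J3644 (endgame)
open AS.J4002 (ext_preconn compl_real_preconn)
open AS.J4033 (integrable_conn dS_coeff)
open AS.J4055 (FF_hasFDerivAt)
open AS.J4056 (exists_Q exists_Q2)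
open AS.J4095 (struct_exists)
open AS.J4316 (real_R img_open img_bdd)
open AS.J4391 (complex_Z complex_S)
open AS.J4392 (Oset_local Oset_not_mem)

/-- two-variable evaluation as evaluation of the specialized polynomial -/
theorem evalEval_eq_eval_map {A : Type*} [CommRing A] (R : A[X][X]) (s z : A) :
    R.evalEval s z = (R.map (evalRingHom s)).eval z := by
  rw [← Polynomial.map_evalRingHom_eval]

theorem map_real_complex (R : ℝ[X][X]) (s : ℝ) :
    (R.map (mapRingHom (algebraMap ℝ ℂ))).map (evalRingHom (s : ℂ))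
      = (R.map (evalRingHom s)).map (algebraMap ℝ ℂ) := by
  rw [Polynomial.map_map, Polynomial.map_map]
  congr 1
  ext x
  · simp
  · simp

theorem map_finite_zero {A : Type*} [CommRing A] [IsDomain A] (R : A[X][X]) (hR : R ≠ 0) :
    {s : A | R.map (evalRingHom s) = 0}.Finite := by
  classical
  obtain ⟨n, hn⟩ : ∃ n, R.coeff n ≠ 0 := by
    by_contra h
    push Not at h
    exact hR (Polynomial.ext (by simpa using h))
  refine ((R.coeff n).roots.toFinset.finite_toSet).subset fun s hs => ?_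
  have h1 : (R.map (evalRingHom s)).coeff n = 0 := by rw [hs]; simp
  rw [Polynomial.coeff_map] at h1
  simp only [Finset.mem_coe, Multiset.mem_toFinset, mem_roots hn]
  exact h1

theorem core (Y : Set (ℝ × ℝ)) (hYo : IsOpen Y) (hYne : Y.Nonempty)
    (hYb : Bornology.IsBounded Y) (μ : Measure (ℝ × ℝ)) [IsFiniteMeasure μ] (hμ : μ Yᶜ = 0)
    (m : ℕ) (hm : 0 < m) (P : ℝ → ℝ[X]) (Bad : Set ℝ) (hBad : Bad.Countable)
    (hpos : ∀ s, ∀ t ∈ (fun y : ℝ × ℝ => y.1 + s * y.2) '' Y, 0 < (P s).eval t)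
    (hint : ∀ s, ∀ φ : ℝ → ℝ, Continuous φ → ∫ y, φ (y.1 + s * y.2) ∂μ
        = ∫ t in (fun y : ℝ × ℝ => y.1 + s * y.2) '' Y, φ t * (P s).eval t ^ (1 / (m : ℝ)))
    (hfr : ∀ s ∉ Bad, ∀ t ∈ frontier ((fun y : ℝ × ℝ => y.1 + s * y.2) '' Y), (P s).eval t = 0)
    (δ : ℝ) (hδ : 0 < δ)
    (htop : ∀ s : ℝ, |s| < δ →
        m ∣ 2 * (P s).rootMultiplicity (sSup ((fun y : ℝ × ℝ => y.1 + s * y.2) '' Y))) :
    ∃ a b c d e : ℝ, ∀ s : ℝ,
      sSup ((fun y : ℝ × ℝ => y.1 + s * y.2) '' Y) + sInf ((fun y : ℝ × ℝ => y.1 + s * y.2) '' Y)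
        = a + b * s ∧
      sSup ((fun y : ℝ × ℝ => y.1 + s * y.2) '' Y) * sInf ((fun y : ℝ × ℝ => y.1 + s * y.2) '' Y)
        = c + d * s + e * s ^ 2 := by
  obtain ⟨R, hR, hRP, hZ⟩ := real_R Y hYo hYne hYb μ hμ m hm P Bad hBad hpos hint hfr
  obtain ⟨N, G, hN, hS⟩ := real_S Y hYo hYne hYb μ hμ m hm P Bad hBad hpos hint hfr R hR hRP
  obtain ⟨ρ, hρ, hYρ⟩ : ∃ ρ : ℝ, 0 ≤ ρ ∧ ∀ y ∈ Y, ‖y‖ ≤ ρ := by
    obtain ⟨ρ, hρ⟩ := hYb.exists_norm_le
    exact ⟨max ρ 0, le_max_right _ _, fun y hy => (hρ y hy).trans (le_max_left _ _)⟩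
  have hμY : ∀ᵐ y ∂μ, y ∈ Y := by
    rw [ae_iff]; exact hμ
  have hμρ : ∀ᵐ y ∂μ, ‖y‖ ≤ ρ := hμY.mono fun y hy => hYρ y hy
  -- complexification
  obtain ⟨Rc, hRc⟩ : ∃ Rc : ℂ[X][X], Rc = R.map (mapRingHom (algebraMap ℝ ℂ)) := ⟨_, rfl⟩
  obtain ⟨Nc, hNc⟩ : ∃ Nc : ℂ[X], Nc = N.map (algebraMap ℝ ℂ) := ⟨_, rfl⟩
  obtain ⟨Gc, hGc⟩ : ∃ Gc : ℂ[X], Gc = G.map (algebraMap ℝ ℂ) := ⟨_, rfl⟩
  have hinj : Function.Injective (algebraMap ℝ ℂ) := (algebraMap ℝ ℂ).injective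
  have hRc0 : Rc ≠ 0 := by
    rw [hRc]
    refine (Polynomial.map_ne_zero_iff ?_).2 hR
    exact Polynomial.map_injective _ hinj
  have hNc0 : Nc ≠ 0 := by
    rw [hNc]; exact (Polynomial.map_ne_zero_iff hinj).2 hN
  have hZc := complex_Z μ ρ hμρ m R hZ Rc hRc
  -- the good real parameters
  have hRfin : {s : ℝ | R.map (evalRingHom s) = 0}.Finite := map_finite_zero R hR
  have hDinf : {s : ℝ | s ∉ Bad ∧ R.map (evalRingHom s) ≠ 0}.Infinite := by
    have hc : ({s : ℝ | s ∉ Bad ∧ R.map (evalRingHom s) ≠ 0}ᶜ).Countable := by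
      refine (hBad.union hRfin.countable).mono ?_
      intro s hs
      simp only [mem_compl_iff, mem_setOf_eq, not_and_or, not_not] at hs
      exact hs
    have hd := Set.Countable.dense_compl ℝ hc
    rw [compl_compl] at hd
    intro hfin
    have : (univ : Set ℝ).Countable := by
      rw [← Set.union_compl_self {s : ℝ | s ∉ Bad ∧ R.map (evalRingHom s) ≠ 0}]
      exact hfin.countable.union hc
    exact Cardinal.not_countable_real this
  have hSc := complex_S μ ρ hμρ m R N G _ hDinf (fun s hs k => hS s hs.1 hs.2 k) Rc hRc Nc Gc hNc hGc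
  obtain ⟨Q, hQ⟩ := exists_Q μ ρ hρ hμρ m Rc hZc
  obtain ⟨Q2, hQ2⟩ := exists_Q2 μ ρ hρ hμρ m hm Rc Nc Gc hSc
  -- differentiability of F
  have hFd := fun (w : ℂ × ℂ) (hw : ρ * (1 + ‖w.1‖) < ‖w.2‖) => FF_hasFDerivAt μ ρ hρ hμρ w hw
  have hFdiff : DifferentiableOn ℂ (FF μ) {w | ρ * (1 + ‖w.1‖) < ‖w.2‖} := fun w hw =>
    (hFd w hw).differentiableAt.differentiableWithinAt
  have hFz : ∀ w : ℂ × ℂ, ρ * (1 + ‖w.1‖) < ‖w.2‖ →
      m * Rc.evalEval w.1 w.2 * fderiv ℂ (FF μ) w (0, 1) - (derivative Rc).evalEval w.1 w.2 * FF μ w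
        = Q.evalEval w.1 w.2 := by
    intro w hw
    rw [(hFd w hw).fderiv, ← hQ w.1 w.2 hw]
    simp [FF]
  have hFs : ∀ w : ℂ × ℂ, ρ * (1 + ‖w.1‖) < ‖w.2‖ →
      Nc.eval w.1 * (m * Rc.evalEval w.1 w.2 * fderiv ℂ (FF μ) w (1, 0)
          - (dS Rc).evalEval w.1 w.2 * FF μ w) + Gc.eval w.1 * Rc.evalEval w.1 w.2 * FF μ w
        = Q2.evalEval w.1 w.2 := by
    intro w hw
    rw [(hFd w hw).fderiv, ← hQ2 w.1 w.2 hw]
    simp [FF]
  obtain ⟨W, hWd⟩ : ∃ W : Set (ℂ × ℂ), W = {w | Rc.evalEval w.1 w.2 ≠ 0 ∧ Nc.eval w.1 ≠ 0} :=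
    ⟨_, rfl⟩
  obtain ⟨a, had⟩ : ∃ a : ℂ × ℂ → ℂ,
    a = fun w => (derivative Rc).evalEval w.1 w.2 / (m * Rc.evalEval w.1 w.2) := ⟨_, rfl⟩
  obtain ⟨b, hbd⟩ : ∃ b : ℂ × ℂ → ℂ,
    b = fun w => (dS Rc).evalEval w.1 w.2 / (m * Rc.evalEval w.1 w.2)
      - Gc.eval w.1 / (m * Nc.eval w.1) := ⟨_, rfl⟩
  obtain ⟨p, hpd⟩ : ∃ p : ℂ × ℂ → ℂ,
    p = fun w => Q.evalEval w.1 w.2 / (m * Rc.evalEval w.1 w.2) := ⟨_, rfl⟩
  obtain ⟨q, hqd⟩ : ∃ q : ℂ × ℂ → ℂ,
    q = fun w => Q2.evalEval w.1 w.2 / (m * Nc.eval w.1 * Rc.evalEval w.1 w.2) := ⟨_, rfl⟩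
  obtain ⟨hWo, ha, hb, hp, hq, h1, h2⟩ := integrable_conn m hm Rc Q Q2 Nc Gc hRc0 hNc0 ρ (FF μ)
    hFdiff hFz hFs W hWd a b p q had hbd hpd hqd
  have hm0 : (m : ℂ) ≠ 0 := by exact_mod_cast hm.ne'
  -- local roots and the bad set
  obtain ⟨S₀, hS₀, hroots⟩ := local_roots Rc hRc0
  obtain ⟨S, hSd⟩ : ∃ S : Set ℂ, S = S₀ ∪ {s | Nc.eval s = 0} := ⟨_, rfl⟩
  have hSfin : S.Finite := by
    rw [hSd]
    refine hS₀.union ?_
    refine (Nc.roots.toFinset.finite_toSet).subset fun s hs => ?_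
    simp only [Finset.mem_coe, Multiset.mem_toFinset, mem_roots hNc0]
    exact hs
  have hmapne : ∀ s ∉ S, Rc.map (evalRingHom s) ≠ 0 := by
    intro s hs
    rw [hSd] at hs
    obtain ⟨r, hr, n, t, -, -, h⟩ := hroots s (fun h => hs (Or.inl h))
    exact (h s (mem_ball_self hr)).1
  have hZfin : ∀ s ∉ S, {z | Rc.evalEval s z = 0}.Finite := by
    intro s hs
    refine ((Rc.map (evalRingHom s)).roots.toFinset.finite_toSet).subset fun z hz => ?_
    simp only [Finset.mem_coe, Multiset.mem_toFinset, mem_roots (hmapne s hs)]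
    rw [IsRoot.def, ← evalEval_eq_eval_map]
    exact hz
  -- z-equation
  have hFsolz : ∀ s : ℂ, Sol (fun z => a (s, z)) (fun z => p (s, z))
      ({z | ρ * (1 + ‖s‖) < ‖z‖} \ {z | Rc.evalEval s z = 0}) (fun z => FF μ (s, z)) := by
    intro s z hz
    have hR0 : Rc.evalEval s z ≠ 0 := hz.2
    have hw : ρ * (1 + ‖((s, z) : ℂ × ℂ).1‖) < ‖((s, z) : ℂ × ℂ).2‖ := hz.1
    have h3 : HasDerivAt (fun z => FF μ (s, z)) (fderiv ℂ (FF μ) (s, z) (0, 1)) z := by
      have h4 := (hFd (s, z) hw).differentiableAt.hasFDerivAt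
      have h5 : HasDerivAt (fun z : ℂ => ((s, z) : ℂ × ℂ)) (0, 1) z :=
        (hasDerivAt_const z s).prodMk (hasDerivAt_id z)
      exact h4.comp_hasDerivAt z h5
    convert h3 using 1
    have h6 := hFz (s, z) hw
    simp only [had, hpd]
    simp only at h6
    field_simp
    linear_combination -h6
  -- s-equation
  have hFsols : ∀ w ∈ W, ρ * (1 + ‖w.1‖) < ‖w.2‖ →
      HasDerivAt (fun s => FF μ (s, w.2)) (b w * FF μ w + q w) w.1 := by
    intro w hwW hw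
    have hR0 : Rc.evalEval w.1 w.2 ≠ 0 := by rw [hWd] at hwW; exact hwW.1
    have hN0 : Nc.eval w.1 ≠ 0 := by rw [hWd] at hwW; exact hwW.2
    have h3 : HasDerivAt (fun s => FF μ (s, w.2)) (fderiv ℂ (FF μ) w (1, 0)) w.1 := by
      have h4 : HasFDerivAt (FF μ) (fderiv ℂ (FF μ) w) ((fun s : ℂ => ((s, w.2) : ℂ × ℂ)) w.1) :=
        (hFd w hw).differentiableAt.hasFDerivAt
      have h5 : HasDerivAt (fun s : ℂ => ((s, w.2) : ℂ × ℂ)) (1, 0) w.1 :=
        (hasDerivAt_id w.1).prodMk (hasDerivAt_const w.1 w.2)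
      exact h4.comp_hasDerivAt w.1 h5
    convert h3 using 1
    have h6 := hFs w hw
    simp only [hbd, hqd]
    field_simp
    linear_combination -h6
  -- the odd set
  obtain ⟨O, hO⟩ : ∃ O : ℂ → Set ℂ, ∀ s, O s = Oset {z | Rc.evalEval s z = 0}
    (fun z => a (s, z)) (fun z => p (s, z)) (fun z => FF μ (s, z)) := ⟨_, fun _ => rfl⟩
  have hloc : ∀ s₀ ∉ S, ∃ r > 0, ∃ (n : ℕ) (t : Fin n → ℂ → ℂ),
      (∀ i, DifferentiableOn ℂ (t i) (ball s₀ r)) ∧
      (∀ s ∈ ball s₀ r, Function.Injective fun i => t i s) ∧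
      (∀ s ∈ ball s₀ r, O s = Set.range (fun i => t i s)) := by
    intro s₀ hs₀
    rw [hSd] at hs₀
    have hs₀' : s₀ ∉ S₀ := fun h => hs₀ (Or.inl h)
    have hN0 : Nc.eval s₀ ≠ 0 := fun h => hs₀ (Or.inr h)
    obtain ⟨r, hr, n, t, htd, hti, htr⟩ := hroots s₀ hs₀'
    obtain ⟨r', hr', n', t', h3, h4, h5⟩ := Oset_local Rc Nc W hWd hWo ha hb hp hq h1 h2 (FF μ) ρ hρ
      hFsols s₀ hN0 r hr n t htd hti (fun s hs => (htr s hs).2)
    exact ⟨r', hr', n', t', h3, h4, fun s hs => by rw [hO]; exact h5 s hs⟩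
  have hbd' : ∀ s ∉ S, ∀ τ ∈ O s, ‖τ‖ ≤ ρ * (1 + ‖s‖) := by
    intro s hs τ hτ
    rw [hO] at hτ
    have hVo : IsOpen {z : ℂ | ρ * (1 + ‖s‖) < ‖z‖} := isOpen_lt continuous_const continuous_norm
    have hVinf : ∀ᶠ z in Bornology.cobounded ℂ, z ∈ {z : ℂ | ρ * (1 + ‖s‖) < ‖z‖} :=
      (tendsto_norm_cobounded_atTop (E := ℂ)).eventually_gt_atTop _
    have := Oset_not_mem hVo (ext_preconn _) hVinf (hZfin s hs) (hFsolz s) hτ
    simpa using this
  obtain ⟨g, Gp, hGm, hGd, hGc', hGr⟩ := G_exists S hSfin O ρ hloc hbd'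
  -- real good parameters
  obtain ⟨D, hDd⟩ : ∃ D : Set ℝ, D = {s : ℝ | s ∉ Bad ∧ (s : ℂ) ∉ S} := ⟨_, rfl⟩
  have hDdense : Dense D := by
    have hc : (Bad ∪ {s : ℝ | (s : ℂ) ∈ S}).Countable := by
      refine hBad.union ?_
      exact (hSfin.preimage (Complex.ofReal_injective.injOn)).countable
    have hd := Set.Countable.dense_compl ℝ hc
    convert hd using 1
    rw [hDd]
    ext s
    simp [not_or]
  -- at a real good parameter
  have hreal : ∀ s ∈ D, ∃ c : ℝ, c ≠ 0 ∧ R.map (evalRingHom s) = C c * P s := by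
    intro s hs
    rw [hDd] at hs
    refine hRP s hs.1 ?_
    intro h0
    apply hmapne s hs.2
    rw [hRc, map_real_complex, h0, Polynomial.map_zero]
  have hUo : ∀ s : ℝ, IsOpen ((fun y : ℝ × ℝ => y.1 + s * y.2) '' Y) := fun s => img_open s hYo
  have hUb : ∀ s : ℝ, Bornology.IsBounded ((fun y : ℝ × ℝ => y.1 + s * y.2) '' Y) :=
    fun s => img_bdd s hYb
  -- Fe is a solution
  have hFesol : ∀ s ∈ D, Sol (fun z => a ((s : ℂ), z)) (fun z => p ((s : ℂ), z))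
      {z | Rc.evalEval (s : ℂ) z ≠ 0 ∧
        ∀ t ∈ closure ((fun y : ℝ × ℝ => y.1 + s * y.2) '' Y), z ≠ (t : ℂ)}
      (fun z => ∫ t in (fun y : ℝ × ℝ => y.1 + s * y.2) '' Y,
        (((P s).eval t ^ (1 / (m : ℝ)) : ℝ) : ℂ) / (z - t)) := by
    intro s hs
    have hA : IntegrableOn (fun t => (P s).eval t ^ (1 / (m : ℝ)))
        ((fun y : ℝ × ℝ => y.1 + s * y.2) '' Y) := by
      have hcont : Continuous (fun t => (P s).eval t ^ (1 / (m : ℝ))) :=
        (Polynomial.continuous _).rpow_const (fun t => Or.inr (by positivity))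
      obtain ⟨B, hB⟩ := (hUb s).subset_closedBall 0
      exact (hcont.continuousOn.integrableOn_compact (isCompact_closedBall 0 B)).mono_set hB
    have h3 := Fe_sol _ (hUo s) (hUb s) _ hA _ rfl m hm (Rc.map (evalRingHom (s : ℂ)))
      (Q.map (evalRingHom (s : ℂ))) (ρ * (1 + ‖(s : ℂ)‖)) ?_
    · have h4 := h3.2
      intro z hz
      have h5 := h4 z ⟨by rw [← evalEval_eq_eval_map]; exact hz.1, hz.2⟩
      convert h5 using 2
      · simp only [had]
        rw [Polynomial.derivative_map, ← evalEval_eq_eval_map, ← evalEval_eq_eval_map]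
      · simp only [hpd]
        rw [← evalEval_eq_eval_map, ← evalEval_eq_eval_map]
    · intro z hz
      have hn : ‖(s : ℂ)‖ = |s| := by simp
      have hev : ∀ᶠ w in 𝓝 z, (∫ t in (fun y : ℝ × ℝ => y.1 + s * y.2) '' Y,
          (((P s).eval t ^ (1 / (m : ℝ)) : ℝ) : ℂ) / (w - t)) = FF μ ((s : ℂ), w) := by
        have ho : IsOpen {z : ℂ | ρ * (1 + ‖(s : ℂ)‖) < ‖z‖} :=
          isOpen_lt continuous_const continuous_norm
        filter_upwards [ho.mem_nhds hz] with w hw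
        have hw : ρ * (1 + ‖(s : ℂ)‖) < ‖w‖ := hw
        rw [hn] at hw
        exact (Fe_eq Y hYo μ hμ ρ hρ hYρ m hm s (P s) (hint s) (hpos s) w hw).symm
      have h6 : deriv (fun z : ℂ => ∫ t in (fun y : ℝ × ℝ => y.1 + s * y.2) '' Y,
          (((P s).eval t ^ (1 / (m : ℝ)) : ℝ) : ℂ) / (z - t)) z
          = deriv (fun w => FF μ ((s : ℂ), w)) z := Filter.EventuallyEq.deriv_eq hev
      have h7 : deriv (fun w => FF μ ((s : ℂ), w)) z = fderiv ℂ (FF μ) ((s : ℂ), z) (0, 1) := by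
        have hw : ρ * (1 + ‖(((s : ℂ), z) : ℂ × ℂ).1‖) < ‖(((s : ℂ), z) : ℂ × ℂ).2‖ := hz
        have h4 := (hFd ((s : ℂ), z) hw).differentiableAt.hasFDerivAt
        have h5 : HasDerivAt (fun z : ℂ => (((s : ℂ), z) : ℂ × ℂ)) (0, 1) z :=
          (hasDerivAt_const z (s : ℂ)).prodMk (hasDerivAt_id z)
        exact (h4.comp_hasDerivAt z h5).deriv
      have h8 := hFz ((s : ℂ), z) hz
      rw [h6, h7, hev.self_of_nhds, Polynomial.derivative_map, ← evalEval_eq_eval_map,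
        ← evalEval_eq_eval_map, ← evalEval_eq_eval_map]
      exact h8
  -- V is open, preconnected
  have hOs : ∀ s ∈ D, ∀ τ ∈ O (s : ℂ), ∃ t ∈ frontier ((fun y : ℝ × ℝ => y.1 + s * y.2) '' Y),
      τ = (t : ℂ) := by
    intro s hs τ hτ
    have hsS : (s : ℂ) ∉ S := by rw [hDd] at hs; exact hs.2
    have hcomp : IsCompact (closure ((fun y : ℝ × ℝ => y.1 + s * y.2) '' Y)) :=
      (hUb s).isCompact_closure
    have hVo : IsOpen {z : ℂ | ∀ t ∈ closure ((fun y : ℝ × ℝ => y.1 + s * y.2) '' Y),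
        z ≠ (t : ℂ)} := by
      have h3 : IsClosed (((↑) : ℝ → ℂ) '' closure ((fun y : ℝ × ℝ => y.1 + s * y.2) '' Y)) :=
        (hcomp.image Complex.continuous_ofReal).isClosed
      convert h3.isOpen_compl using 1
      ext z
      simp only [mem_setOf_eq, mem_compl_iff, mem_image, not_exists, not_and]
      exact ⟨fun h t ht h' => h t ht h'.symm, fun h t ht h' => h t ht h'.symm⟩
    have hVp := compl_real_preconn _ hcomp
    have hVinf : ∀ᶠ z in Bornology.cobounded ℂ, z ∈ {z : ℂ | ∀ t ∈ closure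
        ((fun y : ℝ × ℝ => y.1 + s * y.2) '' Y), z ≠ (t : ℂ)} := by
      obtain ⟨B, hB⟩ := (hUb s).closure.exists_norm_le
      filter_upwards [(tendsto_norm_cobounded_atTop (E := ℂ)).eventually_gt_atTop B] with z hz
      intro t ht h
      have := hB t ht
      rw [h, Complex.norm_real] at hz
      linarith
    have hFeFF : ∀ᶠ z in Bornology.cobounded ℂ, (∫ t in (fun y : ℝ × ℝ => y.1 + s * y.2) '' Y,
          (((P s).eval t ^ (1 / (m : ℝ)) : ℝ) : ℂ) / (z - t)) = FF μ ((s : ℂ), z) := by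
      filter_upwards [(tendsto_norm_cobounded_atTop (E := ℂ)).eventually_gt_atTop
        (ρ * (1 + |s|))] with z hz
      exact (Fe_eq Y hYo μ hμ ρ hρ hYρ m hm s (P s) (hint s) (hpos s) z hz).symm
    rw [hO] at hτ
    have hτ' : τ ∈ Oset {z | Rc.evalEval (s : ℂ) z = 0} (fun z => a ((s : ℂ), z))
        (fun z => p ((s : ℂ), z)) (fun z => ∫ t in (fun y : ℝ × ℝ => y.1 + s * y.2) '' Y,
          (((P s).eval t ^ (1 / (m : ℝ)) : ℝ) : ℂ) / (z - t)) := by
      obtain ⟨h3, C, h4, h5, h6⟩ := hτ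
      refine ⟨h3, C, h4, ?_, h6⟩
      filter_upwards [h5, hFeFF] with z hz hz'
      rw [hz']; exact hz
    have hsol : Sol (fun z => a ((s : ℂ), z)) (fun z => p ((s : ℂ), z))
        ({z : ℂ | ∀ t ∈ closure ((fun y : ℝ × ℝ => y.1 + s * y.2) '' Y), z ≠ (t : ℂ)}
          \ {z | Rc.evalEval (s : ℂ) z = 0})
        (fun z => ∫ t in (fun y : ℝ × ℝ => y.1 + s * y.2) '' Y,
          (((P s).eval t ^ (1 / (m : ℝ)) : ℝ) : ℂ) / (z - t)) := fun z hz =>
      hFesol s hs z ⟨hz.2, hz.1⟩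
    have h3 := Oset_not_mem hVo hVp hVinf (hZfin s hsS) hsol hτ'
    simp only [mem_setOf_eq, not_forall, not_not] at h3
    obtain ⟨t, ht, htτ⟩ := h3
    refine ⟨t, ?_, htτ⟩
    rw [frontier, (hUo s).interior_eq]
    refine ⟨ht, fun htU => ?_⟩
    obtain ⟨c, hc, hcP⟩ := hreal s hs
    have h4 : Rc.evalEval (s : ℂ) τ = 0 := hτ.1
    rw [evalEval_eq_eval_map, hRc, map_real_complex, hcP, htτ, Polynomial.eval_map_algebraMap,
      ← Complex.coe_algebraMap, Polynomial.aeval_algebraMap_apply] at h4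
    have h5 : (C c * P s).eval t = 0 := by
      have := h4
      simpa using this
    rw [eval_mul, eval_C] at h5
    have := hpos s t htU
    rcases mul_eq_zero.1 h5 with h6 | h6
    · exact hc h6
    · linarith
  -- choice of s₀
  obtain ⟨s₀, hs₀, hs₀D⟩ := hDdense.exists_mem_open (isOpen_Ioo (a := -δ) (b := δ))
    ⟨0, by constructor <;> linarith⟩
  have hs₀δ : |s₀| < δ := abs_lt.2 hs₀D
  have hs₀Bad : s₀ ∉ Bad := by rw [hDd] at hs₀; exact hs₀.1
  have hs₀S : (s₀ : ℂ) ∉ S := by rw [hDd] at hs₀; exact hs₀.2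
  obtain ⟨c, hc, hcP⟩ := hreal s₀ hs₀
  obtain ⟨U, hU⟩ : ∃ U : Set ℝ, U = (fun y : ℝ × ℝ => y.1 + s₀ * y.2) '' Y := ⟨_, rfl⟩
  have hUne : U.Nonempty := by rw [hU]; exact hYne.image _
  have hRcP : ∀ z, Rc.evalEval (s₀ : ℂ) z = c * ((P s₀).map (algebraMap ℝ ℂ)).eval z := by
    intro z
    rw [evalEval_eq_eval_map, hRc, map_real_complex, hcP, Polynomial.map_mul, Polynomial.map_C,
      eval_mul, eval_C]
    rfl
  have hRcP' : ∀ z, (derivative Rc).evalEval (s₀ : ℂ) z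
      = c * (derivative ((P s₀).map (algebraMap ℝ ℂ))).eval z := by
    intro z
    rw [evalEval_eq_eval_map, ← Polynomial.derivative_map, hRc, map_real_complex, hcP,
      Polynomial.map_mul, Polynomial.map_C, Polynomial.derivative_C_mul, eval_mul, eval_C]
    rfl
  have hc' : (c : ℂ) ≠ 0 := by exact_mod_cast hc
  have hZeq : ∀ z, Rc.evalEval (s₀ : ℂ) z ≠ 0 ↔ ((P s₀).map (algebraMap ℝ ℂ)).eval z ≠ 0 := by
    intro z
    rw [hRcP]
    simp [hc']
  have hPne : P s₀ ≠ 0 := by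
    intro h
    obtain ⟨t, ht⟩ := hUne
    have := hpos s₀ t (by rw [← hU]; exact ht)
    rw [h] at this
    simp at this
  have hfr0 : ∀ t ∈ frontier U, (P s₀).eval t = 0 := by
    rw [hU]; exact hfr s₀ hs₀Bad
  have hst := struct_exists U (by rw [hU]; exact hUo s₀) (by rw [hU]; exact hUb s₀) hUne (P s₀)
    (by rw [hU]; exact hpos s₀) hfr0 m hm (fun z => a ((s₀ : ℂ), z)) (fun z => p ((s₀ : ℂ), z))
    (fun z => ∫ t in U, (((P s₀).eval t ^ (1 / (m : ℝ)) : ℝ) : ℂ) / (z - t)) ?_ ?_ rfl ?_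
  rotate_left
  · funext z
    simp only [had]
    rw [hRcP, hRcP', mul_left_comm, mul_div_mul_left _ _ hc']
  · intro z hz
    have hz' : Rc.evalEval (s₀ : ℂ) z ≠ 0 := (hZeq z).2 hz
    simp only [hpd]
    refine DifferentiableAt.differentiableWithinAt ?_
    have e1 : (fun z : ℂ => Q.evalEval (s₀ : ℂ) z / (m * Rc.evalEval (s₀ : ℂ) z))
        = fun z => (Q.map (evalRingHom (s₀ : ℂ))).eval z
          / (m * (Rc.map (evalRingHom (s₀ : ℂ))).eval z) := by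
      funext z; rw [evalEval_eq_eval_map, evalEval_eq_eval_map]
    rw [e1]
    refine (Polynomial.differentiable _ z).div ((Polynomial.differentiable _ z).const_mul _) ?_
    rw [← evalEval_eq_eval_map]
    exact mul_ne_zero hm0 hz'
  · intro z hz
    have := hFesol s₀ hs₀ z ⟨(hZeq z).2 hz.1, by rw [← hU]; exact hz.2⟩
    rw [← hU] at this
    exact this
  obtain ⟨C, hC1, hC2, hC3⟩ := hst
  have hsup : sSup U ∈ frontier U := by
    rw [frontier, (by rw [hU]; exact hUo s₀ : IsOpen U).interior_eq]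
    have hbdd : BddAbove U := (by rw [hU]; exact hUb s₀ : Bornology.IsBounded U).bddAbove
    refine ⟨csSup_mem_closure hUne hbdd, fun h => ?_⟩
    have ho : IsOpen U := by rw [hU]; exact hUo s₀
    obtain ⟨ε, hε, hεU⟩ := Metric.isOpen_iff.1 ho _ h
    have h3 : sSup U + ε / 2 ∈ U := hεU (by
      rw [Metric.mem_ball, Real.dist_eq, add_sub_cancel_left, abs_of_pos (by linarith)]; linarith)
    have := le_csSup hbdd h3
    linarith
  have hodd := hC3 (by rw [hU]; exact htop s₀ hs₀δ)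
  have hmem : ((sSup U : ℝ) : ℂ) ∈ O (s₀ : ℂ) := by
    rw [hO]
    refine ⟨?_, C, ?_, ?_, hodd⟩
    · show Rc.evalEval (s₀ : ℂ) ((sSup U : ℝ) : ℂ) = 0
      rw [hRcP]
      have h3 := hfr0 _ hsup
      have h4 : ((P s₀).map (algebraMap ℝ ℂ)).eval ((sSup U : ℝ) : ℂ) = 0 := by
        have h5 := Polynomial.eval_map_apply (f := algebraMap ℝ ℂ) (p := P s₀) (sSup U)
        rw [h3, map_zero] at h5
        exact h5
      rw [h4, mul_zero]
    · intro z hz
      exact hC1 z ((hZeq z).1 hz)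
    · obtain ⟨B, hB⟩ := (hUb s₀).closure.exists_norm_le
      have hZb : ∀ᶠ z in Bornology.cobounded ℂ, z ∉ {z | Rc.evalEval (s₀ : ℂ) z = 0} := by
        have h3 : Bornology.IsBounded {z | Rc.evalEval (s₀ : ℂ) z = 0} :=
          (hZfin (s₀ : ℂ) hs₀S).isBounded
        exact Bornology.isBounded_def.1 h3
      filter_upwards [(tendsto_norm_cobounded_atTop (E := ℂ)).eventually_gt_atTop
        (ρ * (1 + |s₀|)), (tendsto_norm_cobounded_atTop (E := ℂ)).eventually_gt_atTop B, hZb]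
        with z hz hzB hzZ
      rw [Fe_eq Y hYo μ hμ ρ hρ hYρ m hm s₀ (P s₀) (hint s₀) (hpos s₀) z hz, ← hU]
      refine hC2 z ((hZeq z).1 hzZ) ?_
      intro t ht h
      rw [hU] at ht
      have := hB t ht
      rw [h, Complex.norm_real] at hzB
      linarith
  have hsup' : Gp.evalEval (s₀ : ℂ) ((sSup U : ℝ) : ℂ) = 0 := ((hGr (s₀ : ℂ) hs₀S).2 _).2 hmem
  refine endgame Y hYo hYne hYb g Gp hGm hGd hGc' D hDdense ?_ s₀ hs₀ ?_ (hGr (s₀ : ℂ) hs₀S).1 ?_
  · intro s hs z hz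
    have hsS : (s : ℂ) ∉ S := by rw [hDd] at hs; exact hs.2
    exact hOs s hs z (((hGr (s : ℂ) hsS).2 z).1 hz)
  · rw [← hU]
    refine ((P s₀).roots.toFinset.finite_toSet).subset fun t ht => ?_
    simp only [Finset.mem_coe, Multiset.mem_toFinset, mem_roots hPne]
    exact hfr0 t ht
  · rw [← hU]; exact hsup'

end AS
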