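import Mathlib

set_option autoImplicit false
open Set Metric MeasureTheory
open scoped ContDiff RealInnerProductSpace

namespace AS.J3729

/-- TARGET: the boundary has measure zero -/
theorem frontier_null {n : ℕ} (K : Set (EuclideanSpace ℝ (Fin n)))
    (hIB : ∀ x ∈ frontier K, ∃ c : EuclideanSpace ℝ (Fin n), ∃ ρ > 0,
      dist x c = ρ ∧ ball c ρ ⊆ interior K) :
    volume (frontier K) = 0 := by
  classical
  have hmeas : MeasurableSet (frontier K) := isClosed_frontier.measurableSet
  have hden := Besicovitch.ae_tendsto_measure_inter_div (volume : Measure (EuclideanSpace ℝ (Fin n))) (frontier K)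
  have hmem : ∀ᵐ x ∂((volume : Measure (EuclideanSpace ℝ (Fin n))).restrict (frontier K)), x ∈ frontier K :=
    ae_restrict_mem hmeas
  have hfalse : ∀ᵐ x ∂((volume : Measure (EuclideanSpace ℝ (Fin n))).restrict (frontier K)), False := by
    filter_upwards [hden, hmem] with x hx hxS
    obtain ⟨c, ρ, hρ, hdist, hball⟩ := hIB x hxS
    have hev : ∀ᶠ r in nhdsWithin (0:ℝ) (Ioi 0),
        volume (frontier K ∩ closedBall x r) / volume (closedBall x r)
          + ENNReal.ofReal ((1/2:ℝ) ^ (Module.finrank ℝ (EuclideanSpace ℝ (Fin n)))) ≤ 1 := by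
      have h1 : ∀ᶠ r in nhdsWithin (0:ℝ) (Ioi 0), r ∈ Ioo (0:ℝ) ρ :=
        Ioo_mem_nhdsGT hρ
      filter_upwards [h1] with r hr
      obtain ⟨hr0, hrρ⟩ := hr
      set y : EuclideanSpace ℝ (Fin n) := x + (r / (2*ρ)) • (c - x) with hy
      have hsub1 : ball y (r/2) ⊆ closedBall x r := by
        intro z hz
        rw [mem_ball] at hz
        rw [mem_closedBall]
        have h2 : dist y x = r/2 := by
          rw [hy, dist_eq_norm, add_sub_cancel_left, norm_smul, ← dist_eq_norm, dist_comm c x,
            hdist, Real.norm_of_nonneg (by positivity)]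
          field_simp
        calc dist z x ≤ dist z y + dist y x := dist_triangle _ _ _
          _ ≤ r/2 + r/2 := by linarith
          _ = r := by ring
      have hsub2 : ball y (r/2) ⊆ ball c ρ := by
        intro z hz
        rw [mem_ball] at hz ⊢
        have h2 : dist y c = ρ - r/2 := by
          have h3 : y - c = (-(1 - r/(2*ρ))) • (c - x) := by
            rw [hy]; module
          rw [dist_eq_norm, h3, norm_smul, ← dist_eq_norm, dist_comm c x, hdist, norm_neg,
            Real.norm_of_nonneg]
          · field_simp
          · have : r/(2*ρ) ≤ 1 := by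
              rw [div_le_one (by positivity)]; linarith
            linarith
        calc dist z c ≤ dist z y + dist y c := dist_triangle _ _ _
          _ < r/2 + (ρ - r/2) := by linarith
          _ = ρ := by ring
      have hdisj : Disjoint (frontier K ∩ closedBall x r) (ball y (r/2)) := by
        rw [Set.disjoint_left]
        rintro z ⟨hz1, _⟩ hz2
        have := hball (hsub2 hz2)
        exact (disjoint_interior_frontier (s := K)).le_bot ⟨this, hz1⟩
      have hle : volume (frontier K ∩ closedBall x r) + volume (ball y (r/2))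
          ≤ volume (closedBall x r) := by
        rw [← measure_union hdisj measurableSet_ball]
        exact measure_mono (union_subset inter_subset_right hsub1)
      have hB : volume (closedBall x r) = ENNReal.ofReal (r ^ (Module.finrank ℝ (EuclideanSpace ℝ (Fin n)))) *
          volume (ball (0:EuclideanSpace ℝ (Fin n)) 1) := Measure.addHaar_closedBall _ x hr0.le
      have hb : volume (ball y (r/2)) = ENNReal.ofReal ((1/2:ℝ) ^ (Module.finrank ℝ (EuclideanSpace ℝ (Fin n)))) *
          volume (closedBall x r) := by
        rw [Measure.addHaar_ball_of_pos _ _ (by positivity), hB, ← mul_assoc,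
          ← ENNReal.ofReal_mul (by positivity), ← mul_pow]
        congr 3
        ring
      have hBpos : volume (closedBall x r) ≠ 0 := (measure_closedBall_pos _ _ hr0).ne'
      have hBfin : volume (closedBall x r) ≠ ⊤ := measure_closedBall_lt_top.ne
      rw [hb] at hle
      have h5 : ENNReal.ofReal ((1/2:ℝ) ^ (Module.finrank ℝ (EuclideanSpace ℝ (Fin n)))) =
          ENNReal.ofReal ((1/2:ℝ) ^ (Module.finrank ℝ (EuclideanSpace ℝ (Fin n)))) * volume (closedBall x r) /
            volume (closedBall x r) := by
        rw [mul_div_assoc, ENNReal.div_self hBpos hBfin, mul_one]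
      rw [h5, ← ENNReal.add_div]
      exact ENNReal.div_le_of_le_mul (by rw [one_mul]; exact hle)
    have hlim := hx.add_const (ENNReal.ofReal ((1/2:ℝ) ^ (Module.finrank ℝ (EuclideanSpace ℝ (Fin n)))))
    have hle1 := le_of_tendsto hlim hev
    have hpos : 0 < ENNReal.ofReal ((1/2:ℝ) ^ (Module.finrank ℝ (EuclideanSpace ℝ (Fin n)))) :=
      ENNReal.ofReal_pos.mpr (by positivity)
    have : (1:ENNReal) < 1 + ENNReal.ofReal ((1/2:ℝ) ^ (Module.finrank ℝ (EuclideanSpace ℝ (Fin n)))) :=
      ENNReal.lt_add_right ENNReal.one_ne_top hpos.ne'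
    exact absurd hle1 (not_le.mpr this)
  rw [Filter.eventually_false_iff_eq_bot, ae_eq_bot, Measure.restrict_eq_zero] at hfalse
  exact hfalse

end AS.J3729
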