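import Mathlib

set_option autoImplicit false
open Set Metric MeasureTheory Polynomial
open scoped ContDiff RealInnerProductSpace ENNReal

namespace AS.J4203

/-- TARGET 1: the shell -/
theorem shell {n : ℕ} (hn : 2 ≤ n) (K : Set (EuclideanSpace ℝ (Fin n))) (hK : IsCompact K)
    (hb : K ⊆ closedBall 0 1) (hs : sphere 0 1 ⊆ K)
    (hloc : ∀ x ∈ frontier K, ∃ g : EuclideanSpace ℝ (Fin n) → ℝ, ∃ δ > 0,
      ContDiffOn ℝ 2 g (ball x δ) ∧ fderiv ℝ g x ≠ 0 ∧ g x = 0 ∧ ∀ y ∈ ball x δ,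
        (y ∈ K ↔ g y ≤ 0) ∧ (y ∈ interior K ↔ g y < 0) ∧ (y ∈ frontier K ↔ g y = 0)) :
    ∃ ε > 0, ∀ x : EuclideanSpace ℝ (Fin n), 1 - ε < ‖x‖ → ‖x‖ < 1 → x ∈ interior K := by
  have hint : ∀ y ∈ interior K, ‖y‖ < 1 := by
    intro y hy
    have h1 := interior_mono hb hy
    rwa [interior_closedBall _ one_ne_zero, mem_ball_zero_iff] at h1
  have hsphere : ∀ x : EuclideanSpace ℝ (Fin n), ‖x‖ = 1 → x ∈ frontier K := by
    intro x hx
    refine ⟨subset_closure (hs (by simp [hx])), fun hxi => ?_⟩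
    have h1 := hint x hxi
    linarith
  have hloc2 : ∀ x : EuclideanSpace ℝ (Fin n), ‖x‖ = 1 →
      {z : EuclideanSpace ℝ (Fin n) | ‖z‖ < 1 → z ∈ interior K} ∈ nhds x := by
    intro x hx
    obtain ⟨g, δ, hδ, hg, hdne, hgx, hK'⟩ := hloc x (hsphere x hx)
    have hdiff : ∀ y ∈ ball x δ, DifferentiableAt ℝ g y := fun y hy =>
      (hg.differentiableOn (by norm_num)).differentiableAt (isOpen_ball.mem_nhds hy)
    have hxx : x ∈ ball x δ := mem_ball_self hδ
    have hpos : ∀ y ∈ ball x δ, 1 ≤ ‖y‖ → 0 ≤ g y := by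
      intro y hy hy1
      by_contra hneg
      have h1 := hint y ((hK' y hy).2.1.2 (not_le.1 hneg))
      linarith
    have hline : ∀ v, HasDerivAt (fun t : ℝ => g (x + t • v)) (fderiv ℝ g x v) 0 := fun v =>
      (hdiff x hxx).hasFDerivAt.hasLineDerivAt v
    have hev : ∀ v, ∀ᶠ t : ℝ in nhds 0, x + t • v ∈ ball x δ := by
      intro v
      have h1 : ContinuousAt (fun t : ℝ => x + t • v) 0 := by fun_prop
      refine h1.eventually_mem ?_
      simpa using isOpen_ball.mem_nhds hxx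
    have hortho : ∀ v, ⟪x, v⟫ = 0 → fderiv ℝ g x v = 0 := by
      intro v hv
      have hmin : IsLocalMin (fun t : ℝ => g (x + t • v)) 0 := by
        filter_upwards [hev v] with t ht
        simp only [zero_smul, add_zero, hgx]
        refine hpos _ ht ?_
        have h1 : ‖x + t • v‖ ^ 2 = 1 + t ^ 2 * ‖v‖ ^ 2 := by
          rw [norm_add_sq_real, hx, inner_smul_right, hv, norm_smul, mul_pow, Real.norm_eq_abs,
            sq_abs]
          ring
        have h2 : 1 ≤ ‖x + t • v‖ ^ 2 := by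
          rw [h1]
          have : 0 ≤ t ^ 2 * ‖v‖ ^ 2 := by positivity
          linarith
        exact (one_le_sq_iff₀ (norm_nonneg _)).1 h2
      exact hmin.hasDerivAt_eq_zero (hline v)
    have hxpos : 0 < fderiv ℝ g x x := by
      have h0 : 0 ≤ fderiv ℝ g x x := by
        have h1 := (hline x).tendsto_slope_zero_right
        refine ge_of_tendsto h1 ?_
        filter_upwards [self_mem_nhdsWithin, nhdsWithin_le_nhds (hev x)] with t ht htb
        have ht' : 0 < t := ht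
        simp only [zero_add, zero_smul, add_zero, hgx, sub_zero]
        have h2 : 0 ≤ g (x + t • x) := hpos _ htb (by
          have h3 : x + t • x = (1 + t) • x := by rw [add_smul, one_smul]
          rw [h3, norm_smul, hx, Real.norm_eq_abs, abs_of_pos (by linarith)]
          linarith)
        rw [smul_eq_mul]
        positivity
      refine lt_of_le_of_ne h0 (fun h => hdne ?_)
      ext w
      have h1 : w = ⟪x, w⟫ • x + (w - ⟪x, w⟫ • x) := by abel
      have h2 : ⟪x, w - ⟪x, w⟫ • x⟫ = 0 := by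
        rw [inner_sub_right, inner_smul_right, real_inner_self_eq_norm_sq, hx]; ring
      rw [h1, map_add, map_smul, hortho _ h2, ← h]
      simp
    have hcont : ContinuousAt (fderiv ℝ g) x :=
      (hg.continuousOn_fderiv_of_isOpen isOpen_ball (by norm_num)).continuousAt
        (isOpen_ball.mem_nhds hxx)
    have hcont2 : ContinuousAt (fun q : EuclideanSpace ℝ (Fin n) × EuclideanSpace ℝ (Fin n) =>
        fderiv ℝ g q.1 q.2) (x, x) := by
      refine ContinuousAt.clm_apply ?_ continuousAt_snd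
      exact ContinuousAt.comp (f := Prod.fst) (g := fderiv ℝ g) hcont continuousAt_fst
    have hev2 : ∀ᶠ q : EuclideanSpace ℝ (Fin n) × EuclideanSpace ℝ (Fin n) in nhds (x, x),
        0 < fderiv ℝ g q.1 q.2 := hcont2.eventually (lt_mem_nhds hxpos)
    obtain ⟨η, hη, hη2⟩ := Metric.eventually_nhds_iff.1 hev2
    obtain ⟨ρ, hρ⟩ : ∃ ρ, ρ = min η δ := ⟨_, rfl⟩
    have hρ0 : 0 < ρ := by rw [hρ]; exact lt_min hη hδ
    have hρη : ρ ≤ η := by rw [hρ]; exact min_le_left _ _
    have hρδ : ρ ≤ δ := by rw [hρ]; exact min_le_right _ _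
    have hu : ContinuousAt (fun z : EuclideanSpace ℝ (Fin n) => ‖z‖⁻¹ • z) x := by
      refine ContinuousAt.smul (continuous_norm.continuousAt.inv₀ ?_) continuousAt_id
      rw [hx]; norm_num
    have hu1 : ∀ᶠ z in nhds x, ‖z‖⁻¹ • z ∈ ball x ρ := by
      refine hu.eventually_mem ?_
      rw [hx, inv_one, one_smul]
      exact ball_mem_nhds x hρ0
    have hn0 : ∀ᶠ z in nhds x, 0 < ‖z‖ := by
      refine continuous_norm.continuousAt.eventually (lt_mem_nhds ?_)
      change 0 < ‖x‖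
      rw [hx]; norm_num
    filter_upwards [hu1, ball_mem_nhds x hρ0, hn0] with z hz1 hz2 hz3 hz4
    have hun : ‖‖z‖⁻¹ • z‖ = 1 := by
      rw [norm_smul, norm_inv, norm_norm, inv_mul_cancel₀ hz3.ne']
    obtain ⟨y, hy, heq⟩ := domain_mvt (f := g) (f' := fun y => fderiv ℝ g y) (s := ball x ρ)
      (x := z) (y := ‖z‖⁻¹ • z)
      (fun y hy => (hdiff y (ball_subset_ball hρδ hy)).hasFDerivAt.hasFDerivWithinAt)
      (convex_ball x ρ) hz2 hz1
    have hyb : y ∈ ball x ρ := (convex_ball x ρ).segment_subset hz2 hz1 hy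
    have hgu : g (‖z‖⁻¹ • z) = 0 :=
      (hK' _ (ball_subset_ball hρδ hz1)).2.2.1 (hsphere _ hun)
    have hpos2 : 0 < fderiv ℝ g y (‖z‖⁻¹ • z) := by
      refine hη2 (y := (y, ‖z‖⁻¹ • z)) ?_
      rw [Prod.dist_eq]
      exact max_lt (lt_of_lt_of_le hyb hρη) (lt_of_lt_of_le hz1 hρη)
    have hdiffz : ‖z‖⁻¹ • z - z = (1 - ‖z‖) • (‖z‖⁻¹ • z) := by
      rw [sub_smul, one_smul, smul_smul, mul_inv_cancel₀ hz3.ne', one_smul]
    rw [hdiffz, map_smul, hgu, smul_eq_mul] at heq
    have h5 : 0 < (1 - ‖z‖) * fderiv ℝ g y (‖z‖⁻¹ • z) := mul_pos (by linarith) hpos2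
    exact (hK' z (ball_subset_ball hρδ hz2)).2.1.2 (by linarith)
  have hsub : sphere (0 : EuclideanSpace ℝ (Fin n)) 1 ⊆
      interior {z : EuclideanSpace ℝ (Fin n) | ‖z‖ < 1 → z ∈ interior K} := by
    intro x hx
    rw [mem_interior_iff_mem_nhds]
    exact hloc2 x (by simpa using hx)
  obtain ⟨δ, hδ, hth⟩ := (isCompact_sphere (0 : EuclideanSpace ℝ (Fin n)) 1).exists_thickening_subset_open
    isOpen_interior hsub
  refine ⟨min δ 1, lt_min hδ one_pos, fun z hz1 hz2 => ?_⟩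
  have hz0 : 0 < ‖z‖ := by
    have := min_le_right δ 1
    linarith
  have hun : ‖‖z‖⁻¹ • z‖ = 1 := by
    rw [norm_smul, norm_inv, norm_norm, inv_mul_cancel₀ hz0.ne']
  have hmem : z ∈ thickening δ (sphere (0 : EuclideanSpace ℝ (Fin n)) 1) := by
    rw [mem_thickening_iff]
    refine ⟨‖z‖⁻¹ • z, by simpa using hun, ?_⟩
    rw [dist_comm, dist_eq_norm]
    have hdiffz : ‖z‖⁻¹ • z - z = (1 - ‖z‖) • (‖z‖⁻¹ • z) := by
      rw [sub_smul, one_smul, smul_smul, mul_inv_cancel₀ hz0.ne', one_smul]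
    rw [hdiffz, norm_smul, hun, mul_one, Real.norm_eq_abs, abs_of_pos (by linarith)]
    have := min_le_left δ 1
    linarith
  exact interior_subset (hth hmem) hz2

end AS.J4203

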