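import Mathlib

set_option autoImplicit false
open Set Metric MeasureTheory Polynomial
open scoped ContDiff RealInnerProductSpace ENNReal

namespace AS.J4207

/-- TARGET 1: affine images of bodies with smooth boundary -/
theorem smooth_image {n : ℕ} (K : Set (EuclideanSpace ℝ (Fin n))) (hK : IsCompact K)
    (hreg : closure (interior K) = K)
    (hsm : ∀ x ∈ frontier K, ∃ U : Set (EuclideanSpace ℝ (Fin n)), IsOpen U ∧ x ∈ U ∧
      ∃ f : EuclideanSpace ℝ (Fin n) → ℝ, ContDiffOn ℝ ∞ f U ∧ fderiv ℝ f x ≠ 0 ∧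
        frontier K ∩ U = {y ∈ U | f y = 0})
    (T : EuclideanSpace ℝ (Fin n) ≃L[ℝ] EuclideanSpace ℝ (Fin n))
    (c : EuclideanSpace ℝ (Fin n)) (K' : Set (EuclideanSpace ℝ (Fin n)))
    (hK' : K' = (fun x => T (x - c)) '' K) :
    IsCompact K' ∧ closure (interior K') = K' ∧
      interior K' = (fun x => T (x - c)) '' interior K ∧
    (∀ x ∈ frontier K', ∃ U : Set (EuclideanSpace ℝ (Fin n)), IsOpen U ∧ x ∈ U ∧
      ∃ f : EuclideanSpace ℝ (Fin n) → ℝ, ContDiffOn ℝ ∞ f U ∧ fderiv ℝ f x ≠ 0 ∧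
        frontier K' ∩ U = {y ∈ U | f y = 0}) := by
  let Φ : EuclideanSpace ℝ (Fin n) ≃ₜ EuclideanSpace ℝ (Fin n) :=
    (Homeomorph.subRight c).trans T.toHomeomorph
  have hΦ : (Φ : EuclideanSpace ℝ (Fin n) → EuclideanSpace ℝ (Fin n)) = fun x => T (x - c) := rfl
  have hΦs : ∀ y, Φ.symm y = T.symm y + c := fun y => by
    rw [Homeomorph.symm_apply_eq, hΦ]
    simp
  rw [← hΦ] at hK' ⊢
  subst hK'
  refine ⟨hK.image Φ.continuous, ?_, (Φ.image_interior K).symm, ?_⟩
  · rw [← Φ.image_interior, ← Φ.image_closure, hreg]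
  · intro x' hx'
    rw [← Φ.image_frontier] at hx' ⊢
    obtain ⟨x, hx, rfl⟩ := hx'
    obtain ⟨U, hU, hxU, f, hf, hf', hfr⟩ := hsm x hx
    have hinv : Φ.symm (Φ x) = x := Φ.symm_apply_apply x
    have hsmooth : ContDiff ℝ ∞ (fun y => Φ.symm y) := by
      simp only [hΦs]
      exact T.symm.contDiff.add contDiff_const
    have hder : HasFDerivAt (fun y => Φ.symm y)
        (T.symm : EuclideanSpace ℝ (Fin n) →L[ℝ] EuclideanSpace ℝ (Fin n)) (Φ x) := by
      simp only [hΦs]
      exact (T.symm.hasFDerivAt).add_const c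
    refine ⟨Φ '' U, Φ.isOpenMap U hU, mem_image_of_mem _ hxU, fun y => f (Φ.symm y), ?_, ?_, ?_⟩
    · refine hf.comp hsmooth.contDiffOn ?_
      rintro _ ⟨u, hu, rfl⟩
      rwa [Φ.symm_apply_apply]
    · have hd : DifferentiableAt ℝ f x := by
        by_contra hnd
        exact hf' (fderiv_zero_of_not_differentiableAt hnd)
      have h1 : HasFDerivAt f (fderiv ℝ f x) (Φ.symm (Φ x)) := by
        rw [hinv]; exact hd.hasFDerivAt
      have h2 := h1.comp (Φ x) hder
      have h3 : fderiv ℝ (fun y => f (Φ.symm y)) (Φ x) = (fderiv ℝ f x).comp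
        (T.symm : EuclideanSpace ℝ (Fin n) →L[ℝ] EuclideanSpace ℝ (Fin n)) := h2.fderiv
      rw [h3]
      intro h0
      apply hf'
      ext v
      have h4 := DFunLike.congr_fun h0 (T v)
      simpa using h4
    · rw [← image_inter Φ.injective, hfr]
      ext y
      constructor
      · rintro ⟨z, ⟨hz1, hz2⟩, rfl⟩
        refine ⟨mem_image_of_mem _ hz1, ?_⟩
        show f (Φ.symm (Φ z)) = 0
        rw [Φ.symm_apply_apply, hz2]
      · rintro ⟨⟨z, hz, rfl⟩, h⟩
        have h' : f (Φ.symm (Φ z)) = 0 := h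
        rw [Φ.symm_apply_apply] at h'
        exact ⟨z, ⟨hz, h'⟩, rfl⟩

/-- TARGET 2: change of variables -/
theorem integral_image {n : ℕ} (K : Set (EuclideanSpace ℝ (Fin n))) (hK : IsCompact K)
    (T : EuclideanSpace ℝ (Fin n) ≃L[ℝ] EuclideanSpace ℝ (Fin n))
    (c : EuclideanSpace ℝ (Fin n)) :
    ∃ κ > 0, ∀ F : EuclideanSpace ℝ (Fin n) → ℝ,
      ∫ x in (fun x => T (x - c)) '' K, F x = κ * ∫ x in K, F (T (x - c)) := by
  let T' : EuclideanSpace ℝ (Fin n) →L[ℝ] EuclideanSpace ℝ (Fin n) := T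
  have hdet : T'.det ≠ 0 := by
    have : IsUnit T'.det := T.toLinearEquiv.isUnit_det'
    exact this.ne_zero
  refine ⟨|T'.det|, abs_pos.2 hdet, fun F => ?_⟩
  have h := MeasureTheory.integral_image_eq_integral_abs_det_fderiv_smul volume
    (s := K) (f := fun x => T (x - c)) (f' := fun _ => T') hK.isClosed.measurableSet ?_ ?_ F
  · rw [h]
    simp only [smul_eq_mul]
    rw [integral_const_mul]
  · intro x _
    have h1 : HasFDerivAt (fun x => T (x - c)) T' x := by
      have h2 : HasFDerivAt (fun x : EuclideanSpace ℝ (Fin n) => x - c)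
          (ContinuousLinearMap.id ℝ _) x := (hasFDerivAt_id x).sub_const c
      have h3 := (T.hasFDerivAt (x := x - c)).comp x h2
      exact h3
    exact h1.hasFDerivWithinAt
  · intro x _ y _ hxy
    have h1 : T (x - c) = T (y - c) := hxy
    have h2 := T.injective h1
    simpa using h2

end AS.J4207

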