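import Mathlib
import Pool.Agent.Helper272.Ell.J3730

set_option autoImplicit false
open Set Metric MeasureTheory
open scoped ContDiff RealInnerProductSpace ENNReal

namespace AS.J3731

open AS.J3730 (lintegral_slice)

namespace GoodDir

variable {n : ℕ}

def EE (K O : Set (EuclideanSpace ℝ (Fin n))) (u : EuclideanSpace ℝ (Fin n)) (τ r σ : ℝ) :
    Set (EuclideanSpace ℝ (Fin n)) :=
  {x | x ∈ K ∧ ⟪x, u⟫ = τ ∧ ∀ z, z ∉ O → r ≤ dist z (x + (σ * r) • u)}

def TT (K O : Set (EuclideanSpace ℝ (Fin n))) (u : EuclideanSpace ℝ (Fin n)) (τ r σ : ℝ) :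
    Set (EuclideanSpace ℝ (Fin n)) :=
  {p | 0 < σ * (⟪p, u⟫ - τ) ∧ σ * (⟪p, u⟫ - τ) < r ∧ p - (⟪p, u⟫ - τ) • u ∈ EE K O u τ r σ}

theorem EE_closed {K O : Set (EuclideanSpace ℝ (Fin n))} (hK : IsClosed K)
    (u : EuclideanSpace ℝ (Fin n)) (τ r σ : ℝ) : IsClosed (EE K O u τ r σ) := by
  have e : EE K O u τ r σ = K ∩ ({x | ⟪x, u⟫ = τ} ∩ ⋂ z, ⋂ (_ : z ∉ O),
      {x | r ≤ dist z (x + (σ * r) • u)}) := by
    ext x
    simp only [EE, mem_setOf_eq, mem_inter_iff, mem_iInter]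
  rw [e]
  refine hK.inter (IsClosed.inter ?_ ?_)
  · exact isClosed_eq (by fun_prop) (by fun_prop)
  · exact isClosed_iInter fun z => isClosed_iInter fun _ =>
      isClosed_le (by fun_prop) (by fun_prop)

theorem TT_meas {K O : Set (EuclideanSpace ℝ (Fin n))} (hK : IsClosed K)
    (u : EuclideanSpace ℝ (Fin n)) (τ r σ : ℝ) : MeasurableSet (TT K O u τ r σ) := by
  have e : TT K O u τ r σ = {p | 0 < σ * (⟪p, u⟫ - τ)} ∩ ({p | σ * (⟪p, u⟫ - τ) < r} ∩
      (fun p => p - (⟪p, u⟫ - τ) • u) ⁻¹' (EE K O u τ r σ)) := by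
    ext x
    simp only [TT, mem_setOf_eq, mem_inter_iff, mem_preimage]
  rw [e]
  refine MeasurableSet.inter ?_ (MeasurableSet.inter ?_ ?_)
  · exact (isOpen_lt (by fun_prop) (by fun_prop)).measurableSet
  · exact (isOpen_lt (by fun_prop) (by fun_prop)).measurableSet
  · exact ((EE_closed hK u τ r σ).preimage (by fun_prop)).measurableSet

theorem TT_vol {K O : Set (EuclideanSpace ℝ (Fin n))} (hK : IsClosed K)
    (u : EuclideanSpace ℝ (Fin n)) (hu : ‖u‖ = 1) (τ r σ : ℝ) (hr : 0 < r)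
    (hσ : σ = 1 ∨ σ = -1) (h0 : volume (TT K O u τ r σ) = 0) :
    volume {y : (ℝ ∙ u)ᗮ | τ • u + (y : EuclideanSpace ℝ (Fin n)) ∈ EE K O u τ r σ} = 0 := by
  set V : Set (ℝ ∙ u)ᗮ := {y | τ • u + (y : EuclideanSpace ℝ (Fin n)) ∈ EE K O u τ r σ} with hV
  set I : Set ℝ := {t | 0 < σ * (t - τ) ∧ σ * (t - τ) < r} with hI
  have hTm := TT_meas (O := O) hK u τ r σ
  have hVm : MeasurableSet V :=
    ((EE_closed (O := O) hK u τ r σ).preimage (by fun_prop)).measurableSet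
  have hIm : MeasurableSet I := by
    have e : I = {t : ℝ | 0 < σ * (t - τ)} ∩ {t : ℝ | σ * (t - τ) < r} := by ext; simp [hI]
    rw [e]
    exact ((isOpen_lt (by fun_prop) (by fun_prop)).inter
      (isOpen_lt (by fun_prop) (by fun_prop))).measurableSet
  have h1 : ∫⁻ x, (TT K O u τ r σ).indicator (fun _ => (1 : ℝ≥0∞)) x = 0 := by
    rw [lintegral_indicator hTm]
    simpa using h0
  rw [lintegral_slice u hu _ (measurable_const.indicator hTm)] at h1
  have huu : ⟪u, u⟫ = (1 : ℝ) := by rw [real_inner_self_eq_norm_sq, hu]; norm_num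
  have h2 : ∀ (t : ℝ) (y : (ℝ ∙ u)ᗮ),
      (TT K O u τ r σ).indicator (fun _ => (1 : ℝ≥0∞)) (t • u + (y : EuclideanSpace ℝ (Fin n))) =
      I.indicator (fun _ => (1 : ℝ≥0∞)) t * V.indicator (fun _ => (1 : ℝ≥0∞)) y := by
    intro t y
    have hy : ⟪(y : EuclideanSpace ℝ (Fin n)), u⟫ = (0 : ℝ) := by
      rw [real_inner_comm]
      exact Submodule.mem_orthogonal_singleton_iff_inner_right.1 y.2
    have hin : ⟪t • u + (y : EuclideanSpace ℝ (Fin n)), u⟫ = (t : ℝ) := by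
      rw [inner_add_left, real_inner_smul_left, huu, hy]; ring
    have hmem : (t • u + (y : EuclideanSpace ℝ (Fin n)) ∈ TT K O u τ r σ) ↔ (t ∈ I ∧ y ∈ V) := by
      have e : t • u + (y : EuclideanSpace ℝ (Fin n)) - (t - τ) • u =
        τ • u + (y : EuclideanSpace ℝ (Fin n)) := by module
      simp only [TT, mem_setOf_eq, hin, e, hI, hV]
      tauto
    by_cases ht : t ∈ I
    · by_cases hy' : y ∈ V
      · rw [indicator_of_mem (hmem.2 ⟨ht, hy'⟩), indicator_of_mem ht, indicator_of_mem hy', mul_one]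
      · rw [indicator_of_notMem (fun h => hy' (hmem.1 h).2), indicator_of_notMem hy', mul_zero]
    · rw [indicator_of_notMem (fun h => ht (hmem.1 h).1), indicator_of_notMem ht, zero_mul]
  simp only [h2] at h1
  have h3 : ∀ t : ℝ, ∫⁻ y : (ℝ ∙ u)ᗮ, I.indicator (fun _ => (1 : ℝ≥0∞)) t *
      V.indicator (fun _ => (1 : ℝ≥0∞)) y = I.indicator (fun _ => (1 : ℝ≥0∞)) t * volume V := by
    intro t
    rw [lintegral_const_mul _ (measurable_const.indicator hVm), lintegral_indicator hVm]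
    simp
  simp only [h3] at h1
  rw [lintegral_mul_const _ (measurable_const.indicator hIm), lintegral_indicator hIm] at h1
  simp only [lintegral_const, one_mul, Measure.restrict_apply MeasurableSet.univ, univ_inter,
    mul_eq_zero] at h1
  rcases h1 with h1 | h1
  · exfalso
    have hIv : (0 : ℝ≥0∞) < volume I := by
      rcases hσ with rfl | rfl
      · have e : I = Ioo τ (τ + r) := by
          ext t
          simp only [hI, mem_setOf_eq, mem_Ioo]
          constructor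
          · rintro ⟨h1, h2⟩; constructor <;> linarith
          · rintro ⟨h1, h2⟩; constructor <;> linarith
        rw [e, Real.volume_Ioo]
        simpa using hr
      · have e : I = Ioo (τ - r) τ := by
          ext t
          simp only [hI, mem_setOf_eq, mem_Ioo]
          constructor
          · rintro ⟨h1, h2⟩; constructor <;> linarith
          · rintro ⟨h1, h2⟩; constructor <;> linarith
        rw [e, Real.volume_Ioo]
        simpa using hr
    exact hIv.ne' h1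
  · exact h1

theorem key_ineq {K O : Set (EuclideanSpace ℝ (Fin n))} {u u' : EuclideanSpace ℝ (Fin n)}
    (hu : ‖u‖ = 1) (hu' : ‖u'‖ = 1) {τ τ' r σ : ℝ} (hr : 0 < r) (hσ : σ ^ 2 = 1)
    (hO' : ∀ x ∈ O, ⟪x, u'⟫ ≠ τ') {p : EuclideanSpace ℝ (Fin n)}
    (hp : p ∈ TT K O u τ r σ) (hp' : p ∈ TT K O u' τ' r σ) :
    r ^ 2 ≤ (σ * (⟪p, u'⟫ - τ')) ^ 2 + 2 * (σ * (⟪p, u'⟫ - τ')) * (r - σ * (⟪p, u⟫ - τ)) * ⟪u', u⟫ +
      (r - σ * (⟪p, u⟫ - τ)) ^ 2 := by
  obtain ⟨h1, h2, h3⟩ := hp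
  obtain ⟨h1', h2', h3'⟩ := hp'
  have hx' : p - (⟪p, u'⟫ - τ') • u' ∉ O := fun hm => hO' _ hm h3'.2.1
  have h4 := h3.2.2 _ hx'
  set d := ⟪p, u⟫ - τ with hd
  set d' := ⟪p, u'⟫ - τ' with hd'
  have h5 : dist (p - d' • u') (p - d • u + (σ * r) • u) = ‖(d - σ * r) • u - d' • u'‖ := by
    rw [dist_eq_norm]
    congr 1
    module
  rw [h5] at h4
  have h6 : r ^ 2 ≤ ‖(d - σ * r) • u - d' • u'‖ ^ 2 := by
    have := norm_nonneg ((d - σ * r) • u - d' • u')
    nlinarith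
  rw [norm_sub_sq_real, norm_smul, norm_smul, hu, hu', mul_one, mul_one, real_inner_smul_left,
    real_inner_smul_right, real_inner_comm, Real.norm_eq_abs, Real.norm_eq_abs, sq_abs,
    sq_abs] at h6
  have e : (σ * d') ^ 2 + 2 * (σ * d') * (r - σ * d) * ⟪u', u⟫ + (r - σ * d) ^ 2 =
    (d - σ * r) ^ 2 - 2 * ((d - σ * r) * (d' * ⟪u', u⟫)) + d' ^ 2 := by
    linear_combination (d' ^ 2 - 2 * d * d' * ⟪u', u⟫ + d ^ 2 - r ^ 2) * hσ
  rw [e]
  linarith

theorem TT_disj {K O : Set (EuclideanSpace ℝ (Fin n))} {u u' : EuclideanSpace ℝ (Fin n)}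
    (hu : ‖u‖ = 1) (hu' : ‖u'‖ = 1) (hne : u ≠ u') {τ τ' r σ : ℝ} (hr : 0 < r) (hσ : σ ^ 2 = 1)
    (hO : ∀ x ∈ O, ⟪x, u⟫ ≠ τ) (hO' : ∀ x ∈ O, ⟪x, u'⟫ ≠ τ') :
    Disjoint (TT K O u τ r σ) (TT K O u' τ' r σ) := by
  rw [Set.disjoint_left]
  intro p hp hp'
  have k1 := key_ineq hu hu' hr hσ hO' hp hp'
  have k2 := key_ineq hu' hu hr hσ hO hp' hp
  obtain ⟨h1, h2, -⟩ := hp
  obtain ⟨h1', h2', -⟩ := hp'
  rw [real_inner_comm u' u] at k2
  set l := σ * (⟪p, u⟫ - τ)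
  set l' := σ * (⟪p, u'⟫ - τ')
  have hc : ⟪u', u⟫ ≤ (1 : ℝ) := by
    have := real_inner_le_norm u' u
    rwa [hu, hu', mul_one] at this
  set c : ℝ := ⟪u', u⟫ with hcdef
  have m1 : l ≤ l' := by
    have : r ^ 2 ≤ (l' + (r - l)) ^ 2 := by nlinarith [mul_pos h1' (sub_pos.2 h2)]
    have h3 : r ≤ l' + (r - l) := by
      by_contra hlt
      push Not at hlt
      nlinarith
    linarith
  have m2 : l' ≤ l := by
    have : r ^ 2 ≤ (l + (r - l')) ^ 2 := by nlinarith [mul_pos h1 (sub_pos.2 h2')]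
    have h3 : r ≤ l + (r - l') := by
      by_contra hlt
      push Not at hlt
      nlinarith
    linarith
  have m3 : l' = l := le_antisymm m2 m1
  rw [m3] at k1
  have hpos : 0 < l * (r - l) := mul_pos h1 (sub_pos.2 h2)
  have hc1 : 1 ≤ c := by
    by_contra hlt
    push Not at hlt
    nlinarith
  apply hne
  have h7 : ‖u - u'‖ ^ 2 ≤ 0 := by
    rw [norm_sub_sq_real, hu, hu', real_inner_comm, ← hcdef]
    linarith
  have h8 : ‖u - u'‖ = 0 := by
    have := norm_nonneg (u - u')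
    nlinarith
  exact sub_eq_zero.1 (norm_eq_zero.1 h8)

theorem touching {K O : Set (EuclideanSpace ℝ (Fin n))} {u : EuclideanSpace ℝ (Fin n)}
    (hu : ‖u‖ = 1) {τ : ℝ} (hO : ∀ x ∈ O, ⟪x, u⟫ ≠ τ) {x : EuclideanSpace ℝ (Fin n)} (hxK : x ∈ K)
    (hx : ⟪x, u⟫ = τ) {c : EuclideanSpace ℝ (Fin n)} {ρ : ℝ} (hρ : 0 < ρ) (hd : dist x c = ρ)
    (hb : ball c ρ ⊆ O) : ∃ σ : ℝ, (σ = 1 ∨ σ = -1) ∧ ∀ r, 0 < r → r ≤ ρ → x ∈ EE K O u τ r σ := by
  have huu : ⟪u, u⟫ = (1 : ℝ) := by rw [real_inner_self_eq_norm_sq, hu]; norm_num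
  have h1 : ρ ≤ |⟪c, u⟫ - τ| := by
    by_contra hlt
    push Not at hlt
    have hz : c + (τ - ⟪c, u⟫) • u ∈ ball c ρ := by
      rw [mem_ball, dist_eq_norm, add_sub_cancel_left, norm_smul, hu, mul_one, Real.norm_eq_abs,
        abs_sub_comm]
      exact hlt
    refine hO _ (hb hz) ?_
    rw [inner_add_left, real_inner_smul_left, huu]
    ring
  have h2 : ⟪c - x, u⟫ = ⟪c, u⟫ - τ := by rw [inner_sub_left, hx]
  have h3 : ‖c - x‖ = ρ := by rw [← dist_eq_norm, dist_comm, hd]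
  obtain ⟨σ, hσ, hσabs⟩ : ∃ σ : ℝ, (σ = 1 ∨ σ = -1) ∧ σ * (⟪c, u⟫ - τ) = |⟪c, u⟫ - τ| := by
    rcases le_total 0 (⟪c, u⟫ - τ) with h | h
    · exact ⟨1, Or.inl rfl, by rw [one_mul, abs_of_nonneg h]⟩
    · exact ⟨-1, Or.inr rfl, by rw [abs_of_nonpos h]; ring⟩
  have hσ2 : σ ^ 2 = 1 := by rcases hσ with rfl | rfl <;> norm_num
  have h4 : c = x + (σ * ρ) • u := by
    have h5 : ‖(c - x) - (σ * ρ) • u‖ ^ 2 ≤ 0 := by
      rw [norm_sub_sq_real, h3, norm_smul, hu, mul_one, real_inner_smul_right, h2,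
        Real.norm_eq_abs, sq_abs]
      have : ρ * ρ ≤ ρ * (σ * (⟪c, u⟫ - τ)) := by
        rw [hσabs]
        exact mul_le_mul_of_nonneg_left h1 hρ.le
      nlinarith
    have h8 : ‖(c - x) - (σ * ρ) • u‖ = 0 := by
      have := norm_nonneg ((c - x) - (σ * ρ) • u)
      nlinarith
    have h9 := sub_eq_zero.1 (norm_eq_zero.1 h8)
    rw [← h9]; abel
  refine ⟨σ, hσ, fun r hr hrρ => ⟨hxK, hx, fun z hz => ?_⟩⟩
  by_contra hlt
  push Not at hlt
  apply hz
  apply hb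
  rw [mem_ball, h4]
  have h5 : dist (x + (σ * r) • u) (x + (σ * ρ) • u) = ρ - r := by
    rw [dist_eq_norm]
    have : x + (σ * r) • u - (x + (σ * ρ) • u) = (σ * (r - ρ)) • u := by module
    rw [this, norm_smul, hu, mul_one, norm_mul, Real.norm_eq_abs, Real.norm_eq_abs]
    have h6 : |σ| = 1 := by rcases hσ with rfl | rfl <;> simp
    rw [h6, one_mul, abs_sub_comm, abs_of_nonneg (by linarith)]
  have h6 := dist_triangle z (x + (σ * r) • u) (x + (σ * ρ) • u)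
  linarith

end GoodDir

open GoodDir in
/-- TARGET: only countably many directions carry a flat piece of positive measure
(unit directions indexed by `s`, pairwise not parallel) -/
theorem good_directions {n : ℕ} (K : Set (EuclideanSpace ℝ (Fin n))) (hK : IsCompact K)
    (hIB : ∀ x ∈ frontier K, ∃ c : EuclideanSpace ℝ (Fin n), ∃ ρ > 0,
      dist x c = ρ ∧ ball c ρ ⊆ interior K)
    (u : ℝ → EuclideanSpace ℝ (Fin n)) (hu : ∀ s, ‖u s‖ = 1)
    (hpar : ∀ s s', s ≠ s' → u s ≠ u s' ∧ u s ≠ -u s') :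
    {s : ℝ | ∃ τ : ℝ, (∀ x ∈ interior K, ⟪x, u s⟫ ≠ τ) ∧
      volume {y : (ℝ ∙ u s)ᗮ | τ • u s + (y : EuclideanSpace ℝ (Fin n)) ∈ K} ≠ 0}.Countable := by
  classical
  set S : Set ℝ := {s : ℝ | ∃ τ : ℝ, (∀ x ∈ interior K, ⟪x, u s⟫ ≠ τ) ∧
      volume {y : (ℝ ∙ u s)ᗮ | τ • u s + (y : EuclideanSpace ℝ (Fin n)) ∈ K} ≠ 0} with hS
  have hch : ∀ i : S, ∃ τ : ℝ, (∀ x ∈ interior K, ⟪x, u i⟫ ≠ τ) ∧
      volume {y : (ℝ ∙ u (i : ℝ))ᗮ | τ • u i + (y : EuclideanSpace ℝ (Fin n)) ∈ K} ≠ 0 :=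
    fun i => i.2
  choose τ hτ1 hτ2 using hch
  let r : ℕ → ℝ := fun j => 1 / ((j : ℝ) + 1)
  have hr : ∀ j, 0 < r j := fun j => by positivity
  let sg : Bool → ℝ := fun b => if b then 1 else -1
  have hsg : ∀ b, sg b = 1 ∨ sg b = -1 := fun b => by cases b <;> simp [sg]
  have hsg2 : ∀ b, sg b ^ 2 = 1 := fun b => by cases b <;> simp [sg]
  have hcount : ∀ (j : ℕ) (b : Bool),
      {i : S | 0 < volume (TT K (interior K) (u i) (τ i) (r j) (sg b))}.Countable := by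
    intro j b
    refine Measure.countable_meas_pos_of_disjoint_iUnion (μ := volume)
      (As := fun i : S => TT K (interior K) (u i) (τ i) (r j) (sg b))
      (fun i => TT_meas hK.isClosed _ _ _ _) ?_
    intro i i' hii
    have hne : (i : ℝ) ≠ i' := fun h => hii (Subtype.ext h)
    exact TT_disj (hu _) (hu _) (hpar _ _ hne).1 (hr j) (hsg2 b) (hτ1 i) (hτ1 i')
  have hall : ∀ i : S, ∃ jb : ℕ × Bool,
      0 < volume (TT K (interior K) (u i) (τ i) (r jb.1) (sg jb.2)) := by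
    intro i
    by_contra hno
    push Not at hno
    apply hτ2 i
    have hsub : {y : (ℝ ∙ u (i : ℝ))ᗮ | τ i • u i + (y : EuclideanSpace ℝ (Fin n)) ∈ K} ⊆
        ⋃ jb : ℕ × Bool, {y : (ℝ ∙ u (i : ℝ))ᗮ | τ i • u i + (y : EuclideanSpace ℝ (Fin n)) ∈
          EE K (interior K) (u i) (τ i) (r jb.1) (sg jb.2)} := by
      intro y hy
      have hy' : ⟪(y : EuclideanSpace ℝ (Fin n)), u i⟫ = (0 : ℝ) := by
        rw [real_inner_comm]
        exact Submodule.mem_orthogonal_singleton_iff_inner_right.1 y.2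
      have huu : ⟪u i, u i⟫ = (1 : ℝ) := by rw [real_inner_self_eq_norm_sq, hu]; norm_num
      have hin : ⟪τ i • u i + (y : EuclideanSpace ℝ (Fin n)), u i⟫ = (τ i : ℝ) := by
        rw [inner_add_left, real_inner_smul_left, huu, hy']; ring
      have hfr : τ i • u i + (y : EuclideanSpace ℝ (Fin n)) ∈ frontier K := by
        rw [hK.isClosed.frontier_eq]
        exact ⟨hy, fun hm => hτ1 i _ hm hin⟩
      obtain ⟨c, ρ, hρ, hd, hb⟩ := hIB _ hfr
      obtain ⟨σ, hσ, hEE⟩ := touching (hu i) (hτ1 i) hy hin hρ hd hb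
      obtain ⟨j, hj⟩ := exists_nat_one_div_lt hρ
      have hb' : ∃ b, sg b = σ := by
        rcases hσ with rfl | rfl
        · exact ⟨true, by simp [sg]⟩
        · exact ⟨false, by simp [sg]⟩
      obtain ⟨b, rfl⟩ := hb'
      exact mem_iUnion.2 ⟨(j, b), hEE _ (hr j) hj.le⟩
    refine measure_mono_null hsub (measure_iUnion_null fun jb => ?_)
    exact TT_vol hK.isClosed (u i) (hu i) _ _ _ (hr jb.1) (hsg jb.2)
      (le_antisymm (hno jb) bot_le)
  choose jb hjb using hall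
  have hc : Countable S := by
    let A : ℕ × Bool → Set S := fun jb =>
      {i : S | 0 < volume (TT K (interior K) (u i) (τ i) (r jb.1) (sg jb.2))}
    have hA : ∀ k, (A k).Countable := fun k => hcount k.1 k.2
    have hAc : ∀ k, Countable (A k) := fun k => (hA k).to_subtype
    let F : S → Σ k, A k := fun i => ⟨jb i, ⟨i, hjb i⟩⟩
    have hF : Function.Injective F := by
      intro i i' h
      have h2 : ((F i).2 : S) = ((F i').2 : S) := by rw [h]
      exact h2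
    exact hF.countable
  exact Set.countable_coe_iff.1 hc

end AS.J3731
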