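import Mathlib

set_option autoImplicit false
open Set Metric MeasureTheory Polynomial
open scoped ContDiff RealInnerProductSpace ENNReal

namespace AS.J3732

/-- comparing powers -/
theorem exponent_cmp (N e2 : ℕ) (q : ℝ → ℝ) (q0 : ℝ) (hq0 : 0 < q0)
    (hq : Filter.Tendsto q (nhdsWithin 0 (Ioi 0)) (nhds q0)) (c1 C1 δ : ℝ) (hδ : 0 < δ) (hc1 : 0 < c1)
    (hlow : ∀ u, 0 < u → u ≤ δ → c1 * u ^ N ≤ u ^ e2 * q u)
    (hup : ∀ u, 0 < u → u ≤ δ → u ^ e2 * q u ≤ C1 * u ^ N) : e2 = N := by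
  have hev : ∀ᶠ u in nhdsWithin (0:ℝ) (Ioi 0), 0 < u ∧ u ≤ δ := by
    have h1 : ∀ᶠ u in nhdsWithin (0:ℝ) (Ioi 0), 0 < u := eventually_mem_nhdsWithin
    have h2 : ∀ᶠ u in nhdsWithin (0:ℝ) (Ioi 0), u ≤ δ :=
      Filter.Eventually.filter_mono nhdsWithin_le_nhds (eventually_le_nhds hδ)
    exact h1.and h2
  have hpow : ∀ k : ℕ, k ≠ 0 → Filter.Tendsto (fun u : ℝ => u ^ k) (nhdsWithin 0 (Ioi 0)) (nhds 0) := by
    intro k hk
    have : Filter.Tendsto (fun u : ℝ => u ^ k) (nhds 0) (nhds (0 ^ k)) :=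
      (continuous_pow k).tendsto 0
    rw [zero_pow hk] at this
    exact this.mono_left nhdsWithin_le_nhds
  rcases lt_trichotomy e2 N with h | h | h
  · exfalso
    obtain ⟨k, rfl⟩ := Nat.exists_eq_add_of_lt h
    have hle : ∀ᶠ u in nhdsWithin (0:ℝ) (Ioi 0), q u ≤ C1 * u ^ (k + 1) := by
      filter_upwards [hev] with u hu
      have h1 := hup u hu.1 hu.2
      have h2 : (0:ℝ) < u ^ e2 := pow_pos hu.1 _
      have h3 : u ^ e2 * q u ≤ u ^ e2 * (C1 * u ^ (k + 1)) := by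
        calc u ^ e2 * q u ≤ C1 * u ^ (e2 + k + 1) := h1
          _ = u ^ e2 * (C1 * u ^ (k + 1)) := by ring
      exact le_of_mul_le_mul_left h3 h2
    have hlim : Filter.Tendsto (fun u : ℝ => C1 * u ^ (k + 1)) (nhdsWithin 0 (Ioi 0)) (nhds (C1 * 0)) :=
      (hpow (k+1) (by omega)).const_mul C1
    rw [mul_zero] at hlim
    have := le_of_tendsto_of_tendsto hq hlim hle
    linarith
  · exact h
  · exfalso
    obtain ⟨k, rfl⟩ := Nat.exists_eq_add_of_lt h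
    have hle : ∀ᶠ u in nhdsWithin (0:ℝ) (Ioi 0), c1 ≤ u ^ (k + 1) * q u := by
      filter_upwards [hev] with u hu
      have h1 := hlow u hu.1 hu.2
      have h2 : (0:ℝ) < u ^ N := pow_pos hu.1 _
      have h3 : u ^ N * c1 ≤ u ^ N * (u ^ (k + 1) * q u) := by
        calc u ^ N * c1 = c1 * u ^ N := by ring
          _ ≤ u ^ (N + k + 1) * q u := h1
          _ = u ^ N * (u ^ (k + 1) * q u) := by ring
      exact le_of_mul_le_mul_left h3 h2
    have hlim : Filter.Tendsto (fun u : ℝ => u ^ (k + 1) * q u) (nhdsWithin 0 (Ioi 0)) (nhds (0 * q0)) :=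
      (hpow (k+1) (by omega)).mul hq
    rw [zero_mul] at hlim
    have := ge_of_tendsto hlim hle
    linarith

/-- TARGET: the exponent at a nondegenerate support point -/
theorem exponent {n : ℕ} (hn : 2 ≤ n) (K : Set (EuclideanSpace ℝ (Fin n))) (hK : IsCompact K)
    (ξ : EuclideanSpace ℝ (Fin n)) (hξ : ‖ξ‖ = 1) (z : EuclideanSpace ℝ (Fin n)) (hz : z ∈ K)
    (κ : ℝ) (hκ : 0 < κ) (hsup : ∀ x ∈ K, ⟪x, ξ⟫ ≤ ⟪z, ξ⟫ - κ * ‖x - z‖ ^ 2)
    (c : EuclideanSpace ℝ (Fin n)) (ρ : ℝ) (hρ : 0 < ρ) (hc : dist z c = ρ)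
    (hball : ball c ρ ⊆ interior K) (m : ℕ) (hm : 0 < m) (P : ℝ[X])
    (hP : ∀ t : ℝ, (∃ x ∈ interior K, ⟪x, ξ⟫ = t) →
      (volume {y : (ℝ ∙ ξ)ᗮ | t • ξ + (y : EuclideanSpace ℝ (Fin n)) ∈ K}).toReal ^ m = P.eval t) :
    2 * P.rootMultiplicity ⟪z, ξ⟫ = m * (n - 1) := by
  classical
  set h : ℝ := ⟪z, ξ⟫ with hh
  have hξξ : ⟪ξ, ξ⟫ = 1 := by
    rw [real_inner_self_eq_norm_sq, hξ]; norm_num
  have hξ0 : ξ ≠ 0 := by
    intro h0; rw [h0, norm_zero] at hξ; norm_num at hξ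
  have hballK : ball c ρ ⊆ K := hball.trans interior_subset
  -- c = z - ρ ξ
  have hzc_norm : ‖z - c‖ = ρ := by rw [← dist_eq_norm]; exact hc
  have hs : ∀ s : ℝ, 0 ≤ s → s < ρ → ⟪c, ξ⟫ + s ≤ h := by
    intro s hs0 hs
    have hmem : c + s • ξ ∈ ball c ρ := by
      rw [mem_ball, dist_eq_norm, add_sub_cancel_left, norm_smul, hξ, mul_one, Real.norm_eq_abs, abs_of_nonneg hs0]
      exact hs
    have h1 := hsup _ (hballK hmem)
    rw [inner_add_left, real_inner_smul_left, hξξ, mul_one] at h1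
    have h2 : 0 ≤ κ * ‖c + s • ξ - z‖ ^ 2 := by positivity
    linarith
  have hge : ρ ≤ ⟪z - c, ξ⟫ := by
    rw [inner_sub_left]
    by_contra hcon
    push Not at hcon
    -- choose s
    set d := ⟪z, ξ⟫ - ⟪c, ξ⟫ with hd
    have h0 := hs 0 le_rfl hρ
    have h1 := hs ((ρ + d) / 2) (by linarith) (by linarith)
    linarith
  have hzc : z - c = ρ • ξ := by
    have h1 : ‖(z - c) - ρ • ξ‖ ^ 2 ≤ 0 := by
      rw [norm_sub_sq_real, real_inner_smul_right, norm_smul, hξ, hzc_norm, Real.norm_eq_abs, mul_one, sq_abs]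
      nlinarith
    have h2 : ‖(z - c) - ρ • ξ‖ = 0 := by
      have := sq_nonneg ‖(z - c) - ρ • ξ‖
      have h3 : ‖(z - c) - ρ • ξ‖ ^ 2 = 0 := le_antisymm h1 this
      exact pow_eq_zero_iff (two_ne_zero) |>.1 h3
    exact sub_eq_zero.1 (norm_eq_zero.1 h2)
  -- projection of z
  have hpmem : z - h • ξ ∈ (ℝ ∙ ξ)ᗮ := by
    rw [Submodule.mem_orthogonal_singleton_iff_inner_left, inner_sub_left, real_inner_smul_left, hξξ, mul_one, sub_self]
  set p : (ℝ ∙ ξ)ᗮ := ⟨z - h • ξ, hpmem⟩ with hp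
  have hpc : (p : EuclideanSpace ℝ (Fin n)) = z - h • ξ := rfl
  have horth : ∀ y : (ℝ ∙ ξ)ᗮ, ⟪(y : EuclideanSpace ℝ (Fin n)), ξ⟫ = 0 := by
    intro y
    exact Submodule.mem_orthogonal_singleton_iff_inner_left.1 y.2
  have hpyth : ∀ (s : ℝ) (y : (ℝ ∙ ξ)ᗮ), ‖s • ξ + (y : EuclideanSpace ℝ (Fin n))‖ ^ 2 = s ^ 2 + ‖y‖ ^ 2 := by
    intro s y
    have h1 := horth y
    rw [norm_add_sq_real, real_inner_smul_left, real_inner_comm, h1, norm_smul, hξ, Real.norm_eq_abs, mul_one, sq_abs]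
    simp
  have hinner : ∀ (s : ℝ) (y : (ℝ ∙ ξ)ᗮ), ⟪s • ξ + (y : EuclideanSpace ℝ (Fin n)), ξ⟫ = s := by
    intro s y
    rw [inner_add_left, real_inner_smul_left, hξξ, horth y, mul_one, add_zero]
  -- distance to c
  have hdistc : ∀ (u : ℝ) (y : (ℝ ∙ ξ)ᗮ),
      ‖(h - u) • ξ + (y : EuclideanSpace ℝ (Fin n)) - c‖ ^ 2 = (ρ - u) ^ 2 + ‖y - p‖ ^ 2 := by
    intro u y
    rw [← hpyth]
    congr 2
    have hcc : c = z - ρ • ξ := by rw [← hzc]; abel
    rw [hcc, Submodule.coe_sub, hpc]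
    module
  have hdistz : ∀ (u : ℝ) (y : (ℝ ∙ ξ)ᗮ),
      ‖(h - u) • ξ + (y : EuclideanSpace ℝ (Fin n)) - z‖ ^ 2 = (-u) ^ 2 + ‖y - p‖ ^ 2 := by
    intro u y
    rw [← hpyth]
    congr 2
    rw [Submodule.coe_sub, hpc]
    module
  have hinball : ∀ (u : ℝ), 0 < u → u ≤ ρ → ∀ y : (ℝ ∙ ξ)ᗮ, ‖y - p‖ ^ 2 < ρ * u →
      (h - u) • ξ + (y : EuclideanSpace ℝ (Fin n)) ∈ ball c ρ := by
    intro u hu huρ y hy
    rw [mem_ball, dist_eq_norm]
    have h1 := hdistc u y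
    have h2 : ‖(h - u) • ξ + (y : EuclideanSpace ℝ (Fin n)) - c‖ ^ 2 < ρ ^ 2 := by
      rw [h1]; nlinarith
    exact lt_of_pow_lt_pow_left₀ 2 hρ.le h2
  set S : ℝ → Set ((ℝ ∙ ξ)ᗮ) := fun t => {y : (ℝ ∙ ξ)ᗮ | t • ξ + (y : EuclideanSpace ℝ (Fin n)) ∈ K} with hS
  have hsub1 : ∀ u : ℝ, 0 < u → u ≤ ρ → ball p (Real.sqrt (ρ * u)) ⊆ S (h - u) := by
    intro u hu huρ y hy
    rw [mem_ball, dist_eq_norm] at hy
    have h1 : ‖y - p‖ ^ 2 < ρ * u := by
      have := (Real.lt_sqrt (norm_nonneg _)).1 hy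
      exact this
    exact hballK (hinball u hu huρ y h1)
  have hsub2 : ∀ u : ℝ, 0 < u → u ≤ ρ → S (h - u) ⊆ closedBall p (Real.sqrt (u / κ)) := by
    intro u hu huρ y hy
    have h1 := hsup _ hy
    rw [hinner, hdistz] at h1
    rw [mem_closedBall, dist_eq_norm]
    apply Real.le_sqrt_of_sq_le
    rw [le_div_iff₀ hκ]
    nlinarith [mul_nonneg hκ.le (sq_nonneg u)]
  have hfact : Fact (Module.finrank ℝ (EuclideanSpace ℝ (Fin n)) = (n - 1) + 1) := ⟨by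
    rw [finrank_euclideanSpace_fin]; omega⟩
  have hfin : Module.finrank ℝ (ℝ ∙ ξ)ᗮ = n - 1 := Submodule.finrank_orthogonal_span_singleton hξ0
  set V : ℝ := (volume (ball (0 : (ℝ ∙ ξ)ᗮ) 1)).toReal with hV
  have hVfin : volume (ball (0 : (ℝ ∙ ξ)ᗮ) 1) ≠ ⊤ := measure_ball_lt_top.ne
  have hVpos : 0 < V := by
    apply ENNReal.toReal_pos _ hVfin
    exact (measure_ball_pos volume _ one_pos).ne'
  have hlowV : ∀ u : ℝ, 0 < u → u ≤ ρ → V * Real.sqrt (ρ * u) ^ (n - 1) ≤ (volume (S (h - u))).toReal := by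
    intro u hu huρ
    have hr : 0 < Real.sqrt (ρ * u) := Real.sqrt_pos.2 (by positivity)
    have h1 : volume (ball p (Real.sqrt (ρ * u))) ≤ volume (S (h - u)) := measure_mono (hsub1 u hu huρ)
    have h2 : volume (S (h - u)) ≤ volume (closedBall p (Real.sqrt (u / κ))) := measure_mono (hsub2 u hu huρ)
    have h3 : volume (S (h - u)) ≠ ⊤ := (lt_of_le_of_lt h2 measure_closedBall_lt_top).ne
    have h4 := ENNReal.toReal_mono h3 h1
    rw [Measure.addHaar_ball_of_pos volume p hr, hfin, ENNReal.toReal_mul, ENNReal.toReal_ofReal (by positivity)] at h4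
    linarith
  have hupV : ∀ u : ℝ, 0 < u → u ≤ ρ → (volume (S (h - u))).toReal ≤ V * Real.sqrt (u / κ) ^ (n - 1) := by
    intro u hu huρ
    have hr : 0 ≤ Real.sqrt (u / κ) := Real.sqrt_nonneg _
    have h2 : volume (S (h - u)) ≤ volume (closedBall p (Real.sqrt (u / κ))) := measure_mono (hsub2 u hu huρ)
    have h4 := ENNReal.toReal_mono (measure_closedBall_lt_top).ne h2
    rw [Measure.addHaar_closedBall volume p hr, hfin, ENNReal.toReal_mul, ENNReal.toReal_ofReal (by positivity)] at h4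
    linarith
  have hPval : ∀ u : ℝ, 0 < u → u ≤ ρ → (volume (S (h - u))).toReal ^ m = P.eval (h - u) := by
    intro u hu huρ
    apply hP
    refine ⟨(h - u) • ξ + (p : EuclideanSpace ℝ (Fin n)), ?_, hinner _ _⟩
    apply hball
    apply hinball u hu huρ
    have h9 := mul_pos hρ hu
    rw [sub_self, norm_zero]
    simpa using h9
  -- square
  have hsqlow : ∀ u : ℝ, 0 < u → u ≤ ρ →
      (V ^ (2 * m) * ρ ^ (m * (n - 1))) * u ^ (m * (n - 1)) ≤ (P.eval (h - u)) ^ 2 := by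
    intro u hu huρ
    rw [← hPval u hu huρ]
    have h1 := hlowV u hu huρ
    have h2 : 0 ≤ V * Real.sqrt (ρ * u) ^ (n - 1) := by positivity
    have h3 := pow_le_pow_left₀ h2 h1 (2 * m)
    have h4 : (V * Real.sqrt (ρ * u) ^ (n - 1)) ^ (2 * m) = (V ^ (2 * m) * ρ ^ (m * (n - 1))) * u ^ (m * (n - 1)) := by
      have h5 : Real.sqrt (ρ * u) ^ 2 = ρ * u := Real.sq_sqrt (by positivity)
      have h6 : (Real.sqrt (ρ * u) ^ (n - 1)) ^ (2 * m) = (Real.sqrt (ρ * u) ^ 2) ^ (m * (n - 1)) := by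
        rw [← pow_mul, ← pow_mul]; congr 1; ring
      rw [mul_pow, h6, h5, mul_pow]; ring
    rw [h4] at h3
    calc _ ≤ _ := h3
      _ = _ := by rw [mul_comm 2 m, pow_mul]
  have hsqup : ∀ u : ℝ, 0 < u → u ≤ ρ →
      (P.eval (h - u)) ^ 2 ≤ (V ^ (2 * m) * (1 / κ) ^ (m * (n - 1))) * u ^ (m * (n - 1)) := by
    intro u hu huρ
    rw [← hPval u hu huρ]
    have h1 := hupV u hu huρ
    have h2 : 0 ≤ (volume (S (h - u))).toReal := ENNReal.toReal_nonneg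
    have h3 := pow_le_pow_left₀ h2 h1 (2 * m)
    have h4 : (V * Real.sqrt (u / κ) ^ (n - 1)) ^ (2 * m) = (V ^ (2 * m) * (1 / κ) ^ (m * (n - 1))) * u ^ (m * (n - 1)) := by
      have h5 : Real.sqrt (u / κ) ^ 2 = (1 / κ) * u := by
        rw [Real.sq_sqrt (by positivity)]; ring
      have h6 : (Real.sqrt (u / κ) ^ (n - 1)) ^ (2 * m) = (Real.sqrt (u / κ) ^ 2) ^ (m * (n - 1)) := by
        rw [← pow_mul, ← pow_mul]; congr 1; ring
      rw [mul_pow, h6, h5, mul_pow]; ring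
    rw [h4] at h3
    calc _ = _ := by rw [← pow_mul, mul_comm m 2]
      _ ≤ _ := h3
  have hP0 : P ≠ 0 := by
    intro h0
    have h1 := hsqlow ρ hρ le_rfl
    rw [h0, eval_zero] at h1
    have h2 : 0 < (V ^ (2 * m) * ρ ^ (m * (n - 1))) * ρ ^ (m * (n - 1)) := by positivity
    norm_num at h1
    linarith
  obtain ⟨Q, hQ, hQ0⟩ := Polynomial.exists_eq_pow_rootMultiplicity_mul_and_not_dvd P hP0 h
  set e := P.rootMultiplicity h with he
  have hQh : Q.eval h ≠ 0 := by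
    intro h0
    exact hQ0 (Polynomial.dvd_iff_isRoot.2 h0)
  have hev : ∀ u : ℝ, (P.eval (h - u)) ^ 2 = u ^ (2 * e) * (Q.eval (h - u)) ^ 2 := by
    intro u
    conv_lhs => rw [hQ]
    rw [eval_mul, eval_pow, eval_sub, eval_X, eval_C, mul_pow, ← pow_mul, mul_comm e 2]
    congr 1
    rw [pow_mul, pow_mul]
    congr 1
    ring
  have hcont : Filter.Tendsto (fun u : ℝ => (Q.eval (h - u)) ^ 2) (nhdsWithin 0 (Ioi 0)) (nhds ((Q.eval h) ^ 2)) := by
    have h1 : Continuous (fun u : ℝ => (Q.eval (h - u)) ^ 2) := by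
      have : Continuous (fun u : ℝ => Q.eval (h - u)) := Q.continuous.comp (by fun_prop)
      exact this.pow 2
    have h2 := h1.tendsto 0
    simp only [sub_zero] at h2
    exact h2.mono_left nhdsWithin_le_nhds
  refine exponent_cmp (m * (n - 1)) (2 * e) _ _ (by positivity) hcont
    (V ^ (2 * m) * ρ ^ (m * (n - 1))) (V ^ (2 * m) * (1 / κ) ^ (m * (n - 1))) ρ hρ (by positivity) ?_ ?_
  · intro u hu huρ
    rw [← hev]
    exact hsqlow u hu huρ
  · intro u hu huρ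
    rw [← hev]
    exact hsqup u hu huρ

end AS.J3732
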