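import Mathlib
import Pool.Agent.Helper272.Ell.J3729
import Pool.Agent.Helper272.Ell.J3731
import Pool.Agent.Helper272.Ell.J3732
import Pool.Agent.Helper272.Ell.J4209

set_option autoImplicit false
open Set Metric MeasureTheory Polynomial
open scoped ContDiff RealInnerProductSpace ENNReal

namespace AS.J4228

open AS.J3729 (frontier_null)
open AS.J3731 (good_directions)
open AS.J3732 (exponent)
open AS.J4209 (slice_poly)

/-! the following lemmas are proved elsewhere, you may use them -/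

/-- the inner products with two linearly independent vectors -/
lemma gram_surj {n : ℕ} (ξ₀ ξ₁ : EuclideanSpace ℝ (Fin n))
    (hli : ∀ a b : ℝ, a • ξ₀ + b • ξ₁ = 0 → a = 0 ∧ b = 0) (p q : ℝ) :
    ∃ x : EuclideanSpace ℝ (Fin n), ⟪ξ₀, x⟫ = p ∧ ⟪ξ₁, x⟫ = q := by
  have h1 : ξ₁ ≠ 0 := by
    intro h
    have := (hli 0 1 (by simp [h])).2
    norm_num at this
  have hn1 : 0 < ⟪ξ₁, ξ₁⟫ := real_inner_self_pos.2 h1
  set g : ℝ := ⟪ξ₀, ξ₁⟫ with hg
  set A : ℝ := ⟪ξ₀, ξ₀⟫ with hA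
  set B : ℝ := ⟪ξ₁, ξ₁⟫ with hB
  have hg' : ⟪ξ₁, ξ₀⟫ = g := real_inner_comm _ _
  set w : EuclideanSpace ℝ (Fin n) := B • ξ₀ - g • ξ₁ with hw
  set w' : EuclideanSpace ℝ (Fin n) := A • ξ₁ - g • ξ₀ with hw'
  have e1 : ⟪ξ₀, w⟫ = A * B - g ^ 2 := by
    rw [hw, inner_sub_right, real_inner_smul_right, real_inner_smul_right]
    ring
  have e2 : ⟪ξ₁, w⟫ = 0 := by
    rw [hw, inner_sub_right, real_inner_smul_right, real_inner_smul_right, hg']
    ring
  have e3 : ⟪ξ₀, w'⟫ = 0 := by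
    rw [hw', inner_sub_right, real_inner_smul_right, real_inner_smul_right]
    ring
  have e4 : ⟪ξ₁, w'⟫ = A * B - g ^ 2 := by
    rw [hw', inner_sub_right, real_inner_smul_right, real_inner_smul_right, hg']
    ring
  have hw0 : w ≠ 0 := by
    intro h
    have h2 := (hli B (-g) (by rw [neg_smul, ← sub_eq_add_neg]; exact h)).1
    exact hn1.ne' h2
  have hww : 0 < ⟪w, w⟫ := real_inner_self_pos.2 hw0
  have e5 : ⟪w, w⟫ = B * (A * B - g ^ 2) := by
    conv_lhs => rw [hw, inner_sub_left, real_inner_smul_left, real_inner_smul_left]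
    rw [← hw, e1, e2]
    ring
  have hD : A * B - g ^ 2 ≠ 0 := by
    intro h
    rw [e5, h, mul_zero] at hww
    exact lt_irrefl _ hww
  refine ⟨(p / (A * B - g ^ 2)) • w + (q / (A * B - g ^ 2)) • w', ?_, ?_⟩
  · rw [inner_add_right, real_inner_smul_right, real_inner_smul_right, e1, e3, mul_zero, add_zero,
      div_mul_cancel₀ _ hD]
  · rw [inner_add_right, real_inner_smul_right, real_inner_smul_right, e2, e4, mul_zero, zero_add,
      div_mul_cancel₀ _ hD]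

/-- TARGET: reduction to a measure in the plane -/
theorem planar {n : ℕ} (hn : 2 ≤ n) (K : Set (EuclideanSpace ℝ (Fin n))) (hK : IsCompact K)
    (hreg : closure (interior K) = K) (hKi : (interior K).Nonempty)
    (hIB : ∀ x ∈ frontier K, ∃ c : EuclideanSpace ℝ (Fin n), ∃ ρ > 0,
      dist x c = ρ ∧ ball c ρ ⊆ interior K) (m : ℕ) (hm : 0 < m)
    (hpoly : ∀ ξ : EuclideanSpace ℝ (Fin n), ‖ξ‖ = 1 → ∃ P : ℝ[X], ∀ t : ℝ,
      (∃ x ∈ interior K, ⟪x, ξ⟫ = t) →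
      (volume {y : (ℝ ∙ ξ)ᗮ | t • ξ + (y : EuclideanSpace ℝ (Fin n)) ∈ K}).toReal ^ m = P.eval t)
    (ξ₀ ξ₁ : EuclideanSpace ℝ (Fin n)) (hli : LinearIndependent ℝ ![ξ₀, ξ₁]) (δ : ℝ)
    (hsup : ∀ s : ℝ, |s| < δ → ∃ z ∈ K, ∃ κ > 0, ∀ x ∈ K,
      ⟪x, ξ₀ + s • ξ₁⟫ ≤ ⟪z, ξ₀ + s • ξ₁⟫ - κ * ‖x - z‖ ^ 2)
    (Y : Set (ℝ × ℝ))
    (hY : Y = (fun x : EuclideanSpace ℝ (Fin n) => (⟪x, ξ₀⟫, ⟪x, ξ₁⟫)) '' interior K) :
    IsOpen Y ∧ Y.Nonempty ∧ Bornology.IsBounded Y ∧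
    (∀ s : ℝ, (fun y : ℝ × ℝ => y.1 + s * y.2) '' Y
      = (fun x : EuclideanSpace ℝ (Fin n) => ⟪x, ξ₀ + s • ξ₁⟫) '' interior K) ∧
    ∃ μ : Measure (ℝ × ℝ), IsFiniteMeasure μ ∧ μ Yᶜ = 0 ∧ ∃ (P : ℝ → ℝ[X]) (Bad : Set ℝ),
      Bad.Countable ∧
      (∀ s, ∀ t ∈ (fun y : ℝ × ℝ => y.1 + s * y.2) '' Y, 0 < (P s).eval t) ∧
      (∀ s, ∀ φ : ℝ → ℝ, Continuous φ → ∫ y, φ (y.1 + s * y.2) ∂μ
        = ∫ t in (fun y : ℝ × ℝ => y.1 + s * y.2) '' Y, φ t * (P s).eval t ^ (1 / (m : ℝ))) ∧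
      (∀ s ∉ Bad, ∀ t ∈ frontier ((fun y : ℝ × ℝ => y.1 + s * y.2) '' Y), (P s).eval t = 0) ∧
      (∀ s : ℝ, |s| < δ →
        m ∣ 2 * (P s).rootMultiplicity (sSup ((fun y : ℝ × ℝ => y.1 + s * y.2) '' Y))) := by
  classical
  have hli' : ∀ a b : ℝ, a • ξ₀ + b • ξ₁ = 0 → a = 0 ∧ b = 0 := LinearIndependent.pair_iff.1 hli
  have hfr : volume (frontier K) = 0 := frontier_null K hIB
  have hKc : IsClosed K := hK.isClosed
  have hfrK : frontier K = K \ interior K := hKc.frontier_eq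
  -- the vectors
  set ξ : ℝ → EuclideanSpace ℝ (Fin n) := fun s => ξ₀ + s • ξ₁ with hξdef
  have hξ : ∀ s, ξ s ≠ 0 := by
    intro s h
    have h2 : (1 : ℝ) • ξ₀ + s • ξ₁ = 0 := by rw [one_smul]; exact h
    have := (hli' 1 s h2).1
    norm_num at this
  have hnξ : ∀ s, 0 < ‖ξ s‖ := fun s => norm_pos_iff.2 (hξ s)
  set u : ℝ → EuclideanSpace ℝ (Fin n) := fun s => (‖ξ s‖⁻¹ : ℝ) • ξ s with hudef
  have hu : ∀ s, ‖u s‖ = 1 := by
    intro s
    simp only [hudef]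
    rw [norm_smul, norm_inv, norm_norm, inv_mul_cancel₀ (hnξ s).ne']
  have hpar0 : ∀ s s' : ℝ, ∀ b : ℝ, s ≠ s' → u s ≠ b • ξ s' := by
    intro s s' b hss h
    have h3 : (‖ξ s‖⁻¹ - b) • ξ₀ + (‖ξ s‖⁻¹ * s - b * s') • ξ₁ = 0 := by
      have h4 : (‖ξ s‖⁻¹ : ℝ) • (ξ₀ + s • ξ₁) = b • (ξ₀ + s' • ξ₁) := h
      rw [sub_smul, sub_smul, mul_smul, mul_smul]
      rw [smul_add, smul_add] at h4
      have h5 := sub_eq_zero.2 h4
      rw [← h5]
      abel
    obtain ⟨h6, h7⟩ := hli' _ _ h3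
    have h8 : b = ‖ξ s‖⁻¹ := by linarith
    rw [h8, ← mul_sub] at h7
    rcases mul_eq_zero.1 h7 with h9 | h9
    · exact (inv_pos.2 (hnξ s)).ne' h9
    · exact hss (by linarith)
  have hpar : ∀ s s', s ≠ s' → u s ≠ u s' ∧ u s ≠ -u s' := by
    intro s s' hss
    refine ⟨hpar0 s s' (‖ξ s'‖⁻¹) hss, ?_⟩
    have h1 : -u s' = (-(‖ξ s'‖⁻¹)) • ξ s' := by
      simp only [hudef]
      rw [neg_smul]
    rw [h1]
    exact hpar0 s s' _ hss
  -- the map
  set Λ : EuclideanSpace ℝ (Fin n) →L[ℝ] ℝ × ℝ := (innerSL ℝ ξ₀).prod (innerSL ℝ ξ₁) with hΛdef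
  have hΛ : ∀ x, Λ x = (⟪x, ξ₀⟫, ⟪x, ξ₁⟫) := by
    intro x
    rw [hΛdef]
    simp only [ContinuousLinearMap.prod_apply, innerSL_apply_apply]
    rw [real_inner_comm, real_inner_comm x ξ₁]
  have hsurj : Function.Surjective Λ := by
    rintro ⟨p, q⟩
    obtain ⟨x, hx1, hx2⟩ := gram_surj ξ₀ ξ₁ hli' p q
    refine ⟨x, ?_⟩
    rw [hΛ, real_inner_comm, hx1, real_inner_comm, hx2]
  have hYΛ : Y = Λ '' interior K := by
    rw [hY]
    exact image_congr fun x _ => (hΛ x).symm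
  have hYo : IsOpen Y := by
    rw [hYΛ]
    exact Λ.isOpenMap hsurj _ isOpen_interior
  have himg : ∀ s : ℝ, (fun y : ℝ × ℝ => y.1 + s * y.2) '' Y
      = (fun x : EuclideanSpace ℝ (Fin n) => ⟪x, ξ₀ + s • ξ₁⟫) '' interior K := by
    intro s
    rw [hY, image_image]
    refine image_congr fun x _ => ?_
    show ⟪x, ξ₀⟫ + s * ⟪x, ξ₁⟫ = _
    rw [inner_add_right, real_inner_smul_right]
  -- the polynomials
  have hex := fun s => hpoly (u s) (hu s)
  choose Pu hPu using hex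
  set P : ℝ → ℝ[X] := fun s => C ((‖ξ s‖⁻¹) ^ m) * (Pu s).comp (C ‖ξ s‖⁻¹ * X) with hPdef
  have SP := fun s => slice_poly hn K hK hfr m hm (ξ s) (hξ s) (u s) rfl (Pu s) (hPu s) (P s) rfl
    ((fun x : EuclideanSpace ℝ (Fin n) => ⟪x, ξ s⟫) '' interior K) rfl
  have hGD := good_directions K hK hIB u hu hpar
  refine ⟨hYo, ?_, ?_, himg, ?_⟩
  · rw [hY]; exact hKi.image _
  · rw [hYΛ]
    exact ((hK.image Λ.continuous).isBounded).subset (image_mono interior_subset)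
  have hfin : IsFiniteMeasure (volume.restrict K) := by
    constructor
    rw [Measure.restrict_apply_univ]
    exact hK.measure_lt_top
  have hΛm : Measurable Λ := Λ.continuous.measurable
  refine ⟨(volume.restrict K).map Λ, Measure.isFiniteMeasure_map _ _, ?_, P, _, hGD, ?_, ?_, ?_, ?_⟩
  · rw [Measure.map_apply hΛm hYo.measurableSet.compl,
      Measure.restrict_apply (hΛm hYo.measurableSet.compl)]
    refine measure_mono_null ?_ hfr
    rintro x ⟨hx1, hx2⟩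
    rw [hfrK]
    refine ⟨hx2, fun hx3 => hx1 ?_⟩
    show Λ x ∈ Y
    rw [hYΛ]
    exact mem_image_of_mem _ hx3
  · intro s t ht
    rw [himg] at ht
    exact (SP s).1 t ht
  · intro s φ hφ
    rw [himg]
    rw [integral_map hΛm.aemeasurable (by
      apply Continuous.aestronglyMeasurable
      fun_prop)]
    refine Eq.trans ?_ ((SP s).2.1 φ hφ)
    refine integral_congr_ae (Filter.Eventually.of_forall fun x => ?_)
    show φ ((Λ x).1 + s * (Λ x).2) = φ ⟪x, ξ s⟫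
    rw [hΛ]
    simp only [hξdef]
    rw [inner_add_right, real_inner_smul_right]
  · intro s hs t ht
    rw [himg] at ht
    refine (SP s).2.2.2 t ht ?_
    by_contra hcon
    apply hs
    refine ⟨‖ξ s‖⁻¹ * t, ?_, hcon⟩
    intro x hx hxt
    have hUo : IsOpen ((fun x : EuclideanSpace ℝ (Fin n) => ⟪x, ξ₀ + s • ξ₁⟫) '' interior K) := by
      rw [← himg]
      have hl : IsOpenMap (fun y : ℝ × ℝ => y.1 + s * y.2) := by
        have : (fun y : ℝ × ℝ => y.1 + s * y.2) =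
            ((ContinuousLinearMap.fst ℝ ℝ ℝ) + s • (ContinuousLinearMap.snd ℝ ℝ ℝ) :
              ℝ × ℝ →L[ℝ] ℝ) := by
          ext y
          simp
        rw [this]
        apply ContinuousLinearMap.isOpenMap
        intro r
        exact ⟨(r, 0), by simp⟩
      exact hl _ hYo
    rw [hUo.frontier_eq] at ht
    apply ht.2
    refine ⟨x, hx, ?_⟩
    show ⟪x, ξ s⟫ = t
    have h1 : ⟪x, u s⟫ = ‖ξ s‖⁻¹ * ⟪x, ξ s⟫ := by
      simp only [hudef]
      rw [real_inner_smul_right]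
    rw [h1] at hxt
    exact mul_left_cancel₀ (inv_pos.2 (hnξ s)).ne' hxt
  · intro s hs
    obtain ⟨z, hzK, κ, hκ, hz⟩ := hsup s hs
    have hz' : ∀ x ∈ K, ⟪x, ξ s⟫ ≤ ⟪z, ξ s⟫ - κ * ‖x - z‖ ^ 2 := hz
    have hzi : z ∉ interior K := by
      intro hzi
      have hcont : Filter.Tendsto (fun ε : ℝ => z + ε • ξ s) (nhdsWithin 0 (Ioi 0)) (nhds z) := by
        have : Continuous (fun ε : ℝ => z + ε • ξ s) := by fun_prop
        have h2 := this.tendsto 0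
        simp only [zero_smul, add_zero] at h2
        exact h2.mono_left nhdsWithin_le_nhds
      have h3 := hcont.eventually (isOpen_interior.mem_nhds hzi)
      obtain ⟨ε, hε, hε0⟩ := (h3.and self_mem_nhdsWithin).exists
      have h4 := hz' _ (interior_subset hε)
      rw [inner_add_left, real_inner_smul_left, real_inner_self_eq_norm_sq] at h4
      have h5 : 0 < ε * ‖ξ s‖ ^ 2 := mul_pos hε0 (pow_pos (hnξ s) 2)
      have h6 : 0 ≤ κ * ‖z + ε • ξ s - z‖ ^ 2 := by positivity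
      linarith
    have hzfr : z ∈ frontier K := by rw [hfrK]; exact ⟨hzK, hzi⟩
    obtain ⟨c, ρ, hρ, hc, hball⟩ := hIB z hzfr
    have hxu : ∀ x, ⟪x, u s⟫ = ‖ξ s‖⁻¹ * ⟪x, ξ s⟫ := by
      intro x
      simp only [hudef]
      rw [real_inner_smul_right]
    have hexp := exponent hn K hK (u s) (hu s) z hzK (‖ξ s‖⁻¹ * κ)
      (mul_pos (inv_pos.2 (hnξ s)) hκ) (by
        intro x hx
        rw [hxu, hxu]
        have := mul_le_mul_of_nonneg_left (hz' x hx) (inv_pos.2 (hnξ s)).le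
        linarith) c ρ hρ hc hball m hm (Pu s) (hPu s)
    have hLUB : IsLUB ((fun x : EuclideanSpace ℝ (Fin n) => ⟪x, ξ s⟫) '' interior K) ⟪z, ξ s⟫ := by
      apply isLUB_of_mem_closure
      · rintro _ ⟨x, hx, rfl⟩
        have h1 := hz' x (interior_subset hx)
        have h2 : 0 ≤ κ * ‖x - z‖ ^ 2 := by positivity
        show ⟪x, ξ s⟫ ≤ ⟪z, ξ s⟫
        linarith
      · have hzc : z ∈ closure (interior K) := by rw [hreg]; exact hzK
        have hcont : Continuous (fun x : EuclideanSpace ℝ (Fin n) => ⟪x, ξ s⟫) := by fun_prop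
        exact image_closure_subset_closure_image hcont (mem_image_of_mem _ hzc)
    have hne : ((fun x : EuclideanSpace ℝ (Fin n) => ⟪x, ξ s⟫) '' interior K).Nonempty :=
      hKi.image _
    have hsS : sSup ((fun y : ℝ × ℝ => y.1 + s * y.2) '' Y) = ‖ξ s‖ * ⟪z, u s⟫ := by
      rw [himg]
      refine (hLUB.csSup_eq hne).trans ?_
      rw [hxu, ← mul_assoc, mul_inv_cancel₀ (hnξ s).ne', one_mul]
    rw [hsS, (SP s).2.2.1, hexp]
    exact dvd_mul_right _ _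

end AS.J4228

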