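import Mathlib
import Pool.Agent.Helper272.Ell.J3730

set_option autoImplicit false
open Set Metric MeasureTheory Polynomial
open scoped ContDiff RealInnerProductSpace ENNReal

namespace AS.J4204

open AS.J3730 (setIntegral_slice)

theorem fb_norm {n : ℕ} (ξ : EuclideanSpace ℝ (Fin n)) (hξ : ‖ξ‖ = 1) (t : ℝ)
    (y : (ℝ ∙ ξ)ᗮ) : ‖t • ξ + (y : EuclideanSpace ℝ (Fin n))‖ ^ 2 = t ^ 2 + ‖y‖ ^ 2 := by
  have h1 : ⟪ξ, (y : EuclideanSpace ℝ (Fin n))⟫ = 0 :=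
    Submodule.mem_orthogonal_singleton_iff_inner_right.1 y.2
  rw [norm_add_sq_real, inner_smul_left, h1, norm_smul, hξ, mul_one, Real.norm_eq_abs, sq_abs]
  simp

theorem fb_mem {n : ℕ} (ξ : EuclideanSpace ℝ (Fin n)) (hξ : ‖ξ‖ = 1) (t : ℝ)
    (y : (ℝ ∙ ξ)ᗮ) : t • ξ + (y : EuclideanSpace ℝ (Fin n)) ∈ closedBall 0 1 ↔
      t ^ 2 + ‖y‖ ^ 2 ≤ 1 := by
  rw [mem_closedBall_zero_iff, ← fb_norm ξ hξ]
  constructor
  · intro h
    exact pow_le_one₀ (norm_nonneg _) h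
  · intro h
    exact (sq_le_one_iff₀ (norm_nonneg _)).1 h

theorem fb_slice {n : ℕ} (ξ : EuclideanSpace ℝ (Fin n)) (hξ : ‖ξ‖ = 1) (t : ℝ)
    (ht : t ∈ Icc (-1 : ℝ) 1) :
    (volume {y : (ℝ ∙ ξ)ᗮ | t • ξ + (y : EuclideanSpace ℝ (Fin n)) ∈ closedBall 0 1}).toReal =
      (volume (ball (0 : (ℝ ∙ ξ)ᗮ) 1)).toReal *
        Real.sqrt (1 - t ^ 2) ^ (Module.finrank ℝ (ℝ ∙ ξ)ᗮ) := by
  have h1 : {y : (ℝ ∙ ξ)ᗮ | t • ξ + (y : EuclideanSpace ℝ (Fin n)) ∈ closedBall 0 1} =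
      closedBall 0 (Real.sqrt (1 - t ^ 2)) := by
    ext y
    rw [Set.mem_ofPred_eq, fb_mem ξ hξ, mem_closedBall_zero_iff, Real.le_sqrt (norm_nonneg _)]
    constructor <;> intro h <;> linarith
    have := sq_nonneg ‖y‖
    nlinarith [ht.1, ht.2]
  rw [h1, Measure.addHaar_closedBall _ _ (Real.sqrt_nonneg _), ENNReal.toReal_mul,
    ENNReal.toReal_ofReal (by positivity), mul_comm]

theorem fb_slice0 {n : ℕ} (ξ : EuclideanSpace ℝ (Fin n)) (hξ : ‖ξ‖ = 1) (t : ℝ)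
    (ht : t ∉ Icc (-1 : ℝ) 1) :
    (volume {y : (ℝ ∙ ξ)ᗮ | t • ξ + (y : EuclideanSpace ℝ (Fin n)) ∈ closedBall 0 1}).toReal =
      0 := by
  have h1 : {y : (ℝ ∙ ξ)ᗮ | t • ξ + (y : EuclideanSpace ℝ (Fin n)) ∈ closedBall 0 1} = ∅ := by
    ext y
    rw [Set.mem_ofPred_eq, fb_mem ξ hξ]
    simp only [mem_empty_iff_false, iff_false, not_le]
    have h2 : 1 < t ^ 2 := by
      rw [one_lt_sq_iff_one_lt_abs]
      by_contra h3
      exact ht (abs_le.1 (not_lt.1 h3))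
    have := sq_nonneg ‖y‖
    linarith
  rw [h1, measure_empty, ENNReal.toReal_zero]

theorem fb_intD {n : ℕ} (ξ : EuclideanSpace ℝ (Fin n)) (hξ : ‖ξ‖ = 1) (φ : ℝ → ℝ)
    (hφ : Continuous φ) :
    ∫ x in closedBall (0 : EuclideanSpace ℝ (Fin n)) 1, φ ⟪x, ξ⟫ =
      ∫ t in Ioo (-1 : ℝ) 1, φ t * ((volume (ball (0 : (ℝ ∙ ξ)ᗮ) 1)).toReal *
        Real.sqrt (1 - t ^ 2) ^ (Module.finrank ℝ (ℝ ∙ ξ)ᗮ)) := by
  rw [(setIntegral_slice ξ hξ (closedBall 0 1) isClosed_closedBall.measurableSet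
    isBounded_closedBall φ hφ).1]
  have h1 : ∫ t : ℝ, φ t * (volume {y : (ℝ ∙ ξ)ᗮ |
      t • ξ + (y : EuclideanSpace ℝ (Fin n)) ∈ closedBall 0 1}).toReal =
      ∫ t in Icc (-1 : ℝ) 1, φ t * (volume {y : (ℝ ∙ ξ)ᗮ |
      t • ξ + (y : EuclideanSpace ℝ (Fin n)) ∈ closedBall 0 1}).toReal := by
    rw [setIntegral_eq_integral_of_forall_compl_eq_zero]
    intro t ht
    rw [fb_slice0 ξ hξ t ht, mul_zero]
  rw [h1, ← integral_Icc_eq_integral_Ioo]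
  apply setIntegral_congr_fun measurableSet_Icc
  intro t ht
  show φ t * _ = φ t * _
  rw [fb_slice ξ hξ t ht]

theorem fb_KD {n : ℕ} (K : Set (EuclideanSpace ℝ (Fin n)))
    (hb : K ⊆ closedBall 0 1) (ε : ℝ)
    (hsh : ∀ x : EuclideanSpace ℝ (Fin n), 1 - ε < ‖x‖ → ‖x‖ < 1 → x ∈ K)
    (ξ : EuclideanSpace ℝ (Fin n)) (hξ : ‖ξ‖ = 1) (φ : ℝ → ℝ)
    (hφ0 : ∀ t, t ≤ 1 - ε → φ t = 0) :
    ∫ x in K, φ ⟪x, ξ⟫ = ∫ x in closedBall (0 : EuclideanSpace ℝ (Fin n)) 1, φ ⟪x, ξ⟫ := by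
  symm
  apply setIntegral_eq_of_subset_of_ae_sdiff_eq_zero
    isClosed_closedBall.measurableSet.nullMeasurableSet hb
  have hs : volume (sphere (0 : EuclideanSpace ℝ (Fin n)) 1) = 0 :=
    Measure.addHaar_sphere_of_ne_zero _ _ one_ne_zero
  rw [measure_eq_zero_iff_ae_notMem] at hs
  filter_upwards [hs] with x hx hxD
  have h1 : ‖x‖ ≤ 1 := mem_closedBall_zero_iff.1 hxD.1
  have h2 : ‖x‖ ≠ 1 := fun h => hx (mem_sphere_zero_iff_norm.2 h)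
  have h3 : ‖x‖ < 1 := lt_of_le_of_ne h1 h2
  have h4 : ‖x‖ ≤ 1 - ε := by
    by_contra h
    exact hxD.2 (hsh x (not_le.1 h) h3)
  apply hφ0
  have h5 := real_inner_le_norm x ξ
  rw [hξ, mul_one] at h5
  linarith

theorem fb_cont (m : ℕ) (P : ℝ[X]) (κ : ℝ) (d : ℕ) : Continuous (fun t : ℝ =>
    (P.eval t) ^ (1 / (m : ℝ)) - κ * Real.sqrt (1 - t ^ 2) ^ d) := by
  apply Continuous.sub
  · exact P.continuous.rpow_const (fun x => Or.inr (by positivity))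
  · fun_prop

theorem fb_zero (h : ℝ → ℝ) (hc : Continuous h) (ε : ℝ)
    (hint : ∀ φ : ℝ → ℝ, Continuous φ → (∀ t, t ≤ 1 - ε → φ t = 0) →
      ∫ t in Ioo (-1 : ℝ) 1, φ t * h t = 0) (t : ℝ) (ht : t ∈ Ioo (-1 : ℝ) 1)
    (hte : 1 - ε < t) : h t = 0 := by
  by_contra hne
  have h1 := hint (fun t => max 0 (t - (1 - ε)) * h t) (by fun_prop) (by
    intro t ht
    show max 0 (t - (1 - ε)) * h t = 0
    rw [max_eq_left (by linarith), zero_mul])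
  have h2 : 0 < ∫ t in (-1 : ℝ)..1, max 0 (t - (1 - ε)) * h t * h t := by
    apply intervalIntegral.integral_pos (by norm_num)
    · exact Continuous.continuousOn (by fun_prop)
    · intro x _
      rw [mul_assoc]
      exact mul_nonneg (le_max_left _ _) (mul_self_nonneg _)
    · refine ⟨t, ⟨ht.1.le, ht.2.le⟩, ?_⟩
      rw [mul_assoc]
      have h3 : 0 < max 0 (t - (1 - ε)) := lt_max_of_lt_right (by linarith)
      exact mul_pos h3 (mul_self_pos.2 hne)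
  rw [intervalIntegral.integral_of_le (by norm_num), integral_Ioc_eq_integral_Ioo] at h2
  linarith

theorem fb_poly (m : ℕ) (hm : 0 < m) (P : ℝ[X]) (κ : ℝ) (hκ : 0 ≤ κ) (d : ℕ) (ε : ℝ) (hε : 0 < ε)
    (hpos : ∀ t ∈ Ioo (-1 : ℝ) 1, 0 < P.eval t)
    (h : ∀ t ∈ Ioo (-1 : ℝ) 1, 1 - ε < t →
      (P.eval t) ^ (1 / (m : ℝ)) = κ * Real.sqrt (1 - t ^ 2) ^ d) (t : ℝ)
    (ht : t ∈ Ioo (-1 : ℝ) 1) :
    (P.eval t) ^ (1 / (m : ℝ)) = κ * Real.sqrt (1 - t ^ 2) ^ d := by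
  have hm0 : m ≠ 0 := hm.ne'
  have hsq : ∀ s ∈ Ioo (-1 : ℝ) 1, (κ * Real.sqrt (1 - s ^ 2) ^ d) ^ m * (κ * Real.sqrt (1 - s ^ 2) ^ d) ^ m =
      κ ^ (2 * m) * (1 - s ^ 2) ^ (d * m) := by
    intro s hs
    have h1 : 0 ≤ 1 - s ^ 2 := by nlinarith [hs.1, hs.2]
    have h2 : Real.sqrt (1 - s ^ 2) ^ 2 = 1 - s ^ 2 := Real.sq_sqrt h1
    calc (κ * Real.sqrt (1 - s ^ 2) ^ d) ^ m * (κ * Real.sqrt (1 - s ^ 2) ^ d) ^ m
        = κ ^ (2 * m) * (Real.sqrt (1 - s ^ 2) ^ 2) ^ (d * m) := by ring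
      _ = κ ^ (2 * m) * (1 - s ^ 2) ^ (d * m) := by rw [h2]
  have hpoly : P ^ 2 = C (κ ^ (2 * m)) * (1 - X ^ 2) ^ (d * m) := by
    apply Polynomial.eq_of_infinite_eval_eq
    apply Set.Infinite.mono _ (Set.Ioo_infinite (show max (-1) (1 - ε) < 1 from
      max_lt (by norm_num) (by linarith)))
    intro s hs
    have hs1 : s ∈ Ioo (-1 : ℝ) 1 := ⟨lt_of_le_of_lt (le_max_left _ _) hs.1, hs.2⟩
    have hs2 : 1 - ε < s := lt_of_le_of_lt (le_max_right _ _) hs.1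
    have h1 := h s hs1 hs2
    have h2 : P.eval s = (κ * Real.sqrt (1 - s ^ 2) ^ d) ^ m := by
      rw [← h1, one_div, Real.rpow_inv_natCast_pow (hpos s hs1).le hm0]
    show eval s (P ^ 2) = eval s (C (κ ^ (2 * m)) * (1 - X ^ 2) ^ (d * m))
    rw [eval_pow, h2, sq, hsq s hs1]
    simp
  have h3 : (P.eval t) ^ 2 = ((κ * Real.sqrt (1 - t ^ 2) ^ d) ^ m) ^ 2 := by
    have h4 := congrArg (eval t) hpoly
    rw [eval_pow] at h4
    rw [h4, sq ((κ * Real.sqrt (1 - t ^ 2) ^ d) ^ m), hsq t ht]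
    simp
  have h5 : 0 ≤ (κ * Real.sqrt (1 - t ^ 2) ^ d) := by positivity
  have h6 : P.eval t = (κ * Real.sqrt (1 - t ^ 2) ^ d) ^ m :=
    (pow_left_inj₀ (hpos t ht).le (pow_nonneg h5 m) two_ne_zero).1 h3
  rw [h6, one_div, Real.pow_rpow_inv_natCast h5 hm0]

/-- TARGET 2: the final step -/
theorem full_ball {n : ℕ} (hn : 2 ≤ n) (K : Set (EuclideanSpace ℝ (Fin n))) (hK : IsCompact K)
    (hb : K ⊆ closedBall 0 1) (ε : ℝ) (hε : 0 < ε)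
    (hsh : ∀ x : EuclideanSpace ℝ (Fin n), 1 - ε < ‖x‖ → ‖x‖ < 1 → x ∈ K)
    (ξ : EuclideanSpace ℝ (Fin n)) (hξ : ‖ξ‖ = 1) (m : ℕ) (hm : 0 < m) (P : ℝ[X])
    (hpos : ∀ t ∈ Ioo (-1 : ℝ) 1, 0 < P.eval t)
    (hint : ∀ φ : ℝ → ℝ, Continuous φ →
      ∫ x in K, φ ⟪x, ξ⟫ = ∫ t in Ioo (-1 : ℝ) 1, φ t * (P.eval t) ^ (1 / (m : ℝ))) :
    K = closedBall 0 1 := by
  obtain ⟨κ, hκ⟩ : ∃ κ, κ = (volume (ball (0 : (ℝ ∙ ξ)ᗮ) 1)).toReal := ⟨_, rfl⟩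
  have hκ0 : 0 ≤ κ := by
    rw [hκ]
    exact ENNReal.toReal_nonneg
  obtain ⟨d, hd⟩ : ∃ d, d = Module.finrank ℝ (ℝ ∙ ξ)ᗮ := ⟨_, rfl⟩
  have hD : ∀ φ : ℝ → ℝ, Continuous φ →
      ∫ x in closedBall (0 : EuclideanSpace ℝ (Fin n)) 1, φ ⟪x, ξ⟫ =
      ∫ t in Ioo (-1 : ℝ) 1, φ t * (κ * Real.sqrt (1 - t ^ 2) ^ d) := by
    intro φ hφ
    rw [hκ, hd]
    exact fb_intD ξ hξ φ hφ
  have hintb : ∀ g : ℝ → ℝ, Continuous g → IntegrableOn g (Ioo (-1 : ℝ) 1) := by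
    intro g hg
    exact (hg.continuousOn.integrableOn_Icc).mono_set Ioo_subset_Icc_self
  have hPc : Continuous (fun t : ℝ => (P.eval t) ^ (1 / (m : ℝ))) :=
    P.continuous.rpow_const (fun x => Or.inr (by positivity))
  have hSc : Continuous (fun t : ℝ => κ * Real.sqrt (1 - t ^ 2) ^ d) := by fun_prop
  have hz := fb_zero _ (fb_cont m P κ d) ε (by
    intro φ hφ hφ0
    have h1 := hint φ hφ
    rw [fb_KD K hb ε hsh ξ hξ φ hφ0, hD φ hφ] at h1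
    have h2 : ∫ t in Ioo (-1 : ℝ) 1, φ t * ((P.eval t) ^ (1 / (m : ℝ)) -
        κ * Real.sqrt (1 - t ^ 2) ^ d) =
        (∫ t in Ioo (-1 : ℝ) 1, φ t * (P.eval t) ^ (1 / (m : ℝ))) -
        ∫ t in Ioo (-1 : ℝ) 1, φ t * (κ * Real.sqrt (1 - t ^ 2) ^ d) := by
      rw [← integral_sub (hintb (fun t => φ t * (P.eval t) ^ (1 / (m : ℝ))) (hφ.mul hPc))
        (hintb (fun t => φ t * (κ * Real.sqrt (1 - t ^ 2) ^ d)) (hφ.mul hSc))]
      apply integral_congr_ae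
      filter_upwards with t
      ring
    rw [h2, h1, sub_self])
  have hall := fb_poly m hm P κ hκ0 d ε hε hpos (fun t ht hte => sub_eq_zero.1 (hz t ht hte))
  -- volumes agree
  have hvol : (volume K).toReal =
      (volume (closedBall (0 : EuclideanSpace ℝ (Fin n)) 1)).toReal := by
    have h1 := hint (fun _ => 1) continuous_const
    have h2 := hD (fun _ => 1) continuous_const
    have h3 : ∫ t in Ioo (-1 : ℝ) 1, 1 * (P.eval t) ^ (1 / (m : ℝ)) =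
        ∫ t in Ioo (-1 : ℝ) 1, 1 * (κ * Real.sqrt (1 - t ^ 2) ^ d) := by
      apply setIntegral_congr_fun measurableSet_Ioo
      intro t ht
      show 1 * _ = 1 * _
      rw [hall t ht]
    rw [h3, ← h2] at h1
    simp only [integral_const, smul_eq_mul, mul_one, Measure.real, Measure.restrict_apply_univ]
      at h1
    exact h1
  have hKfin : volume K ≠ ⊤ := hK.measure_lt_top.ne
  have hDfin : volume (closedBall (0 : EuclideanSpace ℝ (Fin n)) 1) ≠ ⊤ :=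
    (isCompact_closedBall _ _).measure_lt_top.ne
  have hvol2 : volume K = volume (closedBall (0 : EuclideanSpace ℝ (Fin n)) 1) :=
    (ENNReal.toReal_eq_toReal_iff' hKfin hDfin).1 hvol
  have hdiff : volume (closedBall (0 : EuclideanSpace ℝ (Fin n)) 1 \ K) = 0 := by
    rw [measure_sdiff hb hK.measurableSet.nullMeasurableSet hKfin, hvol2, tsub_self]
  have hopen : IsOpen (ball (0 : EuclideanSpace ℝ (Fin n)) 1 \ K) :=
    isOpen_ball.sdiff hK.isClosed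
  have hnull : volume (ball (0 : EuclideanSpace ℝ (Fin n)) 1 \ K) = 0 :=
    measure_mono_null (diff_subset_diff_left ball_subset_closedBall) hdiff
  have hempty : ball (0 : EuclideanSpace ℝ (Fin n)) 1 \ K = ∅ :=
    (hopen.measure_eq_zero_iff volume).1 hnull
  have hsub : ball (0 : EuclideanSpace ℝ (Fin n)) 1 ⊆ K := sdiff_eq_empty.1 hempty
  apply Subset.antisymm hb
  rw [← closure_ball (0 : EuclideanSpace ℝ (Fin n)) one_ne_zero]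
  exact closure_minimal hsub hK.isClosed

end AS.J4204

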