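import Mathlib
import Pool.Agent.Helper272.Ell.J4207
import Pool.Agent.Helper272.Ell.J4209
import Pool.Agent.Helper272.Ell.J4204

set_option autoImplicit false
open Set Metric MeasureTheory Polynomial
open scoped ContDiff RealInnerProductSpace ENNReal

namespace AS.J4612

open AS.J4207 (integral_image)
open AS.J4209 (slice_poly)
open AS.J4204 (full_ball)

/-! proved elsewhere, you may use them -/

/-- TARGET -/
theorem ball_of_shell {n : ℕ} (hn : 2 ≤ n) (K : Set (EuclideanSpace ℝ (Fin n))) (hK : IsCompact K)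
    (hreg : closure (interior K) = K) (hfr : volume (frontier K) = 0) (m : ℕ) (hm : 0 < m)
    (hpoly : ∀ ξ : EuclideanSpace ℝ (Fin n), ‖ξ‖ = 1 → ∃ P : ℝ[X], ∀ t : ℝ,
      (∃ x ∈ interior K, ⟪x, ξ⟫ = t) →
      (volume {y : (ℝ ∙ ξ)ᗮ | t • ξ + (y : EuclideanSpace ℝ (Fin n)) ∈ K}).toReal ^ m = P.eval t)
    (T : EuclideanSpace ℝ (Fin n) ≃L[ℝ] EuclideanSpace ℝ (Fin n))
    (c : EuclideanSpace ℝ (Fin n)) (K' : Set (EuclideanSpace ℝ (Fin n)))
    (hK' : K' = (fun x => T (x - c)) '' K)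
    (hKi' : interior K' = (fun x => T (x - c)) '' interior K)
    (hb : K' ⊆ closedBall 0 1) (ε : ℝ) (hε : 0 < ε)
    (hsh : ∀ x : EuclideanSpace ℝ (Fin n), 1 - ε < ‖x‖ → ‖x‖ < 1 → x ∈ interior K') :
    K' = closedBall 0 1 := by
  classical
  -- the unit vectors
  have hn0 : 0 < n := by omega
  set ξ : EuclideanSpace ℝ (Fin n) := EuclideanSpace.single ⟨0, hn0⟩ 1 with hξdef
  set w : EuclideanSpace ℝ (Fin n) := EuclideanSpace.single ⟨1, by omega⟩ 1 with hwdef
  have hξ : ‖ξ‖ = 1 := by rw [hξdef]; simp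
  have hw : ‖w‖ = 1 := by rw [hwdef]; simp
  have hξw : ⟪ξ, w⟫ = 0 := by
    rw [hξdef, hwdef, EuclideanSpace.inner_single_left]
    simp [EuclideanSpace.single_apply]
  set ζ : EuclideanSpace ℝ (Fin n) := ContinuousLinearMap.adjoint
    (T : EuclideanSpace ℝ (Fin n) →L[ℝ] EuclideanSpace ℝ (Fin n)) ξ with hζdef
  have hadj : ∀ x, ⟪x, ζ⟫ = ⟪T x, ξ⟫ := fun x => ContinuousLinearMap.adjoint_inner_right _ x ξ
  have hζ : ζ ≠ 0 := by
    intro h
    have h1 := hadj (T.symm ξ)
    rw [h, inner_zero_right, T.apply_symm_apply, real_inner_self_eq_norm_sq, hξ] at h1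
    norm_num at h1
  have hζn : ‖ζ‖ ≠ 0 := norm_ne_zero_iff.mpr hζ
  have hun : ‖(‖ζ‖⁻¹ : ℝ) • ζ‖ = 1 := by
    rw [norm_smul, norm_inv, norm_norm, inv_mul_cancel₀ hζn]
  obtain ⟨Pu, hPu⟩ := hpoly _ hun
  obtain ⟨h1, h2, -, -⟩ := slice_poly hn K hK hfr m hm ζ hζ _ rfl Pu hPu _ rfl _ rfl
  set P1 : ℝ[X] := C ((‖ζ‖⁻¹) ^ m) * Pu.comp (C ‖ζ‖⁻¹ * X) with hP1
  set e : ℝ := ⟪c, ζ⟫ with he
  -- the projection
  have hTin : ∀ x, ⟪T (x - c), ξ⟫ = ⟪x, ζ⟫ - e := by
    intro x
    rw [← hadj, inner_sub_left]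
  have hU : (fun x : EuclideanSpace ℝ (Fin n) => ⟪x, ζ⟫) '' interior K = Ioo (e - 1) (e + 1) := by
    ext t
    constructor
    · rintro ⟨x, hx, rfl⟩
      have h3 : T (x - c) ∈ interior K' := by
        rw [hKi']
        exact ⟨x, hx, rfl⟩
      have h4 : T (x - c) ∈ ball (0 : EuclideanSpace ℝ (Fin n)) 1 := by
        rw [← interior_closedBall (0 : EuclideanSpace ℝ (Fin n)) one_ne_zero]
        exact interior_mono hb h3
      rw [mem_ball_zero_iff] at h4
      have h5 : |⟪T (x - c), ξ⟫| < 1 := by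
        calc |⟪T (x - c), ξ⟫| ≤ ‖T (x - c)‖ * ‖ξ‖ := abs_real_inner_le_norm _ _
          _ < 1 := by rw [hξ, mul_one]; exact h4
      rw [hTin, abs_lt] at h5
      show ⟪x, ζ⟫ ∈ Ioo (e - 1) (e + 1)
      constructor
      · linarith [h5.1]
      · linarith [h5.2]
    · intro ht
      set r : ℝ := t - e with hr
      have hr1 : |r| < 1 := by
        rw [abs_lt]
        constructor
        · linarith [ht.1]
        · linarith [ht.2]
      set M : ℝ := max (1 - ε) |r| with hM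
      have hM1 : M < 1 := max_lt (by linarith) hr1
      have hMr : |r| ≤ M := le_max_right _ _
      have hMe : 1 - ε ≤ M := le_max_left _ _
      set ρ : ℝ := (M + 1) / 2 with hρ
      have hρ1 : ρ < 1 := by rw [hρ]; linarith
      have hρM : M < ρ := by rw [hρ]; linarith
      have hr0 := abs_nonneg r
      have hρ0 : 0 ≤ ρ := by linarith
      have hsq : 0 ≤ ρ ^ 2 - r ^ 2 := by
        have h6 : r ^ 2 = |r| ^ 2 := (sq_abs r).symm
        rw [h6]
        nlinarith
      set β : ℝ := Real.sqrt (ρ ^ 2 - r ^ 2) with hβ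
      have hβ2 : β ^ 2 = ρ ^ 2 - r ^ 2 := Real.sq_sqrt hsq
      have hnorm : ‖r • ξ + β • w‖ = ρ := by
        have h6 : ‖r • ξ + β • w‖ ^ 2 = ρ ^ 2 := by
          rw [norm_add_sq_real, norm_smul, norm_smul, hξ, hw, inner_smul_left, inner_smul_right,
            hξw]
          simp
          linarith
        have h7 := norm_nonneg (r • ξ + β • w)
        nlinarith [sq_nonneg (‖r • ξ + β • w‖ - ρ)]
      have h8 := hsh (r • ξ + β • w) (by rw [hnorm]; linarith) (by rw [hnorm]; exact hρ1)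
      rw [hKi'] at h8
      obtain ⟨x, hx, hxe⟩ := h8
      refine ⟨x, hx, ?_⟩
      have hxe' : T (x - c) = r • ξ + β • w := hxe
      have h9 := hTin x
      rw [hxe', inner_add_left, inner_smul_left, inner_smul_left, real_inner_comm, 
        real_inner_self_eq_norm_sq, hξ, real_inner_comm, hξw] at h9
      show ⟪x, ζ⟫ = t
      simp at h9
      linarith
  rw [hU] at h1 h2
  obtain ⟨κ, hκ, hint⟩ := integral_image K hK T c
  rw [← hK'] at hint
  set P : ℝ[X] := C (κ ^ m) * P1.comp (X + C e) with hP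
  have hPe : ∀ t, P.eval t = κ ^ m * P1.eval (t + e) := by
    intro t
    rw [hP]
    simp
  have hmem : ∀ t ∈ Ioo (-1 : ℝ) 1, t + e ∈ Ioo (e - 1) (e + 1) := by
    intro t ht
    exact ⟨by linarith [ht.1], by linarith [ht.2]⟩
  have hK'c : IsCompact K' := by
    rw [hK']
    exact hK.image (by fun_prop)
  refine full_ball hn K' hK'c hb ε hε (fun x h3 h4 => interior_subset (hsh x h3 h4)) ξ hξ m hm P
    ?_ ?_
  · intro t ht
    rw [hPe]
    exact mul_pos (pow_pos hκ m) (h1 _ (hmem t ht))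
  · intro φ hφ
    have h3 := h2 (fun t => φ (t - e)) (by fun_prop)
    rw [hint]
    have h4 : ∫ x in K, φ ⟪T (x - c), ξ⟫ = ∫ x in K, φ (⟪x, ζ⟫ - e) := by
      congr 1
      funext x
      rw [hTin]
    rw [h4, h3]
    have h5 : ∫ t in Ioo (e - 1) (e + 1), φ (t - e) * P1.eval t ^ (1 / (m : ℝ))
        = ∫ t in Ioo (-1 : ℝ) 1, φ t * P1.eval (t + e) ^ (1 / (m : ℝ)) := by
      rw [← integral_Ioc_eq_integral_Ioo, ← integral_Ioc_eq_integral_Ioo,
        ← intervalIntegral.integral_of_le (by linarith),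
        ← intervalIntegral.integral_of_le (by norm_num)]
      have h6 := intervalIntegral.integral_comp_add_right (a := -1) (b := 1)
        (fun t => φ (t - e) * P1.eval t ^ (1 / (m : ℝ))) e
      simp only [add_sub_cancel_right] at h6
      rw [h6]
      congr 1 <;> ring
    rw [h5, ← integral_const_mul]
    apply setIntegral_congr_fun measurableSet_Ioo
    intro t ht
    show κ * (φ t * P1.eval (t + e) ^ (1 / (m : ℝ))) = φ t * P.eval t ^ (1 / (m : ℝ))
    rw [hPe, Real.mul_rpow (pow_nonneg hκ.le m) (h1 _ (hmem t ht)).le, one_div,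
      Real.pow_rpow_inv_natCast hκ.le hm.ne']
    ring

end AS.J4612

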