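import Mathlib

set_option autoImplicit false
open Polynomial Set

namespace AS.J3640

/-- kernel vector or full-rank certificate -/
theorem dichotomy_aux (N : ℕ) (a : ℕ → ℕ → ℝ[X]) :
    (∃ v : Fin (N + 1) → ℝ[X], v ≠ 0 ∧ ∀ k, ∑ j : Fin (N + 1), v j * a k j = 0) ∨
    (∀ i : Fin (N + 1), ∃ d : ℝ[X], d ≠ 0 ∧ ∃ (s : Finset ℕ) (r : ℕ → ℝ[X]),
      ∀ j : Fin (N + 1), ∑ k ∈ s, r k * a k j = if j = i then d else 0) := by
  classical
  let K := FractionRing ℝ[X]
  let A : ℕ → (Fin (N + 1) → K) := fun k j => algebraMap ℝ[X] K (a k j)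
  have hinj : Function.Injective (algebraMap ℝ[X] K) := IsFractionRing.injective ℝ[X] K
  by_cases hW : Submodule.span K (Set.range A) = ⊤
  · right
    intro i
    have hi : (Pi.single i 1 : Fin (N + 1) → K) ∈ Submodule.span K (Set.range A) := by
      rw [hW]; trivial
    rw [Finsupp.mem_span_range_iff_exists_finsupp] at hi
    obtain ⟨c, hc⟩ := hi
    obtain ⟨b, hb⟩ := IsLocalization.exist_integer_multiples (nonZeroDivisors ℝ[X]) c.support (fun k => c k)
    have hb' : ∀ k, ∃ r : ℝ[X], algebraMap ℝ[X] K r = ((b : ℝ[X]) • c k : K) := by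
      intro k
      by_cases hk : k ∈ c.support
      · exact hb k hk
      · refine ⟨0, ?_⟩
        rw [Finsupp.notMem_support_iff.mp hk]; simp
    choose r hr using hb'
    refine ⟨b, nonZeroDivisors.ne_zero b.2, c.support, r, ?_⟩
    intro j
    apply hinj
    rw [map_sum]
    have h1 : ∑ k ∈ c.support, c k * algebraMap ℝ[X] K (a k j) = (Pi.single i 1 : Fin (N + 1) → K) j := by
      rw [← hc, Finsupp.sum, Finset.sum_apply]
      rfl
    have h2 : ∑ k ∈ c.support, algebraMap ℝ[X] K (r k * a k j)
        = algebraMap ℝ[X] K b * ∑ k ∈ c.support, c k * algebraMap ℝ[X] K (a k j) := by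
      rw [Finset.mul_sum]
      apply Finset.sum_congr rfl
      intro k _
      rw [map_mul, hr k, Algebra.smul_def]
      ring
    rw [h2, h1]
    by_cases hj : j = i
    · subst hj; simp
    · rw [if_neg hj, Pi.single_eq_of_ne hj]; simp
  · left
    obtain ⟨f, hf, hfW⟩ := Submodule.exists_le_ker_of_lt_top _ (lt_top_iff_ne_top.mpr hW)
    obtain ⟨b, hb⟩ := IsLocalization.exist_integer_multiples (nonZeroDivisors ℝ[X])
      (Finset.univ : Finset (Fin (N + 1))) (fun j => f (Pi.single j 1))
    have hb' : ∀ j, ∃ r : ℝ[X], algebraMap ℝ[X] K r = ((b : ℝ[X]) • f (Pi.single j 1) : K) := fun j =>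
      hb j (Finset.mem_univ _)
    choose v hv using hb'
    refine ⟨v, ?_, ?_⟩
    · intro hv0
      apply hf
      apply LinearMap.pi_ext'
      intro j
      ext
      simp only [LinearMap.coe_comp, LinearMap.coe_single, Function.comp_apply, LinearMap.zero_comp, LinearMap.zero_apply]
      have h1 := hv j
      rw [hv0, Pi.zero_apply, map_zero, Algebra.smul_def] at h1
      have hb0 : algebraMap ℝ[X] K b ≠ 0 := by
        intro h
        exact nonZeroDivisors.ne_zero b.2 (hinj (by rw [h, map_zero]))
      rcases mul_eq_zero.mp h1.symm with h2 | h2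
      · exact absurd h2 hb0
      · exact h2
    · intro k
      apply hinj
      rw [map_sum, map_zero]
      have h1 : f (A k) = 0 := hfW (Submodule.subset_span ⟨k, rfl⟩)
      rw [LinearMap.pi_apply_eq_sum_univ] at h1
      have h2 : ∑ j, algebraMap ℝ[X] K (v j * a k j) = algebraMap ℝ[X] K b *
          ∑ i, A k i • f (fun j => if i = j then 1 else 0) := by
        rw [Finset.mul_sum]
        apply Finset.sum_congr rfl
        intro j _
        rw [map_mul, hv j, Algebra.smul_def]
        have h3 : (fun l => if j = l then (1 : K) else 0) = Pi.single j 1 := by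
          ext l
          by_cases hl : j = l
          · subst hl; simp
          · rw [if_neg hl, Pi.single_eq_of_ne (fun h => hl h.symm)]
        rw [h3]
        simp only [A, smul_eq_mul]
        ring
      rw [h2, h1, mul_zero]

/-- TARGET -/
theorem exists_uniform (a : ℕ → ℕ → ℝ[X]) (G : Set ℝ) (hG : ¬ G.Countable)
    (h : ∀ s ∈ G, ∃ P : ℝ[X], P ≠ 0 ∧ ∀ k, (P.sum fun j r => r * (a k j).eval s) = 0) :
    ∃ R : ℝ[X][X], R ≠ 0 ∧ ∀ k, (R.sum fun j r => r * a k j) = 0 := by
  classical
  by_contra hno
  apply hG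
  have hcov : G ⊆ ⋃ N : ℕ, {s | ∃ P : ℝ[X], P ≠ 0 ∧ P.natDegree ≤ N ∧
      ∀ k, (P.sum fun j r => r * (a k j).eval s) = 0} := by
    intro s hs
    obtain ⟨P, hP, hk⟩ := h s hs
    exact Set.mem_iUnion.mpr ⟨P.natDegree, P, hP, le_rfl, hk⟩
  refine (Set.countable_iUnion fun N => Set.Finite.countable ?_).mono hcov
  rcases dichotomy_aux N a with ⟨v, hv, hk⟩ | hfull
  · exfalso
    apply hno
    have hcoeff : ∀ j : ℕ, (∑ i : Fin (N + 1), monomial (i : ℕ) (v i) : ℝ[X][X]).coeff j
        = if h : j < N + 1 then v ⟨j, h⟩ else 0 := by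
      intro j
      rw [Polynomial.finsetSum_coeff]
      simp only [Polynomial.coeff_monomial]
      split_ifs with hj
      · rw [Finset.sum_eq_single (⟨j, hj⟩ : Fin (N + 1))]
        · simp
        · intro b _ hb
          rw [if_neg]
          intro h
          exact hb (Fin.ext h)
        · simp
      · apply Finset.sum_eq_zero
        intro i _
        rw [if_neg]
        intro h
        exact hj (h ▸ i.2)
    refine ⟨∑ i : Fin (N + 1), monomial (i : ℕ) (v i), ?_, ?_⟩
    · intro h0
      apply hv
      ext1 i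
      have := hcoeff i
      rw [h0, Polynomial.coeff_zero, dif_pos i.2] at this
      exact this.symm
    · intro k
      have hdeg : (∑ i : Fin (N + 1), monomial (i : ℕ) (v i) : ℝ[X][X]).natDegree < N + 1 := by
        rw [Nat.lt_succ_iff, Polynomial.natDegree_le_iff_coeff_eq_zero]
        intro j hj
        rw [hcoeff, dif_neg (by omega)]
      rw [Polynomial.sum_over_range' _ (by intro n; simp) (N + 1) hdeg, Finset.sum_range]
      rw [← hk k]
      apply Finset.sum_congr rfl
      intro j _
      rw [hcoeff, dif_pos j.2]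
  · choose d hd s r hr using hfull
    apply Set.Finite.subset (s := ⋃ i : Fin (N + 1), {x : ℝ | (d i).IsRoot x})
    · apply Set.finite_iUnion
      intro i
      have : {x : ℝ | (d i).IsRoot x} = ((d i).roots.toFinset : Set ℝ) := by
        ext x
        simp [hd i]
      rw [this]
      exact Finset.finite_toSet _
    · rintro x ⟨P, hP, hPN, hPk⟩
      by_contra hx
      rw [Set.mem_iUnion] at hx
      push Not at hx
      apply hP
      ext i
      rw [Polynomial.coeff_zero]
      by_cases hi : i < N + 1
      swap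
      · exact Polynomial.coeff_eq_zero_of_natDegree_lt (by omega)
      have h1 : ∀ k, ∑ j : Fin (N + 1), P.coeff j * (a k j).eval x = 0 := by
        intro k
        have := hPk k
        rw [Polynomial.sum_over_range' _ (by intro n; simp) (N + 1) (by omega), Finset.sum_range] at this
        exact this
      have h2 : ∑ k ∈ s ⟨i, hi⟩, (r ⟨i, hi⟩ k).eval x * ∑ j : Fin (N + 1), P.coeff j * (a k j).eval x = 0 := by
        apply Finset.sum_eq_zero
        intro k _
        rw [h1 k, mul_zero]
      have h3 : ∑ k ∈ s ⟨i, hi⟩, (r ⟨i, hi⟩ k).eval x * ∑ j : Fin (N + 1), P.coeff j * (a k j).eval x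
          = (d ⟨i, hi⟩).eval x * P.coeff i := by
        have h4 : ∀ j : Fin (N + 1), ∑ k ∈ s ⟨i, hi⟩, (r ⟨i, hi⟩ k).eval x * (a k j).eval x
            = if j = ⟨i, hi⟩ then (d ⟨i, hi⟩).eval x else 0 := by
          intro j
          have := congrArg (Polynomial.eval x) (hr ⟨i, hi⟩ j)
          rw [Polynomial.eval_finset_sum] at this
          simp only [Polynomial.eval_mul] at this
          rw [this]
          split_ifs <;> simp
        simp only [Finset.mul_sum]
        rw [Finset.sum_comm]
        have h5 : ∀ j : Fin (N + 1), ∑ k ∈ s ⟨i, hi⟩, (r ⟨i, hi⟩ k).eval x * (P.coeff j * (a k j).eval x)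
            = P.coeff j * (if j = ⟨i, hi⟩ then (d ⟨i, hi⟩).eval x else 0) := by
          intro j
          rw [← h4 j, Finset.mul_sum]
          apply Finset.sum_congr rfl
          intro k _
          ring
        rw [Finset.sum_congr rfl (fun j _ => h5 j), Finset.sum_eq_single (⟨i, hi⟩ : Fin (N + 1))]
        · simp [mul_comm]
        · intro b _ hb
          rw [if_neg hb, mul_zero]
        · simp
      rw [h3] at h2
      rcases mul_eq_zero.mp h2 with h6 | h6
      · exact absurd h6 (hx ⟨i, hi⟩)
      · exact h6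

end AS.J3640
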