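import Mathlib

set_option autoImplicit false
open Polynomial Set MeasureTheory

namespace AS.J3641

theorem hasDeriv_aux (P φ : ℝ[X]) (m : ℕ) (t : ℝ) :
    HasDerivAt (fun t => (P.eval t) ^ (1 + 1 / (m : ℝ)) * φ.eval t)
      ((derivative P).eval t * (1 + 1 / (m : ℝ)) * (P.eval t) ^ (1 / (m : ℝ)) * φ.eval t +
        (P.eval t) ^ (1 + 1 / (m : ℝ)) * (derivative φ).eval t) t := by
  have he : (1 : ℝ) ≤ 1 + 1 / (m : ℝ) := by
    have : (0 : ℝ) ≤ 1 / (m : ℝ) := by positivity
    linarith
  have h1 := (P.hasDerivAt t).rpow_const (p := 1 + 1 / (m : ℝ)) (Or.inr he)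
  have h2 := h1.mul (φ.hasDerivAt t)
  rw [add_sub_cancel_left] at h2
  exact h2

theorem cont_aux (P Q : ℝ[X]) {e : ℝ} (he : 0 ≤ e) :
    Continuous fun t => Q.eval t * (P.eval t) ^ e :=
  Q.continuous.mul (P.continuous.rpow_const fun _ => Or.inr he)

theorem int_aux (U : Set ℝ) (hUb : Bornology.IsBounded U) {f : ℝ → ℝ} (hf : Continuous f) :
    IntegrableOn f U := by
  obtain ⟨M, hM⟩ := hUb.subset_closedBall 0
  exact (hf.continuousOn.integrableOn_compact (isCompact_closedBall 0 M)).mono_set hM

/-- TARGET 1 -/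
theorem funcZ (U : Set ℝ) (hU : IsOpen U) (hUb : Bornology.IsBounded U) (P : ℝ[X])
    (hpos : ∀ t ∈ U, 0 < P.eval t) (hfr : ∀ t ∈ frontier U, P.eval t = 0) (m : ℕ) (hm : 0 < m)
    (φ : ℝ[X]) :
    ∫ t in U, (m * P.eval t * (derivative φ).eval t + (m + 1) * (derivative P).eval t * φ.eval t)
      * (P.eval t) ^ (1 / (m : ℝ)) = 0 := by
  classical
  have hm0 : (m : ℝ) ≠ 0 := by positivity
  have hmi : (0 : ℝ) < 1 / (m : ℝ) := by positivity
  set g : ℝ → ℝ := fun t => (P.eval t) ^ (1 + 1 / (m : ℝ)) * φ.eval t with hg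
  set g' : ℝ → ℝ := fun t => (derivative P).eval t * (1 + 1 / (m : ℝ)) *
    (P.eval t) ^ (1 / (m : ℝ)) * φ.eval t +
        (P.eval t) ^ (1 + 1 / (m : ℝ)) * (derivative φ).eval t with hg'
  have hgd : ∀ t, HasDerivAt g (g' t) t := fun t => hasDeriv_aux P φ m t
  have hg'c : Continuous g' := by
    have c1 : Continuous fun t => (P.eval t) ^ (1 / (m : ℝ)) :=
      P.continuous.rpow_const fun _ => Or.inr hmi.le
    have c2 : Continuous fun t => (P.eval t) ^ (1 + 1 / (m : ℝ)) :=
      P.continuous.rpow_const fun _ => Or.inr (by linarith)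
    exact ((((derivative P).continuous.mul continuous_const).mul c1).mul φ.continuous).add
      (c2.mul (derivative φ).continuous)
  have hder : ∀ t, HasDerivAt (U.indicator g) (U.indicator g' t) t := by
    intro t
    by_cases ht : t ∈ U
    · rw [indicator_of_mem ht]
      refine (hgd t).congr_of_eventuallyEq ?_
      filter_upwards [hU.mem_nhds ht] with s hs
      exact indicator_of_mem hs g
    · rw [indicator_of_notMem ht]
      by_cases htc : t ∈ closure U
      · have hf : t ∈ frontier U := by
          rw [frontier, hU.interior_eq]; exact ⟨htc, ht⟩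
        have hP := hfr t hf
        have g0 : g t = 0 := by
          simp only [hg]
          rw [hP, Real.zero_rpow (by positivity), zero_mul]
        have g'0 : g' t = 0 := by
          simp only [hg']
          rw [hP, Real.zero_rpow (by positivity), Real.zero_rpow (by positivity)]
          ring
        have h1 := hgd t
        rw [g'0, hasDerivAt_iff_isLittleO] at h1
        rw [hasDerivAt_iff_isLittleO, indicator_of_notMem ht]
        simp only [g0, smul_zero, sub_zero] at h1 ⊢
        refine Asymptotics.IsBigO.trans_isLittleO ?_ h1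
        refine Asymptotics.IsBigO.of_bound 1 (Filter.Eventually.of_forall fun s => ?_)
        rw [one_mul]
        exact norm_indicator_le_norm_self g s
      · have h1 : U.indicator g =ᶠ[nhds t] fun _ => 0 := by
          filter_upwards [isClosed_closure.isOpen_compl.mem_nhds htc] with s hs
          exact indicator_of_notMem (fun h => hs (subset_closure h)) g
        exact (hasDerivAt_const t (0 : ℝ)).congr_of_eventuallyEq h1
  obtain ⟨M, hM⟩ := hUb.subset_ball 0
  have hMU : ∀ s ∈ U, -|M| < s ∧ s < |M| := by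
    intro s hs
    have h1 := hM hs
    rw [mem_ball_zero_iff, Real.norm_eq_abs] at h1
    exact abs_lt.1 (lt_of_lt_of_le h1 (le_abs_self M))
  have hend : ∀ s, s = |M| ∨ s = -|M| → s ∉ U := by
    rintro s (rfl | rfl) hs
    · exact lt_irrefl _ (hMU _ hs).2
    · exact lt_irrefl _ (hMU _ hs).1
  have hint : IntervalIntegrable (U.indicator g') volume (-|M|) |M| := by
    rw [intervalIntegrable_iff]
    exact (hg'c.integrableOn_uIoc).indicator hU.measurableSet
  have h0 := intervalIntegral.integral_eq_sub_of_hasDerivAt (fun t _ => hder t) hint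
  rw [indicator_of_notMem (hend _ (Or.inl rfl)), indicator_of_notMem (hend _ (Or.inr rfl)),
    sub_zero, intervalIntegral.integral_of_le (by linarith [abs_nonneg M]),
    setIntegral_indicator hU.measurableSet,
    inter_eq_right.2 (show U ⊆ Ioc (-|M|) |M| from
      fun s hs => ⟨(hMU s hs).1, (hMU s hs).2.le⟩)] at h0
  have h1 : ∫ t in U, (m * P.eval t * (derivative φ).eval t +
      (m + 1) * (derivative P).eval t * φ.eval t) * (P.eval t) ^ (1 / (m : ℝ)) =
      ∫ t in U, (m : ℝ) * g' t := by
    apply setIntegral_congr_fun hU.measurableSet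
    intro t ht
    have hp := hpos t ht
    simp only [hg']
    rw [Real.rpow_add hp, Real.rpow_one]
    field_simp
    ring
  rw [h1, integral_const_mul, h0, mul_zero]

/-- TARGET 2 -/
theorem R_eq_cP (U : Set ℝ) (hU : IsOpen U) (hne : U.Nonempty) (hUb : Bornology.IsBounded U)
    (P : ℝ[X]) (hpos : ∀ t ∈ U, 0 < P.eval t) (hfr : ∀ t ∈ frontier U, P.eval t = 0) (m : ℕ)
    (hm : 0 < m) (R : ℝ[X])
    (hR : ∀ φ : ℝ[X], ∫ t in U, (m * R.eval t * (derivative φ).eval t
      + (m + 1) * (derivative R).eval t * φ.eval t) * (P.eval t) ^ (1 / (m : ℝ)) = 0) :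
    ∃ c : ℝ, R = C c * P := by
  have hmi : (0 : ℝ) < 1 / (m : ℝ) := by positivity
  set D : ℝ[X] := derivative R * P - derivative P * R with hD
  have hint : ∀ Q : ℝ[X], IntegrableOn (fun t => Q.eval t * (P.eval t) ^ (1 / (m : ℝ))) U :=
    fun Q => int_aux U hUb (cont_aux P Q hmi.le)
  have h1 := hR (P * D)
  have h2 := funcZ U hU hUb P hpos hfr m hm (R * D)
  have h3 : ∫ t in U, (D * D).eval t * (P.eval t) ^ (1 / (m : ℝ)) = 0 := by
    have e1 : ∀ t : ℝ, (m * R.eval t * (derivative (P * D)).eval t
      + (m + 1) * (derivative R).eval t * (P * D).eval t) * (P.eval t) ^ (1 / (m : ℝ)) =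
      (C (m : ℝ) * R * derivative (P * D) + C ((m : ℝ) + 1) * derivative R * (P * D)).eval t *
        (P.eval t) ^ (1 / (m : ℝ)) := by
      intro t
      simp only [eval_add, eval_mul, eval_C]
    have e2 : ∀ t : ℝ, (m * P.eval t * (derivative (R * D)).eval t
      + (m + 1) * (derivative P).eval t * (R * D).eval t) * (P.eval t) ^ (1 / (m : ℝ)) =
      (C (m : ℝ) * P * derivative (R * D) + C ((m : ℝ) + 1) * derivative P * (R * D)).eval t *
        (P.eval t) ^ (1 / (m : ℝ)) := by
      intro t
      simp only [eval_add, eval_mul, eval_C]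
    simp only [e1] at h1
    simp only [e2] at h2
    have h4 := integral_sub (hint (C (m : ℝ) * R * derivative (P * D) +
      C ((m : ℝ) + 1) * derivative R * (P * D))) (hint (C (m : ℝ) * P * derivative (R * D) +
        C ((m : ℝ) + 1) * derivative P * (R * D)))
    rw [h1, h2, sub_zero] at h4
    rw [← h4]
    congr 1
    ext t
    simp only [hD, eval_add, eval_mul, eval_C, derivative_mul, eval_sub, derivative_sub]
    ring
  have hnn : ∀ t ∈ U, 0 ≤ (D * D).eval t * (P.eval t) ^ (1 / (m : ℝ)) := by
    intro t ht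
    have hp := hpos t ht
    rw [eval_mul]
    have : 0 ≤ D.eval t * D.eval t := mul_self_nonneg _
    positivity
  have h5 := (setIntegral_eq_zero_iff_of_nonneg_ae
    ((ae_restrict_iff' hU.measurableSet).2 (Filter.Eventually.of_forall hnn)) (hint _)).1 h3
  have hD0 : ∀ t ∈ U, D.eval t = 0 := by
    have hopen : IsOpen (U ∩ {t | D.eval t ≠ 0}) :=
      hU.inter (isOpen_ne_fun D.continuous continuous_const)
    have hnull : volume (U ∩ {t | D.eval t ≠ 0}) = 0 := by
      have h6 := (ae_restrict_iff' hU.measurableSet).1 h5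
      rw [Filter.EventuallyEq, ae_iff] at *
      refine measure_mono_null ?_ h6
      rintro t ⟨ht, ht'⟩ h7
      have h8 := h7 ht
      simp only [Pi.zero_apply] at h8
      have hp := Real.rpow_pos_of_pos (hpos t ht) (1 / (m : ℝ))
      rw [eval_mul] at h8
      rcases mul_eq_zero.1 h8 with h9 | h9
      · exact ht' (mul_self_eq_zero.1 h9)
      · exact hp.ne' h9
    have hempty := (hopen.measure_eq_zero_iff volume).1 hnull
    intro t ht
    by_contra hc
    have : t ∈ (U ∩ {t | D.eval t ≠ 0}) := ⟨ht, hc⟩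
    rw [hempty] at this
    exact this
  obtain ⟨t0, ht0⟩ := hne
  obtain ⟨ε, hε, hball⟩ := Metric.isOpen_iff.1 hU t0 ht0
  have hconst : ∀ t ∈ Metric.ball t0 ε, R.eval t / P.eval t = R.eval t0 / P.eval t0 := by
    intro t ht
    have hd : ∀ s ∈ Metric.ball t0 ε, HasDerivAt (fun s => R.eval s / P.eval s) 0 s := by
      intro s hs
      have hp := hpos s (hball hs)
      have h6 := (R.hasDerivAt s).div (P.hasDerivAt s) hp.ne'
      have h7 := hD0 s (hball hs)
      simp only [hD, eval_sub, eval_mul] at h7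
      have h8 : (eval s (derivative R) * eval s P - eval s R * eval s (derivative P)) /
          eval s P ^ 2 = 0 := by
        rw [div_eq_zero_iff]; left; linarith
      rw [h8] at h6
      exact h6
    exact Metric.isOpen_ball.is_const_of_deriv_eq_zero (convex_ball t0 ε).isPreconnected
      (fun s hs => (hd s hs).differentiableAt.differentiableWithinAt)
      (fun s hs => (hd s hs).deriv) ht (Metric.mem_ball_self hε)
  refine ⟨R.eval t0 / P.eval t0, ?_⟩
  rw [← sub_eq_zero]
  apply Polynomial.eq_zero_of_infinite_isRoot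
  apply (infinite_of_mem_nhds t0 (Metric.ball_mem_nhds t0 hε)).mono
  intro t ht
  have hp := hpos t (hball ht)
  have h6 := hconst t ht
  rw [div_eq_iff hp.ne'] at h6
  show (R - C (R.eval t0 / P.eval t0) * P).eval t = 0
  rw [eval_sub, eval_mul, eval_C, h6, sub_self]

end AS.J3641
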