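import Mathlib
import Pool.Agent.Helper272.Ell.J3640
import Pool.Agent.Helper272.Ell.J3641

set_option autoImplicit false
open Polynomial Set Filter Topology MeasureTheory Metric

namespace AS.J4316

open AS.J3640 (exists_uniform)
open AS.J3641 (funcZ R_eq_cP)

/-! the following lemmas are proved elsewhere, you may use them -/

/-- the linear form -/
noncomputable def lform (s : ℝ) : ℝ × ℝ →L[ℝ] ℝ :=
  ContinuousLinearMap.fst ℝ ℝ ℝ + s • ContinuousLinearMap.snd ℝ ℝ ℝ

theorem lform_apply (s : ℝ) (y : ℝ × ℝ) : lform s y = y.1 + s * y.2 := rfl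

theorem img_eq (s : ℝ) (Y : Set (ℝ × ℝ)) :
    (fun y : ℝ × ℝ => y.1 + s * y.2) '' Y = lform s '' Y := rfl

theorem lform_surj (s : ℝ) : Function.Surjective (lform s) := by
  intro t
  exact ⟨(t, 0), by simp [lform_apply]⟩

theorem img_open (s : ℝ) {Y : Set (ℝ × ℝ)} (hY : IsOpen Y) :
    IsOpen ((fun y : ℝ × ℝ => y.1 + s * y.2) '' Y) :=
  (lform s).isOpenMap (lform_surj s) Y hY

theorem img_bdd (s : ℝ) {Y : Set (ℝ × ℝ)} (hY : Bornology.IsBounded Y) :
    Bornology.IsBounded ((fun y : ℝ × ℝ => y.1 + s * y.2) '' Y) :=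
  (lform s).lipschitz.isBounded_image hY

theorem integrable_of_cont {Y : Set (ℝ × ℝ)} (hYb : Bornology.IsBounded Y)
    (μ : Measure (ℝ × ℝ)) [IsFiniteMeasure μ] (hμ : μ Yᶜ = 0) {g : ℝ × ℝ → ℝ}
    (hg : Continuous g) : Integrable g μ := by
  have hc : IsCompact (closure Y) := hYb.isCompact_closure
  obtain ⟨B, hB⟩ := hc.exists_bound_of_continuousOn hg.continuousOn
  refine Integrable.of_bound hg.aestronglyMeasurable B ?_
  have h1 : ∀ᵐ y ∂μ, y ∈ Y := by
    rw [ae_iff]
    exact hμ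
  filter_upwards [h1] with y hy
  exact hB y (subset_closure hy)

/-- the moments -/
noncomputable def Mom (μ : Measure (ℝ × ℝ)) (k : ℕ) : ℝ[X] :=
  ∑ j ∈ Finset.range (k + 1), C ((k.choose j : ℝ) * ∫ y, y.2 ^ j * y.1 ^ (k - j) ∂μ) * X ^ j

theorem Mom_eval {Y : Set (ℝ × ℝ)} (hYb : Bornology.IsBounded Y)
    (μ : Measure (ℝ × ℝ)) [IsFiniteMeasure μ] (hμ : μ Yᶜ = 0) (k : ℕ) (s : ℝ) :
    (Mom μ k).eval s = ∫ y, (y.1 + s * y.2) ^ k ∂μ := by
  have h1 : ∀ y : ℝ × ℝ, (y.1 + s * y.2) ^ k =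
      ∑ j ∈ Finset.range (k + 1), (k.choose j : ℝ) * s ^ j * (y.2 ^ j * y.1 ^ (k - j)) := by
    intro y
    rw [add_comm, add_pow]
    refine Finset.sum_congr rfl fun j _ => ?_
    rw [mul_pow]
    ring
  simp_rw [h1]
  rw [integral_finsetSum _ (fun j _ => (integrable_of_cont hYb μ hμ (by fun_prop)).const_mul _)]
  unfold Mom
  rw [eval_finsetSum]
  refine Finset.sum_congr rfl fun j _ => ?_
  rw [integral_const_mul, eval_mul, eval_C, eval_pow, eval_X]
  ring

/-- the pointwise identity -/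
theorem expand_id (Q : ℝ[X]) (m k : ℕ) (t : ℝ) :
    ((m : ℝ) + 1) * (derivative Q).eval t * t ^ k + m * Q.eval t * (k * t ^ (k - 1)) =
      Q.sum fun j r => r * ((m * k + (m + 1) * j) * t ^ (k + j - 1)) := by
  rw [derivative_eval, eval_eq_sum, Polynomial.sum_def, Polynomial.sum_def, Polynomial.sum_def,
    Finset.mul_sum, Finset.sum_mul, Finset.mul_sum, Finset.sum_mul, ← Finset.sum_add_distrib]
  refine Finset.sum_congr rfl fun j _ => ?_
  rcases Nat.eq_zero_or_pos j with hj | hj
  · subst hj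
    rcases Nat.eq_zero_or_pos k with hk | hk
    · subst hk
      simp
    · simp
      ring
  · rcases Nat.eq_zero_or_pos k with hk | hk
    · subst hk
      simp
      ring
    · obtain ⟨j', rfl⟩ : ∃ j', j = j' + 1 := ⟨j - 1, by omega⟩
      obtain ⟨k', rfl⟩ : ∃ k', k = k' + 1 := ⟨k - 1, by omega⟩
      have h1 : k' + 1 + (j' + 1) - 1 = k' + j' + 1 := by omega
      rw [h1, Nat.add_sub_cancel, Nat.add_sub_cancel]
      ring

/-- the coefficients -/
noncomputable def acoef (μ : Measure (ℝ × ℝ)) (m k j : ℕ) : ℝ[X] :=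
  C ((m : ℝ) * k + (m + 1) * j) * Mom μ (k + j - 1)

theorem int_expand {Y : Set (ℝ × ℝ)} (hYb : Bornology.IsBounded Y)
    (μ : Measure (ℝ × ℝ)) [IsFiniteMeasure μ] (hμ : μ Yᶜ = 0) (Q : ℝ[X]) (m k : ℕ) (s : ℝ) :
    ∫ y, (((m : ℝ) + 1) * (derivative Q).eval (y.1 + s * y.2) * (y.1 + s * y.2) ^ k +
      m * Q.eval (y.1 + s * y.2) * (k * (y.1 + s * y.2) ^ (k - 1))) ∂μ =
      Q.sum fun j r => r * (acoef μ m k j).eval s := by
  simp_rw [expand_id]
  simp_rw [Polynomial.sum_def]
  rw [integral_finsetSum _ (fun j _ => integrable_of_cont hYb μ hμ (by fun_prop))]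
  refine Finset.sum_congr rfl fun j _ => ?_
  rw [integral_const_mul, integral_const_mul, ← Mom_eval hYb μ hμ]
  unfold acoef
  rw [eval_mul, eval_C]

theorem cont_eval_lin (Q : ℝ[X]) (s : ℝ) :
    Continuous fun y : ℝ × ℝ => Q.eval (y.1 + s * y.2) :=
  Q.continuous.comp (continuous_fst.add (continuous_const.mul continuous_snd))

/-- TARGET -/
theorem real_R (Y : Set (ℝ × ℝ)) (hYo : IsOpen Y) (hYne : Y.Nonempty)
    (hYb : Bornology.IsBounded Y) (μ : Measure (ℝ × ℝ)) [IsFiniteMeasure μ] (hμ : μ Yᶜ = 0)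
    (m : ℕ) (hm : 0 < m) (P : ℝ → ℝ[X]) (Bad : Set ℝ) (hBad : Bad.Countable)
    (hpos : ∀ s, ∀ t ∈ (fun y : ℝ × ℝ => y.1 + s * y.2) '' Y, 0 < (P s).eval t)
    (hint : ∀ s, ∀ φ : ℝ → ℝ, Continuous φ → ∫ y, φ (y.1 + s * y.2) ∂μ
        = ∫ t in (fun y : ℝ × ℝ => y.1 + s * y.2) '' Y, φ t * (P s).eval t ^ (1 / (m : ℝ)))
    (hfr : ∀ s ∉ Bad, ∀ t ∈ frontier ((fun y : ℝ × ℝ => y.1 + s * y.2) '' Y), (P s).eval t = 0) :
    ∃ R : ℝ[X][X], R ≠ 0 ∧
      (∀ s ∉ Bad, R.map (evalRingHom s) ≠ 0 →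
        ∃ c : ℝ, c ≠ 0 ∧ R.map (evalRingHom s) = C c * P s) ∧
      (∀ (s : ℝ) (k : ℕ), ∫ y, ((m + 1) * (derivative R).evalEval s (y.1 + s * y.2)
            * (y.1 + s * y.2) ^ k
          + m * R.evalEval s (y.1 + s * y.2) * (k * (y.1 + s * y.2) ^ (k - 1))) ∂μ = 0) := by
  set U : ℝ → Set ℝ := fun s => (fun y : ℝ × ℝ => y.1 + s * y.2) '' Y with hU
  have hUo : ∀ s, IsOpen (U s) := fun s => img_open s hYo
  have hUb : ∀ s, Bornology.IsBounded (U s) := fun s => img_bdd s hYb
  have hUne : ∀ s, (U s).Nonempty := fun s => hYne.image _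
  have hPne : ∀ s, P s ≠ 0 := by
    intro s h0
    obtain ⟨t, ht⟩ := hUne s
    have h1 := hpos s t ht
    rw [h0, eval_zero] at h1
    exact lt_irrefl _ h1
  obtain ⟨R, hR0, hR⟩ := exists_uniform (acoef μ m) Badᶜ (by
      intro hc
      have h1 : (univ : Set ℝ).Countable := by
        rw [← union_compl_self Bad]
        exact hBad.union hc
      exact not_countable_univ h1) (by
      intro s hs
      refine ⟨P s, hPne s, fun k => ?_⟩
      rw [← int_expand hYb μ hμ]
      have h1 := funcZ (U s) (hUo s) (hUb s) (P s) (hpos s) (hfr s hs) m hm (X ^ k)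
      have h2 := hint s (fun t => (m : ℝ) * (P s).eval t * (derivative (X ^ k : ℝ[X])).eval t +
        (m + 1) * (derivative (P s)).eval t * (X ^ k : ℝ[X]).eval t) (by fun_prop)
      rw [h1] at h2
      rw [← h2]
      refine integral_congr_ae (Filter.Eventually.of_forall fun y => ?_)
      simp only [derivative_X_pow, eval_mul, eval_C, eval_pow, eval_X, map_natCast, eval_natCast]
      ring)
  have hsum : ∀ (s : ℝ) (k : ℕ),
      ((R.map (evalRingHom s)).sum fun j r => r * (acoef μ m k j).eval s) = 0 := by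
    intro s k
    have h1 := congrArg (eval s) (hR k)
    rw [eval_zero, Polynomial.sum_over_range R (by intro n; rw [zero_mul]),
      eval_finsetSum] at h1
    rw [Polynomial.sum_over_range' (R.map (evalRingHom s)) (by intro n; rw [zero_mul])
      (R.natDegree + 1) (Nat.lt_succ_of_le natDegree_map_le), ← h1]
    refine Finset.sum_congr rfl fun j _ => ?_
    rw [coeff_map, eval_mul]
    rfl
  have hev : ∀ (Q : ℝ[X][X]) (s z : ℝ), Q.evalEval s z = (Q.map (evalRingHom s)).eval z := by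
    intro Q s z
    exact (map_evalRingHom_eval s z Q).symm
  have hmom : ∀ (s : ℝ) (k : ℕ), ∫ y, (((m : ℝ) + 1) *
      (derivative (R.map (evalRingHom s))).eval (y.1 + s * y.2) * (y.1 + s * y.2) ^ k +
      m * (R.map (evalRingHom s)).eval (y.1 + s * y.2) *
        (k * (y.1 + s * y.2) ^ (k - 1))) ∂μ = 0 := by
    intro s k
    rw [int_expand hYb μ hμ]
    exact hsum s k
  refine ⟨R, hR0, ?_, ?_⟩
  · intro s hs hQ0
    set Q := R.map (evalRingHom s) with hQ
    have hF : ∀ φ : ℝ[X], ∫ y, ((m : ℝ) * Q.eval (y.1 + s * y.2) *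
        (derivative φ).eval (y.1 + s * y.2) + (m + 1) * (derivative Q).eval (y.1 + s * y.2) *
          φ.eval (y.1 + s * y.2)) ∂μ = 0 := by
      intro φ
      induction φ using Polynomial.induction_on' with
      | add p q hp hq =>
        have h1 : ∀ y : ℝ × ℝ, (m : ℝ) * Q.eval (y.1 + s * y.2) *
            (derivative (p + q)).eval (y.1 + s * y.2) +
            (m + 1) * (derivative Q).eval (y.1 + s * y.2) * (p + q).eval (y.1 + s * y.2) =
            ((m : ℝ) * Q.eval (y.1 + s * y.2) * (derivative p).eval (y.1 + s * y.2) +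
            (m + 1) * (derivative Q).eval (y.1 + s * y.2) * p.eval (y.1 + s * y.2)) +
            ((m : ℝ) * Q.eval (y.1 + s * y.2) * (derivative q).eval (y.1 + s * y.2) +
            (m + 1) * (derivative Q).eval (y.1 + s * y.2) * q.eval (y.1 + s * y.2)) := by
          intro y
          rw [derivative_add, eval_add, eval_add]
          ring
        simp_rw [h1]
        have hint' : ∀ r : ℝ[X], Integrable (fun y : ℝ × ℝ => (m : ℝ) * Q.eval (y.1 + s * y.2) *
            (derivative r).eval (y.1 + s * y.2) +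
            (m + 1) * (derivative Q).eval (y.1 + s * y.2) * r.eval (y.1 + s * y.2)) μ := by
          intro r
          exact integrable_of_cont hYb μ hμ (((continuous_const.mul (cont_eval_lin Q s)).mul
            (cont_eval_lin _ s)).add ((continuous_const.mul (cont_eval_lin _ s)).mul
            (cont_eval_lin _ s)))
        rw [integral_add (hint' p) (hint' q), hp, hq, add_zero]
      | monomial k r =>
        have h1 : ∀ y : ℝ × ℝ, (m : ℝ) * Q.eval (y.1 + s * y.2) *
            (derivative (monomial k r)).eval (y.1 + s * y.2) +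
            (m + 1) * (derivative Q).eval (y.1 + s * y.2) *
              (monomial k r).eval (y.1 + s * y.2) =
            r * (((m : ℝ) + 1) * (derivative Q).eval (y.1 + s * y.2) * (y.1 + s * y.2) ^ k +
              m * Q.eval (y.1 + s * y.2) * (k * (y.1 + s * y.2) ^ (k - 1))) := by
          intro y
          rw [derivative_monomial, eval_monomial, eval_monomial]
          ring
        simp_rw [h1]
        rw [integral_const_mul, hmom s k, mul_zero]
    obtain ⟨c, hc⟩ := R_eq_cP (U s) (hUo s) (hUne s) (hUb s) (P s) (hpos s) (hfr s hs) m hm Q (by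
      intro φ
      have h2 := hint s (fun t => (m : ℝ) * Q.eval t * (derivative φ).eval t +
        (m + 1) * (derivative Q).eval t * φ.eval t) (by fun_prop)
      rw [← h2]
      exact hF φ)
    refine ⟨c, ?_, hc⟩
    rintro rfl
    apply hQ0
    rw [hc, C_0, zero_mul]
  · intro s k
    have h1 := hmom s k
    rw [← h1]
    refine integral_congr_ae (Filter.Eventually.of_forall fun y => ?_)
    simp only [hev, derivative_map]

end AS.J4316

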